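import Mathlib

/-!
MP_4eed4e_an. Finiteness of the transplantation classes of polygonal plane domains.
Definitions used in the statement (the plane is the complex plane).
-/

namespace Pool.Agent.MP4eed4e

open Set

noncomputable section

/-- The mirror image of `z` in the line through `a` and `b` (meaningful for `a ≠ b`). -/
def refl (a b z : ℂ) : ℂ :=
  a + (b - a) / (starRingEnd ℂ) (b - a) * (starRingEnd ℂ) (z - a)

/-- A polygonal tile: a bounded connected open set `T` whose boundary is the union of finitely
many pairwise disjoint simple closed polygons. The sides are the segments from `p s` to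
`p (next s)`; two different sides meet at most in a common endpoint of consecutive sides. -/
structure Tile where
  S : Type
  finS : Fintype S
  decS : DecidableEq S
  next : Equiv.Perm S
  p : S → ℂ
  T : Set ℂ
  p_inj : Function.Injective p
  next_ne : ∀ s, next s ≠ s
  meet : ∀ s t, s ≠ t → ∀ z, z ∈ segment ℝ (p s) (p (next s)) →
    z ∈ segment ℝ (p t) (p (next t)) → (t = next s ∧ z = p t) ∨ (s = next t ∧ z = p s)
  isOpen : IsOpen T
  conn : IsConnected T
  bdd : Bornology.IsBounded T
  reg : interior (closure T) = T
  front : frontier T = ⋃ s, segment ℝ (p s) (p (next s))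

attribute [instance] Tile.finS Tile.decS

/-- `D` is cut into finitely many congruent copies `g x (T)` of the tile. The neighbour of the
copy `x` across the side `s` is `nb s x`; it is the mirror image of `x` in that side, or
`nb s x = x` and the side lies on the boundary of `D`. -/
structure Tiling (τ : Tile) (D : Set ℂ) where
  X : Type
  finX : Fintype X
  decX : DecidableEq X
  g : X → (ℂ ≃ᵢ ℂ)
  nb : τ.S → X → X
  conn : IsConnected D
  reg : interior (closure D) = D
  disj : ∀ x y, x ≠ y → Disjoint (g x '' τ.T) (g y '' τ.T)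
  cover : closure D = ⋃ x, closure (g x '' τ.T)
  inv : ∀ s x, nb s (nb s x) = x
  glue : ∀ s x, nb s x ≠ x → ∀ z, g (nb s x) z = g x (refl (τ.p s) (τ.p (τ.next s)) z)
  bd : ∀ s x, nb s x = x → g x '' segment ℝ (τ.p s) (τ.p (τ.next s)) ⊆ frontier D

attribute [instance] Tiling.finX Tiling.decX

/-- The action of the side `s` on functions on the set of copies, with the sign for the
Dirichlet boundary condition: `e_x` goes to `e_y` if `y ≠ x` is the neighbour of `x` across `s`,
and to `- e_x` if that side of `x` lies on the boundary. -/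
def Tiling.op {τ : Tile} {D : Set ℂ} (A : Tiling τ D) (s : τ.S) (f : A.X → ℝ) : A.X → ℝ :=
  fun x => if A.nb s x = x then - f x else f (A.nb s x)

/-- `D` and `D'` are transplantable: they are cut into copies of one tile, and an invertible
matrix intertwines the two families of signed permutations. -/
def Transplantable (D D' : Set ℂ) : Prop :=
  ∃ (τ : Tile) (A : Tiling τ D) (B : Tiling τ D') (Φ : (A.X → ℝ) ≃ₗ[ℝ] (B.X → ℝ)),
    ∀ s f, Φ (A.op s f) = B.op s (Φ f)

/-- `D` has a corner whose interior angle is not of the form `π / j`. -/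
def SingularCorner (D : Set ℂ) : Prop :=
  ∃ (P u : ℂ) (α r : ℝ), ‖u‖ = 1 ∧ 0 < α ∧ α < 2 * Real.pi ∧ (∀ j : ℕ, j * α ≠ Real.pi) ∧
    0 < r ∧
    (∀ ρ θ : ℝ, 0 < ρ → ρ < r → 0 < θ → θ < α → P + ρ * u * Complex.exp (θ * Complex.I) ∈ D) ∧
    (∀ ρ : ℝ, 0 ≤ ρ → ρ < r → P + ρ * u ∉ D ∧ P + ρ * u * Complex.exp (α * Complex.I) ∉ D)

end

end Pool.Agent.MP4eed4e
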