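import Mathlib
import Pool.Agent.Lib.MP_4eed4e_an.Defs

/-!
Reflections of the plane as isometries (basic definitions).
-/

namespace Pool.Agent.MP4eed4e

open Set ComplexConjugate

noncomputable section

/-- Isometries of the plane. -/
abbrev Iso := ℂ ≃ᵢ ℂ

theorem refl_refl {a b : ℂ} (h : a ≠ b) (z : ℂ) : refl a b (refl a b z) = z := by
  have h1 : b - a ≠ 0 := sub_ne_zero.mpr (Ne.symm h)
  have h2 : conj (b - a) ≠ 0 := (map_ne_zero _).mpr h1
  have h3 : conj b - conj a ≠ 0 := by simpa using h2
  unfold refl
  simp only [map_sub, map_mul, map_add, map_div₀, Complex.conj_conj, add_sub_cancel_left]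
  field_simp
  ring

theorem refl_dist {a b : ℂ} (h : a ≠ b) (z w : ℂ) : dist (refl a b z) (refl a b w) = dist z w := by
  have h1 : b - a ≠ 0 := sub_ne_zero.mpr (Ne.symm h)
  have h2 : ‖b - a‖ ≠ 0 := norm_ne_zero_iff.mpr h1
  rw [dist_eq_norm, dist_eq_norm]
  have : refl a b z - refl a b w = (b - a) / conj (b - a) * conj (z - w) := by
    unfold refl
    simp only [map_sub]
    ring
  rw [this, norm_mul, norm_div, RCLike.norm_conj, RCLike.norm_conj, div_self h2, one_mul]

/-- The reflection in the line through `a` and `b` as an isometry. -/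
def reflI (a b : ℂ) (h : a ≠ b) : Iso where
  toFun := refl a b
  invFun := refl a b
  left_inv := refl_refl h
  right_inv := refl_refl h
  isometry_toFun := Isometry.of_dist_eq (refl_dist h)

theorem reflI_apply {a b : ℂ} (h : a ≠ b) (z : ℂ) : reflI a b h z = refl a b z := rfl

/-- The linear function vanishing on the line through `a` and `b`. -/
def lam (a b z : ℂ) : ℝ := ((z - a) * conj (b - a)).im

/-- Orientation of an isometry: `1` or `-1`. -/
def ori (φ : Iso) : ℝ := ((φ Complex.I - φ 0) * conj (φ 1 - φ 0)).im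

end

end Pool.Agent.MP4eed4e
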