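import Mathlib
import Pool.Agent.Lib.MP_4eed4e_an.Iso

/-!
Internal definitions: words, developing isometries, straight runs through tiles, billiard
segments, singular directions, corner rays.
-/

namespace Pool.Agent.MP4eed4e

open Set MeasureTheory

noncomputable section

variable {τ : Tile} {D : Set ℂ}

theorem Tile.p_ne (τ : Tile) (s : τ.S) : τ.p s ≠ τ.p (τ.next s) :=
  fun h => τ.next_ne s (τ.p_inj h).symm

/-- The side `s` (closed). -/
abbrev Tile.sd (τ : Tile) (s : τ.S) : Set ℂ := segment ℝ (τ.p s) (τ.p (τ.next s))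

/-- The side `s` without its endpoints. -/
abbrev Tile.od (τ : Tile) (s : τ.S) : Set ℂ := openSegment ℝ (τ.p s) (τ.p (τ.next s))

/-- The side before `s`, ending at `p s`. -/
def Tile.prev (τ : Tile) (s : τ.S) : τ.S := τ.next.symm s

/-- The reflection in the side `s`. -/
def Tile.rf (τ : Tile) (s : τ.S) : Iso := reflI _ _ (τ.p_ne s)

/-- The action of a word on the copies, first letter first. -/
def Tiling.act (A : Tiling τ D) : List τ.S → A.X → A.X
  | [], x => x
  | s :: g, x => A.act g (A.nb s x)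

/-- The developing isometry of a word. -/
def Tile.dev (τ : Tile) : List τ.S → Iso
  | [] => 1
  | s :: g => τ.rf s * τ.dev g

/-- Two steps around the vertex `p s`: first across `prev s`, then across `s`. -/
def Tiling.rot (A : Tiling τ D) (s : τ.S) (x : A.X) : A.X := A.nb s (A.nb (τ.prev s) x)

/-- A straight segment from `c` to `d` (developed) crossing the sides of the word `g`. -/
inductive Tile.Run (τ : Tile) : List τ.S → ℂ → ℂ → Prop
  | nil (c d : ℂ) : openSegment ℝ c d ⊆ τ.T → Tile.Run τ [] c d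
  | cons (s : τ.S) (g : List τ.S) (c d e : ℂ) : e ∈ openSegment ℝ c d →
      openSegment ℝ c e ⊆ τ.T → e ∈ τ.od s → Tile.Run τ g e (τ.rf s d) →
      Tile.Run τ (s :: g) c d

/-- `S` is the reflection in a boundary segment of `D` having `e` in its interior. -/
def FoldAt (D : Set ℂ) (e : ℂ) (S : Iso) : Prop :=
  ∃ a b, ∃ h : a ≠ b, e ∈ openSegment ℝ a b ∧ segment ℝ a b ⊆ frontier D ∧ S = reflI a b h

/-- A billiard segment in `D`: it starts at `c`, its developed end is `d`, it has `n` reflections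
from the set `R`, and its actual end is `w⁻¹ d`. -/
inductive Bil (D : Set ℂ) (R : Set Iso) : ℕ → Iso → ℂ → ℂ → Prop
  | nil (c d : ℂ) : openSegment ℝ c d ⊆ D → Bil D R 0 1 c d
  | fold (n : ℕ) (w : Iso) (c d e : ℂ) (S : Iso) : e ∈ openSegment ℝ c d →
      openSegment ℝ c e ⊆ D → FoldAt D e S → S ∈ R → Bil D R n w e (S d) →
      Bil D R (n + 1) (S * w) c d

/-- A path of `k` billiard segments in `D` from `c` to `e` with total folding `w`; `q` is the
first developed target, `q'` is a point giving the final direction seen from `e`. The segments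
avoid `V`, have length at most `R`, the turning points are in `D` and avoid `N`. -/
inductive Pth (D V N : Set ℂ) (R : ℝ) : ℕ → Iso → ℂ → ℂ → ℂ → ℂ → Prop
  | last (n : ℕ) (w : Iso) (c t : ℂ) : Bil D univ n w c t → c ≠ t →
      Disjoint (openSegment ℝ c t) V → dist c t ≤ R →
      Pth D V N R 1 w c t (w⁻¹ t) (w⁻¹ c)
  | turn (k n : ℕ) (w₁ w₂ : Iso) (c t t' e q' : ℂ) : Bil D univ n w₁ c t → c ≠ t →
      Disjoint (openSegment ℝ c t) V → dist c t ≤ R → w₁⁻¹ t ∈ D → w₁⁻¹ t ∉ N →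
      Pth D V N R k w₂ (w₁⁻¹ t) t' e q' →
      Pth D V N R (k + 1) (w₁ * w₂) c t e q'

/-- The same at the level of the tile. -/
inductive Tile.PRun (τ : Tile) (V N : Set ℂ) (R : ℝ) : ℕ → List τ.S → ℂ → ℂ → ℂ → ℂ → Prop
  | last (g : List τ.S) (c t : ℂ) : τ.Run g c t → c ≠ t →
      Disjoint (openSegment ℝ c t) V → dist c t ≤ R →
      Tile.PRun τ V N R 1 g c t ((τ.dev g)⁻¹ t) ((τ.dev g)⁻¹ c)
  | turn (k : ℕ) (g₁ g₂ : List τ.S) (c t t' e q' : ℂ) : τ.Run g₁ c t → c ≠ t →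
      Disjoint (openSegment ℝ c t) V → dist c t ≤ R → (τ.dev g₁)⁻¹ t ∈ τ.T →
      (τ.dev g₁)⁻¹ t ∉ N → Tile.PRun τ V N R k g₂ ((τ.dev g₁)⁻¹ t) t' e q' →
      Tile.PRun τ V N R (k + 1) (g₁ ++ g₂) c t e q'

/-- `D` is, near `P` and as seen from inside, the sector of angle `α` counterclockwise from `u`. -/
def Sec (D : Set ℂ) (P u : ℂ) (α r : ℝ) : Prop :=
  ‖u‖ = 1 ∧ 0 < α ∧ α < 2 * Real.pi ∧ 0 < r ∧
    (∀ ρ θ : ℝ, 0 < ρ → ρ < r → 0 < θ → θ < α → P + ρ * u * Complex.exp (θ * Complex.I) ∈ D) ∧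
    (∀ ρ : ℝ, 0 ≤ ρ → ρ < r → P + ρ * u ∉ D ∧ P + ρ * u * Complex.exp (α * Complex.I) ∉ D)

/-- `P` is a corner of `D` of angle not of the form `π / j`, and the direction from `P` to `q`
lies inside it. -/
def Sg (D : Set ℂ) (P q : ℂ) : Prop :=
  ∃ (u : ℂ) (α r ρ₀ θ₀ : ℝ), Sec D P u α r ∧ (∀ j : ℕ, j * α ≠ Real.pi) ∧ 0 < ρ₀ ∧ 0 < θ₀ ∧
    θ₀ < α ∧ q = P + ρ₀ * u * Complex.exp (θ₀ * Complex.I)

/-- The corner rays of `D`: the corner (of angle different from `π`) and the direction of one of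
its two bounding sides. -/
def CR (D : Set ℂ) : Set (ℂ × ℂ) :=
  {z | ∃ (α r : ℝ), α ≠ Real.pi ∧ (Sec D z.1 z.2 α r ∨
    ∃ u, Sec D z.1 u α r ∧ z.2 = u * Complex.exp (α * Complex.I))}

/-- The segment from `c` towards `q` starts inside `U`. -/
def Germ (U : Set ℂ) (c q : ℂ) : Prop :=
  ∃ z ∈ openSegment ℝ c q, openSegment ℝ c z ⊆ U

/-- The rational points of the sides of the tile (in particular the vertices). -/
def Tile.Spec (τ : Tile) : Set ℂ :=
  {z | ∃ s, ∃ q : ℚ, 0 ≤ q ∧ q ≤ 1 ∧ z = τ.p s + (q : ℂ) * (τ.p (τ.next s) - τ.p s)}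

/-- All displacements of generic singular paths of `D` lie in the sets `F K R`. -/
def DispProp (F : ℕ → ℝ → Set ℝ) (D : Set ℂ) : Prop :=
  ∀ (K : ℕ) (R : ℝ), ∃ V N : Set ℂ, V.Countable ∧ volume N = 0 ∧
    ∀ (k : ℕ) (w : Iso) (c q e q' : ℂ), k ≤ K → Pth D V N R k w c q e q' →
      Sg D c q → Sg D e q' → dist c (w e) ∈ F K R

end

end Pool.Agent.MP4eed4e
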