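import Mathlib

/-!
Abstract fans: finitely many sectors of one angle glued around a point by two involutions.
-/

namespace Pool.Agent.MP4eed4e

open Set Complex

/-- A fan. The copy `x` occupies the angles between `0` and `β` of the polar coordinates `Z x`;
`a` is the gluing across the ray of angle `0`, `b` the gluing across the ray of angle `β`;
fixed points of `a` and `b` mean that the ray lies outside of `D`. -/
structure Fan (X : Type) where
  a : X → X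
  b : X → X
  β : ℝ
  r : ℝ
  Z : X → ℝ → ℝ → ℂ
  Tl : X → Set ℂ
  D : Set ℂ
  haa : ∀ x, a (a x) = x
  hbb : ∀ x, b (b x) = x
  β_pos : 0 < β
  β_lt : β < 2 * Real.pi
  r_pos : 0 < r
  polar : ∀ x, ∃ (P U : ℂ) (η : ℝ), ‖U‖ = 1 ∧ (η = 1 ∨ η = -1) ∧
    ∀ ρ θ : ℝ, Z x ρ θ = P + ρ * U * exp (η * θ * I)
  za : ∀ x, a x ≠ x → ∀ ρ θ, Z (a x) ρ θ = Z x ρ (-θ)
  zb : ∀ x, b x ≠ x → ∀ ρ θ, Z (b x) ρ θ = Z x ρ (2 * β - θ)
  tl : ∀ x ρ θ, 0 < ρ → ρ < r → 0 < θ → θ < β → Z x ρ θ ∈ Tl x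
  disj : ∀ x y, x ≠ y → Disjoint (Tl x) (Tl y)
  sub : ∀ x, Tl x ⊆ D
  da : ∀ x, a x ≠ x → ∀ ρ, 0 < ρ → ρ < r → Z x ρ 0 ∈ D
  db : ∀ x, b x ≠ x → ∀ ρ, 0 < ρ → ρ < r → Z x ρ β ∈ D
  na : ∀ x, a x = x → ∀ ρ, 0 ≤ ρ → ρ < r → Z x ρ 0 ∉ D
  nb : ∀ x, b x = x → ∀ ρ, 0 ≤ ρ → ρ < r → Z x ρ β ∉ D
  saa : ∀ x y ρ, a x = x → a y = y → 0 < ρ → ρ < r → Z x ρ 0 = Z y ρ 0 → x = y
  sbb : ∀ x y ρ, b x = x → b y = y → 0 < ρ → ρ < r → Z x ρ β = Z y ρ β → x = y
  sab : ∀ x y ρ, a x = x → b y = y → 0 < ρ → ρ < r → Z x ρ 0 ≠ Z y ρ β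
  reg : ∀ P r', 0 < r' → (∀ z ∈ Metric.ball P r', z ≠ P → z ∈ D) → P ∈ D

namespace Fan

variable {X : Type}

/-- The fan seen in the opposite orientation. -/
def op (F : Fan X) : Fan X where
  a := F.b
  b := F.a
  β := F.β
  r := F.r
  Z := fun x ρ θ => F.Z x ρ (F.β - θ)
  Tl := F.Tl
  D := F.D
  haa := F.hbb
  hbb := F.haa
  β_pos := F.β_pos
  β_lt := F.β_lt
  r_pos := F.r_pos
  polar := by
    intro x
    obtain ⟨P, U, η, hU, hη, h⟩ := F.polar x
    refine ⟨P, U * exp (η * F.β * I), -η, ?_, ?_, ?_⟩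
    · rw [norm_mul, hU, one_mul]
      have : (η * F.β * I : ℂ) = ((η * F.β : ℝ) : ℂ) * I := by push_cast; ring
      rw [this, Complex.norm_exp_ofReal_mul_I]
    · rcases hη with h | h
      · right; rw [h]
      · left; rw [h]; norm_num
    · intro ρ θ
      rw [h]
      have : (η * ((F.β - θ : ℝ) : ℂ) * I : ℂ) =
          η * F.β * I + ((-η : ℝ) : ℂ) * θ * I := by push_cast; ring
      rw [this, exp_add]
      ring
  za := by
    intro x hx ρ θ
    rw [F.zb x hx]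
    congr 1
    ring
  zb := by
    intro x hx ρ θ
    rw [F.za x hx]
    congr 1
    ring
  tl := by
    intro x ρ θ h0 h1 h2 h3
    exact F.tl x ρ _ h0 h1 (by linarith) (by linarith)
  disj := F.disj
  sub := F.sub
  da := by
    intro x hx ρ h0 h1
    simpa using F.db x hx ρ h0 h1
  db := by
    intro x hx ρ h0 h1
    simpa using F.da x hx ρ h0 h1
  na := by
    intro x hx ρ h0 h1
    simpa using F.nb x hx ρ h0 h1
  nb := by
    intro x hx ρ h0 h1
    simpa using F.na x hx ρ h0 h1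
  saa := by
    intro x y ρ hx hy h0 h1 h
    exact F.sbb x y ρ hx hy h0 h1 (by simpa using h)
  sbb := by
    intro x y ρ hx hy h0 h1 h
    exact F.saa x y ρ hx hy h0 h1 (by simpa using h)
  sab := by
    intro x y ρ hx hy h0 h1 h
    exact F.sab y x ρ hy hx h0 h1 (by simpa using h.symm)
  reg := F.reg

/-- The walk from `x` in the direction of growing angles. -/
def up (F : Fan X) (x : X) : ℕ → X
  | 0 => x
  | n + 1 => if Even n then F.b (up F x n) else F.a (up F x n)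

end Fan

end Pool.Agent.MP4eed4e
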