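import Mathlib
import Pool.Agent.Lib.MP_4eed4e_an.Iso

/-!
Elementary facts on isometries and reflections of the plane.
-/

namespace Pool.Agent.MP4eed4e

open Set ComplexConjugate Complex

private theorem IsoA_conj_mul {a : ℂ} (h : ‖a‖ = 1) : a * conj a = 1 := by
  rw [Complex.mul_conj, Complex.normSq_eq_norm_sq, h]
  norm_num

private theorem IsoA_conj_exp (t : ℝ) : conj (exp (t * I)) = exp (-(t * I)) := by
  rw [← Complex.exp_conj, map_mul, Complex.conj_ofReal, Complex.conj_I]
  congr 1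
  ring

theorem iso_form (φ : Iso) : ∃ a b : ℂ, ‖a‖ = 1 ∧
    ((∀ z, φ z = a * z + b) ∨ (∀ z, φ z = a * conj z + b)) := by
  set Φ := φ.toRealAffineIsometryEquiv with hΦ
  have hΦφ : ∀ z, Φ z = φ z := fun z => by
    rw [hΦ]
    rfl
  have h1 : ∀ z, φ z = Φ.linearIsometryEquiv z + φ 0 := by
    intro z
    have := Φ.map_vadd 0 z
    simp only [vadd_eq_add, add_zero] at this
    rw [hΦφ, hΦφ] at this
    exact this
  obtain ⟨a, h | h⟩ := linear_isometry_complex Φ.linearIsometryEquiv
  · refine ⟨a, φ 0, by simp, Or.inl fun z => ?_⟩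
    rw [h1 z, h, rotation_apply]
  · refine ⟨a, φ 0, by simp, Or.inr fun z => ?_⟩
    rw [h1 z, h]
    simp [rotation_apply]

theorem iso_polar (φ : Iso) (v u : ℂ) (ε : ℝ) (hu : ‖u‖ = 1) (hε : ε = 1 ∨ ε = -1) :
    ∃ (U : ℂ) (η : ℝ), ‖U‖ = 1 ∧ (η = 1 ∨ η = -1) ∧
      ∀ ρ θ : ℝ, φ (v + ρ * u * exp (ε * θ * I)) = φ v + ρ * U * exp (η * θ * I) := by
  obtain ⟨a, b, ha, h | h⟩ := iso_form φ
  · refine ⟨a * u, ε, by rw [norm_mul, ha, hu, one_mul], hε, fun ρ θ => ?_⟩
    rw [h, h]
    ring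
  · refine ⟨a * conj u, -ε, by rw [norm_mul, RCLike.norm_conj, ha, hu, one_mul], ?_,
      fun ρ θ => ?_⟩
    · rcases hε with h' | h'
      · exact Or.inr (by rw [h'])
      · exact Or.inl (by rw [h']; norm_num)
    · rw [h, h]
      have h2 : conj (exp (ε * θ * I)) = exp (((-ε : ℝ) : ℂ) * θ * I) := by
        have := IsoA_conj_exp (ε * θ)
        push_cast at this ⊢
        rw [this]
        congr 1
        ring
      rw [map_add, map_mul, map_mul, Complex.conj_ofReal, h2]
      ring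

private theorem IsoA_affine (φ : Iso) (s t : ℝ) (hst : s + t = 1) (a b : ℂ) :
    φ (s • a + t • b) = s • φ a + t • φ b := by
  have hs : s = 1 - t := by linarith
  obtain ⟨c, d, _, h | h⟩ := iso_form φ
  · rw [h, h, h, hs]
    simp only [Complex.real_smul]
    push_cast
    ring
  · rw [h, h, h, hs]
    simp only [Complex.real_smul, map_add, map_mul, Complex.conj_ofReal]
    push_cast
    ring

theorem iso_segment (φ : Iso) (a b : ℂ) : φ '' segment ℝ a b = segment ℝ (φ a) (φ b) := by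
  ext z
  constructor
  · rintro ⟨w, ⟨s, t, hs, ht, hst, rfl⟩, rfl⟩
    exact ⟨s, t, hs, ht, hst, (IsoA_affine φ s t hst a b).symm⟩
  · rintro ⟨s, t, hs, ht, hst, rfl⟩
    exact ⟨s • a + t • b, ⟨s, t, hs, ht, hst, rfl⟩, IsoA_affine φ s t hst a b⟩

theorem iso_openSegment (φ : Iso) (a b : ℂ) :
    φ '' openSegment ℝ a b = openSegment ℝ (φ a) (φ b) := by
  ext z
  constructor
  · rintro ⟨w, ⟨s, t, hs, ht, hst, rfl⟩, rfl⟩
    exact ⟨s, t, hs, ht, hst, (IsoA_affine φ s t hst a b).symm⟩
  · rintro ⟨s, t, hs, ht, hst, rfl⟩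
    exact ⟨s • a + t • b, ⟨s, t, hs, ht, hst, rfl⟩, IsoA_affine φ s t hst a b⟩

theorem reflI_mul_self {a b : ℂ} (h : a ≠ b) : reflI a b h * reflI a b h = 1 := by
  ext z
  exact refl_refl h z

theorem reflI_inv {a b : ℂ} (h : a ≠ b) : (reflI a b h)⁻¹ = reflI a b h :=
  inv_eq_of_mul_eq_one_left (reflI_mul_self h)

private theorem IsoA_conj_ne {a b : ℂ} (h : a ≠ b) : conj (b - a) ≠ 0 :=
  (map_ne_zero _).mpr (sub_ne_zero.mpr (Ne.symm h))

private theorem IsoA_sub_ne {a b : ℂ} (h : a ≠ b) : b - a ≠ 0 := sub_ne_zero.mpr (Ne.symm h)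

theorem lam_refl {a b : ℂ} (h : a ≠ b) (z : ℂ) : lam a b (refl a b z) = - lam a b z := by
  have h1 := IsoA_conj_ne h
  have e : (refl a b z - a) * conj (b - a) = conj ((z - a) * conj (b - a)) := by
    unfold refl
    rw [add_sub_cancel_left, map_mul, Complex.conj_conj]
    field_simp
  unfold lam
  rw [e, Complex.conj_im]

theorem refl_eq_self_iff {a b : ℂ} (h : a ≠ b) (z : ℂ) : refl a b z = z ↔ lam a b z = 0 := by
  have h1 := IsoA_conj_ne h
  have e : (refl a b z - a) * conj (b - a) = conj ((z - a) * conj (b - a)) := by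
    unfold refl
    rw [add_sub_cancel_left, map_mul, Complex.conj_conj]
    field_simp
  constructor
  · intro hz
    rw [hz] at e
    exact Complex.conj_eq_iff_im.1 e.symm
  · intro hz
    have h2 := Complex.conj_eq_iff_im.2 hz
    rw [h2] at e
    have := mul_right_cancel₀ h1 e
    exact sub_left_inj.1 this

/-- The points with `lam = 0` are the points of the line. -/
theorem lam_eq_zero_iff {a b : ℂ} (h : a ≠ b) (z : ℂ) :
    lam a b z = 0 ↔ ∃ t : ℝ, z = a + t * (b - a) := by
  have h1 := IsoA_sub_ne h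
  have hm : (b - a) * conj (b - a) = ((Complex.normSq (b - a) : ℝ) : ℂ) := Complex.mul_conj _
  have hn : ((Complex.normSq (b - a) : ℝ) : ℂ) ≠ 0 := by
    rw [← hm]
    exact mul_ne_zero h1 (IsoA_conj_ne h)
  constructor
  · intro hz
    refine ⟨((z - a) * conj (b - a)).re / Complex.normSq (b - a), ?_⟩
    have h2 : (((z - a) * conj (b - a)).re : ℂ) = (z - a) * conj (b - a) := by
      apply Complex.ext
      · simp
      · rw [Complex.ofReal_im]
        exact hz.symm
    push_cast
    rw [h2]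
    field_simp
    linear_combination (z - a) * (-hm)
  · rintro ⟨t, rfl⟩
    unfold lam
    rw [add_sub_cancel_left, mul_assoc, hm]
    rw [← Complex.ofReal_mul, Complex.ofReal_im]

theorem lam_of_mem_segment {a b z : ℂ} (hz : z ∈ segment ℝ a b) : lam a b z = 0 := by
  obtain ⟨s, t, _, _, hst, rfl⟩ := hz
  have hm : (b - a) * conj (b - a) = ((Complex.normSq (b - a) : ℝ) : ℂ) := Complex.mul_conj _
  have hs : s = 1 - t := by linarith
  have e : (s • a + t • b - a) * conj (b - a) = ((t * Complex.normSq (b - a) : ℝ) : ℂ) := by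
    push_cast
    rw [← hm, hs]
    simp only [Complex.real_smul]
    push_cast
    ring
  unfold lam
  rw [e, Complex.ofReal_im]

theorem reflI_congr {a b a' b' : ℂ} (h : a ≠ b) (h' : a' ≠ b') (ha : lam a b a' = 0)
    (hb : lam a b b' = 0) : reflI a' b' h' = reflI a b h := by
  obtain ⟨t, rfl⟩ := (lam_eq_zero_iff h _).1 ha
  obtain ⟨t', rfl⟩ := (lam_eq_zero_iff h _).1 hb
  have h1 := IsoA_conj_ne h
  have h2 := IsoA_sub_ne h
  have htt : ((t' : ℂ) - t) ≠ 0 := by
    intro hc
    apply h'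
    have : (t' : ℂ) = t := by linear_combination hc
    rw [this]
  ext z
  show refl _ _ z = refl _ _ z
  unfold refl
  have e1 : a + t' * (b - a) - (a + t * (b - a)) = ((t' : ℂ) - t) * (b - a) := by ring
  have e2 : conj (((t' : ℂ) - t) * (b - a)) = ((t' : ℂ) - t) * conj (b - a) := by
    rw [map_mul, map_sub, Complex.conj_ofReal, Complex.conj_ofReal]
  have e3 : conj (z - (a + t * (b - a))) = conj (z - a) - t * conj (b - a) := by
    simp only [map_sub, map_add, map_mul, Complex.conj_ofReal]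
    ring
  rw [e1, e2, e3]
  field_simp
  ring

private theorem IsoA_refl_map (φ : Iso) {a b : ℂ} (h : a ≠ b) (w : ℂ) :
    φ (refl a b w) = refl (φ a) (φ b) (φ w) := by
  have h1 := IsoA_conj_ne h
  have h2 := IsoA_sub_ne h
  obtain ⟨c, d, hc, hf | hf⟩ := iso_form φ
  · have hcc := IsoA_conj_mul hc
    have hc0 : c ≠ 0 := left_ne_zero_of_mul_eq_one hcc
    have hc1 : conj c ≠ 0 := right_ne_zero_of_mul_eq_one hcc
    unfold refl
    rw [hf, hf a, hf b, hf w]
    have e1 : c * b + d - (c * a + d) = c * (b - a) := by ring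
    have e2 : c * w + d - (c * a + d) = c * (w - a) := by ring
    rw [e1, e2, map_mul, map_mul]
    field_simp
    ring
  · have hcc := IsoA_conj_mul hc
    have hc0 : c ≠ 0 := left_ne_zero_of_mul_eq_one hcc
    have hc1 : conj c ≠ 0 := right_ne_zero_of_mul_eq_one hcc
    unfold refl
    rw [hf, hf a, hf b, hf w]
    have e1 : c * conj b + d - (c * conj a + d) = c * conj (b - a) := by
      rw [map_sub]
      ring
    have e2 : c * conj w + d - (c * conj a + d) = c * conj (w - a) := by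
      rw [map_sub]
      ring
    rw [e1, e2, map_mul, map_mul, map_add, map_mul, map_div₀, Complex.conj_conj,
      Complex.conj_conj]
    field_simp
    ring

theorem reflI_conj (φ : Iso) {a b : ℂ} (h : a ≠ b) :
    φ * reflI a b h * φ⁻¹ = reflI (φ a) (φ b) (φ.injective.ne h) := by
  ext z
  obtain ⟨w, rfl⟩ := φ.surjective z
  show φ (refl a b (φ.symm (φ w))) = refl (φ a) (φ b) (φ w)
  rw [φ.symm_apply_apply]
  exact IsoA_refl_map φ h w

private theorem IsoA_ori_one {φ : Iso} {a b : ℂ} (ha : ‖a‖ = 1) (h : ∀ z, φ z = a * z + b) :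
    ori φ = 1 := by
  have hcc := IsoA_conj_mul ha
  have e : (φ I - φ 0) * conj (φ 1 - φ 0) = I := by
    rw [h, h, h]
    have e1 : a * 1 + b - (a * 0 + b) = a := by ring
    rw [e1]
    linear_combination I * hcc
  unfold ori
  rw [e, Complex.I_im]

private theorem IsoA_ori_neg {φ : Iso} {a b : ℂ} (ha : ‖a‖ = 1)
    (h : ∀ z, φ z = a * conj z + b) : ori φ = -1 := by
  have hcc := IsoA_conj_mul ha
  have e : (φ I - φ 0) * conj (φ 1 - φ 0) = -I := by
    rw [h, h, h]
    have e1 : a * conj 1 + b - (a * conj 0 + b) = a := by simp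
    rw [e1, Complex.conj_I, map_zero]
    linear_combination (-I) * hcc
  unfold ori
  rw [e, Complex.neg_im, Complex.I_im]

theorem ori_eq (φ : Iso) : ori φ = 1 ∨ ori φ = -1 := by
  obtain ⟨a, b, ha, h | h⟩ := iso_form φ
  · exact Or.inl (IsoA_ori_one ha h)
  · exact Or.inr (IsoA_ori_neg ha h)

theorem ori_of_refl {a b : ℂ} (h : a ≠ b) (φ ψ : Iso) (hψ : ∀ z, ψ z = φ (refl a b z)) :
    ori ψ = - ori φ := by
  have h1 := IsoA_conj_ne h
  have h2 := IsoA_sub_ne h
  have hm : ‖(b - a) / conj (b - a)‖ = 1 := by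
    rw [norm_div, RCLike.norm_conj, div_self (norm_ne_zero_iff.2 h2)]
  obtain ⟨c, d, hc, hf | hf⟩ := iso_form φ
  · rw [IsoA_ori_one hc hf]
    apply IsoA_ori_neg (a := c * ((b - a) / conj (b - a)))
      (b := c * (a - (b - a) / conj (b - a) * conj a) + d)
    · rw [norm_mul, hc, hm, one_mul]
    · intro z
      rw [hψ, hf]
      unfold refl
      rw [map_sub conj z a]
      ring
  · rw [IsoA_ori_neg hc hf]
    rw [neg_neg]
    apply IsoA_ori_one (a := c * conj ((b - a) / conj (b - a)))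
      (b := c * (conj a - conj ((b - a) / conj (b - a)) * a) + d)
    · rw [norm_mul, RCLike.norm_conj, hc, hm, one_mul]
    · intro z
      rw [hψ, hf]
      unfold refl
      rw [map_add, map_mul, Complex.conj_conj]
      ring

/-- Reflection in the line through `v` in the direction of angle `β`. -/
theorem refl_polar (v u : ℂ) (ε β l ρ θ : ℝ) (hu : ‖u‖ = 1) (hε : ε = 1 ∨ ε = -1)
    (hl : 0 < l) :
    refl v (v + l * u * exp (ε * β * I)) (v + ρ * u * exp (ε * θ * I)) =
      v + ρ * u * exp (ε * ((2 * β - θ : ℝ) : ℂ) * I) := by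
  have hcc := IsoA_conj_mul hu
  have hu0 : u ≠ 0 := left_ne_zero_of_mul_eq_one hcc
  have hcu : conj u = u⁻¹ := by
    rw [eq_comm]
    exact inv_eq_of_mul_eq_one_right hcc
  have hl0 : (l : ℂ) ≠ 0 := by exact_mod_cast hl.ne'
  have c1 : conj (exp (ε * β * I)) = (exp (ε * β * I))⁻¹ := by
    have := IsoA_conj_exp (ε * β)
    push_cast at this
    rw [this, Complex.exp_neg]
  have c2 : conj (exp (ε * θ * I)) = (exp (ε * θ * I))⁻¹ := by
    have := IsoA_conj_exp (ε * θ)
    push_cast at this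
    rw [this, Complex.exp_neg]
  have e3 : exp (ε * ((2 * β - θ : ℝ) : ℂ) * I) =
      exp (ε * β * I) * exp (ε * β * I) * (exp (ε * θ * I))⁻¹ := by
    rw [← Complex.exp_neg, ← Complex.exp_add, ← Complex.exp_add]
    congr 1
    push_cast
    ring
  unfold refl
  rw [add_sub_cancel_left, add_sub_cancel_left, e3]
  simp only [map_mul, Complex.conj_ofReal, c1, c2, hcu]
  have hE := Complex.exp_ne_zero (ε * β * I)
  have hF := Complex.exp_ne_zero (ε * θ * I)
  field_simp

/-- Polar coordinates: equality of two points at the same positive distance. -/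
theorem polar_inj {P U : ℂ} {η ρ θ θ' : ℝ} (hU : ‖U‖ = 1) (hη : η = 1 ∨ η = -1) (hρ : 0 < ρ)
    (h : P + ρ * U * exp (η * θ * I) = P + ρ * U * exp (η * θ' * I)) :
    ∃ k : ℤ, θ - θ' = 2 * Real.pi * k := by
  have hU0 : U ≠ 0 := fun hc => by
    rw [hc, norm_zero] at hU
    exact zero_ne_one hU
  have hρ0 : (ρ : ℂ) ≠ 0 := by exact_mod_cast hρ.ne'
  have h1 : exp (η * θ * I) = exp (η * θ' * I) :=
    mul_left_cancel₀ (mul_ne_zero hρ0 hU0) (add_left_cancel h)
  rw [Complex.exp_eq_exp_iff_exists_int] at h1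
  obtain ⟨n, hn⟩ := h1
  have h2 : η * θ = η * θ' + n * (2 * Real.pi) := by
    have h3 : ((η : ℂ) * θ - (η * θ' + n * (2 * Real.pi))) * I = 0 := by
      linear_combination hn
    rcases mul_eq_zero.1 h3 with h4 | h4
    · have h5 : ((η * θ - (η * θ' + n * (2 * Real.pi)) : ℝ) : ℂ) = 0 := by
        push_cast
        exact h4
      have := Complex.ofReal_eq_zero.1 h5
      linarith
    · exact absurd h4 I_ne_zero
  rcases hη with hη | hη
  · refine ⟨n, ?_⟩
    rw [hη] at h2
    linarith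
  · refine ⟨-n, ?_⟩
    rw [hη] at h2
    push_cast
    linarith

theorem polar_period (P U : ℂ) (η ρ θ : ℝ) (k : ℤ) (hη : η = 1 ∨ η = -1) :
    P + ρ * U * exp (η * ((θ + 2 * Real.pi * k : ℝ) : ℂ) * I) =
      P + ρ * U * exp (η * θ * I) := by
  have key : exp (η * ((θ + 2 * Real.pi * k : ℝ) : ℂ) * I) = exp (η * θ * I) := by
    rw [Complex.exp_eq_exp_iff_exists_int]
    rcases hη with hη | hη
    · refine ⟨k, ?_⟩
      rw [hη]
      push_cast
      ring
    · refine ⟨-k, ?_⟩
      rw [hη]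
      push_cast
      ring
  rw [key]

end Pool.Agent.MP4eed4e
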