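import Mathlib
import Pool.Agent.Lib.MP_4eed4e_an.Base

/-!
The tile near a vertex is a sector.
-/

namespace Pool.Agent.MP4eed4e

open Set Complex

private theorem Sector_polar (w : ℂ) : ∃ θ : ℝ, 0 ≤ θ ∧ θ < 2 * Real.pi ∧
    w = (‖w‖ : ℂ) * exp (θ * I) := by
  have h := Complex.norm_mul_exp_arg_mul_I w
  by_cases h0 : 0 ≤ arg w
  · exact ⟨arg w, h0, by linarith [Complex.arg_le_pi w, Real.pi_pos], h.symm⟩
  · push Not at h0
    refine ⟨arg w + 2 * Real.pi, by linarith [Complex.neg_pi_lt_arg w, Real.pi_pos],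
      by linarith, ?_⟩
    have : exp (((arg w + 2 * Real.pi : ℝ) : ℂ) * I) = exp ((arg w : ℂ) * I) := by
      push_cast
      rw [add_mul, Complex.exp_add, Complex.exp_two_pi_mul_I, mul_one]
    rw [this, h]

private theorem Sector_exp_inj {θ φ : ℝ} (h : exp (θ * I) = exp (φ * I))
    (h1 : |θ - φ| < 2 * Real.pi) : θ = φ := by
  rw [Complex.exp_eq_exp_iff_exists_int] at h
  obtain ⟨n, hn⟩ := h
  have h2 : θ = φ + n * (2 * Real.pi) := by
    have h3 : ((θ : ℂ) - (φ + n * (2 * Real.pi))) * I = 0 := by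
      linear_combination hn
    rcases mul_eq_zero.1 h3 with h4 | h4
    · have h5 : ((θ - (φ + n * (2 * Real.pi)) : ℝ) : ℂ) = 0 := by
        push_cast
        exact h4
      have := Complex.ofReal_eq_zero.1 h5
      linarith
    · exact absurd h4 I_ne_zero
  have h3 : |(n : ℝ)| < 1 := by
    have h4 : θ - φ = n * (2 * Real.pi) := by linarith
    rw [h4, abs_mul, abs_of_pos (by positivity : (0 : ℝ) < 2 * Real.pi)] at h1
    have := Real.pi_pos
    by_contra hc
    push Not at hc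
    nlinarith
  have h4 : n = 0 := by
    have : |n| < 1 := by exact_mod_cast h3
    exact Int.abs_lt_one_iff.1 this
  rw [h2, h4]
  simp

private theorem Sector_core {T : Set ℂ} (hO : IsOpen T) (hreg : interior (closure T) = T)
    {v u : ℂ} {φ r : ℝ} (hu : ‖u‖ = 1) (hr : 0 < r)
    (hv : v ∈ frontier T)
    (h1 : ∀ ρ : ℝ, 0 ≤ ρ → ρ < r → v + ρ * u ∈ frontier T)
    (h2 : ∀ ρ : ℝ, 0 ≤ ρ → ρ < r → v + ρ * u * exp (φ * I) ∈ frontier T)
    (h3 : ∀ ρ θ : ℝ, 0 < ρ → ρ < r → 0 < θ → θ < 2 * Real.pi → θ ≠ φ →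
      v + ρ * u * exp (θ * I) ∉ frontier T) (hφ : 0 < φ) (hφ' : φ < 2 * Real.pi) :
    ((∀ ρ θ : ℝ, 0 < ρ → ρ < r → 0 < θ → θ < φ → v + ρ * u * exp (θ * I) ∈ T) ∧
      (∀ ρ θ : ℝ, 0 < ρ → ρ < r → φ < θ → θ < 2 * Real.pi → v + ρ * u * exp (θ * I) ∉ T)) ∨
    ((∀ ρ θ : ℝ, 0 < ρ → ρ < r → 0 < θ → θ < φ → v + ρ * u * exp (θ * I) ∉ T) ∧
      (∀ ρ θ : ℝ, 0 < ρ → ρ < r → φ < θ → θ < 2 * Real.pi → v + ρ * u * exp (θ * I) ∈ T)) := by
  have hu0 : u ≠ 0 := fun h => by
    rw [h, norm_zero] at hu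
    exact zero_ne_one hu
  have hdT : ∀ z, z ∈ T → z ∉ frontier T := fun z hz hz' => by
    have := hO.inter_frontier_eq
    exact (this ▸ (⟨hz, hz'⟩ : z ∈ T ∩ frontier T) : z ∈ (∅ : Set ℂ))
  have hcont : Continuous (fun q : ℝ × ℝ => v + q.1 * u * exp (q.2 * I)) := by fun_prop
  have hsplit : ∀ z, z ∉ frontier T → z ∈ T ∪ (closure T)ᶜ := by
    intro z hz
    by_cases hz' : z ∈ closure T
    · left
      by_contra hzT
      exact hz ⟨hz', by rwa [hO.interior_eq]⟩
    · exact Or.inr hz'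
  have hopen2 : IsOpen (closure T)ᶜ := isClosed_closure.isOpen_compl
  have hdisj : Disjoint T (closure T)ᶜ :=
    disjoint_compl_right.mono_left subset_closure
  have hpre : ∀ a b : ℝ, 0 ≤ a → b ≤ 2 * Real.pi → (∀ θ, a < θ → θ < b → θ ≠ φ) →
      ((∀ ρ θ : ℝ, 0 < ρ → ρ < r → a < θ → θ < b → v + ρ * u * exp (θ * I) ∈ T) ∨
       (∀ ρ θ : ℝ, 0 < ρ → ρ < r → a < θ → θ < b → v + ρ * u * exp (θ * I) ∈ (closure T)ᶜ)) := by
    intro a b ha hb hab
    have hS : IsPreconnected ((fun q : ℝ × ℝ => v + q.1 * u * exp (q.2 * I)) ''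
        (Ioo 0 r ×ˢ Ioo a b)) :=
      ((isPreconnected_Ioo).prod isPreconnected_Ioo).image _ hcont.continuousOn
    have hsub : ((fun q : ℝ × ℝ => v + q.1 * u * exp (q.2 * I)) ''
        (Ioo 0 r ×ˢ Ioo a b)) ⊆ T ∪ (closure T)ᶜ := by
      rintro z ⟨⟨ρ, θ⟩, ⟨⟨hρ1, hρ2⟩, hθ1, hθ2⟩, rfl⟩
      exact hsplit _ (h3 ρ θ hρ1 hρ2 (lt_of_le_of_lt ha hθ1) (lt_of_lt_of_le hθ2 hb)
        (hab θ hθ1 hθ2))
    rcases IsPreconnected.subset_or_subset hO hopen2 hdisj hsub hS with h | h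
    · left
      intro ρ θ hρ1 hρ2 hθ1 hθ2
      exact h ⟨(ρ, θ), ⟨⟨hρ1, hρ2⟩, hθ1, hθ2⟩, rfl⟩
    · right
      intro ρ θ hρ1 hρ2 hθ1 hθ2
      exact h ⟨(ρ, θ), ⟨⟨hρ1, hρ2⟩, hθ1, hθ2⟩, rfl⟩
  have hball : ∀ z ∈ Metric.ball v r, z = v ∨ ∃ ρ θ : ℝ, 0 < ρ ∧ ρ < r ∧ 0 ≤ θ ∧
      θ < 2 * Real.pi ∧ z = v + ρ * u * exp (θ * I) := by
    intro z hz
    by_cases hzv : z = v
    · exact Or.inl hzv
    · right
      obtain ⟨θ, hθ0, hθ1, hw⟩ := Sector_polar ((z - v) / u)
      have hn : ‖(z - v) / u‖ = ‖z - v‖ := by rw [norm_div, hu, div_one]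
      rw [hn] at hw
      refine ⟨‖z - v‖, θ, norm_pos_iff.2 (sub_ne_zero.2 hzv), ?_, hθ0, hθ1, ?_⟩
      · rwa [Metric.mem_ball, dist_eq_norm] at hz
      · have h4 : z - v = (‖z - v‖ : ℂ) * exp (θ * I) * u := by
          rw [← hw]
          field_simp
        linear_combination h4
  rcases hpre 0 φ le_rfl hφ'.le (fun θ _ h => h.ne) with hA | hA <;>
  rcases hpre φ (2 * Real.pi) hφ.le le_rfl (fun θ h _ => h.ne') with hB | hB
  · exfalso
    have hsub : Metric.ball v r ⊆ closure T := by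
      intro z hz
      rcases hball z hz with rfl | ⟨ρ, θ, hρ0, hρr, hθ0, hθ1, rfl⟩
      · exact hv.1
      · rcases hθ0.eq_or_lt with h | h
        · rw [← h]
          simpa using (h1 ρ hρ0.le hρr).1
        · rcases lt_trichotomy θ φ with h' | h' | h'
          · exact subset_closure (hA ρ θ hρ0 hρr h h')
          · rw [h']
            exact (h2 ρ hρ0.le hρr).1
          · exact subset_closure (hB ρ θ hρ0 hρr h' hθ1)
    have : v ∈ interior (closure T) :=
      mem_interior.2 ⟨_, hsub, Metric.isOpen_ball, Metric.mem_ball_self hr⟩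
    rw [hreg] at this
    exact hdT v this hv
  · exact Or.inl ⟨hA, fun ρ θ a b c d h => hB ρ θ a b c d (subset_closure h)⟩
  · exact Or.inr ⟨fun ρ θ a b c d h => hA ρ θ a b c d (subset_closure h), hB⟩
  · exfalso
    obtain ⟨z, hz, hzT⟩ := Metric.mem_closure_iff.1 hv.1 r hr
    have hzb : z ∈ Metric.ball v r := by
      rw [Metric.mem_ball, dist_comm]
      exact hzT
    have hzf := hdT z hz
    rcases hball z hzb with rfl | ⟨ρ, θ, hρ0, hρr, hθ0, hθ1, rfl⟩
    · exact hzf hv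
    · rcases hθ0.eq_or_lt with h | h
      · apply hzf
        rw [← h]
        simpa using h1 ρ hρ0.le hρr
      · rcases lt_trichotomy θ φ with h' | h' | h'
        · exact hA ρ θ hρ0 hρr h h' (subset_closure hz)
        · exact hzf (h' ▸ h2 ρ hρ0.le hρr)
        · exact hB ρ θ hρ0 hρr h' hθ1 (subset_closure hz)

private theorem Sector_isClosed_segment (a b : ℂ) : IsClosed (segment ℝ a b) := by
  rw [← closure_openSegment]
  exact isClosed_closure

private theorem Sector_mem_segment {v u : ℂ} {l ρ : ℝ} (hl : 0 < l) (h0 : 0 ≤ ρ) (h1 : ρ ≤ l) :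
    v + ρ * u ∈ segment ℝ v (v + l * u) := by
  refine ⟨1 - ρ / l, ρ / l, ?_, by positivity, by ring, ?_⟩
  · rw [sub_nonneg, div_le_one hl]
    exact h1
  · simp only [Complex.real_smul]
    have : (l : ℂ) ≠ 0 := by exact_mod_cast hl.ne'
    push_cast
    field_simp
    ring

private theorem Sector_of_segment {v u z : ℂ} {l : ℝ} (hl : 0 < l)
    (h : z ∈ segment ℝ v (v + l * u)) : ∃ ρ : ℝ, 0 ≤ ρ ∧ ρ ≤ l ∧ z = v + ρ * u := by
  obtain ⟨a, b, ha, hb, hab, rfl⟩ := h
  refine ⟨b * l, by positivity, by nlinarith, ?_⟩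
  simp only [Complex.real_smul]
  have : (a : ℂ) = 1 - b := by
    have : a = 1 - b := by linarith
    rw [this]
    push_cast
    ring
  rw [this]
  push_cast
  ring

theorem Tile.sector_exists (τ : Tile) (s : τ.S) :
    ∃ (u : ℂ) (ε β r : ℝ), ‖u‖ = 1 ∧ (ε = 1 ∨ ε = -1) ∧ 0 < β ∧ β < 2 * Real.pi ∧ 0 < r ∧
      (∃ l : ℝ, r ≤ l ∧ τ.p (τ.next s) = τ.p s + l * u) ∧
      (∃ l : ℝ, r ≤ l ∧ τ.p (τ.prev s) = τ.p s + l * u * exp (ε * β * I)) ∧
      (∀ ρ θ : ℝ, 0 < ρ → ρ < r → 0 < θ → θ < β → τ.p s + ρ * u * exp (ε * θ * I) ∈ τ.T) ∧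
      (∀ ρ θ : ℝ, 0 ≤ ρ → ρ < r → β ≤ θ → θ ≤ 2 * Real.pi →
        τ.p s + ρ * u * exp (ε * θ * I) ∉ τ.T) := by
  set v := τ.p s with hvdef
  set t0 := τ.prev s with ht0def
  have hnt0 : τ.next t0 = s := by
    rw [ht0def]
    exact Equiv.apply_symm_apply _ _
  have ht0s : t0 ≠ s := fun h => τ.next_ne s (by rw [← h, hnt0, h])
  have hO := τ.isOpen
  have hfr := τ.front
  -- the other sides
  have hother : ∀ t, t ≠ s → t ≠ t0 → v ∉ segment ℝ (τ.p t) (τ.p (τ.next t)) := by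
    intro t hts htt0 hvt
    rcases τ.meet s t (Ne.symm hts) v (left_mem_segment _ _ _) hvt with ⟨_, h⟩ | ⟨h, _⟩
    · exact hts (τ.p_inj h.symm)
    · apply htt0
      rw [ht0def]
      unfold Tile.prev
      rw [h, Equiv.symm_apply_apply]
  obtain ⟨r1, hr1, hr1b⟩ : ∃ r1 > 0, ∀ z ∈ Metric.ball v r1, ∀ t, t ≠ s → t ≠ t0 →
      z ∉ segment ℝ (τ.p t) (τ.p (τ.next t)) := by
    have hcl : IsClosed (⋃ t : {t : τ.S // t ≠ s ∧ t ≠ t0},
        segment ℝ (τ.p t.1) (τ.p (τ.next t.1))) :=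
      isClosed_iUnion_of_finite fun t => Sector_isClosed_segment _ _
    have hv : v ∈ (⋃ t : {t : τ.S // t ≠ s ∧ t ≠ t0},
        segment ℝ (τ.p t.1) (τ.p (τ.next t.1)))ᶜ := by
      intro h
      obtain ⟨t, ht⟩ := mem_iUnion.1 h
      exact hother t.1 t.2.1 t.2.2 ht
    obtain ⟨r1, hr1, h⟩ := Metric.isOpen_iff.1 hcl.isOpen_compl v hv
    exact ⟨r1, hr1, fun z hz t h1 h2 hzt => h hz (mem_iUnion.2 ⟨⟨t, h1, h2⟩, hzt⟩)⟩
  have hd1 : τ.p (τ.next s) - v ≠ 0 := sub_ne_zero.2 (τ.p_ne s).symm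
  have hd2 : τ.p t0 - v ≠ 0 := sub_ne_zero.2 fun h => ht0s (τ.p_inj h)
  set l1 := ‖τ.p (τ.next s) - v‖ with hl1
  set l2 := ‖τ.p t0 - v‖ with hl2
  have hl1p : 0 < l1 := norm_pos_iff.2 hd1
  have hl2p : 0 < l2 := norm_pos_iff.2 hd2
  have hl1c : (l1 : ℂ) ≠ 0 := by exact_mod_cast hl1p.ne'
  have hl2c : (l2 : ℂ) ≠ 0 := by exact_mod_cast hl2p.ne'
  set u := (τ.p (τ.next s) - v) / l1 with hu
  have hun : ‖u‖ = 1 := by
    rw [hu, norm_div, Complex.norm_real, Real.norm_eq_abs, abs_of_pos hl1p, ← hl1,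
      div_self hl1p.ne']
  have hu0 : u ≠ 0 := fun h => by
    rw [h, norm_zero] at hun
    exact zero_ne_one hun
  have hp1 : τ.p (τ.next s) = v + l1 * u := by
    rw [hu]
    field_simp
    ring
  set u2 := (τ.p t0 - v) / l2 with hu2
  have hu2n : ‖u2‖ = 1 := by
    rw [hu2, norm_div, Complex.norm_real, Real.norm_eq_abs, abs_of_pos hl2p, ← hl2,
      div_self hl2p.ne']
  have hp2 : τ.p t0 = v + l2 * u2 := by
    rw [hu2]
    field_simp
    ring
  have hsd0 : segment ℝ (τ.p t0) (τ.p (τ.next t0)) = segment ℝ v (v + l2 * u2) := by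
    rw [hnt0, hp2, segment_symm]
  have hsd1 : segment ℝ (τ.p s) (τ.p (τ.next s)) = segment ℝ v (v + l1 * u) := by
    rw [hp1]
  have huu : u ≠ u2 := by
    intro h
    set t := min l1 l2 / 2 with ht
    have htp : 0 < t := by
      have : 0 < min l1 l2 := lt_min hl1p hl2p
      positivity
    have ht1 : t < l1 := by
      have : min l1 l2 ≤ l1 := min_le_left _ _
      have : 0 < min l1 l2 := lt_min hl1p hl2p
      linarith
    have ht2 : t < l2 := by
      have : min l1 l2 ≤ l2 := min_le_right _ _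
      have : 0 < min l1 l2 := lt_min hl1p hl2p
      linarith
    have hz1 : v + t * u ∈ segment ℝ (τ.p s) (τ.p (τ.next s)) := by
      rw [hsd1]
      exact Sector_mem_segment hl1p htp.le ht1.le
    have hz2 : v + t * u ∈ segment ℝ (τ.p t0) (τ.p (τ.next t0)) := by
      rw [hsd0, h]
      exact Sector_mem_segment hl2p htp.le ht2.le
    rcases τ.meet s t0 ht0s.symm _ hz1 hz2 with ⟨_, h'⟩ | ⟨_, h'⟩
    · rw [hp2, ← h] at h'
      have h3 : ((t : ℂ) - l2) * u = 0 := by linear_combination h'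
      rcases mul_eq_zero.1 h3 with h4 | h4
      · have : ((t - l2 : ℝ) : ℂ) = 0 := by
          push_cast
          exact h4
        have := Complex.ofReal_eq_zero.1 this
        linarith
      · exact hu0 h4
    · have h3 : (t : ℂ) * u = 0 := by linear_combination h'
      rcases mul_eq_zero.1 h3 with h4 | h4
      · have := Complex.ofReal_eq_zero.1 h4
        linarith
      · exact hu0 h4
  obtain ⟨φ, hφ0, hφ1, hφ⟩ := Sector_polar (u2 / u)
  have hφn : ‖u2 / u‖ = 1 := by rw [norm_div, hun, hu2n, div_one]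
  rw [hφn, Complex.ofReal_one, one_mul] at hφ
  have hu2e : u2 = u * exp (φ * I) := by
    rw [← hφ]
    field_simp
  have hφp : 0 < φ := by
    rcases hφ0.eq_or_lt with h | h
    · exfalso
      rw [← h] at hu2e
      apply huu
      rw [hu2e]
      simp
    · exact h
  set r := min r1 (min l1 l2) with hrdef
  have hr : 0 < r := lt_min hr1 (lt_min hl1p hl2p)
  have hrr1 : r ≤ r1 := min_le_left _ _
  have hrl1 : r ≤ l1 := (min_le_right _ _).trans (min_le_left _ _)
  have hrl2 : r ≤ l2 := (min_le_right _ _).trans (min_le_right _ _)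
  have hfs : ∀ t, segment ℝ (τ.p t) (τ.p (τ.next t)) ⊆ frontier τ.T := by
    intro t
    rw [hfr]
    exact subset_iUnion (fun t => segment ℝ (τ.p t) (τ.p (τ.next t))) t
  have h1 : ∀ ρ : ℝ, 0 ≤ ρ → ρ < r → v + ρ * u ∈ frontier τ.T := by
    intro ρ h0 hρ
    apply hfs s
    rw [hsd1]
    exact Sector_mem_segment hl1p h0 (hρ.le.trans hrl1)
  have h2 : ∀ ρ : ℝ, 0 ≤ ρ → ρ < r → v + ρ * u * exp (φ * I) ∈ frontier τ.T := by
    intro ρ h0 hρ
    apply hfs t0
    rw [hsd0, mul_assoc, ← hu2e]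
    exact Sector_mem_segment hl2p h0 (hρ.le.trans hrl2)
  have hv : v ∈ frontier τ.T := hfs s (left_mem_segment _ _ _)
  have hnormexp : ∀ θ : ℝ, ‖exp (θ * I)‖ = 1 := Complex.norm_exp_ofReal_mul_I
  have h3 : ∀ ρ θ : ℝ, 0 < ρ → ρ < r → 0 < θ → θ < 2 * Real.pi → θ ≠ φ →
      v + ρ * u * exp (θ * I) ∉ frontier τ.T := by
    intro ρ θ hρ0 hρr hθ0 hθ1 hθφ hmem
    rw [hfr] at hmem
    obtain ⟨t, ht⟩ := mem_iUnion.1 hmem
    have hρc : (ρ : ℂ) ≠ 0 := by exact_mod_cast hρ0.ne'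
    by_cases hts : t = s
    · rw [hts, hsd1] at ht
      obtain ⟨ρ', h0', _, h'⟩ := Sector_of_segment hl1p ht
      have h4 : (ρ : ℂ) * exp (θ * I) = ρ' := by
        have : ((ρ : ℂ) * exp (θ * I) - ρ') * u = 0 := by linear_combination h'
        rcases mul_eq_zero.1 this with h5 | h5
        · linear_combination h5
        · exact absurd h5 hu0
      have h5 : ρ = ρ' := by
        have := congrArg norm h4
        rw [norm_mul, hnormexp, Complex.norm_real, Complex.norm_real, Real.norm_eq_abs,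
          Real.norm_eq_abs, abs_of_pos hρ0, abs_of_nonneg h0', mul_one] at this
        exact this
      rw [← h5] at h4
      have h6 : exp (θ * I) = exp ((0 : ℝ) * I) := by
        have : (ρ : ℂ) * (exp (θ * I) - 1) = 0 := by linear_combination h4
        rcases mul_eq_zero.1 this with h7 | h7
        · exact absurd h7 hρc
        · simp only [Complex.ofReal_zero, zero_mul, Complex.exp_zero]
          linear_combination h7
      have := Sector_exp_inj h6 (by rw [sub_zero, abs_of_pos hθ0]; exact hθ1)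
      linarith
    · by_cases htt0 : t = t0
      · rw [htt0, hsd0] at ht
        obtain ⟨ρ', h0', _, h'⟩ := Sector_of_segment hl2p ht
        rw [hu2e] at h'
        have h4 : (ρ : ℂ) * exp (θ * I) = ρ' * exp (φ * I) := by
          have : ((ρ : ℂ) * exp (θ * I) - ρ' * exp (φ * I)) * u = 0 := by
            linear_combination h'
          rcases mul_eq_zero.1 this with h5 | h5
          · linear_combination h5
          · exact absurd h5 hu0
        have h5 : ρ = ρ' := by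
          have := congrArg norm h4
          rw [norm_mul, norm_mul, hnormexp, hnormexp, Complex.norm_real, Complex.norm_real,
            Real.norm_eq_abs, Real.norm_eq_abs, abs_of_pos hρ0, abs_of_nonneg h0', mul_one,
            mul_one] at this
          exact this
        rw [← h5] at h4
        have h6 : exp (θ * I) = exp (φ * I) := mul_left_cancel₀ hρc h4
        apply hθφ
        apply Sector_exp_inj h6
        rw [abs_lt]
        constructor <;> linarith
      · apply hr1b _ _ t hts htt0 ht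
        rw [Metric.mem_ball, dist_eq_norm, add_sub_cancel_left, norm_mul, norm_mul, hnormexp, hun,
          Complex.norm_real, Real.norm_eq_abs, abs_of_pos hρ0, mul_one, mul_one]
        exact lt_of_lt_of_le hρr hrr1
  have hdT : ∀ z, z ∈ frontier τ.T → z ∉ τ.T := fun z hz' hz => by
    have := hO.inter_frontier_eq
    exact (this ▸ (⟨hz, hz'⟩ : z ∈ τ.T ∩ frontier τ.T) : z ∈ (∅ : Set ℂ))
  rcases Sector_core hO τ.reg hun hr hv h1 h2 h3 hφp hφ1 with ⟨hA, hB⟩ | ⟨hA, hB⟩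
  · refine ⟨u, 1, φ, r, hun, Or.inl rfl, hφp, hφ1, hr, ⟨l1, hrl1, hp1⟩, ⟨l2, hrl2, ?_⟩, ?_, ?_⟩
    · rw [hp2, hu2e]
      simp [mul_assoc]
    · intro ρ θ a b c d
      simpa using hA ρ θ a b c d
    · intro ρ θ a b c d
      have e : exp (((1 : ℝ) : ℂ) * θ * I) = exp (θ * I) := by simp
      rw [e]
      rcases a.eq_or_lt with h | h
      · rw [← h]
        simpa using hdT v hv
      rcases c.eq_or_lt with h' | h'
      · rw [← h']
        exact hdT _ (h2 ρ a b)
      rcases d.eq_or_lt with h'' | h''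
      · have : exp ((θ : ℂ) * I) = 1 := by
          rw [h'']
          push_cast
          exact Complex.exp_two_pi_mul_I
        rw [this, mul_one]
        exact hdT _ (h1 ρ a b)
      · exact hB ρ θ h b h' h''
  · have key : ∀ θ : ℝ, exp (((-1 : ℝ) : ℂ) * θ * I) = exp (((2 * Real.pi - θ : ℝ) : ℂ) * I) := by
      intro θ
      push_cast
      rw [sub_mul, Complex.exp_sub, Complex.exp_two_pi_mul_I, one_div, ← Complex.exp_neg]
      congr 1
      ring
    refine ⟨u, -1, 2 * Real.pi - φ, r, hun, Or.inr rfl, by linarith, by linarith, hr,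
      ⟨l1, hrl1, hp1⟩, ⟨l2, hrl2, ?_⟩, ?_, ?_⟩
    · rw [hp2, hu2e, key]
      rw [show 2 * Real.pi - (2 * Real.pi - φ) = φ by ring, mul_assoc]
    · intro ρ θ a b c d
      rw [key]
      exact hB ρ _ a b (by linarith) (by linarith)
    · intro ρ θ a b c d
      rw [key]
      rcases a.eq_or_lt with h | h
      · rw [← h]
        simpa using hdT v hv
      rcases c.eq_or_lt with h' | h'
      · rw [← h', show 2 * Real.pi - (2 * Real.pi - φ) = φ by ring]
        exact hdT _ (h2 ρ a b)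
      rcases d.eq_or_lt with h'' | h''
      · rw [h'', sub_self]
        simpa using hdT _ (h1 ρ a b)
      · exact hA ρ _ h b (by linarith) (by linarith)

end Pool.Agent.MP4eed4e
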