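import Mathlib
import Pool.Agent.Lib.MP_4eed4e_an.Sector
import Pool.Agent.Lib.MP_4eed4e_an.IsoA

/-!
Polar coordinates at the vertices of the tile and of its copies; singular flags.
-/

namespace Pool.Agent.MP4eed4e

open Set Complex

noncomputable section

variable {τ : Tile} {D : Set ℂ}

/-- Unit vector of the side `s` at its initial vertex. -/
def Tile.U (τ : Tile) (s : τ.S) : ℂ := Classical.choose (τ.sector_exists s)

/-- Orientation of the sector at `p s`. -/
def Tile.E (τ : Tile) (s : τ.S) : ℝ := Classical.choose (Classical.choose_spec (τ.sector_exists s))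

/-- Interior angle of the tile at `p s`. -/
def Tile.ang (τ : Tile) (s : τ.S) : ℝ :=
  Classical.choose (Classical.choose_spec (Classical.choose_spec (τ.sector_exists s)))

/-- A radius for the sector at `p s`. -/
def Tile.rad (τ : Tile) (s : τ.S) : ℝ :=
  Classical.choose (Classical.choose_spec (Classical.choose_spec
    (Classical.choose_spec (τ.sector_exists s))))

theorem Tile.frame_spec (τ : Tile) (s : τ.S) :
    ‖τ.U s‖ = 1 ∧ (τ.E s = 1 ∨ τ.E s = -1) ∧ 0 < τ.ang s ∧ τ.ang s < 2 * Real.pi ∧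
      0 < τ.rad s ∧
      (∃ l : ℝ, τ.rad s ≤ l ∧ τ.p (τ.next s) = τ.p s + l * τ.U s) ∧
      (∃ l : ℝ, τ.rad s ≤ l ∧
        τ.p (τ.prev s) = τ.p s + l * τ.U s * exp (τ.E s * τ.ang s * I)) ∧
      (∀ ρ θ : ℝ, 0 < ρ → ρ < τ.rad s → 0 < θ → θ < τ.ang s →
        τ.p s + ρ * τ.U s * exp (τ.E s * θ * I) ∈ τ.T) ∧
      (∀ ρ θ : ℝ, 0 ≤ ρ → ρ < τ.rad s → τ.ang s ≤ θ → θ ≤ 2 * Real.pi →
        τ.p s + ρ * τ.U s * exp (τ.E s * θ * I) ∉ τ.T) :=
  Classical.choose_spec (Classical.choose_spec (Classical.choose_spec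
    (Classical.choose_spec (τ.sector_exists s))))

/-- Polar coordinates of the copy `x` at its vertex `p s`: angle `0` is the side `s`, angle
`ang s` is the side `prev s`. -/
def Tiling.Z (A : Tiling τ D) (s : τ.S) (x : A.X) (ρ θ : ℝ) : ℂ :=
  A.g x (τ.p s + ρ * τ.U s * exp (τ.E s * θ * I))

/-- The copy `x` has a singular corner of `D` at its vertex `p s`. -/
def Tiling.SingFlag (A : Tiling τ D) (s : τ.S) (x : A.X) : Prop :=
  (∀ k : ℕ, 0 < k → k * τ.ang s ≠ Real.pi) ∨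
    ∃ k : ℕ, 0 < k ∧ k * τ.ang s = Real.pi ∧ (A.rot s)^[k] x ≠ x

end

end Pool.Agent.MP4eed4e
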