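import Mathlib
import Pool.Agent.Lib.MP_4eed4e_an.Frame

/-!
Polar coordinates of neighbouring copies.
-/

namespace Pool.Agent.MP4eed4e

open Set Complex

variable {τ : Tile} {D : Set ℂ}

theorem Tiling.Z_polar (A : Tiling τ D) (s : τ.S) (x : A.X) :
    ∃ (U : ℂ) (η : ℝ), ‖U‖ = 1 ∧ (η = 1 ∨ η = -1) ∧
      ∀ ρ θ : ℝ, A.Z s x ρ θ = A.g x (τ.p s) + ρ * U * exp (η * θ * I) := by
  obtain ⟨hU, hE, _⟩ := τ.frame_spec s
  exact iso_polar (A.g x) (τ.p s) (τ.U s) (τ.E s) hU hE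

private theorem FrameZ_next_prev (τ : Tile) (s : τ.S) : τ.next (τ.prev s) = s := by
  unfold Tile.prev
  exact Equiv.apply_symm_apply _ _

theorem Tiling.Z_nb (A : Tiling τ D) (s : τ.S) (x : A.X) (h : A.nb s x ≠ x) (ρ θ : ℝ) :
    A.Z s (A.nb s x) ρ θ = A.Z s x ρ (-θ) := by
  obtain ⟨hU, hE, _, _, hrad, ⟨l, hl, hp⟩, _⟩ := τ.frame_spec s
  have hl0 : 0 < l := lt_of_lt_of_le hrad hl
  have h1 := refl_polar (τ.p s) (τ.U s) (τ.E s) 0 l ρ θ hU hE hl0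
  have h2 : τ.p s + l * τ.U s * exp (τ.E s * ((0 : ℝ) : ℂ) * I) = τ.p (τ.next s) := by
    rw [hp]
    simp
  rw [h2] at h1
  unfold Tiling.Z
  rw [A.glue s x h, h1]
  congr 4
  push_cast
  ring

theorem Tiling.Z_prev (A : Tiling τ D) (s : τ.S) (x : A.X) (h : A.nb (τ.prev s) x ≠ x)
    (ρ θ : ℝ) : A.Z s (A.nb (τ.prev s) x) ρ θ = A.Z s x ρ (2 * τ.ang s - θ) := by
  obtain ⟨hU, hE, _, _, hrad, _, ⟨l, hl, hp⟩, _⟩ := τ.frame_spec s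
  have hl0 : 0 < l := lt_of_lt_of_le hrad hl
  have h1 := refl_polar (τ.p s) (τ.U s) (τ.E s) (τ.ang s) l ρ θ hU hE hl0
  rw [← hp] at h1
  unfold Tiling.Z
  rw [A.glue (τ.prev s) x h, FrameZ_next_prev]
  have hne : τ.p (τ.prev s) ≠ τ.p s := by
    have := τ.p_ne (τ.prev s)
    rwa [FrameZ_next_prev] at this
  have h3 : refl (τ.p (τ.prev s)) (τ.p s) (τ.p s + ρ * τ.U s * exp (τ.E s * θ * I)) =
      refl (τ.p s) (τ.p (τ.prev s)) (τ.p s + ρ * τ.U s * exp (τ.E s * θ * I)) := by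
    have := reflI_congr hne.symm hne (lam_of_mem_segment (right_mem_segment ℝ _ _))
      (lam_of_mem_segment (left_mem_segment ℝ _ _))
    rw [← reflI_apply hne, ← reflI_apply hne.symm, this]
  rw [h3, h1]

private theorem FrameZ_seg {v u : ℂ} {l ρ : ℝ} (hl : 0 < l) (h0 : 0 < ρ) (h1 : ρ < l) :
    v + ρ * u ∈ openSegment ℝ v (v + l * u) := by
  refine ⟨1 - ρ / l, ρ / l, ?_, by positivity, by ring, ?_⟩
  · rw [sub_pos, div_lt_one hl]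
    exact h1
  · simp only [Complex.real_smul]
    have : (l : ℂ) ≠ 0 := by exact_mod_cast hl.ne'
    push_cast
    field_simp
    ring

theorem Tiling.Z_zero_mem (A : Tiling τ D) (s : τ.S) (x : A.X) (ρ : ℝ) (h0 : 0 < ρ)
    (h1 : ρ < τ.rad s) : A.Z s x ρ 0 ∈ A.g x '' τ.od s := by
  obtain ⟨_, _, _, _, hrad, ⟨l, hl, hp⟩, _⟩ := τ.frame_spec s
  refine ⟨τ.p s + ρ * τ.U s, ?_, ?_⟩
  · show _ ∈ openSegment ℝ (τ.p s) (τ.p (τ.next s))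
    rw [hp]
    exact FrameZ_seg (lt_of_lt_of_le hrad hl) h0 (lt_of_lt_of_le h1 hl)
  · unfold Tiling.Z
    simp

theorem Tiling.Z_zero_mem' (A : Tiling τ D) (s : τ.S) (x : A.X) (ρ : ℝ) (h0 : 0 ≤ ρ)
    (h1 : ρ < τ.rad s) : A.Z s x ρ 0 ∈ A.g x '' τ.sd s := by
  rcases h0.eq_or_lt with h | h
  · refine ⟨τ.p s, left_mem_segment ℝ _ _, ?_⟩
    unfold Tiling.Z
    rw [← h]
    simp
  · exact image_mono (openSegment_subset_segment ℝ _ _) (A.Z_zero_mem s x ρ h h1)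

theorem Tiling.Z_ang_mem (A : Tiling τ D) (s : τ.S) (x : A.X) (ρ : ℝ) (h0 : 0 < ρ)
    (h1 : ρ < τ.rad s) : A.Z s x ρ (τ.ang s) ∈ A.g x '' τ.od (τ.prev s) := by
  obtain ⟨_, _, _, _, hrad, _, ⟨l, hl, hp⟩, _⟩ := τ.frame_spec s
  refine ⟨τ.p s + ρ * (τ.U s * exp (τ.E s * τ.ang s * I)), ?_, ?_⟩
  · show _ ∈ openSegment ℝ (τ.p (τ.prev s)) (τ.p (τ.next (τ.prev s)))
    rw [FrameZ_next_prev, openSegment_symm, hp, mul_assoc]
    exact FrameZ_seg (lt_of_lt_of_le hrad hl) h0 (lt_of_lt_of_le h1 hl)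
  · unfold Tiling.Z
    congr 1
    ring

theorem Tiling.Z_ang_mem' (A : Tiling τ D) (s : τ.S) (x : A.X) (ρ : ℝ) (h0 : 0 ≤ ρ)
    (h1 : ρ < τ.rad s) : A.Z s x ρ (τ.ang s) ∈ A.g x '' τ.sd (τ.prev s) := by
  rcases h0.eq_or_lt with h | h
  · refine ⟨τ.p s, ?_, ?_⟩
    · show _ ∈ segment ℝ (τ.p (τ.prev s)) (τ.p (τ.next (τ.prev s)))
      rw [FrameZ_next_prev]
      exact right_mem_segment ℝ _ _
    · unfold Tiling.Z
      rw [← h]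
      simp
  · exact image_mono (openSegment_subset_segment ℝ _ _) (A.Z_ang_mem s x ρ h h1)

theorem Tiling.Z_mem_tile (A : Tiling τ D) (s : τ.S) (x : A.X) (ρ θ : ℝ) (h0 : 0 < ρ)
    (h1 : ρ < τ.rad s) (h2 : 0 < θ) (h3 : θ < τ.ang s) : A.Z s x ρ θ ∈ A.g x '' τ.T := by
  obtain ⟨_, _, _, _, _, _, _, hin, _⟩ := τ.frame_spec s
  exact mem_image_of_mem _ (hin ρ θ h0 h1 h2 h3)

theorem Tiling.Z_not_mem_tile (A : Tiling τ D) (s : τ.S) (x : A.X) (ρ θ : ℝ) (h0 : 0 ≤ ρ)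
    (h1 : ρ < τ.rad s) (h2 : τ.ang s ≤ θ) (h3 : θ ≤ 2 * Real.pi) :
    A.Z s x ρ θ ∉ A.g x '' τ.T := by
  obtain ⟨_, _, _, _, _, _, _, _, hout⟩ := τ.frame_spec s
  rintro ⟨w, hw, hww⟩
  have := (A.g x).injective hww
  exact hout ρ θ h0 h1 h2 h3 (this ▸ hw)

end Pool.Agent.MP4eed4e
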