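import Mathlib
import Pool.Agent.Lib.MP_4eed4e_an.Base
import Pool.Agent.Lib.MP_4eed4e_an.IsoA

/-!
The tile near an interior point of a side is a half disc.
-/

namespace Pool.Agent.MP4eed4e

open Set Complex

private theorem half_od_unique (τ : Tile) {s t : τ.S} {z : ℂ} (hz : z ∈ τ.od s)
    (hz' : z ∈ τ.sd t) : s = t := by
  by_contra hne
  rcases τ.meet s t hne z (openSegment_subset_segment ℝ _ _ hz) hz' with ⟨h1, h2⟩ | ⟨_, h2⟩
  · rw [h2, h1] at hz
    exact τ.p_ne s (right_mem_openSegment_iff.1 hz)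
  · rw [h2] at hz
    exact τ.p_ne s (left_mem_openSegment_iff.1 hz)

private theorem half_lam (a b x y : ℂ) (α β : ℝ) (h : α + β = 1) :
    lam a b (α • x + β • y) = α * lam a b x + β * lam a b y := by
  obtain rfl : β = 1 - α := by linarith
  unfold lam
  simp only [Complex.mul_im, Complex.sub_re, Complex.sub_im, Complex.add_re, Complex.add_im,
    Complex.real_smul, Complex.mul_re, Complex.ofReal_re, Complex.ofReal_im, Complex.conj_re,
    Complex.conj_im, map_sub]
  ring

private theorem half_convex (a b z : ℂ) (r δ : ℝ) :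
    Convex ℝ {w | w ∈ Metric.ball z r ∧ 0 < δ * lam a b w} := by
  intro x hx y hy α β hα hβ hαβ
  refine ⟨convex_ball z r hx.1 hy.1 hα hβ hαβ, ?_⟩
  have hx2 : 0 < δ * lam a b x := hx.2
  have hy2 : 0 < δ * lam a b y := hy.2
  rw [half_lam a b x y α β hαβ]
  have e : δ * (α * lam a b x + β * lam a b y) =
      α * (δ * lam a b x) + β * (δ * lam a b y) := by ring
  rw [e]
  rcases hα.eq_or_lt with h | h
  · rw [← h] at hαβ ⊢
    rw [zero_add] at hαβ
    rw [hαβ]
    linarith
  · have h1 := mul_pos h hx2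
    have h2 := mul_nonneg hβ hy2.le
    linarith

theorem Tile.half (τ : Tile) {s : τ.S} {z : ℂ} (hz : z ∈ τ.od s) :
    ∃ r > 0, ∃ ε : ℝ, (ε = 1 ∨ ε = -1) ∧ ∀ w ∈ Metric.ball z r,
      (w ∈ τ.T ↔ 0 < ε * lam (τ.p s) (τ.p (τ.next s)) w) ∧
      (w ∈ frontier τ.T ↔ lam (τ.p s) (τ.p (τ.next s)) w = 0) := by
  have hab := τ.p_ne s
  have hfr := τ.front
  set a := τ.p s with ha
  set b := τ.p (τ.next s) with hb
  -- the other sides
  have hC : IsClosed (⋃ t ∈ {t : τ.S | t ≠ s}, τ.sd t) := by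
    apply Set.Finite.isClosed_biUnion (Set.toFinite _)
    intro t _
    have h1 : IsCompact (τ.sd t) := by
      rw [Tile.sd, segment_eq_image_lineMap]
      exact isCompact_Icc.image (by fun_prop)
    exact h1.isClosed
  have hzC : z ∉ ⋃ t ∈ {t : τ.S | t ≠ s}, τ.sd t := by
    intro h
    simp only [Set.mem_iUnion] at h
    obtain ⟨t, ht, h⟩ := h
    exact ht (half_od_unique τ hz h).symm
  obtain ⟨r₁, hr₁, hball⟩ := Metric.isOpen_iff.1 hC.isOpen_compl z hzC
  -- position of the point on the side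
  have hz0 := hz
  rw [Tile.od, openSegment_eq_image_lineMap] at hz
  obtain ⟨t, ⟨ht0, ht1⟩, htz⟩ := hz
  have hzt : z = a + t * (b - a) := by
    rw [← htz, AffineMap.lineMap_apply]
    simp only [vsub_eq_sub, Complex.real_smul, vadd_eq_add]
    ring
  have hl : 0 < ‖b - a‖ := norm_pos_iff.2 (sub_ne_zero.2 (Ne.symm hab))
  set r := min r₁ (min t (1 - t) * ‖b - a‖) with hr
  have hr0 : 0 < r := lt_min hr₁ (mul_pos (lt_min ht0 (by linarith)) hl)
  have hfront : ∀ w ∈ Metric.ball z r, (w ∈ frontier τ.T ↔ lam a b w = 0) := by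
    intro w hw
    have hw1 : w ∈ Metric.ball z r₁ := Metric.ball_subset_ball (min_le_left _ _) hw
    have hw2 : dist w z < min t (1 - t) * ‖b - a‖ :=
      lt_of_lt_of_le (Metric.mem_ball.1 hw) (min_le_right _ _)
    constructor
    · intro h
      rw [hfr, Set.mem_iUnion] at h
      obtain ⟨t', ht'⟩ := h
      have h1 : t' = s := by
        by_contra hne
        apply hball hw1
        simp only [Set.mem_iUnion]
        exact ⟨t', hne, ht'⟩
      rw [h1] at ht'
      exact lam_of_mem_segment ht'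
    · intro h
      obtain ⟨t', ht'⟩ := (lam_eq_zero_iff hab w).1 h
      have h1 : dist w z = |t' - t| * ‖b - a‖ := by
        rw [dist_eq_norm, ht', hzt]
        have e : a + (t' : ℂ) * (b - a) - (a + t * (b - a)) = ((t' - t : ℝ) : ℂ) * (b - a) := by
          push_cast
          ring
        rw [e, norm_mul, Complex.norm_real, Real.norm_eq_abs]
      rw [h1] at hw2
      have h2 : |t' - t| < min t (1 - t) := lt_of_mul_lt_mul_right hw2 hl.le
      have h3 := abs_lt.1 (h2.trans_le (min_le_left _ _))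
      have h4 := abs_lt.1 (h2.trans_le (min_le_right _ _))
      rw [hfr, Set.mem_iUnion]
      refine ⟨s, ?_⟩
      rw [segment_eq_image_lineMap]
      refine ⟨t', ⟨by linarith, by linarith⟩, ?_⟩
      rw [AffineMap.lineMap_apply]
      simp only [vsub_eq_sub, Complex.real_smul, vadd_eq_add]
      rw [ht']
      ring
  have hTf : ∀ w ∈ τ.T, w ∉ frontier τ.T := by
    intro w hw h
    rw [τ.isOpen.frontier_eq] at h
    exact h.2 hw
  have hzf : z ∈ frontier τ.T := by
    rw [hfr, Set.mem_iUnion]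
    exact ⟨s, openSegment_subset_segment ℝ _ _ hz0⟩
  -- the two half discs
  have hhalf : ∀ δ : ℝ, δ = 1 ∨ δ = -1 →
      {w | w ∈ Metric.ball z r ∧ 0 < δ * lam a b w} ⊆ τ.T ∨
      Disjoint {w | w ∈ Metric.ball z r ∧ 0 < δ * lam a b w} τ.T := by
    intro δ hδ
    by_cases h : ({w | w ∈ Metric.ball z r ∧ 0 < δ * lam a b w} ∩ τ.T).Nonempty
    · left
      apply IsPreconnected.subset_left_of_subset_union τ.isOpen isClosed_closure.isOpen_compl
        (Set.disjoint_left.2 fun w h1 h2 => h2 (subset_closure h1)) _ h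
        (half_convex a b z r δ).isPreconnected
      intro w hw
      by_cases hwT : w ∈ τ.T
      · exact Or.inl hwT
      · right
        intro hcl
        have h1 : w ∈ frontier τ.T := by
          rw [τ.isOpen.frontier_eq]
          exact ⟨hcl, hwT⟩
        rw [hfront w hw.1] at h1
        have h2 := hw.2
        rw [h1, mul_zero] at h2
        exact lt_irrefl _ h2
    · right
      rw [Set.disjoint_iff_inter_eq_empty]
      exact Set.not_nonempty_iff_eq_empty.1 h
  have hnone : ¬ (Disjoint {w | w ∈ Metric.ball z r ∧ 0 < (1 : ℝ) * lam a b w} τ.T ∧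
      Disjoint {w | w ∈ Metric.ball z r ∧ 0 < (-1 : ℝ) * lam a b w} τ.T) := by
    rintro ⟨h1, h2⟩
    obtain ⟨w, hwT, hwz⟩ := Metric.mem_closure_iff.1 (frontier_subset_closure hzf) r hr0
    have hwb : w ∈ Metric.ball z r := by
      rw [Metric.mem_ball, dist_comm]
      exact hwz
    have h3 : lam a b w ≠ 0 := fun h => hTf w hwT ((hfront w hwb).2 h)
    rcases lt_or_gt_of_ne h3 with h4 | h4
    · exact Set.disjoint_left.1 h2 (show w ∈ {w | w ∈ Metric.ball z r ∧
        0 < (-1 : ℝ) * lam a b w} from ⟨hwb, by linarith⟩) hwT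
    · exact Set.disjoint_left.1 h1 (show w ∈ {w | w ∈ Metric.ball z r ∧
        0 < (1 : ℝ) * lam a b w} from ⟨hwb, by linarith⟩) hwT
  have hboth : ¬ ({w | w ∈ Metric.ball z r ∧ 0 < (1 : ℝ) * lam a b w} ⊆ τ.T ∧
      {w | w ∈ Metric.ball z r ∧ 0 < (-1 : ℝ) * lam a b w} ⊆ τ.T) := by
    rintro ⟨h1, h2⟩
    have h3 : Metric.ball z r ⊆ closure τ.T := by
      intro w hw
      rcases lt_trichotomy (lam a b w) 0 with h4 | h4 | h4
      · exact subset_closure (h2 ⟨hw, by linarith⟩)
      · exact frontier_subset_closure ((hfront w hw).2 h4)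
      · exact subset_closure (h1 ⟨hw, by linarith⟩)
    have h4 : z ∈ interior (closure τ.T) :=
      mem_interior.2 ⟨_, h3, Metric.isOpen_ball, Metric.mem_ball_self hr0⟩
    rw [τ.reg] at h4
    exact hTf z h4 hzf
  have hfin : ∀ δ : ℝ, {w | w ∈ Metric.ball z r ∧ 0 < δ * lam a b w} ⊆ τ.T →
      Disjoint {w | w ∈ Metric.ball z r ∧ 0 < (-δ) * lam a b w} τ.T → δ ≠ 0 →
      ∀ w ∈ Metric.ball z r, (w ∈ τ.T ↔ 0 < δ * lam a b w) := by
    intro δ h1 h2 hδ w hw
    constructor
    · intro hwT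
      have h3 : lam a b w ≠ 0 := fun h => hTf w hwT ((hfront w hw).2 h)
      by_contra h4
      have h5 : δ * lam a b w ≠ 0 := mul_ne_zero hδ h3
      have h6 : δ * lam a b w < 0 := lt_of_le_of_ne (not_lt.1 h4) h5
      exact Set.disjoint_left.1 h2 (show w ∈ {w | w ∈ Metric.ball z r ∧
        0 < (-δ) * lam a b w} from ⟨hw, by linarith⟩) hwT
    · intro h3
      exact h1 ⟨hw, h3⟩
  rcases hhalf 1 (Or.inl rfl) with h1 | h1
  · rcases hhalf (-1) (Or.inr rfl) with h2 | h2
    · exact absurd ⟨h1, h2⟩ hboth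
    · exact ⟨r, hr0, 1, Or.inl rfl, fun w hw =>
        ⟨hfin 1 h1 h2 one_ne_zero w hw, hfront w hw⟩⟩
  · rcases hhalf (-1) (Or.inr rfl) with h2 | h2
    · refine ⟨r, hr0, -1, Or.inr rfl, fun w hw =>
        ⟨hfin (-1) h2 ?_ (by norm_num) w hw, hfront w hw⟩⟩
      rw [neg_neg]
      exact h1
    · exact absurd ⟨h1, h2⟩ hnone

/-- An interior point of a side lies on no other side. -/
theorem Tile.od_unique (τ : Tile) {s t : τ.S} {z : ℂ} (hz : z ∈ τ.od s) (hz' : z ∈ τ.sd t) :
    s = t :=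
  half_od_unique τ hz hz'

end Pool.Agent.MP4eed4e
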