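import Mathlib
import Pool.Agent.Lib.MP_4eed4e_an.Half

/-!
Local facts on a tiling at the copies and at their open sides.
-/

namespace Pool.Agent.MP4eed4e

open Set Complex

variable {τ : Tile} {D : Set ℂ}

private theorem loc_image_closure (φ : Iso) (S : Set ℂ) : closure (φ '' S) = φ '' closure S :=
  (φ.toHomeomorph.image_closure S).symm

private theorem loc_image_open (φ : Iso) {S : Set ℂ} (hS : IsOpen S) : IsOpen (φ '' S) :=
  φ.toHomeomorph.isOpen_image.mpr hS

private theorem loc_mem_image (φ : Iso) {S : Set ℂ} {w : ℂ} : φ w ∈ φ '' S ↔ w ∈ S :=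
  φ.injective.mem_set_image

private theorem loc_mem_image' (φ : Iso) {S : Set ℂ} {w : ℂ} : w ∈ φ '' S ↔ φ.symm w ∈ S := by
  constructor
  · rintro ⟨u, hu, rfl⟩
    rwa [φ.symm_apply_apply]
  · intro h
    exact ⟨_, h, φ.apply_symm_apply w⟩

theorem Tiling.isOpen (A : Tiling τ D) : IsOpen D := by
  rw [← A.reg]
  exact isOpen_interior

theorem Tiling.bounded (A : Tiling τ D) : Bornology.IsBounded D := by
  refine Bornology.IsBounded.subset ?_ subset_closure
  rw [A.cover, Bornology.isBounded_iUnion]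
  intro x
  rw [loc_image_closure]
  exact (A.g x).isometry.lipschitz.isBounded_image τ.bdd.closure

private theorem loc_closure_sub (A : Tiling τ D) (x : A.X) :
    closure (A.g x '' τ.T) ⊆ closure D := by
  rw [A.cover]
  exact subset_iUnion (fun x => closure (A.g x '' τ.T)) x

theorem Tiling.tile_sub (A : Tiling τ D) (x : A.X) : A.g x '' τ.T ⊆ D := by
  have h : A.g x '' τ.T ⊆ interior (closure D) :=
    interior_maximal (subset_closure.trans (loc_closure_sub A x))
      (loc_image_open (A.g x) τ.isOpen)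
  rwa [A.reg] at h

private theorem loc_glue (A : Tiling τ D) {s : τ.S} {x : A.X} (h : A.nb s x ≠ x) (w : ℂ) :
    A.g x w = A.g (A.nb s x) (refl (τ.p s) (τ.p (τ.next s)) w) := by
  rw [A.glue s x h, refl_refl (τ.p_ne s)]

/-- Crossing a glued side: points just behind the side are in the neighbour. -/
private theorem loc_cross (A : Tiling τ D) {s : τ.S} {x : A.X} (h : A.nb s x ≠ x) {z : ℂ}
    (hz : z ∈ τ.od s) : ∃ r > 0, ∃ ε : ℝ, (ε = 1 ∨ ε = -1) ∧ ∀ w ∈ Metric.ball z r,
      (A.g x w ∈ A.g x '' τ.T ↔ 0 < ε * lam (τ.p s) (τ.p (τ.next s)) w) ∧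
      (A.g x w ∈ A.g (A.nb s x) '' τ.T ↔ ε * lam (τ.p s) (τ.p (τ.next s)) w < 0) ∧
      (w ∈ frontier τ.T ↔ lam (τ.p s) (τ.p (τ.next s)) w = 0) := by
  obtain ⟨r, hr, ε, hε, hh⟩ := τ.half hz
  refine ⟨r, hr, ε, hε, ?_⟩
  intro w hw
  have hzz : refl (τ.p s) (τ.p (τ.next s)) z = z :=
    (refl_eq_self_iff (τ.p_ne s) z).mpr (lam_of_mem_segment (openSegment_subset_segment ℝ _ _ hz))
  have hw' : refl (τ.p s) (τ.p (τ.next s)) w ∈ Metric.ball z r := by
    rw [Metric.mem_ball] at hw ⊢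
    calc dist (refl (τ.p s) (τ.p (τ.next s)) w) z
        = dist (refl (τ.p s) (τ.p (τ.next s)) w) (refl (τ.p s) (τ.p (τ.next s)) z) := by rw [hzz]
      _ = dist w z := refl_dist (τ.p_ne s) _ _
      _ < r := hw
  refine ⟨?_, ?_, (hh w hw).2⟩
  · rw [loc_mem_image]
    exact (hh w hw).1
  · rw [loc_glue A h, loc_mem_image, (hh _ hw').1, lam_refl (τ.p_ne s)]
    constructor <;> intro hlt <;> linarith

theorem Tiling.od_sub (A : Tiling τ D) {s : τ.S} {x : A.X} (h : A.nb s x ≠ x) :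
    A.g x '' τ.od s ⊆ D := by
  rintro _ ⟨z, hz, rfl⟩
  obtain ⟨r, hr, ε, hε, hh⟩ := loc_cross A h hz
  have hball : Metric.ball (A.g x z) r ⊆ closure D := by
    intro w hw
    obtain ⟨u, rfl⟩ : ∃ u, A.g x u = w := ⟨(A.g x).symm w, (A.g x).apply_symm_apply w⟩
    have hu : u ∈ Metric.ball z r := by
      rw [Metric.mem_ball] at hw ⊢
      rwa [(A.g x).dist_eq] at hw
    obtain ⟨h1, h2, h3⟩ := hh u hu
    rcases lt_trichotomy (ε * lam (τ.p s) (τ.p (τ.next s)) u) 0 with hlt | heq | hgt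
    · exact subset_closure (A.tile_sub _ (h2.mpr hlt))
    · have h0 : lam (τ.p s) (τ.p (τ.next s)) u = 0 := by
        rcases hε with rfl | rfl <;> linarith
      apply loc_closure_sub A x
      rw [loc_image_closure, loc_mem_image]
      exact frontier_subset_closure (h3.mpr h0)
    · exact subset_closure (A.tile_sub _ (h1.mpr hgt))
  have := interior_maximal hball Metric.isOpen_ball (Metric.mem_ball_self hr)
  rwa [A.reg] at this

theorem Tiling.sd_not_mem (A : Tiling τ D) {s : τ.S} {x : A.X} (h : A.nb s x = x) {z : ℂ}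
    (hz : z ∈ A.g x '' τ.sd s) : z ∉ D := by
  have h1 : z ∈ frontier D := A.bd s x h hz
  rw [A.isOpen.frontier_eq] at h1
  exact h1.2

/-- Every point of the closure is in a copy or on a side of a copy. -/
theorem Tiling.mem_cases (A : Tiling τ D) {z : ℂ} (hz : z ∈ closure D) :
    (∃ x, z ∈ A.g x '' τ.T) ∨ ∃ x s, z ∈ A.g x '' τ.sd s := by
  rw [A.cover, mem_iUnion] at hz
  obtain ⟨x, hx⟩ := hz
  rw [loc_image_closure, closure_eq_self_union_frontier, image_union] at hx
  rcases hx with hx | hx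
  · exact Or.inl ⟨x, hx⟩
  · rw [τ.front, image_iUnion, mem_iUnion] at hx
    obtain ⟨s, hs⟩ := hx
    exact Or.inr ⟨x, s, hs⟩

/-- A boundary point of a copy lies on one of its sides. -/
theorem Tiling.mem_side (A : Tiling τ D) {x : A.X} {z : ℂ} (hz : z ∈ closure (A.g x '' τ.T))
    (hz' : z ∉ A.g x '' τ.T) : ∃ s, z ∈ A.g x '' τ.sd s := by
  rw [loc_image_closure, closure_eq_self_union_frontier, image_union] at hz
  rcases hz with hx | hx
  · exact absurd hx hz'
  · rw [τ.front, image_iUnion, mem_iUnion] at hx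
    exact hx

private theorem loc_lin (φ : Iso) {p q : ℂ} (hpq : p ≠ q) {ε : ℝ} (hε : ε = 1 ∨ ε = -1) {z : ℂ}
    (hz : lam p q (φ z) = 0) :
    ∃ N : ℂ, N ≠ 0 ∧ ∀ v : ℂ, ε * lam p q (φ (z + v)) = N.re * v.re + N.im * v.im := by
  have hε0 : ε ≠ 0 := by rcases hε with rfl | rfl <;> norm_num
  have hd : q - p ≠ 0 := sub_ne_zero.mpr (Ne.symm hpq)
  obtain ⟨a, b, ha, hab | hab⟩ := iso_form φ
  · have ha0 : a ≠ 0 := by
      intro h; rw [h, norm_zero] at ha; exact zero_ne_one ha
    refine ⟨ε * (I * ((starRingEnd ℂ) a * (q - p))), ?_, ?_⟩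
    · exact mul_ne_zero (ofReal_ne_zero.mpr hε0) (mul_ne_zero I_ne_zero
        (mul_ne_zero ((map_ne_zero _).mpr ha0) hd))
    · intro v
      have e : lam p q (φ (z + v)) = lam p q (φ z) + (a * v * (starRingEnd ℂ) (q - p)).im := by
        unfold lam
        rw [hab, hab, ← add_im]
        congr 1
        ring
      rw [e, hz, zero_add]
      simp only [mul_re, mul_im, I_re, I_im, conj_re, conj_im, sub_re, sub_im, ofReal_re,
        ofReal_im]
      ring
  · have ha0 : a ≠ 0 := by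
      intro h; rw [h, norm_zero] at ha; exact zero_ne_one ha
    refine ⟨ε * (-I * (a * (starRingEnd ℂ) (q - p))), ?_, ?_⟩
    · exact mul_ne_zero (ofReal_ne_zero.mpr hε0) (mul_ne_zero (neg_ne_zero.mpr I_ne_zero)
        (mul_ne_zero ha0 ((map_ne_zero _).mpr hd)))
    · intro v
      have e : lam p q (φ (z + v)) = lam p q (φ z) +
          (a * (starRingEnd ℂ) v * (starRingEnd ℂ) (q - p)).im := by
        unfold lam
        rw [hab, hab, ← add_im, map_add]
        congr 1
        ring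
      rw [e, hz, zero_add]
      simp only [mul_re, mul_im, I_re, I_im, conj_re, conj_im, sub_re, sub_im, ofReal_re,
        ofReal_im, neg_re, neg_im]
      ring

private theorem loc_two (N M : ℂ) (hN : N ≠ 0) (hM : M ≠ 0) :
    (∃ v : ℂ, 0 < N.re * v.re + N.im * v.im ∧ 0 < M.re * v.re + M.im * v.im) ∨
      ∃ c : ℝ, c < 0 ∧ ∀ v : ℂ, M.re * v.re + M.im * v.im = c * (N.re * v.re + N.im * v.im) := by
  have hNN : 0 < N.re * N.re + N.im * N.im := by
    have := normSq_pos.mpr hN
    rwa [normSq_apply] at this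
  have hMM : 0 < M.re * M.re + M.im * M.im := by
    have := normSq_pos.mpr hM
    rwa [normSq_apply] at this
  by_cases hdet : N.re * M.im - N.im * M.re = 0
  · set c : ℝ := (N.re * M.re + N.im * M.im) / (N.re * N.re + N.im * N.im) with hc
    have h1 : M.re = c * N.re := by
      rw [hc, div_mul_eq_mul_div, eq_div_iff hNN.ne']
      linear_combination (N.im) * hdet * (-1)
    have h2 : M.im = c * N.im := by
      rw [hc, div_mul_eq_mul_div, eq_div_iff hNN.ne']
      linear_combination (N.re) * hdet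
    rcases lt_trichotomy c 0 with hlt | heq | hgt
    · right
      refine ⟨c, hlt, fun v => ?_⟩
      rw [h1, h2]; ring
    · exfalso
      rw [heq, zero_mul] at h1 h2
      rw [h1, h2] at hMM
      simp at hMM
    · left
      refine ⟨N, hNN, ?_⟩
      rw [h1, h2]
      have := mul_pos hgt hNN
      nlinarith
  · left
    refine ⟨⟨(M.im - N.im) / (N.re * M.im - N.im * M.re),
      (N.re - M.re) / (N.re * M.im - N.im * M.re)⟩, ?_, ?_⟩
    · have : N.re * ((M.im - N.im) / (N.re * M.im - N.im * M.re)) +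
          N.im * ((N.re - M.re) / (N.re * M.im - N.im * M.re)) = 1 := by
        rw [← mul_div_assoc, ← mul_div_assoc, ← add_div, div_eq_one_iff_eq hdet]
        ring
      simp only
      rw [this]; exact one_pos
    · have : M.re * ((M.im - N.im) / (N.re * M.im - N.im * M.re)) +
          M.im * ((N.re - M.re) / (N.re * M.im - N.im * M.re)) = 1 := by
        rw [← mul_div_assoc, ← mul_div_assoc, ← add_div, div_eq_one_iff_eq hdet]
        ring
      simp only
      rw [this]; exact one_pos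

/-- Boundary sides do not overlap. -/
theorem Tiling.bd_unique (A : Tiling τ D) {s t : τ.S} {x y : A.X} (hs : A.nb s x = x)
    (ht : A.nb t y = y) {z : ℂ} (hz : z ∈ A.g x '' τ.od s) (hz' : z ∈ A.g y '' τ.od t) :
    x = y ∧ s = t := by
  obtain ⟨z1, hz1, hz1e⟩ := hz
  obtain ⟨z2, hz2, hz2e⟩ := hz'
  have e1 : (A.g x).symm z = z1 := by rw [← hz1e, (A.g x).symm_apply_apply]
  have e2 : (A.g y).symm z = z2 := by rw [← hz2e, (A.g y).symm_apply_apply]
  obtain ⟨r1, hr1, ε1, hε1, hh1⟩ := τ.half hz1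
  obtain ⟨r2, hr2, ε2, hε2, hh2⟩ := τ.half hz2
  have hl1 : lam (τ.p s) (τ.p (τ.next s)) ((A.g x).symm z) = 0 := by
    rw [e1]; exact lam_of_mem_segment (openSegment_subset_segment ℝ _ _ hz1)
  have hl2 : lam (τ.p t) (τ.p (τ.next t)) ((A.g y).symm z) = 0 := by
    rw [e2]; exact lam_of_mem_segment (openSegment_subset_segment ℝ _ _ hz2)
  obtain ⟨N, hN, hN2⟩ := loc_lin (A.g x).symm (τ.p_ne s) hε1 hl1
  obtain ⟨M, hM, hM2⟩ := loc_lin (A.g y).symm (τ.p_ne t) hε2 hl2
  have hb1 : ∀ v : ℂ, ‖v‖ < min r1 r2 → (A.g x).symm (z + v) ∈ Metric.ball z1 r1 := by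
    intro v hv
    rw [Metric.mem_ball, ← e1, (A.g x).symm.dist_eq, dist_eq_norm, add_sub_cancel_left]
    exact lt_of_lt_of_le hv (min_le_left _ _)
  have hb2 : ∀ v : ℂ, ‖v‖ < min r1 r2 → (A.g y).symm (z + v) ∈ Metric.ball z2 r2 := by
    intro v hv
    rw [Metric.mem_ball, ← e2, (A.g y).symm.dist_eq, dist_eq_norm, add_sub_cancel_left]
    exact lt_of_lt_of_le hv (min_le_right _ _)
  have hr : 0 < min r1 r2 := lt_min hr1 hr2
  rcases loc_two N M hN hM with ⟨v, hv1, hv2⟩ | ⟨c, hc, hcv⟩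
  · -- the two copies overlap
    obtain ⟨δ, hδ, hδ2⟩ : ∃ δ : ℝ, 0 < δ ∧ ‖(δ : ℂ) * v‖ < min r1 r2 := by
      refine ⟨min r1 r2 / (2 * (‖v‖ + 1)), by positivity, ?_⟩
      rw [norm_mul, norm_real, Real.norm_of_nonneg (by positivity)]
      have h1 : 0 ≤ ‖v‖ := norm_nonneg v
      rw [div_mul_eq_mul_div, div_lt_iff₀ (by positivity)]
      nlinarith
    have h1 : z + (δ : ℂ) * v ∈ A.g x '' τ.T := by
      rw [loc_mem_image', (hh1 _ (hb1 _ hδ2)).1, hN2]
      have : (((δ : ℂ) * v).re) = δ * v.re := by simp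
      have h' : (((δ : ℂ) * v).im) = δ * v.im := by simp
      rw [this, h']
      have := mul_pos hδ hv1
      nlinarith
    have h2 : z + (δ : ℂ) * v ∈ A.g y '' τ.T := by
      rw [loc_mem_image', (hh2 _ (hb2 _ hδ2)).1, hM2]
      have : (((δ : ℂ) * v).re) = δ * v.re := by simp
      have h' : (((δ : ℂ) * v).im) = δ * v.im := by simp
      rw [this, h']
      have := mul_pos hδ hv2
      nlinarith
    have hxy : x = y := by
      by_contra hne
      exact Set.disjoint_left.mp (A.disj x y hne) h1 h2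
    subst hxy
    have hzz : z1 = z2 := by rw [← e1, ← e2]
    subst hzz
    exact ⟨rfl, τ.od_unique hz1 (openSegment_subset_segment ℝ _ _ hz2)⟩
  · exfalso
    have hball : Metric.ball z (min r1 r2) ⊆ closure D := by
      intro w hw
      obtain ⟨v, rfl⟩ : ∃ v, w = z + v := ⟨w - z, by ring⟩
      have hv : ‖v‖ < min r1 r2 := by
        rwa [Metric.mem_ball, dist_eq_norm, add_sub_cancel_left] at hw
      obtain ⟨h1, h1f⟩ := hh1 _ (hb1 _ hv)
      obtain ⟨h2, -⟩ := hh2 _ (hb2 _ hv)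
      rw [hN2] at h1
      rw [hM2, hcv] at h2
      rcases lt_trichotomy (N.re * v.re + N.im * v.im) 0 with hlt | heq | hgt
      · exact subset_closure (A.tile_sub y ((loc_mem_image' _).mpr
          (h2.mpr (mul_pos_of_neg_of_neg hc hlt))))
      · have h0 : lam (τ.p s) (τ.p (τ.next s)) ((A.g x).symm (z + v)) = 0 := by
          have h3 := hN2 v
          rw [heq] at h3
          rcases hε1 with rfl | rfl <;> linarith
        apply loc_closure_sub A x
        rw [loc_image_closure, loc_mem_image']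
        exact frontier_subset_closure (h1f.mpr h0)
      · exact subset_closure (A.tile_sub x ((loc_mem_image' _).mpr (h1.mpr hgt)))
    have hzD := interior_maximal hball Metric.isOpen_ball (Metric.mem_ball_self hr)
    rw [A.reg] at hzD
    exact A.sd_not_mem hs ⟨z1, openSegment_subset_segment ℝ _ _ hz1, hz1e⟩ hzD

/-- Crossing a glued side: points just behind the side are in the neighbour. -/
theorem Tiling.cross (A : Tiling τ D) {s : τ.S} {x : A.X} (h : A.nb s x ≠ x) {z : ℂ}
    (hz : z ∈ τ.od s) : ∃ r > 0, ∃ ε : ℝ, (ε = 1 ∨ ε = -1) ∧ ∀ w ∈ Metric.ball z r,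
      (A.g x w ∈ A.g x '' τ.T ↔ 0 < ε * lam (τ.p s) (τ.p (τ.next s)) w) ∧
      (A.g x w ∈ A.g (A.nb s x) '' τ.T ↔ ε * lam (τ.p s) (τ.p (τ.next s)) w < 0) := by
  obtain ⟨r, hr, ε, hε, hh⟩ := loc_cross A h hz
  exact ⟨r, hr, ε, hε, fun w hw => ⟨(hh w hw).1, (hh w hw).2.1⟩⟩

end Pool.Agent.MP4eed4e
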