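import Mathlib
import Pool.Agent.Lib.MP_4eed4e_an.FanDef
import Pool.Agent.Lib.MP_4eed4e_an.FrameZ
import Pool.Agent.Lib.MP_4eed4e_an.Loc

/-!
The fan of a tiling at a vertex of the tile.
-/

namespace Pool.Agent.MP4eed4e

open Set Complex

variable {τ : Tile} {D : Set ℂ}

private theorem reg_aux (A : Tiling τ D) (P : ℂ) (r' : ℝ) (hr : 0 < r')
    (h : ∀ z ∈ Metric.ball P r', z ≠ P → z ∈ D) : P ∈ D := by
  rw [← A.reg]
  rw [mem_interior]
  refine ⟨Metric.ball P r', fun z hz => ?_, Metric.isOpen_ball, Metric.mem_ball_self hr⟩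
  by_cases hzP : z = P
  · subst hzP
    rw [Metric.mem_closure_iff]
    intro ε hε
    have hm : 0 < min (ε / 2) (r' / 2) := lt_min (by linarith) (by linarith)
    have hn : ‖((min (ε / 2) (r' / 2) : ℝ) : ℂ)‖ = min (ε / 2) (r' / 2) := by
      rw [Complex.norm_real, Real.norm_eq_abs, abs_of_pos hm]
    refine ⟨z + ((min (ε / 2) (r' / 2) : ℝ) : ℂ), h _ ?_ ?_, ?_⟩
    · rw [Metric.mem_ball, dist_eq_norm, add_sub_cancel_left, hn]
      exact lt_of_le_of_lt (min_le_right _ _) (by linarith)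
    · intro he
      have h0 : ((min (ε / 2) (r' / 2) : ℝ) : ℂ) = 0 := by
        simpa using he
      rw [h0, norm_zero] at hn
      linarith
    · rw [dist_comm, dist_eq_norm, add_sub_cancel_left, hn]
      exact lt_of_le_of_lt (min_le_left _ _) (by linarith)
  · exact subset_closure (h z hz hzP)

theorem Tiling.exists_fan (A : Tiling τ D) (s : τ.S) :
    ∃ F : Fan A.X, F.a = A.nb s ∧ F.b = A.nb (τ.prev s) ∧ F.β = τ.ang s ∧ F.r = τ.rad s ∧
      F.Z = A.Z s ∧ F.D = D := by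
  obtain ⟨-, -, hβ, hβ', hr, -⟩ := τ.frame_spec s
  refine ⟨{
    a := A.nb s
    b := A.nb (τ.prev s)
    β := τ.ang s
    r := τ.rad s
    Z := A.Z s
    Tl := fun x => A.g x '' τ.T
    D := D
    haa := fun x => A.inv _ x
    hbb := fun x => A.inv _ x
    β_pos := hβ
    β_lt := hβ'
    r_pos := hr
    polar := fun x => ?_
    za := fun x hx ρ θ => A.Z_nb s x hx ρ θ
    zb := fun x hx ρ θ => A.Z_prev s x hx ρ θ
    tl := fun x ρ θ h0 h1 h2 h3 => A.Z_mem_tile s x ρ θ h0 h1 h2 h3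
    disj := A.disj
    sub := A.tile_sub
    da := fun x hx ρ h0 h1 => A.od_sub hx (A.Z_zero_mem s x ρ h0 h1)
    db := fun x hx ρ h0 h1 => A.od_sub hx (A.Z_ang_mem s x ρ h0 h1)
    na := fun x hx ρ h0 h1 => A.sd_not_mem hx (A.Z_zero_mem' s x ρ h0 h1)
    nb := fun x hx ρ h0 h1 => A.sd_not_mem hx (A.Z_ang_mem' s x ρ h0 h1)
    saa := fun x y ρ hx hy h0 h1 h => ?_
    sbb := fun x y ρ hx hy h0 h1 h => ?_
    sab := fun x y ρ hx hy h0 h1 h => ?_
    reg := fun P r' hr' h => reg_aux A P r' hr' h }, rfl, rfl, rfl, rfl, rfl, rfl⟩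
  · obtain ⟨U, η, hU, hη, h⟩ := A.Z_polar s x
    exact ⟨A.g x (τ.p s), U, η, hU, hη, h⟩
  · refine (A.bd_unique hx hy (A.Z_zero_mem s x ρ h0 h1) ?_).1
    rw [h]
    exact A.Z_zero_mem s y ρ h0 h1
  · refine (A.bd_unique hx hy (A.Z_ang_mem s x ρ h0 h1) ?_).1
    rw [h]
    exact A.Z_ang_mem s y ρ h0 h1
  · have h3 : s = τ.prev s := by
      refine (A.bd_unique hx hy (A.Z_zero_mem s x ρ h0 h1) ?_).2
      rw [h]
      exact A.Z_ang_mem s y ρ h0 h1
    apply τ.next_ne (τ.prev s)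
    rw [← h3]
    conv_lhs => rw [h3]
    exact τ.next.apply_symm_apply s

end Pool.Agent.MP4eed4e
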