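import Mathlib
import Pool.Agent.Lib.MP_4eed4e_an.FanDef
import Pool.Agent.Lib.MP_4eed4e_an.IsoA

/-!
Walks in a fan.
-/

namespace Pool.Agent.MP4eed4e.Fan

open Set Complex

variable {X : Type}

private theorem Zper (F : Fan X) (x : X) (ρ θ : ℝ) (k : ℤ) :
    F.Z x ρ (θ + 2 * Real.pi * k) = F.Z x ρ θ := by
  obtain ⟨P, U, η, hU, hη, h⟩ := F.polar x
  rw [h, h]
  exact polar_period P U η ρ θ k hη

private theorem Zinj (F : Fan X) (x : X) {ρ θ θ' : ℝ} (hρ : 0 < ρ)
    (hh : F.Z x ρ θ = F.Z x ρ θ') : ∃ k : ℤ, θ - θ' = 2 * Real.pi * k := by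
  obtain ⟨P, U, η, hU, hη, h⟩ := F.polar x
  rw [h, h] at hh
  exact polar_inj hU hη hρ hh

private theorem no_two (k : ℤ) (h : (2 : ℝ) = 2 * Real.pi * k) : False := by
  have hpi := Real.pi_gt_three
  rcases lt_trichotomy k 0 with h0 | h0 | h0
  · have h1 : (k : ℝ) ≤ -1 := by exact_mod_cast (show k ≤ -1 by omega)
    nlinarith
  · subst h0
    norm_num at h
  · have h1 : (1 : ℝ) ≤ k := by exact_mod_cast (show 1 ≤ k by omega)
    nlinarith

private theorem no_mid (k : ℤ) (t : ℝ) (h : t = 2 * Real.pi * k) (h0 : 0 < t)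
    (h1 : t < 2 * Real.pi) : False := by
  have hpi := Real.pi_gt_three
  rcases le_or_gt k 0 with h2 | h2
  · have h3 : (k : ℝ) ≤ 0 := by exact_mod_cast h2
    nlinarith
  · have h3 : (1 : ℝ) ≤ k := by exact_mod_cast (show 1 ≤ k by omega)
    nlinarith

private theorem no_flip (F : Fan X) (x : X) (s t ρ : ℝ) (hρ : 0 < ρ)
    (h : ∀ θ, F.Z x ρ (s + θ) = F.Z x ρ (t - θ)) : False := by
  obtain ⟨k, hk⟩ := Zinj F x hρ (h 0)
  obtain ⟨l, hl⟩ := Zinj F x hρ (h 1)
  refine no_two (l - k) ?_
  push_cast
  linarith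

theorem up_Z (F : Fan X) (x : X) (n : ℕ) (h : ∀ j < n, F.up x (j + 1) ≠ F.up x j) (ρ θ : ℝ) :
    F.Z (F.up x n) ρ θ = if Even n then F.Z x ρ (n * F.β + θ) else
      F.Z x ρ ((n + 1) * F.β - θ) := by
  induction n generalizing θ with
  | zero => simp [up]
  | succ n ih =>
    have ih' := ih (fun j hj => h j (by omega))
    have hn := h n (by omega)
    by_cases hev : Even n
    · have h1 : F.up x (n + 1) = F.b (F.up x n) := by simp [up, hev]
      rw [h1] at hn
      have h2 : ¬ Even (n + 1) := by
        rw [Nat.even_add_one]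
        exact not_not.2 hev
      rw [h1, F.zb _ hn, ih', if_pos hev, if_neg h2]
      congr 1
      push_cast
      ring
    · have h1 : F.up x (n + 1) = F.a (F.up x n) := by simp [up, hev]
      rw [h1] at hn
      have h2 : Even (n + 1) := by
        rw [Nat.even_add_one]
        exact hev
      rw [h1, F.za _ hn, ih', if_neg hev, if_pos h2]
      congr 1
      push_cast
      ring

/-- The developed sector number `n` is the copy `up x n`. -/
theorem up_mem (F : Fan X) (x : X) (n : ℕ) (h : ∀ j < n, F.up x (j + 1) ≠ F.up x j)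
    (ρ ψ : ℝ) (h0 : 0 < ρ) (h1 : ρ < F.r) (h2 : n * F.β < ψ) (h3 : ψ < (n + 1) * F.β) :
    F.Z x ρ ψ ∈ F.Tl (F.up x n) := by
  by_cases hev : Even n
  · have h4 := up_Z F x n h ρ (ψ - n * F.β)
    rw [if_pos hev, show n * F.β + (ψ - n * F.β) = ψ by ring] at h4
    rw [← h4]
    exact F.tl _ _ _ h0 h1 (by linarith) (by linarith)
  · have h4 := up_Z F x n h ρ ((n + 1) * F.β - ψ)
    rw [if_neg hev, show (n + 1) * F.β - ((n + 1) * F.β - ψ) = ψ by ring] at h4
    rw [← h4]
    exact F.tl _ _ _ h0 h1 (by linarith) (by linarith)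

/-- The rays between the sectors of a clean walk are in `D`. -/
theorem up_ray (F : Fan X) (x : X) (n : ℕ) (h : ∀ j < n, F.up x (j + 1) ≠ F.up x j)
    (k : ℕ) (hk : 0 < k) (hk' : k ≤ n) (ρ : ℝ) (h0 : 0 < ρ) (h1 : ρ < F.r) :
    F.Z x ρ (k * F.β) ∈ F.D := by
  obtain ⟨j, rfl⟩ : ∃ j, k = j + 1 := ⟨k - 1, by omega⟩
  have hc : ∀ i < j, F.up x (i + 1) ≠ F.up x i := fun i hi => h i (by omega)
  have hj := h j (by omega)
  by_cases hev : Even j
  · have h2 : F.up x (j + 1) = F.b (F.up x j) := by simp [up, hev]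
    rw [h2] at hj
    have h3 := F.db _ hj ρ h0 h1
    rw [up_Z F x j hc, if_pos hev] at h3
    convert h3 using 2
    push_cast
    ring
  · have h2 : F.up x (j + 1) = F.a (F.up x j) := by simp [up, hev]
    rw [h2] at hj
    have h3 := F.da _ hj ρ h0 h1
    rw [up_Z F x j hc, if_neg hev] at h3
    convert h3 using 2
    push_cast
    ring

theorem up_overlap (F : Fan X) (x : X) (n : ℕ) (h : ∀ j < n, F.up x (j + 1) ≠ F.up x j)
    (hn : 0 < n) (h1 : n * F.β ≤ 2 * Real.pi) (h2 : 2 * Real.pi < (n + 1) * F.β) :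
    n * F.β = 2 * Real.pi ∧ Even n ∧ F.up x n = x := by
  have hβ := F.β_pos
  have hr := F.r_pos
  have hpi := Real.pi_pos
  have hnR : (0 : ℝ) < n := by exact_mod_cast hn
  have hm : 0 < min F.β ((n + 1) * F.β - 2 * Real.pi) := lt_min hβ (by linarith)
  have hm1 := min_le_left F.β ((n + 1) * F.β - 2 * Real.pi)
  have hm2 := min_le_right F.β ((n + 1) * F.β - 2 * Real.pi)
  set m := min F.β ((n + 1) * F.β - 2 * Real.pi) with hmdef
  have h3 := up_mem F x n h (F.r / 2) (2 * Real.pi + m / 2) (by linarith) (by linarith)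
    (by linarith) (by linarith)
  have h4 : F.Z x (F.r / 2) (2 * Real.pi + m / 2) = F.Z x (F.r / 2) (m / 2) := by
    have h5 := Zper F x (F.r / 2) (m / 2) 1
    rw [← h5]
    congr 1
    push_cast
    ring
  have h6 := F.tl x (F.r / 2) (m / 2) (by linarith) (by linarith) (by linarith) (by linarith)
  rw [h4] at h3
  have h7 : F.up x n = x := by
    by_contra hne
    exact Set.disjoint_left.1 (F.disj _ _ hne) h3 h6
  have hZ := fun θ => up_Z F x n h (F.r / 2) θ
  rw [h7] at hZ
  have hev : Even n := by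
    by_contra hodd
    refine no_flip F x 0 ((n + 1) * F.β) (F.r / 2) (by linarith) (fun θ => ?_)
    have h8 := hZ θ
    rw [if_neg hodd] at h8
    rw [zero_add]
    exact h8
  refine ⟨?_, hev, h7⟩
  have h9 := hZ 0
  rw [if_pos hev] at h9
  obtain ⟨k, hk⟩ := Zinj F x (by linarith) h9.symm
  have hk' : n * F.β = 2 * Real.pi * k := by linarith
  have hpos : 0 < n * F.β := mul_pos hnR hβ
  rcases lt_or_eq_of_le h1 with h10 | h10
  · exact (no_mid k _ hk' hpos h10).elim
  · exact h10

theorem up_ne (F : Fan X) (x : X) (i j : ℕ) (h : ∀ k < j, F.up x (k + 1) ≠ F.up x k)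
    (hij : i < j) (hj : (j - i : ℝ) * F.β < 2 * Real.pi) : F.up x i ≠ F.up x j := by
  intro heq
  have hβ := F.β_pos
  have hr := F.r_pos
  have hijR : (i : ℝ) < j := by exact_mod_cast hij
  have hpos : 0 < (j - i : ℝ) * F.β := mul_pos (by linarith) hβ
  have hi := fun θ => up_Z F x i (fun k hk => h k (by omega)) F.r θ
  have hj' := fun θ => up_Z F x j h F.r θ
  rw [heq] at hi
  by_cases hie : Even i
  · by_cases hje : Even j
    · have h1 := hi 0
      have h2 := hj' 0
      rw [if_pos hie] at h1
      rw [if_pos hje] at h2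
      rw [h2] at h1
      obtain ⟨k, hk⟩ := Zinj F x hr h1
      exact no_mid k _ (by linarith) hpos hj
    · refine no_flip F x (i * F.β) ((j + 1) * F.β) F.r hr (fun θ => ?_)
      have h1 := hi θ
      have h2 := hj' θ
      rw [if_pos hie] at h1
      rw [if_neg hje] at h2
      rw [← h1, ← h2]
  · by_cases hje : Even j
    · refine no_flip F x (j * F.β) ((i + 1) * F.β) F.r hr (fun θ => ?_)
      have h1 := hi θ
      have h2 := hj' θ
      rw [if_neg hie] at h1
      rw [if_pos hje] at h2
      rw [← h1, ← h2]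
    · have h1 := hi 0
      have h2 := hj' 0
      rw [if_neg hie] at h1
      rw [if_neg hje] at h2
      rw [h2] at h1
      obtain ⟨k, hk⟩ := Zinj F x hr h1
      exact no_mid k _ (by linarith) hpos hj

/-- Going back. -/
theorem up_back (F : Fan X) (x : X) (n : ℕ) (j : ℕ) (hj : j ≤ n) :
    (if Even n then F.op.up (F.up x n) j else F.up (F.up x n) j) = F.up x (n - j) := by
  induction j with
  | zero =>
    by_cases hev : Even n
    · simp [hev, up]
    · simp [hev, up]
  | succ j ih =>
    have ih' := ih (by omega)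
    obtain ⟨m, hm⟩ : ∃ m, n - j = m + 1 := ⟨n - j - 1, by omega⟩
    have hm' : n - (j + 1) = m := by omega
    have hnjm : n = j + m + 1 := by omega
    rw [hm']
    rw [hm] at ih'
    by_cases hev : Even n
    · rw [if_pos hev] at ih' ⊢
      by_cases hj1 : Even j
      · have hmo : ¬ Even m := by
          intro hme
          rw [hnjm, Nat.even_add_one] at hev
          exact hev (hj1.add hme)
        have h1 : F.up x (m + 1) = F.a (F.up x m) := by simp [up, hmo]
        have h2 : F.op.up (F.up x n) (j + 1) = F.a (F.op.up (F.up x n) j) := by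
          simp only [up, hj1, if_true]
          rfl
        rw [h2, ih', h1, F.haa]
      · have hme : Even m := by
          by_contra hmo
          rw [hnjm, Nat.even_add_one, Nat.even_add] at hev
          exact hev (by simp [hj1, hmo])
        have h1 : F.up x (m + 1) = F.b (F.up x m) := by simp [up, hme]
        have h2 : F.op.up (F.up x n) (j + 1) = F.b (F.op.up (F.up x n) j) := by
          simp only [up, hj1, if_false]
          rfl
        rw [h2, ih', h1, F.hbb]
    · rw [if_neg hev] at ih' ⊢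
      by_cases hj1 : Even j
      · have hme : Even m := by
          by_contra hmo
          rw [hnjm, Nat.even_add_one, Nat.even_add] at hev
          exact hev (by simp [hj1, hmo])
        have h1 : F.up x (m + 1) = F.b (F.up x m) := by simp [up, hme]
        have h2 : F.up (F.up x n) (j + 1) = F.b (F.up (F.up x n) j) := by
          simp only [up, hj1, if_true]
        rw [h2, ih', h1, F.hbb]
      · have hmo : ¬ Even m := by
          intro hme
          rw [hnjm, Nat.even_add_one, Nat.even_add] at hev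
          exact hev (by simp [hj1, hme])
        have h1 : F.up x (m + 1) = F.a (F.up x m) := by simp [up, hmo]
        have h2 : F.up (F.up x n) (j + 1) = F.a (F.up (F.up x n) j) := by
          simp only [up, hj1, if_false]
        rw [h2, ih', h1, F.haa]

end Pool.Agent.MP4eed4e.Fan
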