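import Mathlib
import Pool.Agent.Lib.MP_4eed4e_an.FanWalk

/-!
The walk from an end of a fan.
-/

namespace Pool.Agent.MP4eed4e.Fan

open Set Complex

variable {X : Type}

private theorem fanEnd_per (F : Fan X) (x : X) (ρ : ℝ) :
    F.Z x ρ (2 * Real.pi) = F.Z x ρ 0 := by
  obtain ⟨P, U, η, hU, hη, h⟩ := F.polar x
  rw [h, h]
  have h1 := polar_period P U η ρ 0 1 hη
  rw [← h1]
  norm_num

theorem end_path (F : Fan X) (x : X) (hx : F.a x = x) :
    ∃ m : ℕ, 0 < m ∧ (∀ j, j + 1 < m → F.up x (j + 1) ≠ F.up x j) ∧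
      F.up x m = F.up x (m - 1) ∧ m * F.β < 2 * Real.pi ∧
      (∀ i j, i < m → j < m → F.up x i = F.up x j → i = j) := by
  classical
  have hβ := F.β_pos
  have hβ2 := F.β_lt
  have hr := F.r_pos
  set n0 : ℕ := ⌊2 * Real.pi / F.β⌋₊ with hn0
  have h1 : (n0 : ℝ) * F.β ≤ 2 * Real.pi := by
    have := Nat.floor_le (a := 2 * Real.pi / F.β) (by positivity)
    rwa [le_div_iff₀ hβ] at this
  have h2 : 2 * Real.pi < ((n0 : ℝ) + 1) * F.β := by
    have := Nat.lt_floor_add_one (2 * Real.pi / F.β)
    rwa [div_lt_iff₀ hβ] at this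
  have hn1 : 0 < n0 := by
    rw [hn0, Nat.floor_pos, le_div_iff₀ hβ]
    linarith
  have hex : ∃ p, p < n0 ∧ F.up x (p + 1) = F.up x p := by
    by_contra hno
    push Not at hno
    obtain ⟨h3, h4, h5⟩ := up_overlap F x n0 hno hn1 h1 h2
    obtain ⟨q, hq⟩ : ∃ q, n0 = q + 1 := ⟨n0 - 1, by omega⟩
    have hqo : ¬ Even q := by
      rw [hq, Nat.even_add_one] at h4
      exact h4
    have h6 : F.up x (q + 1) = F.a (F.up x q) := by simp [up, hqo]
    rw [hq, h6] at h5
    have h7 : F.up x q = x := by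
      have := congrArg F.a h5
      rw [F.haa, hx] at this
      exact this
    refine hno q (by omega) ?_
    rw [h6, h5, h7]
  set p := Nat.find hex with hp
  obtain ⟨hp1, hp2⟩ : p < n0 ∧ F.up x (p + 1) = F.up x p := Nat.find_spec hex
  have hc : ∀ j < p, F.up x (j + 1) ≠ F.up x j := by
    intro j hj h
    exact Nat.find_min hex hj ⟨by omega, h⟩
  have hm1 : ((p : ℝ) + 1) * F.β ≤ 2 * Real.pi := by
    have h3 : (p : ℝ) + 1 ≤ n0 := by exact_mod_cast hp1
    nlinarith
  have hpne : ((p : ℝ) + 1) * F.β ≠ 2 * Real.pi := by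
    intro he
    by_cases hev : Even p
    · have h3 : F.up x (p + 1) = F.b (F.up x p) := by simp [up, hev]
      rw [h3] at hp2
      have h4 := up_Z F x p hc (F.r / 2) F.β
      rw [if_pos hev, show (p : ℝ) * F.β + F.β = 2 * Real.pi by linarith, fanEnd_per] at h4
      exact F.sab x (F.up x p) (F.r / 2) hx hp2 (by linarith) (by linarith) h4.symm
    · have h3 : F.up x (p + 1) = F.a (F.up x p) := by simp [up, hev]
      rw [h3] at hp2
      have h4 := up_Z F x p hc (F.r / 2) 0
      rw [if_neg hev, sub_zero, he, fanEnd_per] at h4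
      have h5 := F.saa x (F.up x p) (F.r / 2) hx hp2 (by linarith) (by linarith) h4.symm
      have hp0 : 0 < p := by
        rcases Nat.eq_zero_or_pos p with h | h
        · rw [h] at hev
          exact absurd Even.zero hev
        · exact h
      refine up_ne F x 0 p hc hp0 ?_ h5
      push_cast
      linarith
  refine ⟨p + 1, by omega, fun j hj => hc j (by omega), hp2, ?_, ?_⟩
  · push_cast
    exact lt_of_le_of_ne hm1 hpne
  · have key : ∀ i j, i < j → j < p + 1 → F.up x i ≠ F.up x j := by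
      intro i j hij hj
      refine up_ne F x i j (fun k hk => hc k (by omega)) hij ?_
      have h3 : (j : ℝ) ≤ p := by exact_mod_cast (show j ≤ p by omega)
      have h4 : (0 : ℝ) ≤ i := Nat.cast_nonneg i
      nlinarith
    intro i j hi hj h
    rcases lt_trichotomy i j with h3 | h3 | h3
    · exact absurd h (key i j h3 hj)
    · exact h3
    · exact absurd h.symm (key j i h3 hi)

end Pool.Agent.MP4eed4e.Fan
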