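import Mathlib

/-!
The product of two involutions on a path.
-/

namespace Pool.Agent.MP4eed4e

/-- The alternating walk. -/
private def perWalk {X : Type} (a b : X → X) (x : X) : ℕ → X
  | 0 => x
  | n + 1 => if Even n then b (perWalk a b x n) else a (perWalk a b x n)

private theorem perWalk_even {X : Type} (a b : X → X) (x : X) {n : ℕ} (hn : Even n) :
    perWalk a b x (n + 1) = b (perWalk a b x n) := by
  rw [perWalk, if_pos hn]

private theorem perWalk_odd {X : Type} (a b : X → X) (x : X) {n : ℕ} (hn : ¬ Even n) :
    perWalk a b x (n + 1) = a (perWalk a b x n) := by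
  rw [perWalk, if_neg hn]

private theorem perWalk_iter {X : Type} (a b : X → X) (x : X) {k : ℕ} (hk : Even k) (n : ℕ) :
    (fun y => a (b y))^[n] (perWalk a b x k) = perWalk a b x (k + 2 * n) := by
  induction n with
  | zero => simp
  | succ n ih =>
    rw [Function.iterate_succ_apply', ih]
    have h1 : Even (k + 2 * n) := hk.add (even_two_mul n)
    have h2 : ¬ Even (k + 2 * n + 1) := by
      rw [Nat.even_add_one, not_not]
      exact h1
    have h3 : k + 2 * (n + 1) = k + 2 * n + 1 + 1 := by ring
    rw [h3, perWalk_odd a b x h2, perWalk_even a b x h1]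

theorem period_path {X : Type} (a b : X → X) (haa : ∀ x, a (a x) = x) (hbb : ∀ x, b (b x) = x)
    (u : ℕ → X) (m : ℕ) (hm : 0 < m) (h0 : a (u 0) = u 0)
    (hstep : ∀ j, j + 1 < m → (if Even j then b (u j) else a (u j)) = u (j + 1))
    (hend : (if Even (m - 1) then b (u (m - 1)) else a (u (m - 1))) = u (m - 1))
    (hinj : ∀ i j, i < m → j < m → u i = u j → i = j) (i : ℕ) (hi : i < m) :
    Function.minimalPeriod (fun y => a (b y)) (u i) = m ∧
      ∃ n : ℕ, (fun y => a (b y))^[n] (u i) = a (u i) := by
  obtain ⟨v, hv⟩ : ∃ v, v = perWalk a b (u 0) := ⟨_, rfl⟩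
  have hve : ∀ n, Even n → v (n + 1) = b (v n) := by
    intro n hn
    rw [hv]
    exact perWalk_even a b _ hn
  have hvo : ∀ n, ¬ Even n → v (n + 1) = a (v n) := by
    intro n hn
    rw [hv]
    exact perWalk_odd a b _ hn
  -- the first half
  have hv1 : ∀ j, j < m → v j = u j := by
    intro j
    induction j with
    | zero =>
      intro _
      rw [hv]
      rfl
    | succ j ih =>
      intro hj
      have h1 := ih (by omega)
      have h2 := hstep j hj
      by_cases he : Even j
      · rw [if_pos he] at h2
        rw [hve j he, h1, h2]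
      · rw [if_neg he] at h2
        rw [hvo j he, h1, h2]
  -- the second half
  have hv2 : ∀ j, j < m → v (m + j) = u (m - 1 - j) := by
    intro j
    induction j with
    | zero =>
      intro _
      have h1 := hv1 (m - 1) (by omega)
      have h2 : m + 0 = (m - 1) + 1 := by omega
      rw [h2, Nat.sub_zero]
      by_cases he : Even (m - 1)
      · rw [if_pos he] at hend
        rw [hve _ he, h1, hend]
      · rw [if_neg he] at hend
        rw [hvo _ he, h1, hend]
    | succ j ih =>
      intro hj
      have h1 := ih (by omega)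
      have h2 := hstep (m - 1 - (j + 1)) (by omega)
      have h3 : m - 1 - (j + 1) + 1 = m - 1 - j := by omega
      rw [h3] at h2
      have hpar : Even (m - 1 - (j + 1)) ↔ Even (m + j) := by
        rw [Nat.even_iff, Nat.even_iff]
        omega
      by_cases he : Even (m + j)
      · rw [if_pos (hpar.2 he)] at h2
        rw [← add_assoc, hve _ he, h1, ← h2, hbb]
      · rw [if_neg (fun h => he (hpar.1 h))] at h2
        rw [← add_assoc, hvo _ he, h1, ← h2, haa]
  have hv3 : ∀ k, v (k + 2 * m) = v k := by
    intro k
    induction k with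
    | zero =>
      have h1 := hv2 (m - 1) (by omega)
      have h2 : m - 1 - (m - 1) = 0 := by omega
      rw [h2] at h1
      have h3 : 0 + 2 * m = m + (m - 1) + 1 := by omega
      have h4 : ¬ Even (m + (m - 1)) := by
        rw [Nat.even_iff]
        omega
      rw [h3, hvo _ h4, h1, h0, ← hv1 0 hm]
    | succ k ih =>
      have h1 : k + 1 + 2 * m = k + 2 * m + 1 := by ring
      have hpar : Even (k + 2 * m) ↔ Even k := by
        rw [Nat.even_iff, Nat.even_iff]
        omega
      rw [h1]
      by_cases he : Even k
      · rw [hve _ he, hve _ (hpar.2 he), ih]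
      · rw [hvo _ he, hvo _ (fun h => he (hpar.1 h)), ih]
  -- reflection
  have hsym : ∀ k, k < 2 * m → v (2 * m - 1 - k) = v k := by
    intro k hk
    by_cases h : k < m
    · have h1 := hv2 (m - 1 - k) (by omega)
      have h2 : m - 1 - (m - 1 - k) = k := by omega
      have h3 : m + (m - 1 - k) = 2 * m - 1 - k := by omega
      rw [h2, h3] at h1
      rw [h1, hv1 k h]
    · have h1 := hv2 (k - m) (by omega)
      have h2 : m + (k - m) = k := by omega
      have h3 : m - 1 - (k - m) = 2 * m - 1 - k := by omega
      rw [h2, h3] at h1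
      rw [h1, hv1 _ (by omega)]
  -- injectivity on even numbers
  have hvinj : ∀ k l, Even k → Even l → k < 2 * m → l < 2 * m → v k = v l → k = l := by
    intro k l hk hl hk2 hl2 hkl
    rw [Nat.even_iff] at hk hl
    by_cases h1 : k < m <;> by_cases h2 : l < m
    · rw [hv1 k h1, hv1 l h2] at hkl
      exact hinj k l h1 h2 hkl
    · rw [hv1 k h1, ← hsym l hl2, hv1 (2 * m - 1 - l) (by omega)] at hkl
      have := hinj _ _ h1 (by omega) hkl
      omega
    · rw [hv1 l h2, ← hsym k hk2, hv1 (2 * m - 1 - k) (by omega)] at hkl
      have := hinj _ _ (by omega) h2 hkl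
      omega
    · rw [← hsym l hl2, hv1 (2 * m - 1 - l) (by omega), ← hsym k hk2,
        hv1 (2 * m - 1 - k) (by omega)] at hkl
      have := hinj _ _ (by omega) (by omega) hkl
      omega
  -- the even index of `u i`
  obtain ⟨k, hk, hkm, hku⟩ : ∃ k, Even k ∧ k < 2 * m ∧ v k = u i := by
    by_cases he : Even i
    · exact ⟨i, he, by omega, hv1 i hi⟩
    · refine ⟨2 * m - 1 - i, ?_, by omega, ?_⟩
      · rw [Nat.even_iff] at he ⊢
        omega
      · rw [hsym i (by omega), hv1 i hi]
  have hit : ∀ n, (fun y => a (b y))^[n] (u i) = v (k + 2 * n) := by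
    intro n
    rw [← hku, hv]
    exact perWalk_iter a b (u 0) hk n
  constructor
  · have hper : Function.IsPeriodicPt (fun y => a (b y)) m (u i) := by
      unfold Function.IsPeriodicPt Function.IsFixedPt
      rw [hit, hv3, hku]
    have hpos := hper.minimalPeriod_pos hm
    have hle := hper.minimalPeriod_le hm
    have hmp : v (k + 2 * Function.minimalPeriod (fun y => a (b y)) (u i)) = v k := by
      rw [← hit, hku]
      exact Function.isPeriodicPt_minimalPeriod _ _
    generalize Function.minimalPeriod (fun y => a (b y)) (u i) = p at hpos hle hmp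
    by_cases h : k + 2 * p < 2 * m
    · have := hvinj _ _ (hk.add (even_two_mul p)) hk h hkm hmp
      omega
    · have h1 : k + 2 * p = (k + 2 * p - 2 * m) + 2 * m := by omega
      rw [h1, hv3] at hmp
      have he : Even (k + 2 * p - 2 * m) := by
        rw [Nat.even_iff] at hk ⊢
        omega
      have := hvinj _ _ he hk (by omega) hkm hmp
      omega
  · refine ⟨2 * m - k, ?_⟩
    rw [hit]
    have h1 : k + 2 * (2 * m - k) = (2 * m - k) + 2 * m := by omega
    rw [h1, hv3, ← hku]
    by_cases h : k = 0
    · rw [h, Nat.sub_zero]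
      have h2 := hv3 0
      rw [zero_add] at h2
      rw [h2, hv1 0 hm, h0]
    · obtain ⟨l, hl⟩ : ∃ l, k = l + 1 := ⟨k - 1, by omega⟩
      have hlo : ¬ Even l := by
        rw [Nat.even_iff] at hk ⊢
        omega
      have h2 : v k = a (v l) := by
        rw [hl]
        exact hvo l hlo
      rw [h2, haa, ← hsym l (by omega)]
      congr 1
      omega

end Pool.Agent.MP4eed4e
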