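import Mathlib
import Pool.Agent.Lib.MP_4eed4e_an.FanEnd
import Pool.Agent.Lib.MP_4eed4e_an.FanPer

/-!
Classification of the copies in a fan.
-/

namespace Pool.Agent.MP4eed4e.Fan

open Set Complex

variable {X : Type}

private theorem fs_floor {β ψ : ℝ} (hβ : 0 < β) (hψ : 0 ≤ ψ) :
    ∃ n : ℕ, n * β ≤ ψ ∧ ψ < (n + 1) * β := by
  refine ⟨⌊ψ / β⌋₊, ?_, ?_⟩
  · rw [← le_div_iff₀ hβ]
    exact Nat.floor_le (div_nonneg hψ hβ.le)
  · rw [← div_lt_iff₀ hβ]
    exact Nat.lt_floor_add_one _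

/-- a clean walk covers the sector -/
private theorem fs_sector (G : Fan X) (t : X) (m : ℕ) (hm : 0 < m)
    (hc : ∀ j, j + 1 < m → G.up t (j + 1) ≠ G.up t j) (ρ φ : ℝ) (h0 : 0 < ρ) (h1 : ρ < G.r)
    (h2 : 0 < φ) (h3 : φ < m * G.β) : G.Z t ρ φ ∈ G.D := by
  obtain ⟨n, hn1, hn2⟩ := fs_floor G.β_pos h2.le
  have hnm : n < m := by
    have h4 : (n : ℝ) * G.β < m * G.β := lt_of_le_of_lt hn1 h3
    have h5 : (n : ℝ) < m := lt_of_mul_lt_mul_right h4 G.β_pos.le
    exact_mod_cast h5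
  rcases hn1.eq_or_lt with h4 | h4
  · have hn0 : 0 < n := by
      rcases Nat.eq_zero_or_pos n with h | h
      · rw [h] at h4
        simp only [Nat.cast_zero, zero_mul] at h4
        linarith
      · exact h
    rw [← h4]
    exact G.up_ray t (m - 1) (fun j hj => hc j (by omega)) n hn0 (by omega) ρ h0 h1
  · exact G.sub _ (G.up_mem t n (fun j hj => hc j (by omega)) ρ φ h0 h1 h4 hn2)

/-- the last ray of the walk from an end -/
private theorem fs_last (G : Fan X) (t : X) (m : ℕ) (hm : 0 < m)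
    (hc : ∀ j, j + 1 < m → G.up t (j + 1) ≠ G.up t j) (he : G.up t m = G.up t (m - 1)) :
    ∃ y, (G.a y = y ∧ ∀ ρ, G.Z y ρ 0 = G.Z t ρ (m * G.β)) ∨
      (G.b y = y ∧ ∀ ρ, G.Z y ρ G.β = G.Z t ρ (m * G.β)) := by
  obtain ⟨k, rfl⟩ : ∃ k, m = k + 1 := ⟨m - 1, by omega⟩
  rw [Nat.add_sub_cancel] at he
  have hZ := G.up_Z t k (fun j hj => hc j (by omega))
  refine ⟨G.up t k, ?_⟩
  have he' : (if Even k then G.b (G.up t k) else G.a (G.up t k)) = G.up t k := he
  by_cases hk : Even k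
  · rw [if_pos hk] at he'
    refine Or.inr ⟨he', fun ρ => ?_⟩
    rw [hZ, if_pos hk]
    congr 1
    push_cast
    ring
  · rw [if_neg hk] at he'
    refine Or.inl ⟨he', fun ρ => ?_⟩
    rw [hZ, if_neg hk]
    congr 1
    push_cast
    ring

private theorem fs_out (F : Fan X) (w : ℝ → ℂ)
    (h : ∃ y, (F.a y = y ∧ ∀ ρ, F.Z y ρ 0 = w ρ) ∨ (F.b y = y ∧ ∀ ρ, F.Z y ρ F.β = w ρ))
    (ρ : ℝ) (h0 : 0 ≤ ρ) (h1 : ρ < F.r) : w ρ ∉ F.D := by
  obtain ⟨y, ⟨hy, hw⟩ | ⟨hy, hw⟩⟩ := h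
  · rw [← hw]
    exact F.na y hy ρ h0 h1
  · rw [← hw]
    exact F.nb y hy ρ h0 h1

/-- the second case -/
private theorem fs_aux (F G : Fan X) (x t : X) (p : ℕ) (hβ : G.β = F.β) (hr : G.r = F.r)
    (hD : G.D = F.D) (hta : G.a t = t) (hback : ∀ j ≤ p, G.up t j = F.up x (p - j))
    (hclean : ∀ j < p, F.up x (j + 1) ≠ F.up x j)
    (hZ : (∀ j < p, G.up t (j + 1) ≠ G.up t j) → G.up t p = x →
      ∀ ρ ψ, F.Z x ρ ψ = G.Z t ρ ((p + 1) * F.β - ψ))
    (hconv : ∀ (y : X) (w : ℝ → ℂ), ((G.a y = y ∧ ∀ ρ, G.Z y ρ 0 = w ρ) ∨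
      (G.b y = y ∧ ∀ ρ, G.Z y ρ G.β = w ρ)) → ((F.a y = y ∧ ∀ ρ, F.Z y ρ 0 = w ρ) ∨
      (F.b y = y ∧ ∀ ρ, F.Z y ρ F.β = w ρ)))
    (hstepx : G.up t p = x → F.a x = x → G.up t (p + 1) = G.up t p)
    (hper : ∀ m n : ℕ, 0 < m → Function.minimalPeriod (fun y => G.a (G.b y)) x = m →
      (fun y => G.a (G.b y))^[n] x = G.a x →
      Function.minimalPeriod (fun y => F.a (F.b y)) x = m ∧
        ∃ n : ℕ, (fun y => F.a (F.b y))^[n] x = F.a x) :
    ∃ m i : ℕ, i < m ∧ Function.minimalPeriod (fun y => F.a (F.b y)) x = m ∧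
      m * F.β < 2 * Real.pi ∧ (F.a x = x → i = 0) ∧ (F.b x = x → i + 1 = m) ∧
      (∃ n : ℕ, (fun y => F.a (F.b y))^[n] x = F.a x) ∧
      (∀ ρ ψ : ℝ, 0 < ρ → ρ < F.r → -(i * F.β) < ψ → ψ < (m - i) * F.β → F.Z x ρ ψ ∈ F.D) ∧
      (∀ ρ : ℝ, 0 ≤ ρ → ρ < F.r → F.Z x ρ (-(i * F.β)) ∉ F.D ∧
        F.Z x ρ ((m - i) * F.β) ∉ F.D) ∧
      (∃ y, (F.a y = y ∧ ∀ ρ, F.Z y ρ 0 = F.Z x ρ (-(i * F.β))) ∨
        (F.b y = y ∧ ∀ ρ, F.Z y ρ F.β = F.Z x ρ (-(i * F.β)))) ∧
      (∃ y, (F.a y = y ∧ ∀ ρ, F.Z y ρ 0 = F.Z x ρ ((m - i) * F.β)) ∨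
        (F.b y = y ∧ ∀ ρ, F.Z y ρ F.β = F.Z x ρ ((m - i) * F.β))) := by
  obtain ⟨m, hm, hc, he, hmβ, hinj⟩ := G.end_path t hta
  have hvp : G.up t p = x := by
    rw [hback p le_rfl, Nat.sub_self]
    rfl
  have hmove : ∀ j < p, G.up t (j + 1) ≠ G.up t j := by
    intro j hj
    rw [hback (j + 1) hj, hback j hj.le]
    have h1 := hclean (p - (j + 1)) (by omega)
    rw [show p - (j + 1) + 1 = p - j by omega] at h1
    exact h1.symm
  have hpm : p < m := by
    by_contra hcon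
    push Not at hcon
    have h1 := hmove (m - 1) (by omega)
    rw [Nat.sub_add_cancel hm] at h1
    exact h1 he
  have hZ' := hZ hmove hvp
  obtain ⟨i, hi⟩ : ∃ i, m = p + 1 + i := ⟨m - (p + 1), by omega⟩
  have hmi : ((m : ℝ) - i) * F.β = (p + 1) * F.β := by
    rw [hi]
    push_cast
    ring
  have hup : ∀ ρ, F.Z x ρ ((m - i) * F.β) = G.Z t ρ 0 := by
    intro ρ
    rw [hmi, hZ' ρ, sub_self]
  have hlow : ∀ ρ, F.Z x ρ (-(i * F.β)) = G.Z t ρ (m * G.β) := by
    intro ρ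
    rw [hZ' ρ]
    congr 1
    rw [hβ, hi]
    push_cast
    ring
  obtain ⟨hp1, n, hp2⟩ := period_path G.a G.b G.haa G.hbb (G.up t) m hm hta
    (fun j _ => rfl) (by
      obtain ⟨k, rfl⟩ : ∃ k, m = k + 1 := ⟨m - 1, by omega⟩
      rw [Nat.add_sub_cancel] at he ⊢
      exact he) hinj p hpm
  rw [hvp] at hp1 hp2
  obtain ⟨hq1, hq2⟩ := hper m n hm hp1 hp2
  have hE1 : ∃ y, (F.a y = y ∧ ∀ ρ, F.Z y ρ 0 = F.Z x ρ (-(i * F.β))) ∨
        (F.b y = y ∧ ∀ ρ, F.Z y ρ F.β = F.Z x ρ (-(i * F.β))) := by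
    obtain ⟨y, hy⟩ := fs_last G t m hm hc he
    refine ⟨y, hconv y (fun ρ => F.Z x ρ (-(i * F.β))) ?_⟩
    simp only [hlow]
    exact hy
  have hE2 : ∃ y, (F.a y = y ∧ ∀ ρ, F.Z y ρ 0 = F.Z x ρ ((m - i) * F.β)) ∨
        (F.b y = y ∧ ∀ ρ, F.Z y ρ F.β = F.Z x ρ ((m - i) * F.β)) := by
    refine ⟨t, hconv t (fun ρ => F.Z x ρ ((m - i) * F.β)) (Or.inl ⟨hta, fun ρ => ?_⟩)⟩
    exact (hup ρ).symm
  refine ⟨m, i, by omega, hq1, ?_, ?_, ?_, hq2, ?_, ?_, hE1, hE2⟩
  · rw [← hβ]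
    exact hmβ
  · intro hax
    by_contra hi0
    exact hc p (by omega) (hstepx hvp hax)
  · intro hbx
    have hp0 : p = 0 := by
      by_contra hp0
      have h1 := hclean 0 (by omega)
      exact h1 hbx
    omega
  · intro ρ ψ h0 h1 h2 h3
    rw [hZ' ρ ψ, ← hD]
    have h4 : 0 < (p + 1) * F.β - ψ := by linarith
    have h5 : (p + 1) * F.β - ψ < m * G.β := by
      rw [hβ, hi]
      push_cast
      linarith
    exact fs_sector G t m hm hc ρ _ h0 (by rw [hr]; exact h1) h4 h5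
  · intro ρ h0 h1
    exact ⟨fs_out F _ hE1 ρ h0 h1, fs_out F _ hE2 ρ h0 h1⟩

/-- inverse maps have the same periods -/
private theorem fs_per {c c' : X → X} (h1 : ∀ y, c (c' y) = y) (h2 : ∀ y, c' (c y) = y) (x : X) :
    Function.minimalPeriod c x = Function.minimalPeriod c' x := by
  rw [Function.minimalPeriod_eq_minimalPeriod_iff]
  intro n
  have h3 : Function.LeftInverse c^[n] c'^[n] := Function.LeftInverse.iterate h1 n
  have h4 : Function.LeftInverse c'^[n] c^[n] := Function.LeftInverse.iterate h2 n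
  constructor
  · intro h
    have h5 : c^[n] x = x := h
    have h6 := h4 x
    rw [h5] at h6
    exact h6
  · intro h
    have h5 : c'^[n] x = x := h
    have h6 := h3 x
    rw [h5] at h6
    exact h6

private theorem fs_orb {c c' : X → X} (h2 : ∀ y, c' (c y) = y) (x : X)
    {m : ℕ} (hm : 0 < m) (hp : Function.minimalPeriod c x = m) (n : ℕ) :
    ∃ q : ℕ, c^[q] x = c'^[n] x := by
  have h4 : Function.LeftInverse c'^[n] c^[n] := Function.LeftInverse.iterate h2 n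
  have h5 : Function.IsPeriodicPt c (m * n) x := by
    have h6 := Function.isPeriodicPt_minimalPeriod c x
    rw [hp] at h6
    exact h6.mul_const n
  obtain ⟨q, hq⟩ : ∃ q, m * n = n + q := ⟨m * n - n, by
    have h6 : n ≤ m * n := Nat.le_mul_of_pos_left n hm
    omega⟩
  refine ⟨q, ?_⟩
  have h7 : c^[n + q] x = x := by
    rw [← hq]
    exact h5
  rw [Function.iterate_add_apply] at h7
  have h8 := h4 (c^[q] x)
  rw [h7] at h8
  exact h8.symm

/-- all points of the punctured ball have polar coordinates -/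
private theorem fs_polar (F : Fan X) (x : X) : ∃ P : ℂ, F.Z x 0 0 = P ∧
    ∀ z ∈ Metric.ball P F.r, z ≠ P → ∃ ρ ψ : ℝ, 0 < ρ ∧ ρ < F.r ∧ 0 < ψ ∧ ψ ≤ 2 * Real.pi ∧
      z = F.Z x ρ ψ := by
  obtain ⟨P, U, η, hU, hη, hZ⟩ := F.polar x
  refine ⟨P, ?_, ?_⟩
  · rw [hZ]
    simp
  intro z hz hzP
  have hη2 : η * η = 1 := by
    rcases hη with h | h
    · rw [h]; norm_num
    · rw [h]; norm_num
  have hU0 : U ≠ 0 := by
    rw [← norm_pos_iff, hU]
    norm_num
  set ρ : ℝ := ‖z - P‖ with hρ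
  have hρ0 : 0 < ρ := norm_pos_iff.mpr (sub_ne_zero.mpr hzP)
  have hρr : ρ < F.r := by
    rw [hρ, ← dist_eq_norm]
    exact hz
  have hρc : (ρ : ℂ) ≠ 0 := by exact_mod_cast hρ0.ne'
  set q : ℂ := (z - P) / U with hq
  have hqn : ‖q‖ = ρ := by
    rw [hq, norm_div, hU, div_one]
  have hqe : (ρ : ℂ) * exp (q.arg * I) = q := by
    rw [← hqn]
    exact Complex.norm_mul_exp_arg_mul_I q
  set θ : ℝ := toIocMod Real.two_pi_pos 0 (η * q.arg) with hθ
  have hθm := toIocMod_mem_Ioc Real.two_pi_pos 0 (η * q.arg)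
  have hθe : η * q.arg - θ = toIocDiv Real.two_pi_pos 0 (η * q.arg) * (2 * Real.pi) := by
    have h1 := self_sub_toIocMod Real.two_pi_pos 0 (η * q.arg)
    rw [zsmul_eq_mul] at h1
    exact h1
  refine ⟨ρ, θ, hρ0, hρr, hθm.1, by simpa using hθm.2, ?_⟩
  rw [hZ]
  set k : ℤ := toIocDiv Real.two_pi_pos 0 (η * q.arg) with hk
  have h1 : (η * θ * I : ℂ) = q.arg * I - (η : ℂ) * (k * (2 * Real.pi * I)) := by
    have h2 : θ = η * q.arg - k * (2 * Real.pi) := by linarith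
    rw [h2]
    have h3 : (η : ℂ) * η = 1 := by exact_mod_cast hη2
    push_cast
    linear_combination (q.arg * I : ℂ) * h3
  have h4 : exp ((η : ℂ) * (k * (2 * Real.pi * I))) = 1 := by
    rcases hη with h | h
    · rw [h]
      push_cast
      rw [one_mul]
      exact Complex.exp_int_mul_two_pi_mul_I k
    · rw [h]
      have h5 : (((-1 : ℝ) : ℂ) * (k * (2 * Real.pi * I))) =
          ((-k : ℤ) : ℂ) * (2 * Real.pi * I) := by
        push_cast
        ring
      rw [h5]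
      exact Complex.exp_int_mul_two_pi_mul_I (-k)
  rw [h1, Complex.exp_sub, h4, div_one]
  have h6 : (ρ : ℂ) * U * exp (q.arg * I) = U * q := by
    have h7 : (ρ : ℂ) * U * exp (q.arg * I) = U * (ρ * exp (q.arg * I)) := by ring
    rw [h7, hqe]
  rw [h6, hq, mul_div_cancel₀ _ hU0]
  ring

theorem star (F : Fan X) (x : X) :
    (∃ k : ℕ, 0 < k ∧ k * F.β = Real.pi ∧
      Function.minimalPeriod (fun y => F.a (F.b y)) x = k ∧ F.Z x 0 0 ∈ F.D) ∨
    (∃ m i : ℕ, i < m ∧ Function.minimalPeriod (fun y => F.a (F.b y)) x = m ∧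
      m * F.β < 2 * Real.pi ∧ (F.a x = x → i = 0) ∧ (F.b x = x → i + 1 = m) ∧
      (∃ n : ℕ, (fun y => F.a (F.b y))^[n] x = F.a x) ∧
      (∀ ρ ψ : ℝ, 0 < ρ → ρ < F.r → -(i * F.β) < ψ → ψ < (m - i) * F.β → F.Z x ρ ψ ∈ F.D) ∧
      (∀ ρ : ℝ, 0 ≤ ρ → ρ < F.r → F.Z x ρ (-(i * F.β)) ∉ F.D ∧
        F.Z x ρ ((m - i) * F.β) ∉ F.D) ∧
      (∃ y, (F.a y = y ∧ ∀ ρ, F.Z y ρ 0 = F.Z x ρ (-(i * F.β))) ∨
        (F.b y = y ∧ ∀ ρ, F.Z y ρ F.β = F.Z x ρ (-(i * F.β)))) ∧
      (∃ y, (F.a y = y ∧ ∀ ρ, F.Z y ρ 0 = F.Z x ρ ((m - i) * F.β)) ∨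
        (F.b y = y ∧ ∀ ρ, F.Z y ρ F.β = F.Z x ρ ((m - i) * F.β)))) := by
  have hβ := F.β_pos
  obtain ⟨n0, hn1, hn2⟩ := fs_floor hβ Real.two_pi_pos.le
  have hn0 : 0 < n0 := by
    rcases Nat.eq_zero_or_pos n0 with h | h
    · rw [h] at hn2
      simp only [Nat.cast_zero, zero_add, one_mul] at hn2
      exact absurd F.β_lt (not_lt.mpr hn2.le)
    · exact h
  by_cases hclean : ∀ j < n0, F.up x (j + 1) ≠ F.up x j
  · left
    obtain ⟨ho1, ho2, ho3⟩ := F.up_overlap x n0 hclean hn0 hn1 hn2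
    obtain ⟨k, hk⟩ := ho2
    have hk0 : 0 < k := by omega
    have hit : ∀ j : ℕ, (fun y => F.a (F.b y))^[j] x = F.up x (j + j) := by
      intro j
      induction j with
      | zero => rfl
      | succ j ih =>
        rw [Function.iterate_succ_apply', ih]
        have e1 : F.up x (j + j + 1) = F.b (F.up x (j + j)) := by
          show (if Even (j + j) then F.b (F.up x (j + j)) else F.a (F.up x (j + j))) = _
          rw [if_pos ⟨j, rfl⟩]
        have e2 : F.up x (j + j + 1 + 1) = F.a (F.up x (j + j + 1)) := by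
          show (if Even (j + j + 1) then F.b (F.up x (j + j + 1)) else
            F.a (F.up x (j + j + 1))) = _
          rw [if_neg]
          rw [Nat.not_even_iff_odd]
          exact ⟨j, by ring⟩
        rw [show j + 1 + (j + 1) = j + j + 1 + 1 by ring, e2, e1]
    refine ⟨k, hk0, ?_, ?_, ?_⟩
    · rw [hk] at ho1
      push_cast at ho1
      linarith
    · have hper : Function.IsPeriodicPt (fun y => F.a (F.b y)) k x := by
        show (fun y => F.a (F.b y))^[k] x = x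
        rw [hit, ← hk, ho3]
      refine le_antisymm (hper.minimalPeriod_le hk0) ?_
      by_contra hcon
      push Not at hcon
      set j := Function.minimalPeriod (fun y => F.a (F.b y)) x with hj
      have hj0 : 0 < j := hper.minimalPeriod_pos hk0
      have h1 : (fun y => F.a (F.b y))^[j] x = x :=
        Function.isPeriodicPt_minimalPeriod (fun y => F.a (F.b y)) x
      rw [hit] at h1
      refine F.up_ne x 0 (j + j) (fun l hl => hclean l (by omega)) (by omega) ?_ h1.symm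
      have h2 : ((j + j : ℕ) : ℝ) < n0 := by exact_mod_cast (by omega : j + j < n0)
      have h3 : ((j + j : ℕ) : ℝ) * F.β < n0 * F.β := mul_lt_mul_of_pos_right h2 hβ
      rw [ho1] at h3
      simpa using h3
    · obtain ⟨P, hP, hball⟩ := fs_polar F x
      rw [hP]
      refine F.reg P F.r F.r_pos fun z hz hzP => ?_
      obtain ⟨ρ, ψ, h0, h1, h2, h3, rfl⟩ := hball z hz hzP
      obtain ⟨n, hn1', hn2'⟩ := fs_floor hβ h2.le
      rcases hn1'.eq_or_lt with h4 | h4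
      · have hn0' : 0 < n := by
          rcases Nat.eq_zero_or_pos n with h | h
          · rw [h] at h4
            simp only [Nat.cast_zero, zero_mul] at h4
            linarith
          · exact h
        have h5 : n ≤ n0 := by
          have h6 : (n : ℝ) * F.β ≤ n0 * F.β := by linarith
          have h7 : (n : ℝ) ≤ n0 := le_of_mul_le_mul_right h6 hβ
          exact_mod_cast h7
        rw [← h4]
        exact F.up_ray x n0 hclean n hn0' h5 ρ h0 h1
      · have h5 : n < n0 := by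
          have h6 : (n : ℝ) * F.β < n0 * F.β := by linarith
          have h7 : (n : ℝ) < n0 := lt_of_mul_lt_mul_right h6 hβ.le
          exact_mod_cast h7
        exact F.sub _ (F.up_mem x n (fun j hj => hclean j (by omega)) ρ ψ h0 h1 h4 hn2')
  · right
    push Not at hclean
    classical
    have hex : ∃ p, F.up x (p + 1) = F.up x p := by
      obtain ⟨j, -, hj⟩ := hclean
      exact ⟨j, hj⟩
    set p := Nat.find hex with hp
    have hpe : F.up x (p + 1) = F.up x p := Nat.find_spec hex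
    have hpc : ∀ j < p, F.up x (j + 1) ≠ F.up x j := fun j hj => Nat.find_min hex hj
    have hpe' : (if Even p then F.b (F.up x p) else F.a (F.up x p)) = F.up x p := hpe
    by_cases hev : Even p
    · rw [if_pos hev] at hpe'
      refine fs_aux F F.op x (F.up x p) p rfl rfl rfl hpe' ?_ hpc ?_ ?_ ?_ ?_
      · intro j hj
        have h1 := F.up_back x p j hj
        rwa [if_pos hev] at h1
      · intro hm hx ρ ψ
        have h1 := F.op.up_Z (F.up x p) p hm ρ (F.β - ψ)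
        rw [if_pos hev, hx] at h1
        have h2 : F.op.Z x ρ (F.β - ψ) = F.Z x ρ ψ := by
          show F.Z x ρ (F.β - (F.β - ψ)) = F.Z x ρ ψ
          congr 1
          ring
        rw [← h2, h1]
        congr 1
        show p * F.β + (F.β - ψ) = (p + 1) * F.β - ψ
        ring
      · rintro y w (⟨h1, h2⟩ | ⟨h1, h2⟩)
        · refine Or.inr ⟨h1, fun ρ => ?_⟩
          rw [← h2 ρ]
          show F.Z y ρ F.β = F.Z y ρ (F.β - 0)
          rw [sub_zero]
        · refine Or.inl ⟨h1, fun ρ => ?_⟩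
          rw [← h2 ρ]
          show F.Z y ρ 0 = F.Z y ρ (F.β - F.β)
          rw [sub_self]
      · intro hx hax
        show (if Even p then F.op.b (F.op.up (F.up x p) p) else
          F.op.a (F.op.up (F.up x p) p)) = F.op.up (F.up x p) p
        rw [if_pos hev, hx]
        exact hax
      · intro m n hm h1 h2
        have hcc : ∀ y, F.a (F.b (F.b (F.a y))) = y := fun y => by rw [F.hbb, F.haa]
        have hcc' : ∀ y, F.b (F.a (F.a (F.b y))) = y := fun y => by rw [F.haa, F.hbb]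
        have h3 : Function.minimalPeriod (fun y => F.a (F.b y)) x = m := by
          rw [← h1]
          exact fs_per (c := fun y => F.a (F.b y)) (c' := fun y => F.b (F.a y)) hcc hcc' x
        refine ⟨h3, ?_⟩
        obtain ⟨q, hq⟩ := fs_orb (c := fun y => F.a (F.b y)) (c' := fun y => F.b (F.a y))
          hcc' x hm h3 n
        refine ⟨q + 1, ?_⟩
        rw [Function.iterate_succ_apply', hq]
        have h4 : (fun y => F.b (F.a y))^[n] x = F.b x := h2
        rw [h4]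
        show F.a (F.b (F.b x)) = F.a x
        rw [F.hbb]
    · rw [if_neg hev] at hpe'
      refine fs_aux F F x (F.up x p) p rfl rfl rfl hpe' ?_ hpc ?_ ?_ ?_ ?_
      · intro j hj
        have h1 := F.up_back x p j hj
        rwa [if_neg hev] at h1
      · intro hm hx ρ ψ
        have h1 := F.up_Z (F.up x p) p hm ρ ψ
        rw [if_neg hev, hx] at h1
        exact h1
      · exact fun y w h => h
      · intro hx hax
        show (if Even p then F.b (F.up (F.up x p) p) else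
          F.a (F.up (F.up x p) p)) = F.up (F.up x p) p
        rw [if_neg hev, hx]
        exact hax
      · exact fun m n hm h1 h2 => ⟨h1, n, h2⟩

end Pool.Agent.MP4eed4e.Fan
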