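import Mathlib
import Pool.Agent.Lib.MP_4eed4e_an.FanStar
import Pool.Agent.Lib.MP_4eed4e_an.FanInst

/-!
The copies around a vertex of a tiling, and the boundary of `D`.
-/

namespace Pool.Agent.MP4eed4e

open Set Complex

variable {τ : Tile} {D : Set ℂ}

/-- Interior vertices. -/
def Tiling.IntStar (A : Tiling τ D) (s : τ.S) (x : A.X) (k : ℕ) : Prop :=
  0 < k ∧ k * τ.ang s = Real.pi ∧ Function.minimalPeriod (A.rot s) x = k ∧
    A.g x (τ.p s) ∈ D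

/-- Boundary vertices: `m` copies, `i` of them below `x`. -/
def Tiling.BdStar (A : Tiling τ D) (s : τ.S) (x : A.X) (m i : ℕ) : Prop :=
  i < m ∧ Function.minimalPeriod (A.rot s) x = m ∧ m * τ.ang s < 2 * Real.pi ∧
    (A.nb s x = x → i = 0) ∧ (A.nb (τ.prev s) x = x → i + 1 = m) ∧
    (∃ n : ℕ, (A.rot s)^[n] x = A.nb s x) ∧
    (∀ ρ ψ : ℝ, 0 < ρ → ρ < τ.rad s → -(i * τ.ang s) < ψ → ψ < (m - i) * τ.ang s →
      A.Z s x ρ ψ ∈ D) ∧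
    (∀ ρ : ℝ, 0 ≤ ρ → ρ < τ.rad s → A.Z s x ρ (-(i * τ.ang s)) ∉ D ∧
      A.Z s x ρ ((m - i) * τ.ang s) ∉ D) ∧
    (∃ y l, A.nb l y = y ∧ ∀ ρ : ℝ, 0 ≤ ρ → ρ < τ.rad s →
      A.Z s x ρ (-(i * τ.ang s)) ∈ A.g y '' τ.sd l) ∧
    (∃ y l, A.nb l y = y ∧ ∀ ρ : ℝ, 0 ≤ ρ → ρ < τ.rad s →
      A.Z s x ρ ((m - i) * τ.ang s) ∈ A.g y '' τ.sd l)

private theorem star_side (A : Tiling τ D) (s : τ.S) (x : A.X) (ψ : ℝ)
    (h : ∃ y, (A.nb s y = y ∧ ∀ ρ, A.Z s y ρ 0 = A.Z s x ρ ψ) ∨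
        (A.nb (τ.prev s) y = y ∧ ∀ ρ, A.Z s y ρ (τ.ang s) = A.Z s x ρ ψ)) :
    ∃ y l, A.nb l y = y ∧ ∀ ρ : ℝ, 0 ≤ ρ → ρ < τ.rad s → A.Z s x ρ ψ ∈ A.g y '' τ.sd l := by
  obtain ⟨y, ⟨h1, h2⟩ | ⟨h1, h2⟩⟩ := h
  · refine ⟨y, s, h1, fun ρ h3 h4 => ?_⟩
    rw [← h2]
    exact A.Z_zero_mem' s y ρ h3 h4
  · refine ⟨y, τ.prev s, h1, fun ρ h3 h4 => ?_⟩
    rw [← h2]
    exact A.Z_ang_mem' s y ρ h3 h4

theorem Tiling.star (A : Tiling τ D) (s : τ.S) (x : A.X) :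
    (∃ k, A.IntStar s x k) ∨ ∃ m i, A.BdStar s x m i := by
  obtain ⟨F, ha, hb, hβ, hr, hZ, hD⟩ := A.exists_fan s
  have hrot : (fun y => F.a (F.b y)) = A.rot s := by
    funext y
    rw [ha, hb]
    rfl
  have h0 : A.Z s x 0 0 = A.g x (τ.p s) := by
    simp [Tiling.Z]
  have h := F.star x
  rw [hrot, hβ, hr, hZ, ha, hb] at h
  rcases h with ⟨k, h1, h2, h3, h4⟩ | ⟨m, i, h1, h2, h3, h4, h5, h6, h7, h8, h9, h10⟩
  · left
    refine ⟨k, h1, h2, h3, ?_⟩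
    rw [hD] at h4
    rw [← h0]
    exact h4
  · right
    rw [hD] at h7 h8
    exact ⟨m, i, h1, h2, h3, h4, h5, h6, h7, h8, star_side A s x _ h9, star_side A s x _ h10⟩

private theorem frontier_vertex (A : Tiling τ D) {z : ℂ} (hz : z ∉ D) (s : τ.S) (x : A.X)
    (h : z = A.g x (τ.p s)) : ∃ y l, A.nb l y = y ∧ z ∈ A.g y '' τ.sd l := by
  rcases A.star s x with ⟨k, -, -, -, h4⟩ | ⟨m, i, h1, h2, h3, h4, h5, h6, h7, h8, h9, h10⟩
  · rw [← h] at h4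
    exact absurd h4 hz
  · obtain ⟨y, l, hy, hmem⟩ := h9
    obtain ⟨-, -, -, -, hr, -⟩ := τ.frame_spec s
    have := hmem 0 le_rfl hr
    have h0 : A.Z s x 0 (-(i * τ.ang s)) = A.g x (τ.p s) := by
      simp [Tiling.Z]
    rw [h0, ← h] at this
    exact ⟨y, l, hy, this⟩

/-- The boundary of `D` is the union of the boundary sides. -/
theorem Tiling.frontier_eq (A : Tiling τ D) :
    frontier D = ⋃ z : {z : A.X × τ.S // A.nb z.2 z.1 = z.1}, A.g z.1.1 '' τ.sd z.1.2 := by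
  apply subset_antisymm
  · intro z hz
    have hO := A.isOpen
    rw [frontier, hO.interior_eq] at hz
    obtain ⟨hzc, hzD⟩ := hz
    have key : ∃ y l, A.nb l y = y ∧ z ∈ A.g y '' τ.sd l := by
      rcases A.mem_cases hzc with ⟨x, hx⟩ | ⟨x, l, hxl⟩
      · exact absurd (A.tile_sub x hx) hzD
      · by_cases hb : A.nb l x = x
        · exact ⟨x, l, hb, hxl⟩
        · obtain ⟨w, hw, rfl⟩ := hxl
          rw [Tile.sd, ← insert_endpoints_openSegment] at hw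
          rcases hw with rfl | rfl | hw
          · exact frontier_vertex A hzD l x rfl
          · exact frontier_vertex A hzD (τ.next l) x rfl
          · exact absurd (A.od_sub hb ⟨w, hw, rfl⟩) hzD
    obtain ⟨y, l, hy, hzy⟩ := key
    exact mem_iUnion.mpr ⟨⟨(y, l), hy⟩, hzy⟩
  · intro z hz
    obtain ⟨⟨⟨y, l⟩, hy⟩, hzy⟩ := mem_iUnion.mp hz
    exact A.bd l y hy hzy

end Pool.Agent.MP4eed4e
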