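import Mathlib
import Pool.Agent.Lib.MP_4eed4e_an.Star

/-!
Only finitely many reflections in boundary segments.
-/

namespace Pool.Agent.MP4eed4e

open Set

variable {τ : Tile} {D : Set ℂ}

private theorem BaseA.lam_add (a b c v : ℂ) (t : ℝ) :
    lam a b (c + t * v) = lam a b c + t * (v * (starRingEnd ℂ) (b - a)).im := by
  unfold lam
  have e1 : (c + (t : ℂ) * v - a) * (starRingEnd ℂ) (b - a) =
      (c - a) * (starRingEnd ℂ) (b - a) + (t : ℂ) * (v * (starRingEnd ℂ) (b - a)) := by ring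
  rw [e1, Complex.add_im, Complex.im_ofReal_mul]

/-- Only finitely many reflections in boundary segments. -/
theorem Tiling.refl_finite (A : Tiling τ D) :
    {S : Iso | ∃ a b, ∃ h : a ≠ b, segment ℝ a b ⊆ frontier D ∧ S = reflI a b h}.Finite := by
  classical
  have hne : ∀ z : A.X × τ.S, A.g z.1 (τ.p z.2) ≠ A.g z.1 (τ.p (τ.next z.2)) := fun z =>
    (A.g z.1).injective.ne (τ.p_ne z.2)
  refine (Set.finite_range fun z : A.X × τ.S =>
    reflI (A.g z.1 (τ.p z.2)) (A.g z.1 (τ.p (τ.next z.2))) (hne z)).subset ?_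
  rintro S ⟨a, b, h, hsub, rfl⟩
  have hinf : (Set.Icc (0 : ℝ) 1).Infinite := Set.Icc_infinite one_pos
  have hmem : ∀ t ∈ Set.Icc (0 : ℝ) 1, ∃ z : A.X × τ.S,
      a + (t : ℂ) * (b - a) ∈ segment ℝ (A.g z.1 (τ.p z.2)) (A.g z.1 (τ.p (τ.next z.2))) := by
    intro t ht
    have h1 : a + (t : ℂ) * (b - a) ∈ segment ℝ a b := by
      refine ⟨1 - t, t, by linarith [ht.2], ht.1, by ring, ?_⟩
      simp only [Complex.real_smul]
      push_cast
      ring
    have h2 := hsub h1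
    rw [A.frontier_eq] at h2
    obtain ⟨z, hz⟩ := Set.mem_iUnion.mp h2
    rw [iso_segment] at hz
    exact ⟨z.1, hz⟩
  have hnon : Nonempty (A.X × τ.S) := ⟨(hmem 0 ⟨le_rfl, zero_le_one⟩).choose⟩
  choose! f hf using hmem
  obtain ⟨t, ht, t', ht', htt, hff⟩ := hinf.exists_ne_map_eq_of_mapsTo
    (f := f) (t := Set.univ) (fun _ _ => Set.mem_univ _) Set.finite_univ
  have e1 := lam_of_mem_segment (hf t ht)
  have e2 := lam_of_mem_segment (hf t' ht')
  rw [← hff, BaseA.lam_add] at e2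
  rw [BaseA.lam_add] at e1
  set B0 := ((b - a) * (starRingEnd ℂ) (A.g (f t).1 (τ.p (τ.next (f t).2)) -
    A.g (f t).1 (τ.p (f t).2))).im with hB0
  have e3 : (t - t') * B0 = 0 := by linarith
  have e4 : B0 = 0 := by
    rcases mul_eq_zero.mp e3 with h1 | h1
    · exact absurd (sub_eq_zero.mp h1) htt
    · exact h1
  rw [e4, mul_zero, add_zero] at e1
  have e5 : lam (A.g (f t).1 (τ.p (f t).2)) (A.g (f t).1 (τ.p (τ.next (f t).2))) b = 0 := by
    have e6 := BaseA.lam_add (A.g (f t).1 (τ.p (f t).2)) (A.g (f t).1 (τ.p (τ.next (f t).2)))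
      a (b - a) 1
    rw [← hB0, e4, e1] at e6
    have e7 : a + ((1 : ℝ) : ℂ) * (b - a) = b := by
      push_cast
      ring
    rw [e7] at e6
    linarith
  exact ⟨f t, (reflI_congr (hne (f t)) h e1 e5).symm⟩

end Pool.Agent.MP4eed4e
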