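import Mathlib
import Pool.Agent.Lib.MP_4eed4e_an.Base
import Pool.Agent.Lib.MP_4eed4e_an.IsoA

/-!
Cutting billiard segments; the reflections used.
-/

namespace Pool.Agent.MP4eed4e

open Set

private theorem FoldBil_fold {D : Set ℂ} {e : ℂ} {S : Iso} (h : FoldAt D e S) :
    S e = e ∧ S⁻¹ = S := by
  obtain ⟨a, b, hab, he, _, rfl⟩ := h
  exact ⟨(refl_eq_self_iff hab e).2 (lam_of_mem_segment (openSegment_subset_segment _ _ _ he)),
    reflI_inv hab⟩

private theorem FoldBil_seg {c d e f : ℂ} (he : e ∈ openSegment ℝ c d)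
    (hf : f ∈ openSegment ℝ e d) : f ∈ openSegment ℝ c d ∧ e ∈ openSegment ℝ c f := by
  obtain ⟨α, β, hα, hβ, hαβ, rfl⟩ := he
  obtain ⟨γ, δ, hγ, hδ, hγδ, rfl⟩ := hf
  have h1 : 0 < γ * β + δ := by positivity
  have hβ1 : β < 1 := by linarith
  have h2 : β < γ * β + δ := by
    have : γ = 1 - δ := by linarith
    rw [this]
    nlinarith
  constructor
  · refine ⟨γ * α, γ * β + δ, by positivity, h1, ?_, ?_⟩
    · have : γ * α + (γ * β + δ) = γ * (α + β) + δ := by ring
      rw [this, hαβ, mul_one, hγδ]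
    · simp only [Complex.real_smul]
      push_cast
      ring
  · obtain ⟨t, ht⟩ : ∃ t : ℝ, t = β / (γ * β + δ) := ⟨_, rfl⟩
    have htp : 0 < t := by rw [ht]; positivity
    have ht1 : t < 1 := by
      rw [ht, div_lt_one h1]
      exact h2
    have hte : t * (γ * β + δ) = β := by
      rw [ht]
      field_simp
    refine ⟨1 - t, t, by linarith, htp, by ring, ?_⟩
    simp only [Complex.real_smul]
    have htc : (t : ℂ) * ((γ : ℂ) * β + δ) = β := by
      exact_mod_cast hte
    have hαc : (α : ℂ) = 1 - β := by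
      have : α = 1 - β := by linarith
      rw [this]
      push_cast
      ring
    have hγc : (γ : ℂ) = 1 - δ := by
      have : γ = 1 - δ := by linarith
      rw [this]
      push_cast
      ring
    rw [hγc] at htc
    rw [hαc, hγc]
    push_cast
    linear_combination (d - c) * htc

/-- Cutting a billiard segment at its reflection number `m + 1`. -/
theorem Bil.split {D : Set ℂ} {R : Set Iso} {m n : ℕ} {w : Iso} {c d : ℂ}
    (h : Bil D R (m + 1 + n) w c d) :
    ∃ (e : ℂ) (w₁ w₂ S : Iso), e ∈ openSegment ℝ c d ∧ Bil D R m w₁ c e ∧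
      FoldAt D (w₁⁻¹ e) S ∧ S ∈ R ∧ Bil D R n w₂ (w₁⁻¹ e) (S (w₁⁻¹ d)) := by
  induction m generalizing w c d with
  | zero =>
    have h' : Bil D R (n + 1) w c d := by
      have : n + 1 = 0 + 1 + n := by omega
      rw [this]
      exact h
    cases h' with
    | fold _ w' _ _ e S he hce hF hS hb =>
      exact ⟨e, 1, w', S, he, Bil.nil c e hce, by simpa using hF, hS, by simpa using hb⟩
  | succ m ih =>
    have h' : Bil D R ((m + 1 + n) + 1) w c d := by
      have : (m + 1 + n) + 1 = m + 1 + 1 + n := by omega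
      rw [this]
      exact h
    cases h' with
    | fold _ w' _ _ e0 S0 he0 hce0 hF0 hS0 hb =>
      obtain ⟨hS0e, hS0i⟩ := FoldBil_fold hF0
      have hSS : ∀ z, S0 (S0 z) = z := by
        intro z
        have : S0⁻¹ (S0 z) = z := S0.symm_apply_apply z
        rwa [hS0i] at this
      obtain ⟨e', w1', w2, S, he', h1, hF, hSR, h2⟩ := ih hb
      have he'' : S0 e' ∈ openSegment ℝ e0 d := by
        have := mem_image_of_mem S0 he'
        rwa [iso_openSegment, hS0e, hSS] at this
      obtain ⟨g1, g2⟩ := FoldBil_seg he0 he''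
      have e1 : (S0 * w1')⁻¹ (S0 e') = w1'⁻¹ e' := by
        rw [mul_inv_rev, IsometryEquiv.mul_apply, hS0i, hSS]
      have e2 : (S0 * w1')⁻¹ d = w1'⁻¹ (S0 d) := by
        rw [mul_inv_rev, IsometryEquiv.mul_apply, hS0i]
      refine ⟨S0 e', S0 * w1', w2, S, g1, ?_, ?_, hSR, ?_⟩
      · exact Bil.fold m w1' c (S0 e') e0 S0 g2 hce0 hF0 hS0 (by rwa [hSS])
      · rwa [e1]
      · rw [e1, e2]
        exact h2

private theorem FoldBil_near {D : Set ℂ} {R : Set Iso} (c0 : ℂ) (ρ : ℝ) {n : ℕ} {w : Iso}
    {c d : ℂ} (h : Bil D R n w c d) : dist c0 c + dist c d < ρ →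
    Bil D {S ∈ R | dist c0 (S c0) < 2 * ρ} n w c d := by
  induction h with
  | nil c d hcd => exact fun _ => Bil.nil c d hcd
  | fold n w c d e S he hce hF hS _ ih =>
    intro hρ
    obtain ⟨hSe, _⟩ := FoldBil_fold hF
    have h1 : dist c e + dist e d = dist c d :=
      dist_add_dist_of_mem_segment (openSegment_subset_segment _ _ _ he)
    have h2 : dist e (S d) = dist e d := by
      calc dist e (S d) = dist (S e) (S d) := by rw [hSe]
        _ = dist e d := S.dist_eq e d
    have h3 : dist c0 e ≤ dist c0 c + dist c e := dist_triangle _ _ _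
    have h4 : dist e (S c0) = dist c0 e := by
      calc dist e (S c0) = dist (S e) (S c0) := by rw [hSe]
        _ = dist e c0 := S.dist_eq e c0
        _ = dist c0 e := dist_comm _ _
    have h5 : dist c0 (S c0) ≤ dist c0 e + dist e (S c0) := dist_triangle _ _ _
    have h6 : 0 ≤ dist e d := dist_nonneg
    refine Bil.fold n w c d e S he hce hF ⟨hS, ?_⟩ (ih ?_)
    · show dist c0 (S c0) < 2 * ρ
      linarith
    · linarith

/-- The reflections used by a billiard segment move the starting point by at most twice the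
length. -/
theorem Bil.near {D : Set ℂ} {R : Set Iso} {n : ℕ} {w : Iso} {c d : ℂ}
    (h : Bil D R n w c d) (ρ : ℝ) (hρ : dist c d < ρ) :
    Bil D {S ∈ R | dist c (S c) < 2 * ρ} n w c d :=
  FoldBil_near c ρ h (by rw [dist_self, zero_add]; exact hρ)

/-- The actual end of a billiard segment starting in the closure is in the closure. -/
theorem Bil.end_mem {D : Set ℂ} {R : Set Iso} {n : ℕ} {w : Iso} {c d : ℂ}
    (h : Bil D R n w c d) : w⁻¹ d ∈ closure D := by
  induction h with
  | nil c d hcd =>
    have h1 : d ∈ segment ℝ c d := right_mem_segment ℝ c d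
    rw [← closure_openSegment] at h1
    simpa using closure_mono hcd h1
  | fold n w c d e S he hce hF hS _ ih =>
    obtain ⟨_, hSi⟩ := FoldBil_fold hF
    rw [mul_inv_rev, IsometryEquiv.mul_apply, hSi]
    exact ih

end Pool.Agent.MP4eed4e
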