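import Mathlib
import Pool.Agent.Lib.MP_4eed4e_an.Base

/-!
Isometries moving a point of a compact set only little have a common fixed point.
-/

namespace Pool.Agent.MP4eed4e

open Set ComplexConjugate

private theorem ConcA_local {R : Set Iso} (hR : R.Finite) (z₀ : ℂ) :
    ∃ ρ > 0, ∀ S ∈ R, S z₀ ≠ z₀ → 4 * ρ ≤ dist z₀ (S z₀) := by
  have h1 : ∀ᶠ ρ : ℝ in nhdsWithin 0 (Set.Ioi 0), ∀ S ∈ R, S z₀ ≠ z₀ →
      4 * ρ ≤ dist z₀ (S z₀) := by
    refine (Filter.eventually_all_finite hR).2 fun S _ => ?_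
    by_cases hS : S z₀ = z₀
    · exact Filter.Eventually.of_forall fun ρ h => absurd hS h
    · have hpos : 0 < dist z₀ (S z₀) := dist_pos.2 fun h => hS h.symm
      filter_upwards [Ioo_mem_nhdsGT (show (0 : ℝ) < dist z₀ (S z₀) / 4 by linarith)] with ρ h _
      have := h.2
      linarith
  obtain ⟨ρ, h2, h3⟩ := (h1.and self_mem_nhdsWithin).exists
  exact ⟨ρ, h3, h2⟩

/-- Isometries moving a point of a compact set only little have a common fixed point. -/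
theorem conc_radius {R : Set Iso} (hR : R.Finite) {K : Set ℂ} (hK : IsCompact K) :
    ∃ ρ > 0, ∀ z ∈ K, ∃ P : ℂ, ∀ S ∈ R, dist z (S z) < 2 * ρ → S P = P := by
  refine hK.induction_on (p := fun s => ∃ ρ > 0, ∀ z ∈ s, ∃ P : ℂ, ∀ S ∈ R,
    dist z (S z) < 2 * ρ → S P = P) ?_ ?_ ?_ ?_
  · exact ⟨1, one_pos, fun z hz => absurd hz (Set.notMem_empty z)⟩
  · rintro s t hst ⟨ρ, hρ, h⟩
    exact ⟨ρ, hρ, fun z hz => h z (hst hz)⟩
  · rintro s t ⟨ρ, hρ, h⟩ ⟨ρ', hρ', h'⟩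
    refine ⟨min ρ ρ', lt_min hρ hρ', fun z hz => ?_⟩
    rcases hz with hz | hz
    · obtain ⟨P, hP⟩ := h z hz
      refine ⟨P, fun S hS hd => hP S hS (hd.trans_le ?_)⟩
      have := min_le_left ρ ρ'
      linarith
    · obtain ⟨P, hP⟩ := h' z hz
      refine ⟨P, fun S hS hd => hP S hS (hd.trans_le ?_)⟩
      have := min_le_right ρ ρ'
      linarith
  · intro z₀ _
    obtain ⟨ρ, hρ, h⟩ := ConcA_local hR z₀
    refine ⟨Metric.ball z₀ ρ, mem_nhdsWithin_of_mem_nhds (Metric.ball_mem_nhds z₀ hρ), ρ, hρ,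
      fun z hz => ⟨z₀, fun S hS hd => ?_⟩⟩
    by_contra hne
    have h1 := h S hS hne
    have h2 : dist z z₀ < ρ := hz
    have h3 : dist (S z) (S z₀) = dist z z₀ := S.dist_eq z z₀
    have h4 := dist_triangle4 z₀ z (S z) (S z₀)
    rw [h3, dist_comm z₀ z] at h4
    linarith

end Pool.Agent.MP4eed4e
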