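import Mathlib
import Pool.Agent.Lib.MP_4eed4e_an.Base
import Pool.Agent.Lib.MP_4eed4e_an.IsoA

/-!
A lower bound for the sines of the angles between finitely many lines.
-/

namespace Pool.Agent.MP4eed4e

open Set ComplexConjugate

/-- `s` bounds from below the sines of the angles between the different axes through `P`. -/
def Sine (R : Set Iso) (P : ℂ) (s : ℝ) : Prop :=
  ∀ S ∈ R, ∀ S' ∈ R, S ≠ S' → ∀ z z' : ℂ, S z = z → S' z' = z' →
    s * (‖z - P‖ * ‖z' - P‖) ≤ |(conj (z - P) * (z' - P)).im|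

private theorem cb_fix {a b : ℂ} (h : a ≠ b) {z : ℂ} (hz : reflI a b h z = z) :
    ∃ t : ℝ, z = a + t * (b - a) :=
  (lam_eq_zero_iff h z).1 ((refl_eq_self_iff h z).1 hz)

private theorem cb_par {d d' : ℂ} (hd : d ≠ 0) (h : (conj d * d').im = 0) :
    ∃ y : ℝ, d' = y * d := by
  have h1 : conj d * d' = ((conj d * d').re : ℂ) := by
    apply Complex.ext
    · simp
    · rw [h]; simp
  have hn : (Complex.normSq d : ℂ) ≠ 0 := by
    exact_mod_cast (Complex.normSq_pos.2 hd).ne'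
  refine ⟨(conj d * d').re / Complex.normSq d, ?_⟩
  have h2 : (Complex.normSq d : ℂ) * d' = ((conj d * d').re : ℂ) * d := by
    rw [← h1, ← Complex.mul_conj]
    ring
  rw [Complex.ofReal_div, div_mul_eq_mul_div, ← h2, mul_div_cancel_left₀ _ hn]

private theorem cb_eq {a b a' b' P : ℂ} (h : a ≠ b) (h' : a' ≠ b') (hP : reflI a b h P = P)
    (hP' : reflI a' b' h' P = P) (h0 : (conj (b - a) * (b' - a')).im = 0) :
    reflI a b h = reflI a' b' h' := by
  obtain ⟨y, hy⟩ := cb_par (sub_ne_zero.2 h.symm) h0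
  obtain ⟨t, ht⟩ := cb_fix h hP
  obtain ⟨t', ht'⟩ := cb_fix h' hP'
  refine (reflI_congr h h' ?_ ?_).symm
  · refine (lam_eq_zero_iff h _).2 ⟨t - t' * y, ?_⟩
    have h1 : a' = P - t' * (b' - a') := by rw [ht']; ring
    rw [h1, hy, ht]
    push_cast
    ring
  · refine (lam_eq_zero_iff h _).2 ⟨t - t' * y + y, ?_⟩
    have h1 : b' = P - t' * (b' - a') + (b' - a') := by rw [ht']; ring
    rw [h1, hy, ht]
    push_cast
    ring

private theorem cb_pair {S S' : Iso} (hS : ∃ a b, ∃ h : a ≠ b, S = reflI a b h)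
    (hS' : ∃ a b, ∃ h : a ≠ b, S' = reflI a b h) :
    ∀ᶠ s in nhdsWithin (0 : ℝ) (Ioi 0), ∀ P, S P = P → S' P = P → S ≠ S' → ∀ z z' : ℂ,
      S z = z → S' z' = z' → s * (‖z - P‖ * ‖z' - P‖) ≤ |(conj (z - P) * (z' - P)).im| := by
  obtain ⟨a, b, h, rfl⟩ := hS
  obtain ⟨a', b', h', rfl⟩ := hS'
  have hd : b - a ≠ 0 := sub_ne_zero.2 h.symm
  have hd' : b' - a' ≠ 0 := sub_ne_zero.2 h'.symm
  have hn : 0 < ‖b - a‖ * ‖b' - a'‖ := mul_pos (norm_pos_iff.2 hd) (norm_pos_iff.2 hd')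
  by_cases h0 : (conj (b - a) * (b' - a')).im = 0
  · refine Filter.Eventually.of_forall fun s P hP hP' hne => ?_
    exact absurd (cb_eq h h' hP hP' h0) hne
  · have hm : 0 < |(conj (b - a) * (b' - a')).im| / (‖b - a‖ * ‖b' - a'‖) :=
      div_pos (abs_pos.2 h0) hn
    filter_upwards [Ioo_mem_nhdsGT hm] with s hs P hP hP' _ z z' hz hz'
    obtain ⟨t, ht⟩ := cb_fix h hP
    obtain ⟨t', ht'⟩ := cb_fix h' hP'
    obtain ⟨u, hu⟩ := cb_fix h hz
    obtain ⟨u', hu'⟩ := cb_fix h' hz'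
    have e1 : z - P = ((u - t : ℝ) : ℂ) * (b - a) := by
      rw [hu, ht]
      push_cast
      ring
    have e2 : z' - P = ((u' - t' : ℝ) : ℂ) * (b' - a') := by
      rw [hu', ht']
      push_cast
      ring
    have e3 : (conj (z - P) * (z' - P)).im =
        ((u - t) * (u' - t')) * (conj (b - a) * (b' - a')).im := by
      rw [e1, e2, map_mul, Complex.conj_ofReal, ← Complex.im_ofReal_mul]
      congr 1
      push_cast
      ring
    rw [e3, e1, e2, norm_mul, norm_mul, Complex.norm_real, Complex.norm_real, Real.norm_eq_abs,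
      Real.norm_eq_abs, abs_mul, abs_mul]
    have h1 : s * (‖b - a‖ * ‖b' - a'‖) ≤ |(conj (b - a) * (b' - a')).im| := by
      have := hs.2.le
      rwa [le_div_iff₀ hn] at this
    calc s * (|u - t| * ‖b - a‖ * (|u' - t'| * ‖b' - a'‖)) =
          (|u - t| * |u' - t'|) * (s * (‖b - a‖ * ‖b' - a'‖)) := by ring
      _ ≤ (|u - t| * |u' - t'|) * |(conj (b - a) * (b' - a')).im| :=
          mul_le_mul_of_nonneg_left h1 (by positivity)

theorem exists_sine {R : Set Iso} (hR : R.Finite)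
    (hr : ∀ S ∈ R, ∃ a b, ∃ h : a ≠ b, S = reflI a b h) :
    ∃ s > 0, ∀ P : ℂ, Sine {S ∈ R | S P = P} P s := by
  have h1 : ∀ᶠ s in nhdsWithin (0 : ℝ) (Ioi 0), ∀ S ∈ R, ∀ S' ∈ R, ∀ P, S P = P → S' P = P →
      S ≠ S' → ∀ z z' : ℂ, S z = z → S' z' = z' →
        s * (‖z - P‖ * ‖z' - P‖) ≤ |(conj (z - P) * (z' - P)).im| := by
    rw [Filter.eventually_all_finite hR]
    intro S hS
    rw [Filter.eventually_all_finite hR]
    intro S' hS'
    exact cb_pair (hr S hS) (hr S' hS')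
  have h2 : ∀ᶠ s in nhdsWithin (0 : ℝ) (Ioi 0), 0 < s := self_mem_nhdsWithin
  obtain ⟨s, hs, hs0⟩ := (h1.and h2).exists
  refine ⟨s, hs0, fun P => ?_⟩
  rintro S ⟨hS, hSP⟩ S' ⟨hS', hSP'⟩ hne z z' hz hz'
  exact hs S hS S' hS' P hSP hSP' hne z z' hz hz'

end Pool.Agent.MP4eed4e
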