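import Mathlib
import Pool.Agent.Lib.MP_4eed4e_an.Conc

/-!
A billiard segment reflecting only in lines through one point has few reflections.
-/

namespace Pool.Agent.MP4eed4e

open Set ComplexConjugate

/-- One step: the angle swept between two consecutive reflections. -/
theorem arctan_step {s h y y' : ℝ} (hs : 0 < s) (hh : 0 < h) (hyy : y < y')
    (h1 : s * (Real.sqrt (h ^ 2 + (h * y) ^ 2) * Real.sqrt (h ^ 2 + (h * y') ^ 2)) ≤
      h * (h * y' - h * y)) : Real.arctan y + s ≤ Real.arctan y' := by
  have hsq : ∀ t : ℝ, Real.sqrt (h ^ 2 + (h * t) ^ 2) = h * Real.sqrt (1 + t ^ 2) := by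
    intro t
    have e : h ^ 2 + (h * t) ^ 2 = h ^ 2 * (1 + t ^ 2) := by ring
    rw [e, Real.sqrt_mul (sq_nonneg h), Real.sqrt_sq hh.le]
  rw [hsq, hsq] at h1
  have p1 : 0 < Real.sqrt (1 + y ^ 2) := Real.sqrt_pos.2 (by positivity)
  have p2 : 0 < Real.sqrt (1 + y' ^ 2) := Real.sqrt_pos.2 (by positivity)
  have h2 : s * (Real.sqrt (1 + y ^ 2) * Real.sqrt (1 + y' ^ 2)) ≤ y' - y := by
    have h3 : h ^ 2 * (s * (Real.sqrt (1 + y ^ 2) * Real.sqrt (1 + y' ^ 2))) ≤
        h ^ 2 * (y' - y) := by
      calc h ^ 2 * (s * (Real.sqrt (1 + y ^ 2) * Real.sqrt (1 + y' ^ 2)))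
          = s * (h * Real.sqrt (1 + y ^ 2) * (h * Real.sqrt (1 + y' ^ 2))) := by ring
        _ ≤ h * (h * y' - h * y) := h1
        _ = h ^ 2 * (y' - y) := by ring
    exact le_of_mul_le_mul_left h3 (by positivity)
  have hx : 0 < Real.arctan y' - Real.arctan y := by
    have := Real.arctan_strictMono hyy
    linarith
  have hsin : Real.sin (Real.arctan y' - Real.arctan y) =
      (y' - y) / (Real.sqrt (1 + y ^ 2) * Real.sqrt (1 + y' ^ 2)) := by
    rw [Real.sin_sub, Real.sin_arctan, Real.cos_arctan, Real.sin_arctan, Real.cos_arctan]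
    field_simp
  have h4 : s ≤ Real.sin (Real.arctan y' - Real.arctan y) := by
    rw [hsin, le_div_iff₀ (mul_pos p1 p2)]
    exact h2
  have h5 := Real.sin_le hx.le
  linarith

/-- the fixed point -/
private theorem FoldLoc_fix {D : Set ℂ} {e : ℂ} {S : Iso} (h : FoldAt D e S) : S e = e := by
  obtain ⟨a, b, hab, he, -, rfl⟩ := h
  rw [reflI_apply, refl_eq_self_iff hab]
  exact lam_of_mem_segment (openSegment_subset_segment ℝ a b he)

private theorem FoldLoc_front {D : Set ℂ} {e : ℂ} {S : Iso} (h : FoldAt D e S) :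
    e ∈ frontier D := by
  obtain ⟨a, b, hab, he, hf, rfl⟩ := h
  exact hf (openSegment_subset_segment ℝ a b he)

private theorem FoldLoc_notMem {D : Set ℂ} (hD : IsOpen D) {e : ℂ} (h : e ∈ frontier D) :
    e ∉ D := by
  rw [hD.frontier_eq] at h
  exact h.2

/-- a segment of the domain which starts at a point of a mirror is not in the mirror -/
private theorem FoldLoc_axis {D : Set ℂ} (hD : IsOpen D) {e e1 : ℂ} {S : Iso}
    (h : FoldAt D e S) (hsub : openSegment ℝ e e1 ⊆ D) (hfix : S e1 = e1) : False := by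
  obtain ⟨a, b, hab, he, hf, rfl⟩ := h
  rw [reflI_apply, refl_eq_self_iff hab, lam_eq_zero_iff hab] at hfix
  obtain ⟨t, ht⟩ := hfix
  obtain ⟨r0, r, hr0, hr, hsum, hre⟩ := he
  have hre' : e = a + (r : ℂ) * (b - a) := by
    rw [← hre]
    have hr0' : r0 = 1 - r := by linarith
    have : (r0 : ℂ) = 1 - (r : ℂ) := by
      rw [hr0']
      push_cast
      rfl
    rw [Complex.real_smul, Complex.real_smul, this]
    ring
  -- the small parameter
  obtain ⟨ε, hε0, hε1, hε2, hε3⟩ : ∃ ε : ℝ, 0 < ε ∧ ε < 1 ∧ 0 ≤ r + ε * (t - r) ∧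
      r + ε * (t - r) ≤ 1 := by
    have hr1 : r < 1 := by linarith
    have hK : 0 < |t - r| + 1 := by positivity
    refine ⟨min (min r (1 - r)) (1 / 2) / (|t - r| + 1), by positivity, ?_, ?_, ?_⟩
    · rw [div_lt_one hK]
      have h1 : min (min r (1 - r)) (1 / 2) ≤ 1 / 2 := min_le_right _ _
      have h2 := abs_nonneg (t - r)
      linarith
    all_goals
      have hm : 0 < min (min r (1 - r)) (1 / 2) := by positivity
      have hb : |min (min r (1 - r)) (1 / 2) / (|t - r| + 1) * (t - r)| ≤
          min (min r (1 - r)) (1 / 2) := by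
        rw [abs_mul, abs_of_pos (div_pos hm hK), div_mul_eq_mul_div, div_le_iff₀ hK]
        apply mul_le_mul_of_nonneg_left _ hm.le
        linarith
      have h1 : min (min r (1 - r)) (1 / 2) ≤ r := (min_le_left _ _).trans (min_le_left _ _)
      have h2 : min (min r (1 - r)) (1 / 2) ≤ 1 - r := (min_le_left _ _).trans (min_le_right _ _)
      have h3 := abs_le.1 hb
    · linarith [h3.1]
    · linarith [h3.2]
  have hz1 : (e + (ε : ℂ) * (e1 - e)) ∈ openSegment ℝ e e1 := by
    refine ⟨1 - ε, ε, by linarith, hε0, by ring, ?_⟩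
    rw [Complex.real_smul, Complex.real_smul]
    push_cast
    ring
  have hz2 : (e + (ε : ℂ) * (e1 - e)) ∈ segment ℝ a b := by
    refine ⟨1 - (r + ε * (t - r)), r + ε * (t - r), by linarith, hε2, by ring, ?_⟩
    rw [Complex.real_smul, Complex.real_smul, ht, hre']
    push_cast
    ring
  exact FoldLoc_notMem hD (hf hz2) (hsub hz1)

private theorem FoldLoc_iso {S : Iso} {P e d : ℂ} (h1 : S P = P) (h2 : S e = e) :
    (conj (e - P) * (S d - e)).re = (conj (e - P) * (d - e)).re ∧
    |(conj (e - P) * (S d - e)).im| = |(conj (e - P) * (d - e)).im| := by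
  have n1 : ‖S d - e‖ = ‖d - e‖ := by
    have := S.dist_eq d e
    rw [h2, dist_eq_norm, dist_eq_norm] at this
    exact this
  have n2 : ‖S d - P‖ = ‖d - P‖ := by
    have := S.dist_eq d P
    rw [h1, dist_eq_norm, dist_eq_norm] at this
    exact this
  have m1 : Complex.normSq (S d - e) = Complex.normSq (d - e) := by
    rw [Complex.normSq_eq_norm_sq, Complex.normSq_eq_norm_sq, n1]
  have m2 : Complex.normSq (S d - P) = Complex.normSq (d - P) := by
    rw [Complex.normSq_eq_norm_sq, Complex.normSq_eq_norm_sq, n2]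
  have key : ∀ x : ℂ, Complex.normSq (x - P) = Complex.normSq (x - e) +
      Complex.normSq (e - P) + 2 * (conj (e - P) * (x - e)).re := by
    intro x
    simp only [Complex.normSq_apply, Complex.mul_re, Complex.conj_re, Complex.conj_im,
      Complex.sub_re, Complex.sub_im]
    ring
  have hre : (conj (e - P) * (S d - e)).re = (conj (e - P) * (d - e)).re := by
    have k1 := key (S d)
    have k2 := key d
    linarith
  have key2 : ∀ x : ℂ, (conj (e - P) * (x - e)).im ^ 2 =
      Complex.normSq (e - P) * Complex.normSq (x - e) - (conj (e - P) * (x - e)).re ^ 2 := by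
    intro x
    simp only [Complex.normSq_apply, Complex.mul_re, Complex.mul_im, Complex.conj_re,
      Complex.conj_im, Complex.sub_re, Complex.sub_im]
    ring
  refine ⟨hre, ?_⟩
  apply (sq_eq_sq₀ (abs_nonneg _) (abs_nonneg _)).1
  rw [sq_abs, sq_abs, key2, key2, m1, hre]

private theorem FoldLoc_key {D : Set ℂ} (hD : IsOpen D) {R : Set Iso} {P : ℂ} {s : ℝ}
    (hs : 0 < s) (hP : ∀ S ∈ R, S P = P) (hsine : Sine R P s) {n : ℕ} {w : Iso} {c d : ℂ}
    (h : Bil D R n w c d) : ∀ S0 : Iso, FoldAt D c S0 → S0 ∈ R → 1 ≤ n →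
    0 < |(conj (c - P) * (d - c)).im| ∧ n * s ≤ Real.pi / 2 -
      Real.arctan ((conj (c - P) * (d - c)).re / |(conj (c - P) * (d - c)).im|) := by
  induction h with
  | nil c d hsub =>
    intro S0 _ _ hn
    omega
  | fold n w c d e S he hsub hfold hSR hrest ih =>
    intro S0 hfold0 hS0R _
    have hc : c ∉ D := FoldLoc_notMem hD (FoldLoc_front hfold0)
    have hsub' : openSegment ℝ e c ⊆ D := by
      rw [openSegment_symm]
      exact hsub
    have hS0e : S0 e ≠ e := fun hh => FoldLoc_axis hD hfold0 hsub hh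
    have hSc : S c ≠ c := fun hh => FoldLoc_axis hD hfold hsub' hh
    have hSe : S e = e := FoldLoc_fix hfold
    have hS0c : S0 c = c := FoldLoc_fix hfold0
    have hne : S0 ≠ S := by
      rintro rfl
      exact hS0e hSe
    have hcP : c ≠ P := by
      rintro rfl
      exact hSc (hP S hSR)
    have heP : e ≠ P := by
      rintro rfl
      exact hS0e (hP S0 hS0R)
    obtain ⟨b0, b, hb0, hb, hsum, hbe⟩ := he
    have hb1 : b < 1 := by linarith
    have hbe' : e = c + (b : ℂ) * (d - c) := by
      rw [← hbe]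
      have hb0' : b0 = 1 - b := by linarith
      have : (b0 : ℂ) = 1 - (b : ℂ) := by
        rw [hb0']
        push_cast
        rfl
      rw [Complex.real_smul, Complex.real_smul, this]
      ring
    -- the quantities
    have i1 : (conj (c - P) * (e - P)).im = b * (conj (c - P) * (d - c)).im := by
      rw [hbe']
      simp only [Complex.mul_im, Complex.mul_re, Complex.conj_re, Complex.conj_im,
        Complex.sub_re, Complex.sub_im, Complex.add_re, Complex.add_im, Complex.ofReal_re,
        Complex.ofReal_im]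
      ring
    have i2 : (conj (e - P) * (d - e)).im = (1 - b) * (conj (c - P) * (d - c)).im := by
      rw [hbe']
      simp only [Complex.mul_im, Complex.mul_re, Complex.conj_re, Complex.conj_im,
        Complex.sub_re, Complex.sub_im, Complex.add_re, Complex.add_im, Complex.ofReal_re,
        Complex.ofReal_im]
      ring
    have i3 : (conj (e - P) * (d - e)).re = (1 - b) * ((conj (c - P) * (d - c)).re +
        b * Complex.normSq (d - c)) := by
      rw [hbe']
      simp only [Complex.normSq_apply, Complex.mul_im, Complex.mul_re, Complex.conj_re,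
        Complex.conj_im, Complex.sub_re, Complex.sub_im, Complex.add_re, Complex.add_im,
        Complex.ofReal_re, Complex.ofReal_im]
      ring
    have q1 : Complex.normSq (c - P) * Complex.normSq (d - c) =
        (conj (c - P) * (d - c)).im ^ 2 + (conj (c - P) * (d - c)).re ^ 2 := by
      simp only [Complex.normSq_apply, Complex.mul_im, Complex.mul_re, Complex.conj_re,
        Complex.conj_im, Complex.sub_re, Complex.sub_im]
      ring
    have q2 : Complex.normSq (e - P) * Complex.normSq (d - c) =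
        (conj (c - P) * (d - c)).im ^ 2 + ((conj (c - P) * (d - c)).re +
          b * Complex.normSq (d - c)) ^ 2 := by
      rw [hbe']
      simp only [Complex.normSq_apply, Complex.mul_im, Complex.mul_re, Complex.conj_re,
        Complex.conj_im, Complex.sub_re, Complex.sub_im, Complex.add_re, Complex.add_im,
        Complex.ofReal_re, Complex.ofReal_im]
      ring
    obtain ⟨C, hC⟩ : ∃ C, C = |(conj (c - P) * (d - c)).im| := ⟨_, rfl⟩
    obtain ⟨Q, hQ⟩ : ∃ Q, Q = (conj (c - P) * (d - c)).re := ⟨_, rfl⟩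
    obtain ⟨L, hL⟩ : ∃ L, L = Complex.normSq (d - c) := ⟨_, rfl⟩
    have hsin := hsine S0 hS0R S hSR hne c e hS0c hSe
    rw [i1, abs_mul, abs_of_pos hb, ← hC] at hsin
    have hcP' : 0 < ‖c - P‖ := norm_pos_iff.2 (sub_ne_zero.2 hcP)
    have heP' : 0 < ‖e - P‖ := norm_pos_iff.2 (sub_ne_zero.2 heP)
    have hCpos : 0 < C := by
      have h1 : 0 < s * (‖c - P‖ * ‖e - P‖) := by positivity
      have h2 : 0 < b * C := lt_of_lt_of_le h1 hsin
      exact (pos_iff_pos_of_mul_pos h2).1 hb
    have hLpos : 0 < L := by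
      rw [hL]
      apply Complex.normSq_pos.2
      intro h0
      rw [hC, h0] at hCpos
      simp at hCpos
    rw [← hC, ← hQ]
    -- the step
    have hstep : Real.arctan (Q / C) + s ≤ Real.arctan ((Q + b * L) / C) := by
      refine arctan_step hs hCpos ?_ ?_
      · apply (div_lt_div_iff_of_pos_right hCpos).2
        have := mul_pos hb hLpos
        linarith
      · have e1 : C * (Q / C) = Q := by field_simp
        have e2 : C * ((Q + b * L) / C) = Q + b * L := by field_simp
        rw [e1, e2]
        have hC2 : C ^ 2 = (conj (c - P) * (d - c)).im ^ 2 := by rw [hC, sq_abs]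
        have s1 : Real.sqrt (C ^ 2 + Q ^ 2) = ‖c - P‖ * Real.sqrt L := by
          rw [hC2, hQ, ← q1, ← hL, Real.sqrt_mul (Complex.normSq_nonneg _),
            Complex.normSq_eq_norm_sq, Real.sqrt_sq (norm_nonneg _)]
        have s2 : Real.sqrt (C ^ 2 + (Q + b * L) ^ 2) = ‖e - P‖ * Real.sqrt L := by
          rw [hC2, hQ, hL, ← q2, ← hL, Real.sqrt_mul (Complex.normSq_nonneg _),
            Complex.normSq_eq_norm_sq, Real.sqrt_sq (norm_nonneg _)]
        rw [s1, s2]
        have hLs : Real.sqrt L * Real.sqrt L = L := Real.mul_self_sqrt hLpos.le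
        calc s * (‖c - P‖ * Real.sqrt L * (‖e - P‖ * Real.sqrt L))
            = s * (‖c - P‖ * ‖e - P‖) * (Real.sqrt L * Real.sqrt L) := by ring
          _ = s * (‖c - P‖ * ‖e - P‖) * L := by rw [hLs]
          _ ≤ b * C * L := mul_le_mul_of_nonneg_right hsin hLpos.le
          _ = C * (Q + b * L - Q) := by ring
    refine ⟨hCpos, ?_⟩
    rcases Nat.eq_zero_or_pos n with hn | hn
    · have h1 := Real.arctan_lt_pi_div_two ((Q + b * L) / C)
      rw [hn]
      push_cast
      linarith
    · obtain ⟨j1, j2⟩ := ih S hfold hSR hn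
      obtain ⟨k1, k2⟩ := FoldLoc_iso (d := d) (hP S hSR) hSe
      have hb' : 0 < 1 - b := by linarith
      rw [k1, k2, i2, i3, abs_mul, abs_of_pos hb', ← hC, ← hQ, ← hL,
        mul_div_mul_left _ _ hb'.ne'] at j2
      push_cast
      linarith

theorem fold_local {D : Set ℂ} (hD : IsOpen D) {R : Set Iso} {P : ℂ} {s : ℝ} (hs : 0 < s) (hP : ∀ S ∈ R, S P = P)
    (hsine : Sine R P s) {n : ℕ} {w : Iso} {c d : ℂ} (h : Bil D R n w c d) :
    n * s ≤ Real.pi + s := by
  have hpi := Real.pi_pos
  cases h with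
  | nil _ _ hsub =>
    push_cast
    linarith
  | fold m w _ _ e S he hsub hfold hSR hrest =>
    rcases Nat.eq_zero_or_pos m with hm | hm
    · rw [hm]
      push_cast
      linarith
    · obtain ⟨-, j2⟩ := FoldLoc_key hD hs hP hsine hrest S hfold hSR hm
      have h1 := Real.neg_pi_div_two_lt_arctan
        ((conj (e - P) * (S d - e)).re / |(conj (e - P) * (S d - e)).im|)
      push_cast
      linarith

end Pool.Agent.MP4eed4e
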