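import Mathlib
import Pool.Agent.Lib.MP_4eed4e_an.FoldLoc
import Pool.Agent.Lib.MP_4eed4e_an.FoldBil

/-!
Bounded number of reflections of billiard segments of bounded length.
-/

namespace Pool.Agent.MP4eed4e

open Set

private theorem FoldCount_fix {D : Set ℂ} {e : ℂ} {S : Iso} (h : FoldAt D e S) : S e = e := by
  obtain ⟨a, b, hab, he, -, rfl⟩ := h
  rw [reflI_apply, refl_eq_self_iff hab]
  exact lam_of_mem_segment (openSegment_subset_segment ℝ a b he)

theorem fold_count {D : Set ℂ} (hO : IsOpen D) (hD : Bornology.IsBounded D) {R : Set Iso} (hR : R.Finite)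
    (hr : ∀ S ∈ R, ∃ a b, ∃ h : a ≠ b, S = reflI a b h) (L : ℝ) :
    ∃ M : ℕ, ∀ (n : ℕ) (w : Iso) (c d : ℂ), c ∈ closure D → Bil D R n w c d → dist c d ≤ L →
      n ≤ M := by
  obtain ⟨ρ, hρ, hconc⟩ := conc_radius hR (K := closure D) hD.isCompact_closure
  obtain ⟨s, hs, hsine⟩ := exists_sine hR hr
  obtain ⟨m0, hm0⟩ := exists_nat_ge (Real.pi / s + 1)
  have LOC : ∀ (m : ℕ) (w : Iso) (c e : ℂ), c ∈ closure D → Bil D R m w c e → dist c e < ρ →
      m ≤ m0 := by
    intro m w c e hc h hd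
    obtain ⟨P, hP⟩ := hconc c hc
    have h2 := fold_local hO hs (R := {S ∈ R | dist c (S c) < 2 * ρ}) (P := P)
      (fun S hS => hP S hS.1 hS.2)
      (fun S hS S' hS' hne z z' hz hz' => hsine P S ⟨hS.1, hP S hS.1 hS.2⟩ S'
        ⟨hS'.1, hP S' hS'.1 hS'.2⟩ hne z z' hz hz') (h.near ρ hd)
    have h3 : (m : ℝ) ≤ Real.pi / s + 1 := by
      have h4 : (m : ℝ) ≤ (Real.pi + s) / s := (le_div_iff₀ hs).2 h2
      rwa [add_div, div_self hs.ne'] at h4
    exact_mod_cast h3.trans hm0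
  have CL : ∀ (q n : ℕ) (w : Iso) (c d : ℂ), c ∈ closure D → Bil D R n w c d →
      (m0 + 2) * q ≤ n → q * ρ ≤ dist c d := by
    intro q
    induction q with
    | zero =>
      intro n w c d _ _ _
      rw [Nat.cast_zero, zero_mul]
      exact dist_nonneg
    | succ q ih =>
      intro n w c d hc h hle
      obtain ⟨n', rfl⟩ : ∃ n', n = (m0 + 1) + 1 + n' :=
        ⟨n - (m0 + 2), by
          have : (m0 + 2) * (q + 1) = (m0 + 2) * q + (m0 + 2) := by ring
          omega⟩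
      have hle' : (m0 + 2) * q ≤ n' := by
        have : (m0 + 2) * (q + 1) = (m0 + 2) * q + (m0 + 2) := by ring
        omega
      obtain ⟨e, w₁, w₂, S, he, h1, hf, hS, h2⟩ := h.split
      have hge : ρ ≤ dist c e := by
        by_contra hlt
        have := LOC (m0 + 1) w₁ c e hc h1 (not_le.1 hlt)
        omega
      have h3 := ih n' w₂ _ _ h1.end_mem h2 hle'
      have h4 : dist (w₁⁻¹ e) (S (w₁⁻¹ d)) = dist e d := by
        have h5 := S.dist_eq (w₁⁻¹ e) (w₁⁻¹ d)
        rw [FoldCount_fix hf] at h5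
        rw [h5]
        exact (w₁⁻¹).dist_eq e d
      have h6 := dist_add_dist_of_mem_segment (openSegment_subset_segment ℝ c d he)
      rw [h4] at h3
      push_cast
      linarith
  obtain ⟨q0, hq0⟩ := exists_nat_gt (L / ρ)
  refine ⟨(m0 + 2) * (q0 + 1), fun n w c d hc h hd => ?_⟩
  by_contra hlt
  have h1 := CL q0 n w c d hc h (by
    have : (m0 + 2) * (q0 + 1) = (m0 + 2) * q0 + (m0 + 2) := by ring
    omega)
  rw [div_lt_iff₀ hρ] at hq0
  linarith

end Pool.Agent.MP4eed4e
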