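import Mathlib
import Pool.Agent.Lib.MP_4eed4e_an.IsoA
import Pool.Agent.Lib.MP_4eed4e_an.Base

/-!
Uniqueness of the sector of `D` containing a direction.
-/

namespace Pool.Agent.MP4eed4e

open Set Complex

/-- The direction of the second sector lies in the first one: impossible. -/
private theorem SecUniq_aux {D : Set ℂ} {P u₁ u₂ : ℂ} {α₁ α₂ r₁ r₂ δ : ℝ}
    (h₁ : Sec D P u₁ α₁ r₁) (h₂ : Sec D P u₂ α₂ r₂) (hδ : 0 < δ) (hδ' : δ < α₁)
    (h : u₂ = u₁ * exp (δ * I)) : False := by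
  obtain ⟨_, _, _, hr1, hin1, _⟩ := h₁
  obtain ⟨_, _, _, hr2, _, hout2⟩ := h₂
  set ρ := min r₁ r₂ / 2 with hρ
  have hm : 0 < min r₁ r₂ := lt_min hr1 hr2
  have h0 : 0 < ρ := by positivity
  have hρ1 : ρ < r₁ := by
    have := min_le_left r₁ r₂
    linarith
  have hρ2 : ρ < r₂ := by
    have := min_le_right r₁ r₂
    linarith
  have a := hin1 ρ δ h0 hρ1 hδ hδ'
  have b := (hout2 ρ h0.le hρ2).1
  apply b
  rw [h]
  rw [mul_assoc] at a
  exact a

private theorem SecUniq_aux2 {D : Set ℂ} {P u : ℂ} {α₁ α₂ r₁ r₂ : ℝ}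
    (h₁ : Sec D P u α₁ r₁) (h₂ : Sec D P u α₂ r₂) : ¬ α₁ < α₂ := by
  intro hlt
  obtain ⟨_, hα1, _, hr1, _, hout1⟩ := h₁
  obtain ⟨_, _, _, hr2, hin2, _⟩ := h₂
  set ρ := min r₁ r₂ / 2 with hρ
  have hm : 0 < min r₁ r₂ := lt_min hr1 hr2
  have h0 : 0 < ρ := by positivity
  have hρ1 : ρ < r₁ := by
    have := min_le_left r₁ r₂
    linarith
  have hρ2 : ρ < r₂ := by
    have := min_le_right r₁ r₂
    linarith
  exact (hout1 ρ h0.le hρ1).2 (hin2 ρ α₁ h0 hρ2 hα1 hlt)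

theorem Sec.unique {D : Set ℂ} {P u₁ u₂ : ℂ} {α₁ α₂ r₁ r₂ θ₁ θ₂ : ℝ}
    (h₁ : Sec D P u₁ α₁ r₁) (h₂ : Sec D P u₂ α₂ r₂) (hθ₁ : 0 < θ₁) (hθ₁' : θ₁ < α₁)
    (hθ₂ : 0 < θ₂) (hθ₂' : θ₂ < α₂) (h : u₁ * exp (θ₁ * I) = u₂ * exp (θ₂ * I)) :
    u₁ = u₂ ∧ α₁ = α₂ := by
  have e2 : u₂ = u₁ * exp (((θ₁ - θ₂ : ℝ) : ℂ) * I) := by
    have hE := Complex.exp_ne_zero ((θ₂ : ℂ) * I)
    push_cast
    rw [sub_mul, Complex.exp_sub, ← mul_div_assoc, eq_div_iff hE]
    exact h.symm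
  have e1 : u₁ = u₂ * exp (((θ₂ - θ₁ : ℝ) : ℂ) * I) := by
    have hE := Complex.exp_ne_zero ((θ₁ : ℂ) * I)
    push_cast
    rw [sub_mul, Complex.exp_sub, ← mul_div_assoc, eq_div_iff hE]
    exact h
  rcases lt_trichotomy θ₁ θ₂ with hlt | heq | hgt
  · exfalso
    exact SecUniq_aux h₂ h₁ (sub_pos.2 hlt) (by linarith) e1
  · rw [heq, sub_self] at e2
    have hu : u₂ = u₁ := by simpa using e2
    subst hu
    refine ⟨rfl, ?_⟩
    exact le_antisymm (not_lt.1 (SecUniq_aux2 h₂ h₁)) (not_lt.1 (SecUniq_aux2 h₁ h₂))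
  · exfalso
    exact SecUniq_aux h₁ h₂ (sub_pos.2 hgt) (by linarith) e2

/-- A smaller radius. -/
theorem Sec.mono {D : Set ℂ} {P u : ℂ} {α r r' : ℝ} (h : Sec D P u α r) (h0 : 0 < r')
    (h1 : r' ≤ r) : Sec D P u α r' := by
  obtain ⟨a, b, c, _, e, f⟩ := h
  exact ⟨a, b, c, h0, fun ρ θ h2 h3 => e ρ θ h2 (lt_of_lt_of_le h3 h1),
    fun ρ h2 h3 => f ρ h2 (lt_of_lt_of_le h3 h1)⟩

/-- A sector given in a frame of arbitrary orientation. -/
theorem sec_of_frame {D : Set ℂ} {P U : ℂ} {η ψ₀ α r : ℝ} (hU : ‖U‖ = 1)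
    (hη : η = 1 ∨ η = -1) (hα : 0 < α) (hα' : α < 2 * Real.pi) (hr : 0 < r)
    (hin : ∀ ρ ψ : ℝ, 0 < ρ → ρ < r → ψ₀ < ψ → ψ < ψ₀ + α → P + ρ * U * exp (η * ψ * I) ∈ D)
    (hout : ∀ ρ : ℝ, 0 ≤ ρ → ρ < r → P + ρ * U * exp (η * ψ₀ * I) ∉ D ∧
      P + ρ * U * exp (η * ((ψ₀ + α : ℝ) : ℂ) * I) ∉ D) :
    ∃ u, Sec D P u α r ∧ (∀ ψ : ℝ, ψ₀ < ψ → ψ < ψ₀ + α → ∃ θ : ℝ, 0 < θ ∧ θ < α ∧
      u * exp (θ * I) = U * exp (η * ψ * I)) ∧
      ((u = U * exp (η * ψ₀ * I) ∧ u * exp (α * I) = U * exp (η * ((ψ₀ + α : ℝ) : ℂ) * I)) ∨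
       (u = U * exp (η * ((ψ₀ + α : ℝ) : ℂ) * I) ∧ u * exp (α * I) = U * exp (η * ψ₀ * I))) := by
  have hnorm : ∀ t : ℝ, ‖exp (η * t * I)‖ = 1 := by
    intro t
    have := Complex.norm_exp_ofReal_mul_I (η * t)
    push_cast at this
    exact this
  rcases hη with rfl | rfl
  · have key : ∀ ψ θ : ℝ, exp (((1 : ℝ) : ℂ) * ψ * I) * exp (θ * I) =
        exp (((1 : ℝ) : ℂ) * ((ψ + θ : ℝ) : ℂ) * I) := by
      intro ψ θ
      rw [← Complex.exp_add]
      congr 1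
      push_cast
      ring
    refine ⟨U * exp (((1 : ℝ) : ℂ) * ψ₀ * I), ⟨?_, hα, hα', hr, ?_, ?_⟩, ?_, Or.inl ⟨rfl, ?_⟩⟩
    · rw [norm_mul, hU, hnorm, one_mul]
    · intro ρ θ a b c d
      have := hin ρ (ψ₀ + θ) a b (by linarith) (by linarith)
      rw [← key] at this
      convert this using 2
      ring
    · intro ρ a b
      have h1 := hout ρ a b
      rw [← key] at h1
      constructor
      · convert h1.1 using 2
        ring
      · convert h1.2 using 2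
        ring
    · intro ψ a b
      refine ⟨ψ - ψ₀, by linarith, by linarith, ?_⟩
      rw [mul_assoc, key]
      congr 3
      push_cast
      ring
    · rw [mul_assoc, key]
  · have key : ∀ ψ θ : ℝ, exp (((-1 : ℝ) : ℂ) * ψ * I) * exp (θ * I) =
        exp (((-1 : ℝ) : ℂ) * ((ψ - θ : ℝ) : ℂ) * I) := by
      intro ψ θ
      rw [← Complex.exp_add]
      congr 1
      push_cast
      ring
    refine ⟨U * exp (((-1 : ℝ) : ℂ) * ((ψ₀ + α : ℝ) : ℂ) * I), ⟨?_, hα, hα', hr, ?_, ?_⟩, ?_,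
      Or.inr ⟨rfl, ?_⟩⟩
    · rw [norm_mul, hU, hnorm, one_mul]
    · intro ρ θ a b c d
      have := hin ρ (ψ₀ + α - θ) a b (by linarith) (by linarith)
      rw [← key] at this
      convert this using 2
      ring
    · intro ρ a b
      have h1 := hout ρ a b
      constructor
      · convert h1.2 using 2
        ring
      · have h2 := h1.1
        have h3 := key (ψ₀ + α) α
        rw [add_sub_cancel_right] at h3
        rw [← h3] at h2
        convert h2 using 2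
        ring
    · intro ψ a b
      refine ⟨ψ₀ + α - ψ, by linarith, by linarith, ?_⟩
      rw [mul_assoc, key]
      congr 3
      push_cast
      ring
    · rw [mul_assoc, key, add_sub_cancel_right]

/-- The germ of a segment depends only on the direction; polar form. -/
theorem germ_polar {U : Set ℂ} {c q : ℂ} (hne : c ≠ q) :
    Germ U c q ↔ ∃ δ > 0, ∀ t : ℝ, 0 < t → t < δ → c + t * (q - c) ∈ U := by
  constructor
  · rintro ⟨z, ⟨a, b, ha, hb, hab, rfl⟩, hsub⟩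
    refine ⟨b, hb, fun t ht htb => hsub ?_⟩
    refine ⟨1 - t / b, t / b, ?_, by positivity, by ring, ?_⟩
    · rw [sub_pos, div_lt_one hb]
      exact htb
    · simp only [Complex.real_smul]
      have hbc : (b : ℂ) ≠ 0 := by exact_mod_cast hb.ne'
      have hac : (a : ℂ) = 1 - b := by
        have : a = 1 - b := by linarith
        rw [this]
        push_cast
        ring
      rw [hac]
      push_cast
      field_simp
      ring
  · rintro ⟨δ, hδ, h⟩
    set t := min δ 1 / 2 with ht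
    have hm : 0 < min δ 1 := lt_min hδ one_pos
    have h0 : 0 < t := by positivity
    have h1 : t < 1 := by
      have := min_le_right δ 1
      linarith
    have h2 : t < δ := by
      have := min_le_left δ 1
      linarith
    refine ⟨(1 - t) • c + t • q, ⟨1 - t, t, by linarith, h0, by ring, rfl⟩, ?_⟩
    rintro z ⟨a, b, ha, hb, hab, rfl⟩
    have hac : (a : ℂ) = 1 - b := by
      have : a = 1 - b := by linarith
      rw [this]
      push_cast
      ring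
    have hb1 : b < 1 := by linarith
    have := h (b * t) (by positivity) (by nlinarith)
    convert this using 1
    simp only [Complex.real_smul]
    rw [hac]
    push_cast
    ring

end Pool.Agent.MP4eed4e
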