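import Mathlib
import Pool.Agent.Lib.MP_4eed4e_an.Base

/-!
Words act compatibly; numbers of fixed points.
-/

namespace Pool.Agent.MP4eed4e

open Set

variable {τ : Tile} {D D' : Set ℂ}

theorem Tiling.act_append (A : Tiling τ D) (g h : List τ.S) (x : A.X) :
    A.act (g ++ h) x = A.act h (A.act g x) := by
  induction g generalizing x with
  | nil => rfl
  | cons s g ih => exact ih (A.nb s x)

theorem Tiling.act_bijective (A : Tiling τ D) (g : List τ.S) : Function.Bijective (A.act g) := by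
  induction g with
  | nil => exact Function.bijective_id
  | cons s g ih =>
    have h0 : Function.Involutive (A.nb s) := A.inv s
    have h1 : Function.Bijective (A.nb s) := h0.bijective
    exact ih.comp h1

/-- The word of `k` double steps around the vertex `p s`. -/
def Tile.rw (τ : Tile) (s : τ.S) : ℕ → List τ.S
  | 0 => []
  | k + 1 => τ.prev s :: s :: τ.rw s k

theorem Tiling.act_rw (A : Tiling τ D) (s : τ.S) (k : ℕ) (x : A.X) :
    A.act (τ.rw s k) x = (A.rot s)^[k] x := by
  induction k generalizing x with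
  | zero => rfl
  | succ k ih =>
    rw [Function.iterate_succ_apply, ← ih]
    rfl

theorem Tile.dev_append (τ : Tile) (g h : List τ.S) : τ.dev (g ++ h) = τ.dev g * τ.dev h := by
  induction g with
  | nil => exact (one_mul _).symm
  | cons s g ih =>
    show τ.rf s * τ.dev (g ++ h) = τ.rf s * τ.dev g * τ.dev h
    rw [ih, mul_assoc]

theorem intertwine_act (A : Tiling τ D) (B : Tiling τ D') (Ψ : (A.X → ℝ) ≃ₗ[ℝ] (B.X → ℝ))
    (h : ∀ s f, Ψ (f ∘ A.nb s) = (Ψ f) ∘ B.nb s) (g : List τ.S) (f : A.X → ℝ) :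
    Ψ (f ∘ A.act g) = (Ψ f) ∘ B.act g := by
  induction g generalizing f with
  | nil => rfl
  | cons s g ih =>
    have e1 : f ∘ A.act (s :: g) = (f ∘ A.act g) ∘ A.nb s := rfl
    have e2 : (Ψ f) ∘ B.act (s :: g) = ((Ψ f) ∘ B.act g) ∘ B.nb s := rfl
    rw [e1, e2, h, ih]

private theorem wd_trace {X : Type} [Fintype X] [DecidableEq X] (α : X → X) :
    LinearMap.trace ℝ (X → ℝ) (LinearMap.funLeft ℝ ℝ α) =
      ((Finset.univ.filter fun x => α x = x).card : ℝ) := by
  rw [LinearMap.trace_eq_matrix_trace ℝ (Pi.basisFun ℝ X), Matrix.trace]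
  rw [Finset.card_eq_sum_ones, Finset.sum_filter]
  push_cast
  apply Finset.sum_congr rfl
  intro x _
  rw [Matrix.diag_apply, LinearMap.toMatrix_apply]
  simp only [Pi.basisFun_apply, Pi.basisFun_repr, LinearMap.funLeft_apply]
  rw [Pi.single_apply]

/-- Intertwined maps have the same number of fixed points. -/
theorem card_fixed_eq {X Y : Type} [Fintype X] [Fintype Y] [DecidableEq X] [DecidableEq Y]
    (Ψ : (X → ℝ) ≃ₗ[ℝ] (Y → ℝ)) (α : X → X) (α' : Y → Y)
    (h : ∀ f, Ψ (f ∘ α) = (Ψ f) ∘ α') :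
    (Finset.univ.filter fun x => α x = x).card = (Finset.univ.filter fun y => α' y = y).card := by
  have h1 : LinearMap.trace ℝ (Y → ℝ) (Ψ.conj (LinearMap.funLeft ℝ ℝ α)) =
      LinearMap.trace ℝ (X → ℝ) (LinearMap.funLeft ℝ ℝ α) := LinearMap.trace_conj' _ _
  have h2 : Ψ.conj (LinearMap.funLeft ℝ ℝ α) = LinearMap.funLeft ℝ ℝ α' := by
    apply LinearMap.ext
    intro f
    rw [LinearEquiv.conj_apply_apply]
    have h3 := h (Ψ.symm f)
    rw [Ψ.apply_symm_apply] at h3
    exact h3
  rw [h2, wd_trace, wd_trace] at h1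
  exact_mod_cast h1.symm

end Pool.Agent.MP4eed4e
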