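import Mathlib
import Pool.Agent.Lib.MP_4eed4e_an.Words
import Pool.Agent.Lib.MP_4eed4e_an.SecUniq

/-!
Germs; germs at the two ends of a run.
-/

namespace Pool.Agent.MP4eed4e

open Set

variable {τ : Tile} {D : Set ℂ}

theorem Germ.mono {U W : Set ℂ} {c q : ℂ} (h : Germ U c q) (hUW : U ⊆ W) : Germ W c q := by
  obtain ⟨z, hz, hs⟩ := h
  exact ⟨z, hz, hs.trans hUW⟩

private theorem GermA.sub {c d z : ℂ} (hz : z ∈ openSegment ℝ c d) :
    openSegment ℝ c z ⊆ openSegment ℝ c d := by
  obtain ⟨a, b, ha, hb, hab, rfl⟩ := hz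
  rintro w ⟨a', b', ha', hb', hab', rfl⟩
  refine ⟨a' + b' * a, b' * b, by positivity, by positivity, ?_, ?_⟩
  · calc a' + b' * a + b' * b = a' + b' * (a + b) := by ring
      _ = 1 := by rw [hab, mul_one, hab']
  · simp only [Complex.real_smul]
    push_cast
    ring

private theorem GermA.mid (c d : ℂ) : ((1 / 2 : ℝ) • c + (1 / 2 : ℝ) • d) ∈ openSegment ℝ c d :=
  ⟨1 / 2, 1 / 2, by norm_num, by norm_num, by norm_num, rfl⟩

/-- The germ depends only on the direction. -/
theorem Germ.of_mem {U : Set ℂ} {c q q' : ℂ} (hq : q' ∈ openSegment ℝ c q) :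
    Germ U c q ↔ Germ U c q' := by
  by_cases hne : c = q
  · subst hne
    rw [openSegment_same] at hq
    rw [mem_singleton_iff] at hq
    rw [hq]
  · obtain ⟨a, b, ha, hb, hab, rfl⟩ := hq
    have e1 : a • c + b • q = c + (b : ℂ) * (q - c) := by
      have h1 : (a : ℂ) + b = 1 := by exact_mod_cast hab
      simp only [Complex.real_smul]
      linear_combination c * h1
    rw [e1]
    have hb0 : (b : ℂ) ≠ 0 := by exact_mod_cast hb.ne'
    have hqc : q - c ≠ 0 := sub_ne_zero.mpr (Ne.symm hne)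
    have hne' : c ≠ c + (b : ℂ) * (q - c) := by
      intro h
      have h2 : (b : ℂ) * (q - c) = 0 := by linear_combination -h
      rcases mul_eq_zero.mp h2 with h3 | h3
      · exact hb0 h3
      · exact hqc h3
    rw [germ_polar hne, germ_polar hne']
    constructor
    · rintro ⟨δ, hδ, h⟩
      refine ⟨δ / b, by positivity, fun t ht ht' => ?_⟩
      have h3 := h (t * b) (by positivity) ((lt_div_iff₀ hb).mp ht')
      have e2 : c + (t : ℂ) * (c + (b : ℂ) * (q - c) - c) =
          c + ((t * b : ℝ) : ℂ) * (q - c) := by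
        push_cast
        ring
      rw [e2]
      exact h3
    · rintro ⟨δ, hδ, h⟩
      refine ⟨δ * b, by positivity, fun t ht ht' => ?_⟩
      have h3 := h (t / b) (by positivity) ((div_lt_iff₀ hb).mpr ht')
      have e2 : c + ((t / b : ℝ) : ℂ) * (c + (b : ℂ) * (q - c) - c) =
          c + (t : ℂ) * (q - c) := by
        push_cast
        field_simp
        ring
      rw [e2] at h3
      exact h3

theorem Germ.image {U : Set ℂ} {c q : ℂ} (φ : Iso) : Germ (φ '' U) (φ c) (φ q) ↔ Germ U c q := by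
  constructor
  · rintro ⟨z, hz, hs⟩
    rw [← iso_openSegment] at hz
    obtain ⟨z', hz', rfl⟩ := hz
    rw [← iso_openSegment] at hs
    exact ⟨z', hz', (image_subset_image_iff φ.injective).mp hs⟩
  · rintro ⟨z, hz, hs⟩
    refine ⟨φ z, ?_, ?_⟩
    · rw [← iso_openSegment]
      exact mem_image_of_mem _ hz
    · rw [← iso_openSegment]
      exact image_mono hs

theorem Tile.Run.germ_start {g : List τ.S} {c d : ℂ} (h : τ.Run g c d) : Germ τ.T c d := by
  cases h with
  | nil _ _ hs => exact ⟨_, GermA.mid c d, (GermA.sub (GermA.mid c d)).trans hs⟩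
  | cons s g _ _ e he hs _ _ => exact ⟨e, he, hs⟩

theorem Tile.Run.germ_end {g : List τ.S} {c d : ℂ} (h : τ.Run g c d) :
    Germ τ.T ((τ.dev g)⁻¹ d) ((τ.dev g)⁻¹ c) := by
  induction h with
  | nil c d hs =>
    have e1 : (τ.dev [])⁻¹ = (1 : Iso) := inv_one
    rw [e1]
    refine ⟨_, GermA.mid d c, (GermA.sub (GermA.mid d c)).trans ?_⟩
    rw [openSegment_symm]
    exact hs
  | cons s g c d e he hs heo hrun ih =>
    have e1 : ∀ x, (τ.dev (s :: g))⁻¹ x = (τ.dev g)⁻¹ (τ.rf s x) := by
      intro x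
      have h1 : (τ.dev (s :: g))⁻¹ = (τ.dev g)⁻¹ * (τ.rf s)⁻¹ := mul_inv_rev _ _
      have h2 : (τ.rf s)⁻¹ = τ.rf s := reflI_inv _
      rw [h1, h2]
      rfl
    have e2 : τ.rf s e = e :=
      (refl_eq_self_iff (τ.p_ne s) e).mpr
        (lam_of_mem_segment (openSegment_subset_segment _ _ _ heo))
    rw [e1, e1]
    refine (Germ.of_mem ?_).mpr ih
    rw [← iso_openSegment]
    refine mem_image_of_mem _ ?_
    rw [← iso_openSegment, openSegment_symm]
    exact ⟨e, he, e2⟩

end Pool.Agent.MP4eed4e
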