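import Mathlib
import Pool.Agent.Lib.MP_4eed4e_an.GermA

/-!
Gluing of runs, merging of billiard segments.
-/

namespace Pool.Agent.MP4eed4e

open Set

variable {τ : Tile} {D : Set ℂ}

private theorem RunA.sub {c d z : ℂ} (hz : z ∈ openSegment ℝ c d) :
    openSegment ℝ c z ⊆ openSegment ℝ c d := by
  obtain ⟨a, b, ha, hb, hab, rfl⟩ := hz
  rintro w ⟨a', b', ha', hb', hab', rfl⟩
  refine ⟨a' + b' * a, b' * b, by positivity, by positivity, ?_, ?_⟩
  · calc a' + b' * a + b' * b = a' + b' * (a + b) := by ring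
      _ = 1 := by rw [hab, mul_one, hab']
  · simp only [Complex.real_smul]
    push_cast
    ring

private theorem RunA.mid (c d : ℂ) : ((1 / 2 : ℝ) • c + (1 / 2 : ℝ) • d) ∈ openSegment ℝ c d :=
  ⟨1 / 2, 1 / 2, by norm_num, by norm_num, by norm_num, rfl⟩

private theorem RunA.tail {c d e e₁ : ℂ} (h1 : e₁ ∈ openSegment ℝ c e)
    (h2 : e ∈ openSegment ℝ c d) : e ∈ openSegment ℝ e₁ d := by
  obtain ⟨a, b, ha, hb, hab, he1⟩ := h1
  obtain ⟨a', b', ha', hb', hab', he⟩ := h2
  have hpos : 0 < a + a' * b := by positivity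
  have hposC : ((a : ℂ) + a' * b) ≠ 0 := by
    have h3 : ((a + a' * b : ℝ) : ℂ) ≠ 0 := Complex.ofReal_ne_zero.2 hpos.ne'
    push_cast at h3
    exact h3
  refine ⟨a' / (a + a' * b), a * b' / (a + a' * b), by positivity, by positivity, ?_, ?_⟩
  · rw [← add_div, div_eq_one_iff_eq hpos.ne']
    have hb1 : b = 1 - a := by linarith
    have hb2 : b' = 1 - a' := by linarith
    rw [hb1, hb2]
    ring
  · simp only [Complex.real_smul] at he he1 ⊢
    have haC : (a : ℂ) ≠ 0 := Complex.ofReal_ne_zero.2 ha.ne'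
    push_cast
    field_simp
    rw [← he1]
    linear_combination (a : ℂ) * he

private theorem RunA.split {c d e : ℂ} (he : e ∈ openSegment ℝ c d) {z : ℂ}
    (hz : z ∈ openSegment ℝ c d) :
    z ∈ openSegment ℝ c e ∨ z = e ∨ z ∈ openSegment ℝ e d := by
  obtain ⟨a, b, ha, hb, hab, rfl⟩ := hz
  obtain ⟨a', b', ha', hb', hab', rfl⟩ := he
  have hA : (a : ℂ) = 1 - b := by
    have : a = 1 - b := by linarith
    rw [this]
    push_cast
    ring
  have hA' : (a' : ℂ) = 1 - b' := by
    have : a' = 1 - b' := by linarith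
    rw [this]
    push_cast
    ring
  rcases lt_trichotomy b b' with h | h | h
  · left
    refine ⟨1 - b / b', b / b', ?_, by positivity, by ring, ?_⟩
    · rw [sub_pos, div_lt_one hb']
      exact h
    · have h3 : (b' : ℂ) ≠ 0 := Complex.ofReal_ne_zero.2 hb'.ne'
      simp only [Complex.real_smul]
      push_cast
      rw [hA, hA']
      field_simp
      ring
  · right
    left
    have h4 : a = a' := by linarith
    rw [h, h4]
  · right
    right
    have h5 : a < a' := by linarith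
    refine ⟨a / a', 1 - a / a', by positivity, ?_, by ring, ?_⟩
    · rw [sub_pos, div_lt_one ha']
      exact h5
    · have h3 : (a' : ℂ) ≠ 0 := Complex.ofReal_ne_zero.2 ha'.ne'
      have hB : (b : ℂ) = 1 - a := by
        rw [hA]
        ring
      have hB' : (b' : ℂ) = 1 - a' := by
        rw [hA']
        ring
      simp only [Complex.real_smul]
      push_cast
      rw [hB, hB']
      field_simp
      ring

private theorem RunA.dev_inv (s : τ.S) (g : List τ.S) (x : ℂ) :
    (τ.dev (s :: g))⁻¹ x = (τ.dev g)⁻¹ (τ.rf s x) := by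
  have h1 : (τ.dev (s :: g))⁻¹ = (τ.dev g)⁻¹ * (τ.rf s)⁻¹ := mul_inv_rev _ _
  have h2 : (τ.rf s)⁻¹ = τ.rf s := reflI_inv _
  rw [h1, h2]
  rfl

/-- Gluing two runs across a side. -/
theorem Tile.Run.glue {g₁ g₂ : List τ.S} {c d e : ℂ} {s : τ.S} (h1 : τ.Run g₁ c e)
    (he : e ∈ openSegment ℝ c d) (hs : (τ.dev g₁)⁻¹ e ∈ τ.od s)
    (h2 : τ.Run g₂ ((τ.dev g₁)⁻¹ e) (τ.rf s ((τ.dev g₁)⁻¹ d))) :
    τ.Run (g₁ ++ s :: g₂) c d := by
  induction h1 generalizing d with
  | nil c e hs0 =>
    have e1 : (τ.dev [])⁻¹ = (1 : Iso) := inv_one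
    rw [e1] at hs h2
    exact Tile.Run.cons s g₂ c d e he hs0 hs h2
  | cons s₁ g c e e₁ he1 hsub hod hrun ih =>
    rw [RunA.dev_inv] at hs h2
    rw [RunA.dev_inv] at h2
    have e2 : τ.rf s₁ e₁ = e₁ :=
      (refl_eq_self_iff (τ.p_ne s₁) e₁).mpr
        (lam_of_mem_segment (openSegment_subset_segment _ _ _ hod))
    have h3 : τ.rf s₁ e ∈ openSegment ℝ e₁ (τ.rf s₁ d) := by
      have h4 : τ.rf s₁ e ∈ τ.rf s₁ '' openSegment ℝ e₁ d :=
        mem_image_of_mem _ (RunA.tail he1 he)
      rw [iso_openSegment, e2] at h4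
      exact h4
    exact Tile.Run.cons s₁ (g ++ s :: g₂) c d e₁ (RunA.sub he he1) hsub hod
      (ih h3 hs h2)

/-- Extending a billiard segment backwards through `D`. -/
theorem Bil.merge {R : Set Iso} {n : ℕ} {w : Iso} {c d e : ℂ} (hce : openSegment ℝ c e ⊆ D)
    (he : e ∈ D) (hed : e ∈ openSegment ℝ c d) (h : Bil D R n w e d) : Bil D R n w c d := by
  cases h with
  | nil _ _ hs =>
    refine Bil.nil c d ?_
    intro z hz
    rcases RunA.split hed hz with h1 | h1 | h1
    · exact hce h1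
    · rw [h1]
      exact he
    · exact hs h1
  | fold n w _ _ e₂ S he2 hsub hfold hSR hrest =>
    have hed' : e ∈ openSegment ℝ d c := by
      rw [openSegment_symm]
      exact hed
    have he2' : e₂ ∈ openSegment ℝ d e := by
      rw [openSegment_symm]
      exact he2
    have h1 : e₂ ∈ openSegment ℝ c d := by
      rw [openSegment_symm]
      exact RunA.sub hed' he2'
    have h2 : e ∈ openSegment ℝ c e₂ := by
      rw [openSegment_symm]
      exact RunA.tail he2' hed'
    refine Bil.fold n w c d e₂ S h1 ?_ hfold hSR hrest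
    intro z hz
    rcases RunA.split h2 hz with h3 | h3 | h3
    · exact hce h3
    · rw [h3]
      exact he
    · exact hsub h3

theorem Bil.mono {R R' : Set Iso} {n : ℕ} {w : Iso} {c d : ℂ} (h : Bil D R n w c d)
    (hR : ∀ e S, FoldAt D e S → S ∈ R → S ∈ R') : Bil D R' n w c d := by
  induction h with
  | nil c d hs => exact Bil.nil c d hs
  | fold n w c d e S he hsub hfold hSR _ ih =>
    exact Bil.fold n w c d e S he hsub hfold (hR e S hfold hSR) ih

/-- The beginning of a billiard segment is in `D`. -/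
theorem Bil.start {R : Set Iso} {n : ℕ} {w : Iso} {c d : ℂ} (h : Bil D R n w c d) :
    ∃ e ∈ openSegment ℝ c d, openSegment ℝ c e ⊆ D := by
  cases h with
  | nil _ _ hs => exact ⟨_, RunA.mid c d, (RunA.sub (RunA.mid c d)).trans hs⟩
  | fold n w _ _ e S he hsub _ _ _ => exact ⟨e, he, hsub⟩

theorem Pth.start {V N : Set ℂ} {R : ℝ} {k : ℕ} {w : Iso} {c q e q' : ℂ}
    (h : Pth D V N R k w c q e q') : c ≠ q ∧ Disjoint (openSegment ℝ c q) V ∧
      ∃ z ∈ openSegment ℝ c q, openSegment ℝ c z ⊆ D := by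
  cases h with
  | last n w _ _ hb hne hd hR => exact ⟨hne, hd, hb.start⟩
  | turn k n w₁ w₂ _ _ t' _ _ hb hne hd hR hD hN hrest => exact ⟨hne, hd, hb.start⟩

end Pool.Agent.MP4eed4e
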