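import Mathlib
import Pool.Agent.Lib.MP_4eed4e_an.BaseA
import Pool.Agent.Lib.MP_4eed4e_an.FoldCount
import Pool.Agent.Lib.MP_4eed4e_an.RunA

/-!
The folding isometries of paths of bounded complexity form a finite set.
-/

namespace Pool.Agent.MP4eed4e

open Set

variable {τ : Tile} {D : Set ℂ}

/-- products of `n` elements of `R` -/
private def baseBW (R : Set Iso) : ℕ → Set Iso
  | 0 => {1}
  | n + 1 => Set.image2 (fun S w => S * w) R (baseBW R n)

private theorem baseBW_finite {R : Set Iso} (hR : R.Finite) (n : ℕ) : (baseBW R n).Finite := by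
  induction n with
  | zero => exact Set.finite_singleton _
  | succ n ih => exact hR.image2 _ ih

private theorem baseBW_bil {R : Set Iso} {n : ℕ} {w : Iso} {c d : ℂ} (h : Bil D R n w c d) :
    w ∈ baseBW R n := by
  induction h with
  | nil c d _ => exact Set.mem_singleton _
  | fold n w c d e S _ _ _ hS _ ih => exact ⟨S, hS, w, ih, rfl⟩

private theorem baseB_bdd (A : Tiling τ D) : Bornology.IsBounded D := by
  have h1 : Bornology.IsBounded (closure D) := by
    rw [A.cover]
    refine Bornology.isBounded_iUnion.2 fun x => ?_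
    exact ((A.g x).isometry.lipschitz.isBounded_image τ.bdd).closure
  exact h1.subset subset_closure

private theorem baseB_open (A : Tiling τ D) : IsOpen D := by
  rw [← A.reg]
  exact isOpen_interior

/-- The folding isometries of billiard segments of bounded length form a finite set. -/
theorem Tiling.bil_finite (A : Tiling τ D) (L : ℝ) :
    {w : Iso | ∃ n c d, c ∈ closure D ∧ Bil D univ n w c d ∧ dist c d ≤ L}.Finite := by
  have hR := A.refl_finite
  set R0 : Set Iso := {S : Iso | ∃ a b, ∃ h : a ≠ b, segment ℝ a b ⊆ frontier D ∧ S = reflI a b h}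
    with hR0
  obtain ⟨M, hM⟩ := fold_count (baseB_open A) (baseB_bdd A) hR
    (fun S hS => by
      obtain ⟨a, b, h, -, h2⟩ := hS
      exact ⟨a, b, h, h2⟩) L
  refine Set.Finite.subset
    (Set.Finite.biUnion (Set.finite_Iic M) fun n _ => baseBW_finite hR n) ?_
  rintro w ⟨n, c, d, hc, hb, hd⟩
  have hb' : Bil D R0 n w c d := hb.mono (fun e S hS _ => by
    obtain ⟨a, b, h, -, h2, h3⟩ := hS
    exact ⟨a, b, h, h2, h3⟩)
  exact Set.mem_biUnion (hM n w c d hc hb' hd : n ∈ Set.Iic M) (baseBW_bil hb')

/-- The folding isometries of paths of bounded complexity form a finite set. -/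
theorem Tiling.pth_finite (A : Tiling τ D) (K : ℕ) (L : ℝ) :
    {w : Iso | ∃ V N k c q e q', k ≤ K ∧ c ∈ closure D ∧ Pth D V N L k w c q e q'}.Finite := by
  have hW := A.bil_finite L
  set W : Set Iso := {w : Iso | ∃ n c d, c ∈ closure D ∧ Bil D univ n w c d ∧ dist c d ≤ L}
    with hWdef
  have key : ∀ {V N : Set ℂ} {k : ℕ} {w : Iso} {c q e q' : ℂ}, Pth D V N L k w c q e q' →
      c ∈ closure D → w ∈ baseBW W k := by
    intro V N k w c q e q' h
    induction h with
    | last n w c t hb _ _ hd =>
      intro hc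
      exact ⟨w, ⟨n, c, t, hc, hb, hd⟩, 1, Set.mem_singleton _, mul_one w⟩
    | turn k n w₁ w₂ c t t' e q' hb _ _ hd hD _ _ ih =>
      intro hc
      exact ⟨w₁, ⟨n, c, t, hc, hb, hd⟩, w₂, ih (subset_closure hD), rfl⟩
  refine Set.Finite.subset
    (Set.Finite.biUnion (Set.finite_Iic K) fun n _ => baseBW_finite hW n) ?_
  rintro w ⟨V, N, k, c, q, e, q', hk, hc, h⟩
  exact Set.mem_biUnion (hk : k ∈ Set.Iic K) (key h hc)

end Pool.Agent.MP4eed4e
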