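import Mathlib
import Pool.Agent.Lib.MP_4eed4e_an.Star
import Pool.Agent.Lib.MP_4eed4e_an.SecUniq

/-!
A generic segment in `D` starts inside a copy.
-/

namespace Pool.Agent.MP4eed4e

open Set Complex

variable {τ : Tile} {D : Set ℂ}

private theorem Germs_param {a b w : ℂ} (hw : w ∈ segment ℝ a b) :
    ∃ q : ℝ, 0 ≤ q ∧ q ≤ 1 ∧ w = a + q * (b - a) := by
  obtain ⟨s, t, hs, ht, hst, rfl⟩ := hw
  refine ⟨t, ht, by linarith, ?_⟩
  have : (s : ℂ) = 1 - t := by
    have : s = 1 - t := by linarith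
    rw [this]
    push_cast
    ring
  simp only [Complex.real_smul]
  rw [this]
  ring

private theorem Germs_between {a b : ℂ} {q1 q2 : ℝ} (h1 : 0 ≤ q1) (h2 : q2 ≤ 1) (h : q1 < q2) :
    ∃ q : ℚ, 0 ≤ q ∧ q ≤ 1 ∧ a + (q : ℂ) * (b - a) ∈
      openSegment ℝ (a + q1 * (b - a)) (a + q2 * (b - a)) := by
  obtain ⟨q, hq1, hq2⟩ := exists_rat_btwn h
  refine ⟨q, ?_, ?_, ?_⟩
  · have : (0 : ℝ) ≤ (q : ℝ) := by linarith
    exact_mod_cast this
  · have : (q : ℝ) ≤ (1 : ℝ) := by linarith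
    exact_mod_cast this
  · have hd : 0 < q2 - q1 := by linarith
    obtain ⟨s, hs⟩ : ∃ s : ℝ, s = ((q : ℝ) - q1) / (q2 - q1) := ⟨_, rfl⟩
    have hs0 : 0 < s := by
      rw [hs]
      apply div_pos _ hd
      linarith
    have hs1 : s < 1 := by
      rw [hs, div_lt_one hd]
      linarith
    have hse : s * (q2 - q1) = q - q1 := by
      rw [hs]
      field_simp
    refine ⟨1 - s, s, by linarith, hs0, by ring, ?_⟩
    have hsc : (s : ℂ) * ((q2 : ℂ) - q1) = (q : ℂ) - q1 := by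
      exact_mod_cast hse
    simp only [Complex.real_smul]
    push_cast
    linear_combination (b - a) * hsc

private theorem Germs_subsingleton (A : Tiling τ D) {V : Set ℂ}
    (hV : ∀ x, A.g x '' τ.Spec ⊆ V) {c z : ℂ}
    (hd : Disjoint (openSegment ℝ c z) V) (x : A.X) (l : τ.S) :
    (openSegment ℝ c z ∩ A.g x '' τ.sd l).Subsingleton := by
  have key : ∀ w1 w2 : ℂ, A.g x w1 ∈ openSegment ℝ c z → A.g x w2 ∈ openSegment ℝ c z →
      ∀ q1 q2 : ℝ, 0 ≤ q1 → q2 ≤ 1 → q1 < q2 →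
      w1 = τ.p l + q1 * (τ.p (τ.next l) - τ.p l) →
      w2 = τ.p l + q2 * (τ.p (τ.next l) - τ.p l) → False := by
    intro w1 w2 h1 h2 q1 q2 hq1 hq2 hlt e1 e2
    obtain ⟨q, hq0, hq1', hmem⟩ := Germs_between (a := τ.p l) (b := τ.p (τ.next l)) hq1 hq2 hlt
    rw [← e1, ← e2] at hmem
    have h3 := mem_image_of_mem (A.g x) hmem
    rw [iso_openSegment] at h3
    have h4 := (convex_openSegment c z).openSegment_subset h1 h2 h3
    exact disjoint_left.1 hd h4 (hV x (mem_image_of_mem _ ⟨l, q, hq0, hq1', rfl⟩))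
  rintro _ ⟨h1, w1, hw1, rfl⟩ _ ⟨h2, w2, hw2, rfl⟩
  obtain ⟨q1, hq10, hq11, e1⟩ := Germs_param hw1
  obtain ⟨q2, hq20, hq21, e2⟩ := Germs_param hw2
  rcases lt_trichotomy q1 q2 with h | h | h
  · exact (key w1 w2 h1 h2 q1 q2 hq10 hq21 h e1 e2).elim
  · rw [e1, e2, h]
  · exact (key w2 w1 h2 h1 q2 q1 hq20 hq11 h e2 e1).elim

theorem Tiling.exists_germ (A : Tiling τ D) {V : Set ℂ} (hV : ∀ x, A.g x '' τ.Spec ⊆ V)
    {c z : ℂ} (hne : c ≠ z) (h : openSegment ℝ c z ⊆ D)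
    (hd : Disjoint (openSegment ℝ c z) V) : ∃ x, Germ (A.g x '' τ.T) c z := by
  have hfin : (⋃ q : A.X × τ.S, openSegment ℝ c z ∩ A.g q.1 '' τ.sd q.2).Finite :=
    finite_iUnion fun q => (Germs_subsingleton A hV hd q.1 q.2).finite
  set B := ⋃ q : A.X × τ.S, openSegment ℝ c z ∩ A.g q.1 '' τ.sd q.2 with hB
  have hcB : c ∈ Bᶜ := by
    intro hc
    obtain ⟨q, hq⟩ := mem_iUnion.1 hc
    exact hne (left_mem_openSegment_iff.1 hq.1)
  obtain ⟨ε, hε, hball⟩ := Metric.isOpen_iff.1 hfin.isClosed.isOpen_compl c hcB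
  have hzc : 0 < ‖z - c‖ := norm_pos_iff.2 (sub_ne_zero.2 hne.symm)
  obtain ⟨t, ht0, ht1, hte⟩ : ∃ t : ℝ, 0 < t ∧ t < 1 ∧ t * ‖z - c‖ < ε := by
    refine ⟨min (1 / 2) (ε / (2 * ‖z - c‖)), by positivity, ?_, ?_⟩
    · exact lt_of_le_of_lt (min_le_left _ _) (by norm_num)
    · calc min (1 / 2) (ε / (2 * ‖z - c‖)) * ‖z - c‖ ≤ (ε / (2 * ‖z - c‖)) * ‖z - c‖ := by
            gcongr
            exact min_le_right _ _
        _ = ε / 2 := by field_simp
        _ < ε := by linarith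
  set z' := (1 - t) • c + t • z with hz'
  have hz'm : z' ∈ openSegment ℝ c z := ⟨1 - t, t, by linarith, ht0, by ring, rfl⟩
  have hsub : ∀ w ∈ openSegment ℝ c z', w ∈ openSegment ℝ c z ∧ w ∈ Metric.ball c ε := by
    rintro w ⟨a, b, ha, hb, hab, rfl⟩
    have hb1 : b < 1 := by linarith
    have e : a • c + b • z' = (1 - b * t) • c + (b * t) • z := by
      have : (a : ℂ) = 1 - b := by
        have : a = 1 - b := by linarith
        rw [this]
        push_cast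
        ring
      rw [hz']
      simp only [Complex.real_smul]
      rw [this]
      push_cast
      ring
    have hbt : b * t < 1 := by nlinarith
    refine ⟨?_, ?_⟩
    · rw [e]
      exact ⟨1 - b * t, b * t, by linarith, by positivity, by ring, rfl⟩
    · rw [e, Metric.mem_ball, dist_eq_norm]
      have e2 : (1 - b * t) • c + (b * t) • z - c = ((b * t : ℝ) : ℂ) * (z - c) := by
        simp only [Complex.real_smul]
        push_cast
        ring
      rw [e2, norm_mul, Complex.norm_real, Real.norm_eq_abs, abs_of_pos (by positivity)]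
      have : b * t ≤ t := by nlinarith
      calc b * t * ‖z - c‖ ≤ t * ‖z - c‖ := by gcongr
        _ < ε := hte
  have hcov : ∀ w ∈ openSegment ℝ c z', ∃ x, w ∈ A.g x '' τ.T := by
    intro w hw
    obtain ⟨hw1, hw2⟩ := hsub w hw
    rcases A.mem_cases (subset_closure (h hw1)) with h3 | ⟨x, s, h3⟩
    · exact h3
    · exact (hball hw2 (mem_iUnion.2 ⟨(x, s), hw1, h3⟩)).elim
  have hcz' : (openSegment ℝ c z').Nonempty :=
    ⟨(1 / 2 : ℝ) • c + (1 / 2 : ℝ) • z', 1 / 2, 1 / 2, by norm_num, by norm_num, by norm_num, rfl⟩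
  obtain ⟨y0, hy0⟩ := hcz'
  obtain ⟨x0, hx0⟩ := hcov y0 hy0
  have hopen : ∀ x, IsOpen (A.g x '' τ.T) := fun x =>
    (A.g x).toHomeomorph.isOpenMap _ τ.isOpen
  have hpre : IsPreconnected (openSegment ℝ c z') := (convex_openSegment c z').isPreconnected
  have hres : openSegment ℝ c z' ⊆ A.g x0 '' τ.T := by
    refine IsPreconnected.subset_left_of_subset_union (hopen x0)
      (v := ⋃ x : {x : A.X // x ≠ x0}, A.g x.1 '' τ.T)
      (isOpen_iUnion fun x => hopen x.1) ?_ ?_ ⟨y0, hy0, hx0⟩ hpre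
    · rw [disjoint_iUnion_right]
      exact fun x => A.disj x0 x.1 x.2.symm
    · intro w hw
      obtain ⟨x, hx⟩ := hcov w hw
      by_cases hxx : x = x0
      · left
        rwa [← hxx]
      · right
        exact mem_iUnion.2 ⟨⟨x, hxx⟩, hx⟩
  exact ⟨x0, z', hz'm, hres⟩

theorem Tile.spec_countable (τ : Tile) : τ.Spec.Countable := by
  apply (countable_range (fun q : τ.S × ℚ =>
    τ.p q.1 + (q.2 : ℂ) * (τ.p (τ.next q.1) - τ.p q.1))).mono
  rintro z ⟨s, q, _, _, rfl⟩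
  exact ⟨(s, q), rfl⟩

theorem Tile.p_mem_spec (τ : Tile) (s : τ.S) : τ.p s ∈ τ.Spec :=
  ⟨s, 0, le_rfl, zero_le_one, by simp⟩

end Pool.Agent.MP4eed4e
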