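import Mathlib
import Pool.Agent.Lib.MP_4eed4e_an.Germs

/-!
Singular directions of `D` and singular flags of a tiling.
-/

namespace Pool.Agent.MP4eed4e

open Set Complex MeasureTheory

variable {τ : Tile} {D : Set ℂ}

/-- polar coordinates with an angle in `(0, 2 π]` -/
private theorem fa_polar {w U : ℂ} {η : ℝ} (hw : w ≠ 0) (hU : ‖U‖ = 1) (hη : η = 1 ∨ η = -1) :
    ∃ ρ ψ : ℝ, 0 < ρ ∧ 0 < ψ ∧ ψ ≤ 2 * Real.pi ∧ w = ρ * U * exp (η * ψ * I) := by
  have hU0 : U ≠ 0 := by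
    intro h
    rw [h, norm_zero] at hU
    exact zero_ne_one hU
  have hpi := Real.pi_pos
  have h1 := neg_pi_lt_arg (w / U)
  have h2 := arg_le_pi (w / U)
  obtain ⟨θ, hθ⟩ : ∃ θ : ℝ, θ = η * arg (w / U) := ⟨_, rfl⟩
  have hθ1 : -Real.pi ≤ θ ∧ θ ≤ Real.pi := by
    rw [hθ]
    rcases hη with rfl | rfl <;> constructor <;> linarith
  have hηη : η * η = 1 := by rcases hη with rfl | rfl <;> norm_num
  have hform : w = ‖w‖ * U * exp (η * θ * I) := by
    have h3 := norm_mul_exp_arg_mul_I (w / U)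
    rw [norm_div, hU, div_one] at h3
    have h4 : ((η : ℂ) * θ * I) = (arg (w / U) : ℂ) * I := by
      rw [hθ]
      have h5 : (η : ℂ) * η = 1 := by exact_mod_cast hηη
      push_cast
      linear_combination ((arg (w / U) : ℂ) * I) * h5
    rw [h4]
    have h6 : w = w / U * U := by field_simp
    rw [← h3] at h6
    linear_combination h6
  rcases lt_or_ge 0 θ with h3 | h3
  · exact ⟨‖w‖, θ, norm_pos_iff.2 hw, h3, by linarith, hform⟩
  · refine ⟨‖w‖, θ + 2 * Real.pi * (1 : ℤ), norm_pos_iff.2 hw, ?_, ?_, ?_⟩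
    · push_cast
      linarith
    · push_cast
      linarith
    · have h4 := polar_period 0 U η ‖w‖ θ 1 hη
      rw [zero_add, zero_add] at h4
      rw [h4]
      exact hform

/-- the direction of a germ at a vertex of a copy -/
private theorem fa_dir (A : Tiling τ D) {s : τ.S} {x : A.X} {q U : ℂ} {η : ℝ}
    (hU : ‖U‖ = 1) (hη : η = 1 ∨ η = -1)
    (hZ : ∀ ρ θ : ℝ, A.Z s x ρ θ = A.g x (τ.p s) + ρ * U * exp (η * θ * I))
    (hne : A.g x (τ.p s) ≠ q) (hg : Germ (A.g x '' τ.T) (A.g x (τ.p s)) q) :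
    ∃ ρ ψ : ℝ, 0 < ρ ∧ 0 < ψ ∧ ψ < τ.ang s ∧ q = A.g x (τ.p s) + ρ * U * exp (η * ψ * I) := by
  obtain ⟨ρ, ψ, hρ, hψ, hψ2, h⟩ := fa_polar (sub_ne_zero.2 hne.symm) hU hη
  refine ⟨ρ, ψ, hρ, hψ, ?_, by rw [← h]; ring⟩
  by_contra hcon
  rw [not_lt] at hcon
  obtain ⟨δ, hδ, hd⟩ := (germ_polar hne).1 hg
  have hrad := (τ.frame_spec s).2.2.2.2.1
  obtain ⟨t, ht⟩ : ∃ t : ℝ, t = min δ (τ.rad s / ρ) / 2 := ⟨_, rfl⟩
  have hm : 0 < min δ (τ.rad s / ρ) := lt_min hδ (by positivity)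
  have ht0 : 0 < t := by rw [ht]; positivity
  have ht1 : t < δ := by
    have := min_le_left δ (τ.rad s / ρ)
    rw [ht]
    linarith
  have ht2 : t * ρ < τ.rad s := by
    have := min_le_right δ (τ.rad s / ρ)
    have h2 : t < τ.rad s / ρ := by
      rw [ht]
      linarith
    rwa [lt_div_iff₀ hρ] at h2
  have h3 := hd t ht0 ht1
  have h4 := A.Z_not_mem_tile s x (t * ρ) ψ (by positivity) ht2 hcon hψ2
  rw [hZ] at h4
  apply h4
  rw [h] at h3
  convert h3 using 2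
  push_cast
  ring

/-- the sector of a boundary vertex -/
private theorem fa_sec (A : Tiling τ D) {s : τ.S} {x : A.X} {m i : ℕ} {U : ℂ} {η : ℝ}
    (hU : ‖U‖ = 1) (hη : η = 1 ∨ η = -1)
    (hZ : ∀ ρ θ : ℝ, A.Z s x ρ θ = A.g x (τ.p s) + ρ * U * exp (η * θ * I))
    (hb : A.BdStar s x m i) :
    ∃ u, Sec D (A.g x (τ.p s)) u (m * τ.ang s) (τ.rad s) ∧
      ∀ ψ : ℝ, 0 < ψ → ψ < τ.ang s → ∃ θ : ℝ, 0 < θ ∧ θ < m * τ.ang s ∧
        u * exp (θ * I) = U * exp (η * ψ * I) := by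
  obtain ⟨him, -, h2pi, -, -, -, hin, hout, -, -⟩ := hb
  have hang := (τ.frame_spec s).2.2.1
  have hrad := (τ.frame_spec s).2.2.2.2.1
  have hm : (0 : ℝ) < m := by exact_mod_cast (Nat.zero_le i).trans_lt him
  have him' : (i : ℝ) + 1 ≤ m := by exact_mod_cast him
  have e1 : -((i : ℝ) * τ.ang s) + m * τ.ang s = (m - i) * τ.ang s := by ring
  obtain ⟨u, hu, hdir, -⟩ := sec_of_frame (D := D) (P := A.g x (τ.p s)) (U := U) (η := η)
    (ψ₀ := -((i : ℝ) * τ.ang s)) (α := m * τ.ang s) (r := τ.rad s) hU hη (by positivity) h2pi hrad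
    (fun ρ ψ h0 h1 h2 h3 => by
      rw [← hZ]
      exact hin ρ ψ h0 h1 h2 (by rw [← e1]; exact h3))
    (fun ρ h0 h1 => by
      rw [← hZ, ← hZ, e1]
      exact hout ρ h0 h1)
  refine ⟨u, hu, fun ψ h0 h1 => hdir ψ ?_ ?_⟩
  · have : 0 ≤ (i : ℝ) * τ.ang s := by positivity
    linarith
  · rw [e1]
    have : 1 * τ.ang s ≤ ((m : ℝ) - i) * τ.ang s :=
      mul_le_mul_of_nonneg_right (by linarith) hang.le
    linarith

/-- comparison of two polar forms -/
private theorem fa_cmp {U u : ℂ} {ρ ρ' θ θ' η : ℝ} (hU : ‖U‖ = 1) (hu : ‖u‖ = 1) (hρ : 0 < ρ)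
    (hρ' : 0 < ρ') (h : (ρ : ℂ) * U * exp (η * θ * I) = ρ' * u * exp (θ' * I)) :
    U * exp (η * θ * I) = u * exp (θ' * I) := by
  have h1 := congrArg norm h
  have e1 : ‖exp ((η : ℂ) * θ * I)‖ = 1 := by
    have := norm_exp_ofReal_mul_I (η * θ)
    push_cast at this
    exact this
  rw [norm_mul, norm_mul, norm_mul, norm_mul, hU, hu, e1, norm_exp_ofReal_mul_I, norm_real,
    norm_real, mul_one, mul_one, mul_one, mul_one, Real.norm_eq_abs, Real.norm_eq_abs,
    abs_of_pos hρ, abs_of_pos hρ'] at h1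
  rw [h1, mul_assoc (ρ' : ℂ) U, mul_assoc (ρ' : ℂ) u] at h
  have h0 : (ρ' : ℂ) ≠ 0 := by exact_mod_cast hρ'.ne'
  exact mul_left_cancel₀ h0 h

/-- `lam` at the points near a point of the side, in polar coordinates -/
private theorem fa_lam {a b z v : ℂ} {ε : ℝ} (hε : ε = 1 ∨ ε = -1) (hab : b - a ≠ 0)
    (hv : v = (b - a) / (‖b - a‖ : ℂ)) (hz : lam a b z = 0) (ρ θ : ℝ) :
    ε * lam a b (z + ρ * v * exp (ε * θ * I)) = ρ * ‖b - a‖ * Real.sin θ := by
  have hn : (‖b - a‖ : ℂ) ≠ 0 := by exact_mod_cast norm_ne_zero_iff.2 hab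
  have hconj : (b - a) * (starRingEnd ℂ) (b - a) = (‖b - a‖ : ℂ) ^ 2 := by
    rw [mul_conj, normSq_eq_norm_sq]
    push_cast
    rfl
  have h1 : lam a b (z + ρ * v * exp (ε * θ * I)) =
      lam a b z + ((ρ * ‖b - a‖ : ℝ) * exp ((ε * θ : ℝ) * I)).im := by
    unfold lam
    rw [← add_im]
    congr 1
    have h2 : (ρ : ℂ) * v * exp (ε * θ * I) * (starRingEnd ℂ) (b - a) =
        (ρ * ‖b - a‖ : ℝ) * exp ((ε * θ : ℝ) * I) := by
      rw [hv]
      push_cast
      field_simp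
      linear_combination (ρ : ℂ) * hconj
    linear_combination h2
  rw [h1, hz, zero_add, im_ofReal_mul, exp_ofReal_mul_I_im]
  rcases hε with rfl | rfl
  · rw [one_mul, one_mul]
  · rw [neg_one_mul, neg_one_mul, Real.sin_neg]
    ring

/-- a point in the interior of a side on the boundary of `D` has the angle `π` -/
private theorem fa_side (A : Tiling τ D) {l : τ.S} {x : A.X} {z q : ℂ} (hz : z ∈ τ.od l)
    (hnb : A.nb l x = x) (hne : A.g x z ≠ q) (hg : Germ (A.g x '' τ.T) (A.g x z) q) :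
    ∃ (u : ℂ) (r ρ θ : ℝ), Sec D (A.g x z) u Real.pi r ∧ 0 < ρ ∧ 0 < θ ∧ θ < Real.pi ∧
      q = A.g x z + ρ * u * exp (θ * I) := by
  obtain ⟨r₁, hr₁, ε, hε, hh⟩ := τ.half hz
  have hzs : z ∈ τ.sd l := openSegment_subset_segment ℝ _ _ hz
  have hlz : lam (τ.p l) (τ.p (τ.next l)) z = 0 := lam_of_mem_segment hzs
  obtain ⟨a, ha⟩ : ∃ a, a = τ.p l := ⟨_, rfl⟩
  obtain ⟨b, hb⟩ : ∃ b, b = τ.p (τ.next l) := ⟨_, rfl⟩
  have hab : b - a ≠ 0 := by
    rw [ha, hb]
    exact sub_ne_zero.2 (τ.p_ne l).symm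
  obtain ⟨L, hL⟩ : ∃ L : ℝ, L = ‖b - a‖ := ⟨_, rfl⟩
  have hL0 : 0 < L := by
    rw [hL]
    exact norm_pos_iff.2 hab
  obtain ⟨v, hv⟩ : ∃ v : ℂ, v = (b - a) / (‖b - a‖ : ℂ) := ⟨_, rfl⟩
  have hv1 : ‖v‖ = 1 := by
    rw [hv, norm_div, norm_real, norm_norm, div_self (norm_ne_zero_iff.2 hab)]
  have hLv : (L : ℂ) * v = b - a := by
    have : (‖b - a‖ : ℂ) ≠ 0 := by exact_mod_cast norm_ne_zero_iff.2 hab
    rw [hv, hL]
    field_simp
  rw [← ha, ← hb] at hlz hh
  have hlam := fun ρ θ => fa_lam hε hab hv hlz ρ θ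
  have hball : ∀ ρ θ : ℝ, 0 ≤ ρ → ρ < r₁ → z + ρ * v * exp (ε * θ * I) ∈ Metric.ball z r₁ := by
    intro ρ θ h0 h1
    have e1 : ‖exp ((ε : ℂ) * θ * I)‖ = 1 := by
      have := norm_exp_ofReal_mul_I (ε * θ)
      push_cast at this
      exact this
    rw [mem_ball_iff_norm, add_sub_cancel_left, norm_mul, norm_mul, e1, hv1, norm_real,
      Real.norm_eq_abs, abs_of_nonneg h0, mul_one, mul_one]
    exact h1
  -- position on the side
  obtain ⟨t, ht0, ht1, hzt⟩ : ∃ t : ℝ, 0 < t ∧ t < 1 ∧ z = a + t * (b - a) := by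
    have h1 : z ∈ openSegment ℝ a b := by rw [ha, hb]; exact hz
    rw [openSegment_eq_image'] at h1
    obtain ⟨t, ht, hzt⟩ := h1
    refine ⟨t, ht.1, ht.2, ?_⟩
    rw [← hzt, ← real_smul]
  have hon : ∀ ρ : ℝ, |ρ| < t * L → |ρ| < (1 - t) * L → z + ρ * v ∈ τ.sd l := by
    intro ρ h1 h2
    have h3 := abs_lt.1 h1
    have h4 := abs_lt.1 h2
    show z + ρ * v ∈ segment ℝ (τ.p l) (τ.p (τ.next l))
    rw [← ha, ← hb, segment_eq_image']
    refine ⟨t + ρ / L, ⟨?_, ?_⟩, ?_⟩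
    · have : -t ≤ ρ / L := by
        rw [le_div_iff₀ hL0]
        linarith
      linarith
    · have : ρ / L ≤ 1 - t := by
        rw [div_le_iff₀ hL0]
        linarith
      linarith
    · show a + (t + ρ / L) • (b - a) = z + ρ * v
      have hLc : (L : ℂ) ≠ 0 := by exact_mod_cast hL0.ne'
      rw [real_smul, hzt, ← hLv]
      push_cast
      field_simp
      ring
  obtain ⟨U, η, hU, hη, hUη⟩ := iso_polar (A.g x) z v ε hv1 hε
  obtain ⟨r, hr⟩ : ∃ r, r = min r₁ (min (t * L) ((1 - t) * L)) := ⟨_, rfl⟩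
  have hr0 : 0 < r := by
    rw [hr]
    exact lt_min hr₁ (lt_min (by positivity) (mul_pos (by linarith) hL0))
  have hpi := Real.pi_pos
  obtain ⟨u, hu, hdir, -⟩ := sec_of_frame (D := D) (P := A.g x z) (U := U) (η := η)
    (ψ₀ := 0) (α := Real.pi) (r := r) hU hη hpi (by linarith) hr0
    (fun ρ ψ h0 h1 h2 h3 => by
      rw [← hUη]
      refine A.tile_sub x ⟨_, ?_, rfl⟩
      have h4 : ρ < r₁ := h1.trans_le (by rw [hr]; exact min_le_left _ _)
      rw [(hh _ (hball ρ ψ h0.le h4)).1, hlam]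
      have h5 := Real.sin_pos_of_pos_of_lt_pi h2 (by linarith)
      rw [← hL]
      positivity)
    (fun ρ h0 h1 => by
      have h4 : ρ < t * L := h1.trans_le (by
        rw [hr]; exact (min_le_right _ _).trans (min_le_left _ _))
      have h5 : ρ < (1 - t) * L := h1.trans_le (by
        rw [hr]; exact (min_le_right _ _).trans (min_le_right _ _))
      rw [zero_add, ← hUη, ← hUη]
      constructor
      · refine A.sd_not_mem hnb ⟨_, ?_, rfl⟩
        have h6 := hon ρ (by rwa [abs_of_nonneg h0]) (by rwa [abs_of_nonneg h0])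
        rw [ofReal_zero, mul_zero, zero_mul, exp_zero, mul_one]
        exact h6
      · refine A.sd_not_mem hnb ⟨_, ?_, rfl⟩
        have h6 := hon (-ρ) (by rwa [abs_neg, abs_of_nonneg h0])
          (by rwa [abs_neg, abs_of_nonneg h0])
        have h7 : exp ((ε : ℂ) * (Real.pi : ℝ) * I) = -1 := by
          rcases hε with rfl | rfl
          · rw [ofReal_one, one_mul, exp_pi_mul_I]
          · have : ((-1 : ℝ) : ℂ) * (Real.pi : ℝ) * I = -(Real.pi * I) := by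
              push_cast
              ring
            rw [this, exp_neg, exp_pi_mul_I]
            norm_num
        rw [h7]
        have h8 : (ρ : ℂ) * v * -1 = ((-ρ : ℝ) : ℂ) * v := by
          push_cast
          ring
        rw [h8]
        exact h6)
  obtain ⟨ρ, ψ, hρ, hψ, hψ2, h⟩ := fa_polar (sub_ne_zero.2 hne.symm) hU hη
  have hψpi : ψ < Real.pi := by
    by_contra hcon
    rw [not_lt] at hcon
    obtain ⟨δ, hδ, hd⟩ := (germ_polar hne).1 hg
    obtain ⟨t', ht'⟩ : ∃ t' : ℝ, t' = min δ (r₁ / ρ) / 2 := ⟨_, rfl⟩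
    have hm : 0 < min δ (r₁ / ρ) := lt_min hδ (by positivity)
    have ht0' : 0 < t' := by rw [ht']; positivity
    have ht1' : t' < δ := by
      have := min_le_left δ (r₁ / ρ)
      rw [ht']
      linarith
    have ht2' : t' * ρ < r₁ := by
      have := min_le_right δ (r₁ / ρ)
      have h2 : t' < r₁ / ρ := by
        rw [ht']
        linarith
      rwa [lt_div_iff₀ hρ] at h2
    have h3 := hd t' ht0' ht1'
    rw [h] at h3
    have h4 : A.g x z + t' * (ρ * U * exp (η * ψ * I)) =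
        A.g x (z + ((t' * ρ : ℝ) : ℂ) * v * exp (ε * ψ * I)) := by
      rw [hUη]
      push_cast
      ring
    rw [h4, (A.g x).injective.mem_set_image,
      (hh _ (hball (t' * ρ) ψ (by positivity) ht2')).1, hlam, ← hL] at h3
    have h5 : Real.sin ψ ≤ 0 := by
      have h6 : Real.sin ψ = -Real.sin (ψ - Real.pi) := by
        rw [Real.sin_sub_pi, neg_neg]
      rw [h6]
      have := Real.sin_nonneg_of_nonneg_of_le_pi (x := ψ - Real.pi) (by linarith) (by linarith)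
      linarith
    have h6 : 0 < t' * ρ * L := by positivity
    nlinarith
  obtain ⟨θ, hθ0, hθ1, hθ2⟩ := hdir ψ hψ (by linarith)
  refine ⟨u, r, ρ, θ, hu, hρ, hθ0, hθ1, ?_⟩
  rw [mul_assoc, hθ2, ← mul_assoc, ← h]
  ring

theorem Tiling.flag_of_sg (A : Tiling τ D) {P q : ℂ} {x : A.X} (hS : Sg D P q)
    (hg : Germ (A.g x '' τ.T) P q) : ∃ s, P = A.g x (τ.p s) ∧ A.SingFlag s x := by
  obtain ⟨u, al, r, ρ₀, θ₀, hsec, hj, hρ₀, hθ₀, hθ₁, hq⟩ := hS
  have hu1 : ‖u‖ = 1 := hsec.1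
  have hne : P ≠ q := by
    intro h
    rw [hq] at h
    have h1 : (ρ₀ : ℂ) * u * exp (θ₀ * I) = 0 := by linear_combination -h
    have h2 := congrArg norm h1
    rw [norm_mul, norm_mul, hu1, norm_exp_ofReal_mul_I, norm_real, Real.norm_eq_abs,
      abs_of_pos hρ₀, norm_zero] at h2
    linarith
  have hPD : P ∉ D := by
    have h1 := (hsec.2.2.2.2.2 0 le_rfl hsec.2.2.2.1).1
    rw [ofReal_zero, zero_mul, add_zero] at h1
    exact h1
  have hcl : P ∈ closure (A.g x '' τ.T) := by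
    obtain ⟨δ, hδ, hd⟩ := (germ_polar hne).1 hg
    have h1 : Filter.Tendsto (fun t : ℝ => P + t * (q - P)) (nhdsWithin 0 (Ioi 0)) (nhds P) := by
      have h2 : Continuous (fun t : ℝ => P + t * (q - P)) := by fun_prop
      have h3 := h2.tendsto 0
      rw [ofReal_zero, zero_mul, add_zero] at h3
      exact h3.mono_left nhdsWithin_le_nhds
    refine mem_closure_of_tendsto h1 ?_
    filter_upwards [self_mem_nhdsWithin,
      mem_nhdsWithin_of_mem_nhds (Iio_mem_nhds hδ)] with t ht0 ht1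
    exact hd t ht0 ht1
  have hnT : P ∉ A.g x '' τ.T := fun h => hPD (A.tile_sub x h)
  obtain ⟨l, z, hz, hzP⟩ := A.mem_side hcl hnT
  have key : ∀ s, P = A.g x (τ.p s) → A.SingFlag s x := by
    intro s hs
    obtain ⟨U, η, hU, hη, hZ⟩ := A.Z_polar s x
    rcases A.star s x with ⟨k, hk⟩ | ⟨m, i, hb⟩
    · exact absurd (hs ▸ hk.2.2.2) hPD
    · subst hs
      obtain ⟨ρ, ψ, hρ, hψ0, hψ1, hq'⟩ := fa_dir A hU hη hZ hne hg
      obtain ⟨u', hu', hdir⟩ := fa_sec A hU hη hZ hb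
      obtain ⟨θ, hθ0, hθ1', hθ2⟩ := hdir ψ hψ0 hψ1
      have h1 : (ρ : ℂ) * U * exp (η * ψ * I) = ρ₀ * u * exp (θ₀ * I) := by
        rw [hq] at hq'
        linear_combination -hq'
      have h2 := fa_cmp hU hu1 hρ hρ₀ h1
      rw [← hθ2] at h2
      obtain ⟨-, hal⟩ := hsec.unique hu' hθ₀ hθ₁ hθ0 hθ1' h2.symm
      by_contra hcon
      unfold Tiling.SingFlag at hcon
      push Not at hcon
      obtain ⟨⟨k, hk0, hk⟩, hall⟩ := hcon
      have h3 : Function.IsPeriodicPt (A.rot s) k x := hall k hk0 hk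
      have h4 := h3.minimalPeriod_dvd
      rw [hb.2.1] at h4
      obtain ⟨j, rfl⟩ := h4
      apply hj j
      rw [hal, ← hk]
      push_cast
      ring
  have hz' : z = τ.p l ∨ z = τ.p (τ.next l) ∨ z ∈ τ.od l := by
    have h1 : z ∈ segment ℝ (τ.p l) (τ.p (τ.next l)) := hz
    rw [← insert_endpoints_openSegment] at h1
    simpa using h1
  rcases hz' with h | h | h
  · exact ⟨l, by rw [← hzP, h], key l (by rw [← hzP, h])⟩
  · exact ⟨τ.next l, by rw [← hzP, h], key _ (by rw [← hzP, h])⟩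
  · exfalso
    have hnb : A.nb l x = x := by
      by_contra hcon
      exact hPD (A.od_sub hcon ⟨z, h, hzP⟩)
    subst hzP
    obtain ⟨u', r', ρ, θ, hu', hρ, hθ0, hθπ, hq'⟩ := fa_side A h hnb hne hg
    have h1 : (ρ : ℂ) * u' * exp ((1 : ℝ) * θ * I) = ρ₀ * u * exp (θ₀ * I) := by
      rw [hq] at hq'
      rw [ofReal_one, one_mul]
      linear_combination -hq'
    have h2 := fa_cmp hu'.1 hu1 hρ hρ₀ h1
    rw [ofReal_one, one_mul] at h2
    obtain ⟨-, hal⟩ := hsec.unique hu' hθ₀ hθ₁ hθ0 hθπ h2.symm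
    apply hj 1
    rw [hal, Nat.cast_one, one_mul]

theorem Tiling.sg_of_flag (A : Tiling τ D) {s : τ.S} {x : A.X} {q : ℂ} (h : A.SingFlag s x)
    (hne : A.g x (τ.p s) ≠ q) (hg : Germ (A.g x '' τ.T) (A.g x (τ.p s)) q) :
    Sg D (A.g x (τ.p s)) q := by
  obtain ⟨U, η, hU, hη, hZ⟩ := A.Z_polar s x
  have hang := (τ.frame_spec s).2.2.1
  rcases A.star s x with ⟨k, hk0, hk, hmin, -⟩ | ⟨m, i, hb⟩
  · exfalso
    rcases h with h | ⟨k', hk0', hk', hrot⟩
    · exact h k hk0 hk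
    · have h1 : (k' : ℝ) = k := mul_right_cancel₀ hang.ne' (hk'.trans hk.symm)
      have h2 : k' = k := by exact_mod_cast h1
      apply hrot
      rw [h2, ← hmin]
      exact Function.isPeriodicPt_minimalPeriod _ _
  · obtain ⟨ρ, ψ, hρ, hψ0, hψ1, hq'⟩ := fa_dir A hU hη hZ hne hg
    obtain ⟨u', hu', hdir⟩ := fa_sec A hU hη hZ hb
    obtain ⟨θ, hθ0, hθ1', hθ2⟩ := hdir ψ hψ0 hψ1
    refine ⟨u', m * τ.ang s, τ.rad s, ρ, θ, hu', ?_, hρ, hθ0, hθ1', ?_⟩
    · intro j hj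
      have h1 : ((j * m : ℕ) : ℝ) * τ.ang s = Real.pi := by
        push_cast
        rw [← hj]
        ring
      have h2 : 0 < j * m := by
        rw [Nat.pos_iff_ne_zero]
        intro h3
        rw [h3, Nat.cast_zero, zero_mul] at h1
        exact Real.pi_ne_zero h1.symm
      have h3 : (A.rot s)^[j * m] x = x := by
        have h4 : Function.IsPeriodicPt (A.rot s) m x := by
          rw [← hb.2.1]
          exact Function.isPeriodicPt_minimalPeriod _ _
        exact h4.const_mul j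
      rcases h with h | ⟨k', hk0', hk', hrot⟩
      · exact h _ h2 h1
      · have h5 : (k' : ℝ) = (j * m : ℕ) := mul_right_cancel₀ hang.ne' (hk'.trans h1.symm)
        have h6 : k' = j * m := by exact_mod_cast h5
        rw [h6] at hrot
        exact hrot h3
    · rw [mul_assoc, hθ2, ← mul_assoc]
      exact hq'

end Pool.Agent.MP4eed4e
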