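import Mathlib

/-!
Generic points.
-/

namespace Pool.Agent.MP4eed4e

open Set MeasureTheory

private theorem generic_line_null (a v : ℂ) (h : v ≠ a) :
    volume {z : ℂ | ∃ t : ℝ, z = a + t * (v - a)} = 0 := by
  have hsub : {z : ℂ | ∃ t : ℝ, z = a + t * (v - a)} ⊆
      (AffineSubspace.mk' a (Submodule.span ℝ {v - a}) : Set ℂ) := by
    rintro z ⟨t, rfl⟩
    rw [SetLike.mem_coe, AffineSubspace.mem_mk', vsub_eq_sub, add_sub_cancel_left]
    exact Submodule.mem_span_singleton.mpr ⟨t, by simp⟩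
  refine measure_mono_null hsub (Measure.addHaar_affineSubspace volume _ ?_)
  intro htop
  have hmem : a + Complex.I * (v - a) ∈
      (AffineSubspace.mk' a (Submodule.span ℝ {v - a}) : AffineSubspace ℝ ℂ) := by
    rw [htop]
    exact AffineSubspace.mem_top ℝ ℂ _
  rw [AffineSubspace.mem_mk', vsub_eq_sub, add_sub_cancel_left] at hmem
  obtain ⟨t, ht⟩ := Submodule.mem_span_singleton.mp hmem
  have hva : v - a ≠ 0 := sub_ne_zero.mpr h
  rw [Complex.real_smul] at ht
  have h1 : (t : ℂ) = Complex.I := mul_right_cancel₀ hva ht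
  have h2 := congrArg Complex.im h1
  simp at h2

private theorem generic_bad_null {V : Set ℂ} (hV : V.Countable) (a : ℂ) :
    volume (⋃ v ∈ V, {z : ℂ | v ≠ a ∧ ∃ t : ℝ, z = a + t * (v - a)}) = 0 := by
  rw [measure_biUnion_null_iff hV]
  intro v _
  by_cases h : v = a
  · have : {z : ℂ | v ≠ a ∧ ∃ t : ℝ, z = a + t * (v - a)} = ∅ := by
      ext z
      simp [h]
    rw [this, measure_empty]
  · refine measure_mono_null ?_ (generic_line_null a v h)
    rintro z ⟨_, hz⟩
    exact hz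

private theorem generic_open_seg {a z v : ℂ} (hza : z ≠ a) (hv : v ∈ openSegment ℝ a z) :
    v ≠ a ∧ ∃ t : ℝ, z = a + t * (v - a) := by
  obtain ⟨s, t, hs, ht, hst, rfl⟩ := hv
  have hs' : s = 1 - t := by linarith
  subst hs'
  have e : ((1 - t : ℝ) • a + t • z : ℂ) = a + t * (z - a) := by
    simp only [Complex.real_smul]
    push_cast
    ring
  rw [e]
  have ht' : (t : ℂ) ≠ 0 := by exact_mod_cast ht.ne'
  refine ⟨?_, 1 / t, ?_⟩
  · intro h
    have h1 : (t : ℂ) * (z - a) = 0 := by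
      have := congrArg (fun w => w - a) h
      simpa using this
    rcases mul_eq_zero.mp h1 with h2 | h2
    · exact ht' h2
    · exact hza (sub_eq_zero.mp h2)
  · push_cast
    field_simp
    ring

/-- A nonempty open set contains a generic point seen generically from two given points. -/
theorem generic_point {U V N : Set ℂ} (hU : IsOpen U) (hne : U.Nonempty) (hV : V.Countable)
    (hN : volume N = 0) (a b : ℂ) :
    ∃ z ∈ U, z ∉ N ∧ z ≠ a ∧ z ≠ b ∧ Disjoint (openSegment ℝ a z) V ∧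
      Disjoint (openSegment ℝ z b) V := by
  have hbad : volume (((N ∪ {a}) ∪ {b}) ∪
      ((⋃ v ∈ V, {z : ℂ | v ≠ a ∧ ∃ t : ℝ, z = a + t * (v - a)}) ∪
        (⋃ v ∈ V, {z : ℂ | v ≠ b ∧ ∃ t : ℝ, z = b + t * (v - b)}))) = 0 := by
    apply measure_union_null
    · apply measure_union_null
      · apply measure_union_null hN
        simp
      · simp
    · exact measure_union_null (generic_bad_null hV a) (generic_bad_null hV b)
  have hpos : 0 < volume U := hU.measure_pos volume hne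
  have : ∃ z ∈ U, z ∉ (((N ∪ {a}) ∪ {b}) ∪
      ((⋃ v ∈ V, {z : ℂ | v ≠ a ∧ ∃ t : ℝ, z = a + t * (v - a)}) ∪
        (⋃ v ∈ V, {z : ℂ | v ≠ b ∧ ∃ t : ℝ, z = b + t * (v - b)}))) := by
    by_contra hcon
    have hsub : U ⊆ _ := fun z hz => by
      by_contra h
      exact hcon ⟨z, hz, h⟩
    exact hpos.ne' (measure_mono_null hsub hbad)
  obtain ⟨z, hzU, hz⟩ := this
  simp only [mem_union, not_or, mem_singleton_iff] at hz
  obtain ⟨⟨⟨h1, h2⟩, h3⟩, h4, h5⟩ := hz
  refine ⟨z, hzU, h1, h2, h3, ?_, ?_⟩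
  · rw [Set.disjoint_left]
    intro v hv hvV
    exact h4 (mem_iUnion₂.mpr ⟨v, hvV, generic_open_seg h2 hv⟩)
  · rw [Set.disjoint_left]
    intro v hv hvV
    rw [openSegment_symm] at hv
    exact h5 (mem_iUnion₂.mpr ⟨v, hvV, generic_open_seg h3 hv⟩)

end Pool.Agent.MP4eed4e
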