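import Mathlib
import Pool.Agent.Lib.MP_4eed4e_an.FlagA
import Pool.Agent.Lib.MP_4eed4e_an.Generic

/-!
Generic singular directions; singular corners are vertices of copies.
-/

namespace Pool.Agent.MP4eed4e

open Set Complex MeasureTheory

variable {τ : Tile} {D : Set ℂ}

private theorem flagB_polar (w u : ℂ) (al : ℝ) :
    w * (u * Complex.exp ((al / 2 : ℝ) * Complex.I)) =
      (‖w‖ : ℂ) * u * Complex.exp (((al / 2 + arg w : ℝ) : ℂ) * Complex.I) := by
  have h1 := Complex.norm_mul_exp_arg_mul_I w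
  have h2 : Complex.exp (((al / 2 + arg w : ℝ) : ℂ) * Complex.I) =
      Complex.exp ((al / 2 : ℝ) * Complex.I) * Complex.exp (arg w * Complex.I) := by
    rw [← Complex.exp_add]
    congr 1
    push_cast
    ring
  rw [h2]
  calc w * (u * Complex.exp ((al / 2 : ℝ) * Complex.I))
      = ((‖w‖ : ℂ) * Complex.exp (arg w * Complex.I)) *
          (u * Complex.exp ((al / 2 : ℝ) * Complex.I)) := by rw [h1]
    _ = _ := by ring

/-- A generic singular direction. -/
theorem sg_generic {D V N : Set ℂ} {P q : ℂ} (h : Sg D P q) (hV : V.Countable)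
    (hN : volume N = 0) (δ : ℝ) (hδ : 0 < δ) :
    ∃ q', Sg D P q' ∧ P ≠ q' ∧ openSegment ℝ P q' ⊆ D ∧ Disjoint (openSegment ℝ P q') V ∧
      q' ∈ D ∧ q' ∉ N ∧ dist P q' < δ := by
  obtain ⟨u, al, r, ρ₀, θ₀, hsec, hj, hρ₀, hθ₀, hθ₁, hq⟩ := h
  have hsec' := hsec
  obtain ⟨hu, hal0, hal2, hr, hin, hout⟩ := hsec
  set e : ℂ := u * Complex.exp ((al / 2 : ℝ) * Complex.I) with he
  have hen : ‖e‖ = 1 := by
    rw [he, norm_mul, hu, Complex.norm_exp_ofReal_mul_I, one_mul]
  have he0 : e ≠ 0 := by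
    intro h0
    rw [h0, norm_zero] at hen
    exact zero_ne_one hen
  have hm : 0 < min r δ := lt_min hr hδ
  -- the open set
  have hcont : Continuous fun z : ℂ => (z - P) / e :=
    (continuous_id.sub continuous_const).div_const e
  have hS : IsOpen ((fun z : ℂ => (z - P) / e) ⁻¹' Complex.slitPlane) :=
    Complex.isOpen_slitPlane.preimage hcont
  have hco : ContinuousOn (fun z : ℂ => arg ((z - P) / e))
      ((fun z : ℂ => (z - P) / e) ⁻¹' Complex.slitPlane) := by
    intro z hz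
    have h1 : ContinuousAt Complex.arg ((fun z : ℂ => (z - P) / e) z) :=
      Complex.continuousAt_arg hz
    have h2 : ContinuousAt (fun z : ℂ => arg ((z - P) / e)) z :=
      ContinuousAt.comp (f := fun z : ℂ => (z - P) / e) h1 hcont.continuousAt
    exact h2.continuousWithinAt
  have hO : IsOpen (((fun z : ℂ => (z - P) / e) ⁻¹' Complex.slitPlane) ∩
      (fun z : ℂ => arg ((z - P) / e)) ⁻¹' Set.Ioo (-(al / 2)) (al / 2)) :=
    hco.isOpen_inter_preimage hS isOpen_Ioo
  have hW := hO.inter (Metric.isOpen_ball (x := P) (ε := min r δ))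
  have hne : ((((fun z : ℂ => (z - P) / e) ⁻¹' Complex.slitPlane) ∩
      (fun z : ℂ => arg ((z - P) / e)) ⁻¹' Set.Ioo (-(al / 2)) (al / 2)) ∩
      Metric.ball P (min r δ)).Nonempty := by
    refine ⟨P + ((min r δ / 2 : ℝ) : ℂ) * e, ⟨?_, ?_⟩, ?_⟩
    · have h1 : (P + ((min r δ / 2 : ℝ) : ℂ) * e - P) / e = ((min r δ / 2 : ℝ) : ℂ) := by
        rw [add_sub_cancel_left, mul_div_assoc, div_self he0, mul_one]
      rw [mem_preimage, h1]
      exact Complex.ofReal_mem_slitPlane.mpr (by linarith)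
    · have h1 : (P + ((min r δ / 2 : ℝ) : ℂ) * e - P) / e = ((min r δ / 2 : ℝ) : ℂ) := by
        rw [add_sub_cancel_left, mul_div_assoc, div_self he0, mul_one]
      rw [mem_preimage, h1, Complex.arg_ofReal_of_nonneg (by linarith)]
      constructor <;> linarith
    · rw [Metric.mem_ball, dist_eq_norm, add_sub_cancel_left, norm_mul, hen, mul_one,
        Complex.norm_real, Real.norm_eq_abs, abs_of_pos (by linarith)]
      linarith
  obtain ⟨z, ⟨⟨hz1, hz2⟩, hz3⟩, hzN, hzP, -, hdis, -⟩ := generic_point hW hne hV hN P P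
  rw [mem_preimage] at hz1 hz2
  rw [Metric.mem_ball, dist_comm] at hz3
  obtain ⟨hθa, hθb⟩ := hz2
  set w : ℂ := (z - P) / e with hw
  have hz : z = P + (‖w‖ : ℂ) * u * Complex.exp (((al / 2 + arg w : ℝ) : ℂ) * Complex.I) := by
    rw [← flagB_polar w u al, ← he, hw, div_mul_cancel₀ _ he0]
    ring
  have hwn : ‖w‖ = dist P z := by
    rw [hw, norm_div, hen, div_one, dist_comm, dist_eq_norm]
  have hwpos : 0 < ‖w‖ := by
    rw [hwn]
    exact dist_pos.mpr (Ne.symm hzP)
  have hwr : ‖w‖ < r := by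
    rw [hwn]
    exact lt_of_lt_of_le hz3 (min_le_left _ _)
  refine ⟨z, ⟨u, al, r, ‖w‖, al / 2 + arg w, hsec', hj, hwpos, by linarith, by linarith, hz⟩,
    Ne.symm hzP, ?_, hdis, ?_, hzN, lt_of_lt_of_le hz3 (min_le_right _ _)⟩
  · rintro y ⟨a, b, ha, hb, hab, rfl⟩
    have hb1 : b < 1 := by linarith
    have ha' : a = 1 - b := by linarith
    have hy : a • P + b • z = P + ((b * ‖w‖ : ℝ) : ℂ) * u *
        Complex.exp (((al / 2 + arg w : ℝ) : ℂ) * Complex.I) := by
      rw [hz, ha']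
      simp only [Complex.real_smul]
      push_cast
      ring
    rw [hy]
    apply hin _ _ (mul_pos hb hwpos) _ (by linarith) (by linarith)
    calc b * ‖w‖ ≤ 1 * ‖w‖ := by
          apply mul_le_mul_of_nonneg_right hb1.le (norm_nonneg _)
      _ < r := by rw [one_mul]; exact hwr
  · rw [hz]
    exact hin _ _ hwpos hwr (by linarith) (by linarith)

theorem Tiling.sg_vertex (A : Tiling τ D) {P q : ℂ} (h : Sg D P q) :
    ∃ x s, P = A.g x (τ.p s) := by
  have hVc : (⋃ x, A.g x '' τ.Spec).Countable :=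
    countable_iUnion fun x => τ.spec_countable.image _
  obtain ⟨q', hS, hne, hsub, hdis, -, -, -⟩ :=
    sg_generic (N := ∅) h hVc measure_empty 1 one_pos
  obtain ⟨x, hx⟩ := A.exists_germ (V := ⋃ x, A.g x '' τ.Spec)
    (fun x => subset_iUnion (fun x => A.g x '' τ.Spec) x) hne hsub hdis
  obtain ⟨s, hs, -⟩ := A.flag_of_sg hS hx
  exact ⟨x, s, hs⟩

end Pool.Agent.MP4eed4e
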