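import Mathlib
import Pool.Agent.Lib.MP_4eed4e_an.FlagA
import Pool.Agent.Lib.MP_4eed4e_an.FlagB

/-!
Singular directions and flags (collection).
-/

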