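import Mathlib
import Pool.Agent.Lib.MP_4eed4e_an.BaseB
import Pool.Agent.Lib.MP_4eed4e_an.Flag

/-!
The displacements of singular paths of a tiled domain lie in finite sets.
-/

namespace Pool.Agent.MP4eed4e

open Set

variable {τ : Tile} {D : Set ℂ}

private theorem sg_closure {c q : ℂ} (h : Sg D c q) : c ∈ closure D := by
  obtain ⟨u, α, r, ρ₀, θ₀, ⟨hu, hα, hα2, hr, hs, hb⟩, hj, hρ₀, hθ₀, hθα, rfl⟩ := h
  rw [Metric.mem_closure_iff]
  intro ε hε
  set ρ := min r ε / 2 with hρ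
  have hm : 0 < min r ε := lt_min hr hε
  have hρ0 : 0 < ρ := by rw [hρ]; linarith
  have hρr : ρ < r := by
    have := min_le_left r ε
    rw [hρ]; linarith
  have hρε : ρ < ε := by
    have := min_le_right r ε
    rw [hρ]; linarith
  refine ⟨_, hs ρ (α / 2) hρ0 hρr (by linarith) (by linarith), ?_⟩
  rw [dist_eq_norm]
  have h1 : c - (c + ρ * u * Complex.exp ((α / 2 : ℝ) * Complex.I)) =
      -(ρ * u * Complex.exp ((α / 2 : ℝ) * Complex.I)) := by ring
  rw [h1, norm_neg, norm_mul, norm_mul, hu, Complex.norm_exp_ofReal_mul_I, Complex.norm_real,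
    Real.norm_eq_abs, abs_of_pos hρ0, mul_one, mul_one]
  exact hρε

theorem base_disp (A : Tiling τ D) :
    ∃ F : ℕ → ℝ → Set ℝ, (∀ K R, (F K R).Finite) ∧ DispProp F D := by
  refine ⟨fun K R => (fun z : Iso × (A.X × τ.S) × (A.X × τ.S) =>
    dist (A.g z.2.1.1 (τ.p z.2.1.2)) (z.1 (A.g z.2.2.1 (τ.p z.2.2.2)))) ''
      ({w : Iso | ∃ V N k c q e q', k ≤ K ∧ c ∈ closure D ∧ Pth D V N R k w c q e q'} ×ˢ univ),
    fun K R => ((A.pth_finite K R).prod finite_univ).image _, fun K R => ?_⟩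
  refine ⟨∅, ∅, countable_empty, MeasureTheory.measure_empty, ?_⟩
  intro k w c q e q' hk hp h1 h2
  obtain ⟨x, s, hx⟩ := A.sg_vertex h1
  obtain ⟨y, s', hy⟩ := A.sg_vertex h2
  refine ⟨(w, (x, s), (y, s')), ⟨⟨∅, ∅, k, c, q, e, q', hk, sg_closure h1, hp⟩, mem_univ _⟩, ?_⟩
  show dist (A.g x (τ.p s)) (w (A.g y (τ.p s'))) = dist c (w e)
  rw [hx, hy]

end Pool.Agent.MP4eed4e
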