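import Mathlib
import Pool.Agent.Lib.MP_4eed4e_an.RunA
import Pool.Agent.Lib.MP_4eed4e_an.Germs

/-!
A straight segment inside `D` is a run through the copies.
-/

namespace Pool.Agent.MP4eed4e

open Set

variable {τ : Tile} {D : Set ℂ}

private theorem sr_mem {c e w : ℂ} :
    w ∈ openSegment ℝ c e ↔ ∃ t : ℝ, 0 < t ∧ t < 1 ∧ c + t * (e - c) = w := by
  rw [openSegment_eq_image', mem_image]
  constructor
  · rintro ⟨t, ⟨h0, h1⟩, rfl⟩
    exact ⟨t, h0, h1, by rw [Complex.real_smul]⟩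
  · rintro ⟨t, h0, h1, rfl⟩
    exact ⟨t, ⟨h0, h1⟩, by rw [Complex.real_smul]⟩

private theorem sr_affine (φ : Iso) (c e : ℂ) (t : ℝ) :
    φ (c + t * (e - c)) = φ c + t * (φ e - φ c) := by
  obtain ⟨a, b, -, h | h⟩ := iso_form φ
  · rw [h, h, h]
    ring
  · rw [h, h, h]
    simp only [map_add, map_mul, map_sub, Complex.conj_ofReal]
    ring

private theorem sr_lam (a b u v : ℂ) (t : ℝ) :
    lam a b (u + t * (v - u)) = lam a b u + t * (lam a b v - lam a b u) := by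
  unfold lam
  simp only [Complex.mul_im, Complex.sub_re, Complex.sub_im, Complex.add_re, Complex.add_im,
    Complex.mul_re, Complex.ofReal_re, Complex.ofReal_im]
  ring

private theorem sr_dist (c e : ℂ) (s t : ℝ) :
    dist (c + s * (e - c)) (c + t * (e - c)) = |s - t| * ‖e - c‖ := by
  rw [dist_eq_norm]
  have h : c + s * (e - c) - (c + t * (e - c)) = ((s - t : ℝ) : ℂ) * (e - c) := by
    push_cast
    ring
  rw [h, norm_mul, Complex.norm_real, Real.norm_eq_abs]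

private theorem sr_inj (φ : Iso) {S : Set ℂ} {z : ℂ} (h : z ∈ φ '' S) : φ⁻¹ z ∈ S := by
  obtain ⟨w, hw, rfl⟩ := h
  rwa [IsometryEquiv.inv_apply_self]

theorem Tiling.str_run (A : Tiling τ D) {V : Set ℂ} (hV : ∀ x, A.g x '' τ.Spec ⊆ V)
    {c e : ℂ} (hne : c ≠ e) (hD : openSegment ℝ c e ⊆ D) (hd : Disjoint (openSegment ℝ c e) V)
    (x : A.X) (hg : Germ (A.g x '' τ.T) c e) :
    ∃ g, τ.Run g ((A.g x)⁻¹ c) ((A.g x)⁻¹ e) ∧ A.g x * τ.dev g = A.g (A.act g x) := by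
  classical
  obtain ⟨N, hN⟩ : ∃ N : ℕ, {q : A.X × τ.S | ∃ z ∈ openSegment ℝ c e,
      z ∈ A.g q.1 '' τ.sd q.2}.ncard = N := ⟨_, rfl⟩
  induction N using Nat.strong_induction_on generalizing c x with
  | _ N ih =>
  by_cases hall : openSegment ℝ c e ⊆ A.g x '' τ.T
  · refine ⟨[], ?_, ?_⟩
    · refine Tile.Run.nil _ _ ?_
      rw [← iso_openSegment]
      rintro _ ⟨z, hz, rfl⟩
      exact sr_inj _ (hall hz)
    · simp [Tile.dev, Tiling.act]
  obtain ⟨z0, hz0, hz0'⟩ := not_subset.1 hall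
  obtain ⟨t0, ht0, ht0', rfl⟩ := sr_mem.1 hz0
  obtain ⟨δ, hδ, hδ'⟩ := (germ_polar hne).1 hg
  set S : Set ℝ := {t : ℝ | 0 < t ∧ t < 1 ∧ c + t * (e - c) ∉ A.g x '' τ.T} with hS
  have hSne : S.Nonempty := ⟨t0, ht0, ht0', hz0'⟩
  have hSb : BddBelow S := ⟨0, fun t ht => ht.1.le⟩
  set t1 : ℝ := sInf S with ht1
  have h1δ : δ ≤ t1 := by
    refine le_csInf hSne fun t ht => ?_
    by_contra hlt
    exact ht.2.2 (hδ' t ht.1 (not_le.1 hlt))
  have h1pos : 0 < t1 := lt_of_lt_of_le hδ h1δ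
  have h1lt : t1 < 1 := lt_of_le_of_lt (csInf_le hSb ⟨ht0, ht0', hz0'⟩) ht0'
  have hbelow : ∀ t : ℝ, 0 < t → t < t1 → c + t * (e - c) ∈ A.g x '' τ.T := by
    intro t h0 h1
    by_contra hn
    exact absurd (csInf_le hSb ⟨h0, h1.trans h1lt, hn⟩) (not_le.2 h1)
  have hec : 0 < ‖e - c‖ := norm_pos_iff.2 (sub_ne_zero.2 (Ne.symm hne))
  have hopen : IsOpen (A.g x '' τ.T) := (A.g x).toHomeomorph.isOpen_image.mpr τ.isOpen
  obtain ⟨e1, he1⟩ : ∃ e1 : ℂ, e1 = c + t1 * (e - c) := ⟨_, rfl⟩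
  have he1s : e1 ∈ openSegment ℝ c e := sr_mem.2 ⟨t1, h1pos, h1lt, he1.symm⟩
  have he1n : e1 ∉ A.g x '' τ.T := by
    intro hin
    obtain ⟨r, hr, hball⟩ := Metric.isOpen_iff.1 hopen e1 hin
    obtain ⟨s, hs, hs'⟩ := (csInf_lt_iff hSb hSne).1
      (show sInf S < t1 + r / ‖e - c‖ from lt_add_of_pos_right _ (div_pos hr hec))
    have hs1 : t1 ≤ s := csInf_le hSb hs
    refine hs.2.2 (hball ?_)
    rw [Metric.mem_ball, he1, sr_dist, abs_of_nonneg (by linarith)]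
    have h2 : s - t1 < r / ‖e - c‖ := by linarith
    exact (lt_div_iff₀ hec).1 h2
  have he1c : e1 ∈ closure (A.g x '' τ.T) := by
    rw [Metric.mem_closure_iff]
    intro r hr
    have h3 : 0 < min t1 (r / ‖e - c‖) := lt_min h1pos (div_pos hr hec)
    have h4 : min t1 (r / ‖e - c‖) ≤ t1 := min_le_left _ _
    have h5 : min t1 (r / ‖e - c‖) ≤ r / ‖e - c‖ := min_le_right _ _
    refine ⟨_, hbelow (t1 - min t1 (r / ‖e - c‖) / 2) (by linarith) (by linarith), ?_⟩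
    rw [he1, sr_dist]
    have h6 : |t1 - (t1 - min t1 (r / ‖e - c‖) / 2)| = min t1 (r / ‖e - c‖) / 2 := by
      rw [sub_sub_cancel, abs_of_pos (by linarith)]
    rw [h6]
    exact (lt_div_iff₀ hec).1 (by linarith)
  obtain ⟨l, w, hw, hwe⟩ := A.mem_side he1c he1n
  have he1V : e1 ∉ V := fun hv => Set.disjoint_left.1 hd he1s hv
  have hwod : w ∈ τ.od l := by
    refine mem_openSegment_of_ne_left_right ?_ ?_ hw
    · rintro rfl
      exact he1V (hV x ⟨_, τ.p_mem_spec l, hwe⟩)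
    · rintro rfl
      exact he1V (hV x ⟨_, τ.p_mem_spec _, hwe⟩)
  have hnb : A.nb l x ≠ x := by
    intro h
    exact A.sd_not_mem h ⟨w, hw, hwe⟩ (hD he1s)
  obtain ⟨r, hr, ε, hε, hcr⟩ := A.cross hnb hwod
  have hφe1 : (A.g x)⁻¹ e1 = w := by rw [← hwe, IsometryEquiv.inv_apply_self]
  set φ : Iso := (A.g x)⁻¹ with hφ
  set L : ℝ → ℝ := fun t => lam (τ.p l) (τ.p (τ.next l)) (φ (c + t * (e - c))) with hL
  have hLaff : ∀ t, L t = L 0 + t * (L 1 - L 0) := by
    intro t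
    have h0 : L 0 = lam (τ.p l) (τ.p (τ.next l)) (φ c) := by simp [hL]
    have h1 : L 1 = lam (τ.p l) (τ.p (τ.next l)) (φ e) := by simp [hL]
    rw [h0, h1, hL]
    beta_reduce
    rw [sr_affine, sr_lam]
  have hL1 : L t1 = 0 := by
    rw [hL]
    beta_reduce
    rw [← he1, hφe1]
    exact lam_of_mem_segment hw
  have hxφ : ∀ z, A.g x (φ z) = z := fun z => by rw [hφ, IsometryEquiv.apply_inv_self]
  have hball : ∀ t : ℝ, |t - t1| < r / ‖e - c‖ → φ (c + t * (e - c)) ∈ Metric.ball w r := by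
    intro t ht
    rw [Metric.mem_ball, ← hφe1, φ.dist_eq, he1, sr_dist]
    exact (lt_div_iff₀ hec).1 ht
  have hslope : ε * (L 1 - L 0) < 0 := by
    have h3 : 0 < min t1 (r / ‖e - c‖) := lt_min h1pos (div_pos hr hec)
    have h4 : min t1 (r / ‖e - c‖) ≤ t1 := min_le_left _ _
    have h5 : min t1 (r / ‖e - c‖) ≤ r / ‖e - c‖ := min_le_right _ _
    obtain ⟨t, ht⟩ : ∃ t : ℝ, t = t1 - min t1 (r / ‖e - c‖) / 2 := ⟨_, rfl⟩
    have h6 : |t - t1| < r / ‖e - c‖ := by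
      rw [abs_sub_comm, ht, sub_sub_cancel, abs_of_pos (by linarith)]
      linarith
    have h7 := (hcr _ (hball t h6)).1
    rw [hxφ] at h7
    have h8 : 0 < ε * L t := h7.1 (hbelow t (by linarith) (by linarith))
    have h9 := hLaff t
    have h10 := hLaff t1
    rw [hL1] at h10
    have h11 : L t = (t - t1) * (L 1 - L 0) := by rw [h9]; linarith
    rw [h11] at h8
    have h12 : 0 < t1 - t := by linarith
    by_contra hcon
    have h13 := mul_nonneg h12.le (not_lt.1 hcon)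
    nlinarith
  have hneg : ∀ t : ℝ, t1 < t → ε * L t < 0 := by
    intro t ht
    have h9 := hLaff t
    have h10 := hLaff t1
    rw [hL1] at h10
    have h11 : L t = (t - t1) * (L 1 - L 0) := by rw [h9]; linarith
    rw [h11]
    have h12 : 0 < t - t1 := by linarith
    have h13 := mul_neg_of_pos_of_neg h12 hslope
    nlinarith
  have hpar : ∀ s : ℝ, e1 + s * (e - e1) = c + ((t1 + s * (1 - t1) : ℝ) : ℂ) * (e - c) := by
    intro s
    rw [he1]
    push_cast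
    ring
  have hne1 : e1 ≠ e := by
    intro h
    have h2 : e - e1 = ((1 - t1 : ℝ) : ℂ) * (e - c) := by
      rw [he1]
      push_cast
      ring
    rw [h, sub_self] at h2
    rcases mul_eq_zero.1 h2.symm with h3 | h3
    · have h4 : 1 - t1 = 0 := by exact_mod_cast h3
      linarith
    · exact hne (sub_eq_zero.1 h3).symm
  have hsub : openSegment ℝ e1 e ⊆ openSegment ℝ c e := by
    intro z hz
    obtain ⟨s, hs0, hs1, rfl⟩ := sr_mem.1 hz
    refine sr_mem.2 ⟨t1 + s * (1 - t1), ?_, ?_, (hpar s).symm⟩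
    · have := mul_pos hs0 (sub_pos.2 h1lt)
      linarith
    · have := mul_lt_mul_of_pos_right hs1 (sub_pos.2 h1lt)
      linarith
  have hgerm : Germ (A.g (A.nb l x) '' τ.T) e1 e := by
    rw [germ_polar hne1]
    refine ⟨r / ‖e - c‖, div_pos hr hec, fun s hs0 hs1 => ?_⟩
    rw [hpar]
    have h5 : 0 < s * (1 - t1) := mul_pos hs0 (sub_pos.2 h1lt)
    have h6 : s * (1 - t1) < r / ‖e - c‖ := by
      have : s * (1 - t1) ≤ s * 1 := mul_le_mul_of_nonneg_left (by linarith) hs0.le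
      linarith
    have h7 := (hcr _ (hball (t1 + s * (1 - t1)) (by
      rw [add_sub_cancel_left, abs_of_pos h5]
      exact h6))).2
    rw [hxφ] at h7
    exact h7.2 (hneg _ (by linarith))
  have hlt : {q : A.X × τ.S | ∃ z ∈ openSegment ℝ e1 e, z ∈ A.g q.1 '' τ.sd q.2}.ncard < N := by
    rw [← hN]
    refine Set.ncard_lt_ncard ?_ (Set.toFinite _)
    refine ⟨?_, ?_⟩
    · rintro q ⟨z, hz, hz'⟩
      exact ⟨z, hsub hz, hz'⟩
    · intro hcon
      obtain ⟨z, hz, hz'⟩ := hcon (show (x, l) ∈ _ from ⟨e1, he1s, ⟨w, hw, hwe⟩⟩)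
      obtain ⟨s, hs0, hs1, rfl⟩ := sr_mem.1 hz
      rw [hpar] at hz'
      have h5 : 0 < s * (1 - t1) := mul_pos hs0 (sub_pos.2 h1lt)
      have h6 := hneg (t1 + s * (1 - t1)) (by linarith)
      have h7 : L (t1 + s * (1 - t1)) = 0 := lam_of_mem_segment (sr_inj _ hz')
      rw [h7, mul_zero] at h6
      exact lt_irrefl _ h6
  obtain ⟨g', hrun, hdev⟩ := ih _ hlt hne1 (hsub.trans hD) (hd.mono_left hsub) (A.nb l x) hgerm rfl
  have hgy : A.g (A.nb l x) = A.g x * τ.rf l := by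
    ext z
    exact A.glue l x hnb z
  have hgyi : (A.g (A.nb l x))⁻¹ = τ.rf l * φ := by
    rw [hgy, mul_inv_rev]
    congr 1
  have hrw : τ.rf l w = w := (refl_eq_self_iff (τ.p_ne l) w).2 (lam_of_mem_segment hw)
  refine ⟨l :: g', ?_, ?_⟩
  · refine Tile.Run.cons l g' (φ c) (φ e) w ?_ ?_ hwod ?_
    · rw [← hφe1, ← iso_openSegment]
      exact mem_image_of_mem _ he1s
    · rw [← hφe1, ← iso_openSegment]
      rintro _ ⟨z, hz, rfl⟩
      obtain ⟨s, hs0, hs1, rfl⟩ := sr_mem.1 hz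
      have h3 : c + (s : ℂ) * (e1 - c) = c + ((s * t1 : ℝ) : ℂ) * (e - c) := by
        rw [he1]
        push_cast
        ring
      rw [h3]
      refine sr_inj _ (hbelow (s * t1) (mul_pos hs0 h1pos) ?_)
      have := mul_lt_mul_of_pos_right hs1 h1pos
      linarith
    · rw [hgyi, IsometryEquiv.mul_apply, IsometryEquiv.mul_apply, hφe1, hrw] at hrun
      exact hrun
  · show A.g x * (τ.rf l * τ.dev g') = A.g (A.act g' (A.nb l x))
    rw [← hdev, hgy, mul_assoc]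

end Pool.Agent.MP4eed4e
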