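import Mathlib
import Pool.Agent.Lib.MP_4eed4e_an.StrRun

/-!
A generic billiard segment is a run through the copies.
-/

namespace Pool.Agent.MP4eed4e

open Set

variable {τ : Tile} {D : Set ℂ}

private theorem br_sub {c d z : ℂ} (hz : z ∈ openSegment ℝ c d) :
    openSegment ℝ c z ⊆ openSegment ℝ c d := by
  obtain ⟨a, b, ha, hb, hab, rfl⟩ := hz
  rintro w ⟨a', b', ha', hb', hab', rfl⟩
  refine ⟨a' + b' * a, b' * b, by positivity, by positivity, ?_, ?_⟩
  · calc a' + b' * a + b' * b = a' + b' * (a + b) := by ring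
      _ = 1 := by rw [hab, mul_one, hab']
  · simp only [Complex.real_smul]
    push_cast
    ring

private theorem br_sub' {c d z : ℂ} (hz : z ∈ openSegment ℝ c d) :
    openSegment ℝ z d ⊆ openSegment ℝ c d := by
  rw [openSegment_symm] at hz
  have h := br_sub hz
  rwa [openSegment_symm ℝ d z, openSegment_symm ℝ d c] at h

private theorem br_lam (a b u v : ℂ) (t : ℝ) :
    lam a b (u + t * (v - u)) = lam a b u + t * (lam a b v - lam a b u) := by
  unfold lam
  simp only [Complex.mul_im, Complex.sub_re, Complex.sub_im, Complex.add_re, Complex.add_im,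
    Complex.mul_re, Complex.ofReal_re, Complex.ofReal_im]
  ring

private theorem br_mem {c e w : ℂ} :
    w ∈ openSegment ℝ c e ↔ ∃ t : ℝ, 0 < t ∧ t < 1 ∧ c + t * (e - c) = w := by
  rw [openSegment_eq_image', mem_image]
  constructor
  · rintro ⟨t, ⟨h0, h1⟩, rfl⟩
    exact ⟨t, h0, h1, by rw [Complex.real_smul]⟩
  · rintro ⟨t, h0, h1, rfl⟩
    exact ⟨t, ⟨h0, h1⟩, by rw [Complex.real_smul]⟩

/-- the germ of the mirror image points into the tile -/
private theorem br_turn {l : τ.S} {e c d : ℂ} (he : e ∈ τ.od l)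
    (hed : e ∈ openSegment ℝ c d) (hne : e ≠ c) (hg : Germ τ.T e c) :
    e ≠ τ.rf l d ∧ Germ τ.T e (τ.rf l d) := by
  obtain ⟨r, hr, ε, hε, hh⟩ := τ.half he
  set a := τ.p l with ha
  set b := τ.p (τ.next l) with hb
  have hab : a ≠ b := τ.p_ne l
  have hLe : lam a b e = 0 := lam_of_mem_segment (openSegment_subset_segment ℝ _ _ he)
  have hball : ∀ (v : ℂ) (t : ℝ), 0 < t → t * (‖v - e‖ + 1) < r →
      e + t * (v - e) ∈ Metric.ball e r := by
    intro v t ht htr
    rw [Metric.mem_ball, dist_eq_norm, add_sub_cancel_left, norm_mul, Complex.norm_real,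
      Real.norm_of_nonneg ht.le]
    nlinarith
  have hmin : ∀ (v : ℂ) (δ : ℝ), 0 < δ → ∃ t : ℝ, 0 < t ∧ t < δ ∧ t * (‖v - e‖ + 1) < r := by
    intro v δ hδ
    have h1 : 0 < ‖v - e‖ + 1 := by positivity
    refine ⟨min (δ / 2) (r / (2 * (‖v - e‖ + 1))), lt_min (by positivity) (by positivity),
      (min_le_left _ _).trans_lt (by linarith), ?_⟩
    have h2 := mul_le_mul_of_nonneg_right
      (min_le_right (δ / 2) (r / (2 * (‖v - e‖ + 1)))) h1.le
    have h3 : r / (2 * (‖v - e‖ + 1)) * (‖v - e‖ + 1) = r / 2 := by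
      field_simp
    rw [h3] at h2
    linarith
  obtain ⟨δ, hδ, hδ'⟩ := (germ_polar hne).1 hg
  have hc : 0 < ε * lam a b c := by
    obtain ⟨t, ht0, ht1, ht2⟩ := hmin c δ hδ
    have h1 := ((hh _ (hball c t ht0 ht2)).1).1 (hδ' t ht0 ht1)
    rw [br_lam, hLe, sub_zero, zero_add] at h1
    by_contra hcon
    have h2 := mul_nonneg ht0.le (neg_nonneg.2 (not_lt.1 hcon))
    nlinarith
  have hd : ε * lam a b d < 0 := by
    obtain ⟨t, ht0, ht1, ht2⟩ := br_mem.1 hed
    have h1 : lam a b c + t * (lam a b d - lam a b c) = 0 := by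
      rw [← br_lam, ht2]
      exact hLe
    have h2 : t * (ε * lam a b d) = -((1 - t) * (ε * lam a b c)) := by
      linear_combination ε * h1
    by_contra hcon
    have h3 := mul_nonneg ht0.le (not_lt.1 hcon)
    have h4 := mul_pos (sub_pos.2 ht1) hc
    linarith
  have hLr : lam a b (τ.rf l d) = -lam a b d := lam_refl hab d
  have hner : e ≠ τ.rf l d := by
    intro h
    rw [← h, hLe] at hLr
    have h1 : lam a b d = 0 := by linarith
    rw [h1, mul_zero] at hd
    exact lt_irrefl _ hd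
  refine ⟨hner, (germ_polar hner).2 ⟨r / (‖τ.rf l d - e‖ + 1), by positivity, ?_⟩⟩
  intro t ht0 ht1
  have h1 : t * (‖τ.rf l d - e‖ + 1) < r := (lt_div_iff₀ (by positivity)).1 ht1
  refine ((hh _ (hball _ t ht0 h1)).1).2 ?_
  rw [br_lam, hLe, hLr, sub_zero, zero_add]
  have h2 := mul_pos ht0 (neg_pos.2 hd)
  nlinarith

private theorem br_closure {U : Set ℂ} {c q : ℂ} (h : Germ U c q) : c ∈ closure U := by
  obtain ⟨z, -, hs⟩ := h
  refine closure_mono hs ?_
  rw [closure_openSegment]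
  exact left_mem_segment ℝ c z

/-- a fold in a boundary side is the reflection in this side -/
private theorem br_fold (A : Tiling τ D) {V : Set ℂ} (hV : ∀ x, A.g x '' τ.Spec ⊆ V)
    {e : ℂ} (heV : e ∉ V) {S : Iso} (hF : FoldAt D e S) {y : A.X} {l : τ.S}
    (hnb : A.nb l y = y) (he : e ∈ A.g y '' τ.od l) :
    S = A.g y * τ.rf l * (A.g y)⁻¹ := by
  classical
  obtain ⟨a, b, hab, heab, hsub, rfl⟩ := hF
  set C : Set ℂ := ⋃ z ∈ {z : A.X × τ.S | A.nb z.2 z.1 = z.1 ∧ z ≠ (y, l)},
    A.g z.1 '' τ.sd z.2 with hC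
  have hCc : IsClosed C := by
    refine Set.Finite.isClosed_biUnion (Set.toFinite _) fun z _ => ?_
    have h1 : IsCompact (τ.sd z.2) := by
      rw [Tile.sd, segment_eq_image_lineMap]
      exact isCompact_Icc.image (by fun_prop)
    exact (h1.image (A.g z.1).continuous).isClosed
  have heC : e ∉ C := by
    intro h
    rw [hC] at h
    simp only [Set.mem_iUnion] at h
    obtain ⟨⟨y', l'⟩, ⟨hn', hne'⟩, w, hw, hwe⟩ := h
    change A.nb l' y' = y' at hn'
    have hwo : w ∈ τ.od l' := by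
      refine mem_openSegment_of_ne_left_right ?_ ?_ hw
      · rintro rfl
        exact heV (hV y' ⟨_, τ.p_mem_spec l', hwe⟩)
      · rintro rfl
        exact heV (hV y' ⟨_, τ.p_mem_spec _, hwe⟩)
    obtain ⟨h1, h2⟩ := A.bd_unique hn' hnb ⟨w, hwo, hwe⟩ he
    exact hne' (by rw [h1, h2])
  obtain ⟨r, hr, hball⟩ := Metric.isOpen_iff.1 hCc.isOpen_compl e heC
  have hesd : e ∈ A.g y '' τ.sd l := image_mono (openSegment_subset_segment ℝ _ _) he
  have hbe : b ≠ e := by
    rintro rfl
    obtain ⟨t, ht0, ht1, ht⟩ := br_mem.1 heab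
    have h1 : ((t : ℂ) - 1) * (b - a) = 0 := by linear_combination ht
    rcases mul_eq_zero.1 h1 with h2 | h2
    · have h3 : (t : ℂ) = 1 := sub_eq_zero.1 h2
      have h4 : t = 1 := by exact_mod_cast h3
      linarith
    · exact hab (sub_eq_zero.1 h2).symm
  have hn0 : 0 < ‖b - e‖ := norm_pos_iff.2 (sub_ne_zero.2 hbe)
  obtain ⟨t, ht0, ht1, htr⟩ : ∃ t : ℝ, 0 < t ∧ t < 1 ∧ t * ‖b - e‖ < r := by
    refine ⟨min (1 / 2) (r / (2 * ‖b - e‖)), lt_min (by norm_num) (by positivity),
      (min_le_left _ _).trans_lt (by norm_num), ?_⟩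
    have h2 := mul_le_mul_of_nonneg_right (min_le_right (1 / 2) (r / (2 * ‖b - e‖))) hn0.le
    have h3 : r / (2 * ‖b - e‖) * ‖b - e‖ = r / 2 := by
      field_simp
    rw [h3] at h2
    linarith
  set a' : ℂ := e + t * (b - e) with ha'
  have hseg : a' ∈ segment ℝ a b := by
    have h1 : e ∈ segment ℝ a b := openSegment_subset_segment ℝ _ _ heab
    have h2 : b ∈ segment ℝ a b := right_mem_segment ℝ a b
    have h3 := (convex_segment (𝕜 := ℝ) a b) h1 h2 (sub_nonneg.2 ht1.le) ht0.le (by ring)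
    have h4 : (1 - t) • e + t • b = a' := by
      rw [ha']
      simp only [Complex.real_smul]
      push_cast
      ring
    rwa [h4] at h3
  have hea' : e ≠ a' := by
    intro h
    have h1 : (t : ℂ) * (b - e) = 0 := by
      rw [ha'] at h
      linear_combination -h
    rcases mul_eq_zero.1 h1 with h2 | h2
    · have h3 : t = 0 := by exact_mod_cast h2
      linarith
    · exact hbe (sub_eq_zero.1 h2)
  have ha'b : a' ∈ Metric.ball e r := by
    rw [Metric.mem_ball, dist_eq_norm, ha', add_sub_cancel_left, norm_mul, Complex.norm_real,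
      Real.norm_of_nonneg ht0.le]
    exact htr
  have ha'sd : a' ∈ A.g y '' τ.sd l := by
    have h1 := hsub hseg
    rw [A.frontier_eq, Set.mem_iUnion] at h1
    obtain ⟨⟨z, hz⟩, hz'⟩ := h1
    change a' ∈ A.g z.1 '' τ.sd z.2 at hz'
    by_cases hzy : z = (y, l)
    · rw [hzy] at hz'
      exact hz'
    · exfalso
      refine hball ha'b ?_
      rw [hC]
      simp only [Set.mem_iUnion]
      exact ⟨z, ⟨hz, hzy⟩, hz'⟩
  have hPQ : A.g y (τ.p l) ≠ A.g y (τ.p (τ.next l)) := (A.g y).injective.ne (τ.p_ne l)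
  rw [iso_segment] at hesd ha'sd
  have h1 : reflI e a' hea' = reflI a b hab :=
    reflI_congr hab hea' (lam_of_mem_segment (openSegment_subset_segment ℝ _ _ heab))
      (lam_of_mem_segment hseg)
  have h2 : reflI e a' hea' = reflI (A.g y (τ.p l)) (A.g y (τ.p (τ.next l))) hPQ :=
    reflI_congr hPQ hea' (lam_of_mem_segment hesd) (lam_of_mem_segment ha'sd)
  rw [← h1, h2]
  exact (reflI_conj (A.g y) (τ.p_ne l)).symm

theorem Tiling.bil_run (A : Tiling τ D) {V : Set ℂ} (hV : ∀ x, A.g x '' τ.Spec ⊆ V)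
    (hVr : ∀ x s, (A.g x * τ.rf s * (A.g x)⁻¹) '' V ⊆ V) {R : Set Iso} {n : ℕ} {w : Iso}
    {c d : ℂ} (h : Bil D R n w c d) (hne : c ≠ d) (hd : Disjoint (openSegment ℝ c d) V)
    (x : A.X) (hg : Germ (A.g x '' τ.T) c d) :
    ∃ g, τ.Run g ((A.g x)⁻¹ c) ((A.g x)⁻¹ d) ∧ A.g x * τ.dev g = w * A.g (A.act g x) := by
  induction h generalizing x with
  | nil c d hD =>
    obtain ⟨g, h1, h2⟩ := A.str_run hV hne hD hd x hg
    exact ⟨g, h1, by rw [one_mul, h2]⟩
  | fold n w c d e S he hce hF hSR hB ih =>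
    have heD : e ∉ D := by
      obtain ⟨a, b, hab, heab, hsub, -⟩ := hF
      have h1 := hsub (openSegment_subset_segment ℝ _ _ heab)
      rw [A.isOpen.frontier_eq] at h1
      exact h1.2
    have hcne : c ≠ e := by
      rintro rfl
      refine heD (hce ?_)
      rw [openSegment_same]
      rfl
    have hd1 : Disjoint (openSegment ℝ c e) V := hd.mono_left (br_sub he)
    have hg1 : Germ (A.g x '' τ.T) c e := (Germ.of_mem he).1 hg
    obtain ⟨g1, hrun1, hdev1⟩ := A.str_run hV hcne hce hd1 x hg1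
    set y : A.X := A.act g1 x with hy
    have hgy : ∀ z, (τ.dev g1)⁻¹ ((A.g x)⁻¹ z) = (A.g y)⁻¹ z := by
      intro z
      rw [← hdev1, mul_inv_rev]
      rfl
    have hgerm := hrun1.germ_end
    rw [hgy, hgy] at hgerm
    have hyi : ∀ z, A.g y ((A.g y)⁻¹ z) = z := fun z => IsometryEquiv.apply_inv_self _ _
    have heV : e ∉ V := fun hv => Set.disjoint_left.1 hd he hv
    have hecl : e ∈ closure (A.g y '' τ.T) := by
      have h1 := (Germ.image (A.g y)).2 hgerm
      rw [hyi, hyi] at h1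
      exact br_closure h1
    obtain ⟨l, e', he'sd, hee'⟩ := A.mem_side hecl (fun h => heD (A.tile_sub y h))
    have he'od : e' ∈ τ.od l := by
      refine mem_openSegment_of_ne_left_right ?_ ?_ he'sd
      · rintro rfl
        exact heV (hV y ⟨_, τ.p_mem_spec l, hee'⟩)
      · rintro rfl
        exact heV (hV y ⟨_, τ.p_mem_spec _, hee'⟩)
    have hφe : (A.g y)⁻¹ e = e' := by rw [← hee', IsometryEquiv.inv_apply_self]
    have hnb : A.nb l y = y := by
      by_contra hcon
      exact heD (A.od_sub hcon ⟨e', he'od, hee'⟩)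
    have hS := br_fold A hV heV hF hnb ⟨e', he'od, hee'⟩
    have hSz : ∀ z, S z = A.g y (τ.rf l ((A.g y)⁻¹ z)) := fun z => by rw [hS]; rfl
    have hSi : ∀ z, (A.g y)⁻¹ (S z) = τ.rf l ((A.g y)⁻¹ z) := fun z => by
      rw [hSz, IsometryEquiv.inv_apply_self]
    have hed' : e' ∈ openSegment ℝ ((A.g y)⁻¹ c) ((A.g y)⁻¹ d) := by
      rw [← hφe, ← iso_openSegment]
      exact mem_image_of_mem _ he
    have hne' : e' ≠ (A.g y)⁻¹ c := by
      rw [← hφe]
      exact (A.g y)⁻¹.injective.ne hcne.symm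
    rw [hφe] at hgerm
    obtain ⟨ht1, ht2⟩ := br_turn he'od hed' hne' hgerm
    have hre : τ.rf l e' = e' := (refl_eq_self_iff (τ.p_ne l) e').2 (lam_of_mem_segment he'sd)
    have hSe : S e = e := by rw [hSz, hφe, hre, hee']
    have hneS : e ≠ S d := by
      intro h
      apply ht1
      rw [← hφe, ← hSi, ← h]
    have hgS : Germ (A.g y '' τ.T) e (S d) := by
      have h1 := (Germ.image (A.g y)).2 ht2
      rw [hee', ← hSz] at h1
      exact h1
    have hSS : ∀ z, S (S z) = z := by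
      intro z
      rw [hSz, hSi]
      have h1 : τ.rf l (τ.rf l ((A.g y)⁻¹ z)) = (A.g y)⁻¹ z := refl_refl (τ.p_ne l) _
      rw [h1, hyi]
    have hdS : Disjoint (openSegment ℝ e (S d)) V := by
      rw [Set.disjoint_left]
      intro z hz hzV
      have h1 : openSegment ℝ e (S d) = S '' openSegment ℝ e d := by
        rw [iso_openSegment, hSe]
      rw [h1] at hz
      obtain ⟨z', hz', rfl⟩ := hz
      refine Set.disjoint_left.1 hd (br_sub' he hz') ?_
      refine hVr y l ⟨S z', hzV, ?_⟩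
      rw [← hS]
      exact hSS z'
    obtain ⟨g2, hrun2, hdev2⟩ := ih hneS hdS y hgS
    refine ⟨g1 ++ l :: g2, ?_, ?_⟩
    · refine Tile.Run.glue hrun1 ?_ ?_ ?_
      · rw [← iso_openSegment]
        exact mem_image_of_mem _ he
      · rw [hgy, hφe]
        exact he'od
      · rw [hgy, hgy, ← hSi]
        exact hrun2
    · rw [Tiling.act_append, Tile.dev_append]
      show A.g x * (τ.dev g1 * (τ.rf l * τ.dev g2)) = S * w * A.g (A.act g2 (A.nb l (A.act g1 x)))
      have h1 : A.nb l (A.act g1 x) = y := hnb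
      rw [h1, mul_assoc S w, ← hdev2, hS, ← mul_assoc (A.g x), hdev1]
      simp only [mul_assoc, inv_mul_cancel_left]

end Pool.Agent.MP4eed4e
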