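import Mathlib

/-!
Numbers of points of given minimal period.
-/

namespace Pool.Agent.MP4eed4e

open Set

namespace CountA

/-- the points fixed by `α^[k]` are those whose minimal period divides `k` -/
theorem split {X : Type} [Fintype X] [DecidableEq X] (α : X → X) {k : ℕ} (hk : 0 < k) :
    (Finset.univ.filter fun x => α^[k] x = x).card =
      ∑ i ∈ k.divisors, (Finset.univ.filter fun x => Function.minimalPeriod α x = i).card := by
  rw [Finset.card_eq_sum_card_fiberwise (f := fun x => Function.minimalPeriod α x)
    (t := k.divisors)]
  · refine Finset.sum_congr rfl fun i hi => ?_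
    rw [Nat.mem_divisors] at hi
    congr 1
    ext x
    simp only [Finset.mem_filter, Finset.mem_univ, true_and]
    constructor
    · exact fun h => h.2
    · intro h
      refine ⟨?_, h⟩
      have h1 : Function.IsPeriodicPt α k x := by
        rw [Function.isPeriodicPt_iff_minimalPeriod_dvd, h]
        exact hi.1
      exact h1
  · intro x hx
    have hx' : α^[k] x = x := by simpa using hx
    have h1 : Function.IsPeriodicPt α k x := hx'
    exact Finset.mem_coe.2 (Nat.mem_divisors.2 ⟨h1.minimalPeriod_dvd, hk.ne'⟩)

end CountA

/-- If all powers of two self-maps have the same number of fixed points, then the numbers of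
points of each minimal period agree. -/
theorem card_period_eq {X Y : Type} [Fintype X] [Fintype Y] [DecidableEq X] [DecidableEq Y]
    (α : X → X) (α' : Y → Y)
    (h : ∀ k : ℕ, (Finset.univ.filter fun x => α^[k] x = x).card =
      (Finset.univ.filter fun y => α'^[k] y = y).card) (j : ℕ) (hj : 0 < j) :
    (Finset.univ.filter fun x => Function.minimalPeriod α x = j).card =
      (Finset.univ.filter fun y => Function.minimalPeriod α' y = j).card := by
  induction j using Nat.strong_induction_on with
  | _ j ih =>
    have h1 := h j
    rw [CountA.split α hj, CountA.split α' hj, ← Nat.cons_self_properDivisors hj.ne',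
      Finset.sum_cons, Finset.sum_cons] at h1
    have h2 : ∑ i ∈ j.properDivisors,
        (Finset.univ.filter fun x => Function.minimalPeriod α x = i).card =
        ∑ i ∈ j.properDivisors,
        (Finset.univ.filter fun y => Function.minimalPeriod α' y = i).card := by
      refine Finset.sum_congr rfl fun i hi => ?_
      rw [Nat.mem_properDivisors] at hi
      exact ih i hi.2 (Nat.pos_of_dvd_of_pos hi.1 hj)
    omega

end Pool.Agent.MP4eed4e
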