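import Mathlib

/-!
The end copies of the paths of a dihedral action.
-/

namespace Pool.Agent.MP4eed4e

open Set

/-- The end copies of the paths of a dihedral action. -/
theorem dihedral_count {X : Type} [Fintype X] [DecidableEq X] (a b : X → X)
    (haa : ∀ x, a (a x) = x) (hbb : ∀ x, b (b x) = x) (j : ℕ) (hj : 0 < j)
    (h : ∀ x, Function.minimalPeriod (fun y => a (b y)) x = j →
      ∃ n : ℕ, (fun y => a (b y))^[n] x = a x) :
    j * ((Finset.univ.filter fun x => a x = x ∧
          Function.minimalPeriod (fun y => a (b y)) x = j).card +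
        (Finset.univ.filter fun x => b x = x ∧
          Function.minimalPeriod (fun y => a (b y)) x = j).card) =
      2 * (Finset.univ.filter fun x => Function.minimalPeriod (fun y => a (b y)) x = j).card := by
  classical
  obtain ⟨c, hc⟩ : ∃ c : X → X, c = fun y => a (b y) := ⟨_, rfl⟩
  rw [← hc] at h ⊢
  have hcy : ∀ y, c y = a (b y) := fun y => by rw [hc]
  have hcac : ∀ x, c (a (c x)) = a x := fun x => by rw [hcy, hcy, haa, hbb]
  have hinj : Function.Injective c := by
    intro x y hxy
    rw [hcy, hcy] at hxy
    have h1 := congrArg a hxy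
    rw [haa, haa] at h1
    have h2 := congrArg b h1
    rwa [hbb, hbb] at h2
  obtain ⟨S, hS⟩ : ∃ S : Finset X, S = Finset.univ.filter
    fun x => Function.minimalPeriod c x = j := ⟨_, rfl⟩
  have hmS : ∀ x, x ∈ S ↔ Function.minimalPeriod c x = j := fun x => by
    rw [hS, Finset.mem_filter]
    simp
  have hper : ∀ x ∈ S, c^[j] x = x := by
    intro x hx
    have h1 := Function.iterate_minimalPeriod (f := c) (x := x)
    rwa [(hmS x).1 hx] at h1
  have hSc : ∀ x, x ∈ S ↔ c x ∈ S := by
    intro x
    rw [hmS, hmS, Function.minimalPeriod_apply]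
    exact Function.mem_periodicPts.2 ⟨_, Function.minimalPeriod_pos_of_mem_periodicPts
      (Function.Injective.mem_periodicPts hinj x), Function.isPeriodicPt_minimalPeriod c x⟩
  obtain ⟨R, hR⟩ : ∃ R : ℕ → Finset X, R = fun i => S.filter fun x => a (c^[i] x) = x :=
    ⟨_, rfl⟩
  have hmR : ∀ i x, x ∈ R i ↔ x ∈ S ∧ c^[i] x = a x := fun i x => by
    rw [hR, Finset.mem_filter]
    refine and_congr_right fun _ => ⟨fun h1 => ?_, fun h1 => ?_⟩
    · rw [← h1, haa, h1]
    · rw [h1, haa]
  -- the number of pairs
  have hsum : ∑ i ∈ Finset.range j, (R i).card = S.card := by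
    have h1 : ∀ i ∈ Finset.range j, (R i).card = ∑ x ∈ S, if c^[i] x = a x then 1 else 0 := by
      intro i _
      rw [← Finset.sum_filter, Finset.sum_const, smul_eq_mul, mul_one]
      congr 1
      ext x
      rw [hmR, Finset.mem_filter]
    rw [Finset.sum_congr rfl h1, Finset.sum_comm, Finset.card_eq_sum_ones]
    refine Finset.sum_congr rfl fun x hx => ?_
    have hpx : Function.minimalPeriod c x = j := (hmS x).1 hx
    obtain ⟨n, hn⟩ := h x hpx
    have hn' : c^[n % j] x = a x := by
      have h2 := Function.iterate_mod_minimalPeriod_eq (f := c) (x := x) (n := n)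
      rw [hpx] at h2
      rw [h2, hn]
    rw [Finset.sum_eq_single_of_mem (n % j) (Finset.mem_range.2 (Nat.mod_lt _ hj))]
    · rw [if_pos hn']
    · intro i hi hne
      rw [if_neg]
      intro h2
      apply hne
      have h3 : c^[i] x = c^[n % j] x := by rw [h2, hn']
      exact (Function.iterate_eq_iterate_iff_of_lt_minimalPeriod
        (by rw [hpx]; exact Finset.mem_range.1 hi)
        (by rw [hpx]; exact Nat.mod_lt _ hj)).1 h3
  -- two steps
  have hstep : ∀ i, (R (i + 2)).card = (R i).card := by
    intro i
    refine Finset.card_nbij c ?_ hinj.injOn ?_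
    · intro x hx
      rw [Finset.mem_coe, hmR] at hx
      rw [Finset.mem_coe, hmR]
      refine ⟨(hSc x).1 hx.1, hinj ?_⟩
      rw [hcac, ← hx.2, ← Function.iterate_succ_apply' c i, ← Function.iterate_succ_apply c]
    · intro y hy
      rw [Finset.mem_coe, hmR] at hy
      have e1 : c (c^[j - 1] y) = y := by
        rw [← Function.iterate_succ_apply' c (j - 1), Nat.succ_eq_add_one,
          Nat.sub_add_cancel hj]
        exact hper y hy.1
      refine ⟨c^[j - 1] y, ?_, e1⟩
      rw [Finset.mem_coe, hmR]
      refine ⟨(hSc _).2 (by rw [e1]; exact hy.1), ?_⟩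
      rw [← hcac (c^[j - 1] y), e1, ← hy.2]
      rw [Function.iterate_succ_apply, e1, Function.iterate_succ_apply']
  have hj0 : (R j).card = (R 0).card := by
    congr 1
    ext x
    rw [hmR, hmR]
    refine and_congr_right fun hx => ?_
    rw [hper x hx]
    rfl
  have hsum' : ∑ i ∈ Finset.range j, (R (i + 1)).card = S.card := by
    have h1 := Finset.sum_range_succ (fun i => (R i).card) j
    have h2 := Finset.sum_range_succ' (fun i => (R i).card) j
    omega
  have hpair : ∀ i, (R i).card + (R (i + 1)).card = (R 0).card + (R 1).card := by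
    intro i
    induction i with
    | zero => rfl
    | succ i ih =>
      have h1 := hstep i
      have h2 : i + 1 + 1 = i + 2 := rfl
      rw [h2]
      omega
  have hfin : j * ((R 0).card + (R 1).card) = 2 * S.card := by
    have h1 : ∑ i ∈ Finset.range j, ((R i).card + (R (i + 1)).card) =
        j * ((R 0).card + (R 1).card) := by
      rw [Finset.sum_congr rfl fun i _ => hpair i, Finset.sum_const, Finset.card_range,
        smul_eq_mul]
    rw [Finset.sum_add_distrib, hsum, hsum'] at h1
    omega
  have e0 : (Finset.univ.filter fun x => a x = x ∧ Function.minimalPeriod c x = j) = R 0 := by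
    ext x
    rw [Finset.mem_filter, hmR, hmS]
    constructor
    · rintro ⟨-, h1, h2⟩
      exact ⟨h2, h1.symm⟩
    · rintro ⟨h1, h2⟩
      exact ⟨Finset.mem_univ _, h2.symm, h1⟩
  have e1 : (Finset.univ.filter fun x => b x = x ∧ Function.minimalPeriod c x = j) = R 1 := by
    ext x
    rw [Finset.mem_filter, hmR, hmS]
    have h3 : c^[1] x = a (b x) := hcy x
    rw [h3]
    constructor
    · rintro ⟨-, h1, h2⟩
      exact ⟨h2, by rw [h1]⟩
    · rintro ⟨h1, h2⟩
      refine ⟨Finset.mem_univ _, ?_, h1⟩
      have h4 := congrArg a h2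
      rwa [haa, haa] at h4
  rw [e0, e1, ← hS]
  exact hfin

end Pool.Agent.MP4eed4e
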