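import Mathlib
import Pool.Agent.Lib.MP_4eed4e_an.CountA
import Pool.Agent.Lib.MP_4eed4e_an.CountB
import Pool.Agent.Lib.MP_4eed4e_an.Words
import Pool.Agent.Lib.MP_4eed4e_an.Frame

/-!
Counting (collection).
-/

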