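import Mathlib
import Pool.Agent.Lib.MP_4eed4e_an.Count
import Pool.Agent.Lib.MP_4eed4e_an.Star

/-!
The number of corner rays of a tiling is an invariant.
-/

namespace Pool.Agent.MP4eed4e

open Set Classical

variable {τ : Tile} {D D' : Set ℂ}

/-- Number of corner rays counted through the tiling. -/
noncomputable def Tiling.ccount (A : Tiling τ D) : ℕ :=
  ∑ s : τ.S,
    ((Finset.univ.filter fun x : A.X => A.nb s x = x ∧
        Function.minimalPeriod (A.rot s) x * τ.ang s ≠ Real.pi).card +
      (Finset.univ.filter fun x : A.X => A.nb (τ.prev s) x = x ∧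
        Function.minimalPeriod (A.rot s) x * τ.ang s ≠ Real.pi).card)

private theorem Corner.split {X : Type} [Fintype X] (P : X → Prop) [DecidablePred P] (f : X → ℕ)
    (θ : ℝ) (M : ℕ) (hf : ∀ x, 0 < f x) (hM : ∀ x, f x ≤ M) :
    (Finset.univ.filter fun x => P x ∧ f x * θ ≠ Real.pi).card =
      ∑ j ∈ Finset.range (M + 1), if 0 < j ∧ j * θ ≠ Real.pi then
        (Finset.univ.filter fun x => P x ∧ f x = j).card else 0 := by
  rw [Finset.card_eq_sum_card_fiberwise (f := f) (t := Finset.range (M + 1))]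
  · refine Finset.sum_congr rfl fun j _ => ?_
    split_ifs with hj
    · congr 1
      ext x
      simp only [Finset.mem_filter, Finset.mem_univ, true_and]
      constructor
      · rintro ⟨⟨h1, _⟩, h3⟩
        exact ⟨h1, h3⟩
      · rintro ⟨h1, h3⟩
        exact ⟨⟨h1, by rw [h3]; exact hj.2⟩, h3⟩
    · rw [Finset.card_eq_zero, Finset.filter_eq_empty_iff]
      intro x hx h3
      simp only [Finset.mem_filter, Finset.mem_univ, true_and] at hx
      apply hj
      subst h3
      exact ⟨hf x, hx.2⟩
  · intro x _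
    simp only [Finset.coe_range, mem_Iio]
    exact Nat.lt_succ_of_le (hM x)

private theorem Corner.pos {X : Type} [Fintype X] (a b : X → X)
    (haa : ∀ x, a (a x) = x) (hbb : ∀ x, b (b x) = x) (x : X) :
    0 < Function.minimalPeriod (fun y => a (b y)) x := by
  have h1 : Function.Injective (fun y => a (b y)) := by
    intro y z hyz
    have h2 := congrArg a hyz
    simp only [haa] at h2
    have h3 := congrArg b h2
    simpa only [hbb] using h3
  exact Function.minimalPeriod_pos_of_mem_periodicPts (h1.mem_periodicPts x)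

private theorem Corner.aux {X Y : Type} [Fintype X] [Fintype Y] [DecidableEq X] [DecidableEq Y]
    (a b : X → X) (a' b' : Y → Y) (θ : ℝ) (haa : ∀ x, a (a x) = x) (hbb : ∀ x, b (b x) = x)
    (haa' : ∀ x, a' (a' x) = x) (hbb' : ∀ x, b' (b' x) = x)
    (h1 : ∀ x, Function.minimalPeriod (fun y => a (b y)) x * θ ≠ Real.pi →
      ∃ n : ℕ, (fun y => a (b y))^[n] x = a x)
    (h1' : ∀ x, Function.minimalPeriod (fun y => a' (b' y)) x * θ ≠ Real.pi →
      ∃ n : ℕ, (fun y => a' (b' y))^[n] x = a' x)
    (h : ∀ k : ℕ, (Finset.univ.filter fun x => (fun y => a (b y))^[k] x = x).card =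
      (Finset.univ.filter fun y => (fun y => a' (b' y))^[k] y = y).card) :
    (Finset.univ.filter fun x => a x = x ∧
        Function.minimalPeriod (fun y => a (b y)) x * θ ≠ Real.pi).card +
      (Finset.univ.filter fun x => b x = x ∧
        Function.minimalPeriod (fun y => a (b y)) x * θ ≠ Real.pi).card =
    (Finset.univ.filter fun x => a' x = x ∧
        Function.minimalPeriod (fun y => a' (b' y)) x * θ ≠ Real.pi).card +
      (Finset.univ.filter fun x => b' x = x ∧
        Function.minimalPeriod (fun y => a' (b' y)) x * θ ≠ Real.pi).card := by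
  set f := fun x => Function.minimalPeriod (fun y => a (b y)) x with hf
  set f' := fun x => Function.minimalPeriod (fun y => a' (b' y)) x with hf'
  have hpos : ∀ x, 0 < f x := Corner.pos a b haa hbb
  have hpos' : ∀ x, 0 < f' x := Corner.pos a' b' haa' hbb'
  have hM : ∀ x, f x ≤ (∑ z, f z) + ∑ z, f' z := fun x =>
    (Finset.single_le_sum (fun z _ => Nat.zero_le (f z)) (Finset.mem_univ x)).trans
      (Nat.le_add_right _ _)
  have hM' : ∀ x, f' x ≤ (∑ z, f z) + ∑ z, f' z := fun x =>
    (Finset.single_le_sum (fun z _ => Nat.zero_le (f' z)) (Finset.mem_univ x)).trans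
      (Nat.le_add_left _ _)
  rw [Corner.split (fun x => a x = x) f θ _ hpos hM, Corner.split (fun x => b x = x) f θ _ hpos hM,
    Corner.split (fun x => a' x = x) f' θ _ hpos' hM',
    Corner.split (fun x => b' x = x) f' θ _ hpos' hM', ← Finset.sum_add_distrib,
    ← Finset.sum_add_distrib]
  refine Finset.sum_congr rfl fun j _ => ?_
  split_ifs with hj
  · have e1 := dihedral_count a b haa hbb j hj.1 (fun x hx => h1 x (by rw [hx]; exact hj.2))
    have e2 := dihedral_count a' b' haa' hbb' j hj.1 (fun x hx => h1' x (by rw [hx]; exact hj.2))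
    have e3 := card_period_eq (fun y => a (b y)) (fun y => a' (b' y)) h j hj.1
    rw [e3, ← e2] at e1
    exact Nat.eq_of_mul_eq_mul_left hj.1 e1
  · rfl

private theorem Corner.orb (A : Tiling τ D) (s : τ.S) (x : A.X)
    (h : Function.minimalPeriod (fun y => A.nb s (A.nb (τ.prev s) y)) x * τ.ang s ≠ Real.pi) :
    ∃ n : ℕ, (fun y => A.nb s (A.nb (τ.prev s) y))^[n] x = A.nb s x := by
  rcases A.star s x with ⟨k, _, hk, hp, _⟩ | ⟨m, i, _, _, _, _, _, hn, _⟩
  · exfalso
    apply h
    have e1 : Function.minimalPeriod (fun y => A.nb s (A.nb (τ.prev s) y)) x = k := hp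
    rw [e1]
    exact hk
  · exact hn

theorem ccount_eq (A : Tiling τ D) (B : Tiling τ D') (Ψ : (A.X → ℝ) ≃ₗ[ℝ] (B.X → ℝ))
    (h : ∀ s f, Ψ (f ∘ A.nb s) = (Ψ f) ∘ B.nb s) : A.ccount = B.ccount := by
  unfold Tiling.ccount
  refine Finset.sum_congr rfl fun s _ => ?_
  refine Corner.aux (A.nb s) (A.nb (τ.prev s)) (B.nb s) (B.nb (τ.prev s)) (τ.ang s)
    (A.inv s) (A.inv _) (B.inv s) (B.inv _) (Corner.orb A s) (Corner.orb B s) fun k => ?_
  have e1 := card_fixed_eq Ψ (A.act (τ.rw s k)) (B.act (τ.rw s k))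
    (fun f => intertwine_act A B Ψ h _ f)
  have e2 : A.act (τ.rw s k) = (A.rot s)^[k] := funext fun x => A.act_rw s k x
  have e3 : B.act (τ.rw s k) = (B.rot s)^[k] := funext fun x => B.act_rw s k x
  rw [e2, e3] at e1
  exact e1

end Pool.Agent.MP4eed4e
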