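import Mathlib
import Pool.Agent.Lib.MP_4eed4e_an.Corner
import Pool.Agent.Lib.MP_4eed4e_an.SecUniq

/-!
Corner rays of `D` and boundary flags of a tiling.
-/

namespace Pool.Agent.MP4eed4e

open Set Complex

variable {τ : Tile} {D D' : Set ℂ}

private theorem ray_nhds {P v : ℂ} (hv : ‖v‖ = 1) {ρ δ r : ℝ} (hρ : 0 < ρ) (hr : ρ < r)
    (hδ : 0 < δ) :
    ∀ᶠ w in nhds (P + ρ * v), ∃ ρ' θ : ℝ, 0 < ρ' ∧ ρ' < r ∧ -δ < θ ∧ θ < δ ∧
      w = P + ρ' * v * exp (θ * I) := by
  have hv0 : v ≠ 0 := by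
    intro h
    rw [h, norm_zero] at hv
    exact zero_ne_one hv
  have hf : ContinuousAt (fun w : ℂ => (w - P) / v) (P + ρ * v) := by fun_prop
  have hfv : (P + ρ * v - P) / v = (ρ : ℂ) := by
    field_simp
    ring
  have hsl : (P + ρ * v - P) / v ∈ slitPlane := by
    rw [hfv]
    exact Complex.ofReal_mem_slitPlane.mpr hρ
  have hn : ContinuousAt (fun w : ℂ => ‖(w - P) / v‖) (P + ρ * v) := hf.norm
  have ha : ContinuousAt (fun w : ℂ => arg ((w - P) / v)) (P + ρ * v) :=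
    ContinuousAt.comp (f := fun w : ℂ => (w - P) / v) (g := arg)
      (Complex.continuousAt_arg hsl) hf
  have hnv : ‖(P + ρ * v - P) / v‖ = ρ := by
    rw [hfv, Complex.norm_real, Real.norm_eq_abs, abs_of_pos hρ]
  have hav : arg ((P + ρ * v - P) / v) = 0 := by
    rw [hfv, Complex.arg_ofReal_of_nonneg hρ.le]
  have e1 : ∀ᶠ w in nhds (P + ρ * v), 0 < ‖(w - P) / v‖ := by
    apply hn.eventually (lt_mem_nhds _)
    show 0 < ‖(P + ρ * v - P) / v‖
    rw [hnv]
    exact hρ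
  have e2 : ∀ᶠ w in nhds (P + ρ * v), ‖(w - P) / v‖ < r := by
    apply hn.eventually (gt_mem_nhds _)
    show ‖(P + ρ * v - P) / v‖ < r
    rw [hnv]
    exact hr
  have e3 : ∀ᶠ w in nhds (P + ρ * v), -δ < arg ((w - P) / v) := by
    apply ha.eventually (lt_mem_nhds _)
    show -δ < arg ((P + ρ * v - P) / v)
    rw [hav]
    linarith
  have e4 : ∀ᶠ w in nhds (P + ρ * v), arg ((w - P) / v) < δ := by
    apply ha.eventually (gt_mem_nhds _)
    show arg ((P + ρ * v - P) / v) < δ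
    rw [hav]
    exact hδ
  filter_upwards [e1, e2, e3, e4] with w h1 h2 h3 h4
  refine ⟨‖(w - P) / v‖, arg ((w - P) / v), h1, h2, h3, h4, ?_⟩
  have h5 := Complex.norm_mul_exp_arg_mul_I ((w - P) / v)
  have h6 : (‖(w - P) / v‖ : ℂ) * v * exp (arg ((w - P) / v) * I) =
      v * ((‖(w - P) / v‖ : ℂ) * exp (arg ((w - P) / v) * I)) := by ring
  rw [h6, h5]
  field_simp
  ring

private theorem cont_pol (P v : ℂ) (ρ c : ℝ) :
    Continuous (fun θ : ℝ => P + ρ * v * exp (((c + θ : ℝ) : ℂ) * I)) := by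
  fun_prop

private theorem ray_closure {P u : ℂ} {α r ρ : ℝ} (h : Sec D P u α r) (h0 : 0 < ρ)
    (h1 : ρ < r) : P + ρ * u ∈ closure D ∧ P + ρ * u * exp (α * I) ∈ closure D := by
  obtain ⟨hu, hα, hα', hr, hin, hout⟩ := h
  constructor
  · have hc := (cont_pol P u ρ 0).tendsto 0
    have hc' : Filter.Tendsto (fun θ : ℝ => P + ρ * u * exp (((0 + θ : ℝ) : ℂ) * I))
        (nhdsWithin 0 (Ioi 0)) (nhds (P + ρ * u)) := by
      have := hc.mono_left (nhdsWithin_le_nhds (s := Ioi (0 : ℝ)))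
      simpa using this
    apply mem_closure_of_tendsto hc'
    have : Ioo (0 : ℝ) α ∈ nhdsWithin (0 : ℝ) (Ioi 0) := Ioo_mem_nhdsGT hα
    filter_upwards [this] with θ hθ
    have := hin ρ θ h0 h1 hθ.1 hθ.2
    simpa using this
  · have hc := (cont_pol P u ρ α).tendsto 0
    have hc' : Filter.Tendsto (fun θ : ℝ => P + ρ * u * exp (((α + θ : ℝ) : ℂ) * I))
        (nhdsWithin 0 (Iio 0)) (nhds (P + ρ * u * exp (α * I))) := by
      have := hc.mono_left (nhdsWithin_le_nhds (s := Iio (0 : ℝ)))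
      simpa using this
    apply mem_closure_of_tendsto hc'
    have : Ioo (-α) (0 : ℝ) ∈ nhdsWithin (0 : ℝ) (Iio 0) := Ioo_mem_nhdsLT (by linarith)
    filter_upwards [this] with θ hθ
    exact hin ρ (α + θ) h0 h1 (by linarith [hθ.1]) (by linarith [hθ.2])

private theorem ray_opp {P v u : ℂ} {α₁ α₂ r₁ r₂ : ℝ} (reg : interior (closure D) = D)
    (h₁ : Sec D P v α₁ r₁) (h₂ : Sec D P u α₂ r₂) (hv : v = u * exp (α₂ * I)) : False := by
  have H₁ := h₁
  have H₂ := h₂
  obtain ⟨hu, hα, hα', hr, hin, hout⟩ := H₁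
  obtain ⟨hu2, hα2, hα2', hr2, hin2, hout2⟩ := H₂
  have hm : 0 < min r₁ r₂ := lt_min hr hr2
  have hm1 : min r₁ r₂ / 2 < min r₁ r₂ := by linarith
  have hd : 0 < min α₁ α₂ := lt_min hα hα2
  have key := ray_nhds (P := P) hu (ρ := min r₁ r₂ / 2) (r := min r₁ r₂) (by linarith) hm1 hd
  have hQ : P + ((min r₁ r₂ / 2 : ℝ) : ℂ) * v ∈ D := by
    rw [← reg]
    rw [mem_interior_iff_mem_nhds]
    filter_upwards [key] with w hw
    obtain ⟨ρ', θ, a1, a2, a3, a4, rfl⟩ := hw
    rcases lt_trichotomy θ 0 with hθ | hθ | hθ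
    · apply subset_closure
      have := hin2 ρ' (α₂ + θ) a1 (lt_of_lt_of_le a2 (min_le_right _ _))
        (by linarith [min_le_right α₁ α₂]) (by linarith)
      rw [hv]
      have e : P + ρ' * (u * exp (α₂ * I)) * exp (θ * I) =
          P + ρ' * u * exp (((α₂ + θ : ℝ) : ℂ) * I) := by
        rw [ofReal_add, add_mul, exp_add]
        ring
      rw [e]
      exact this
    · rw [hθ]
      have := (ray_closure h₁ a1 (lt_of_lt_of_le a2 (min_le_left _ _))).1
      simpa using this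
    · apply subset_closure
      exact hin ρ' θ a1 (lt_of_lt_of_le a2 (min_le_left _ _)) hθ
        (lt_of_lt_of_le a4 (min_le_left _ _))
  exact (hout (min r₁ r₂ / 2) (by linarith) (by linarith [min_le_left r₁ r₂])).1 hQ

private theorem ray_unique {P v u₁ u₂ : ℂ} {α₁ α₂ r₁ r₂ : ℝ} (reg : interior (closure D) = D)
    (h₁ : Sec D P u₁ α₁ r₁) (h₂ : Sec D P u₂ α₂ r₂) (hv₁ : v = u₁ ∨ v = u₁ * exp (α₁ * I))
    (hv₂ : v = u₂ ∨ v = u₂ * exp (α₂ * I)) : u₁ = u₂ ∧ α₁ = α₂ := by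
  have hp1 : 0 < α₁ := h₁.2.1
  have hp2 : 0 < α₂ := h₂.2.1
  have hd : 0 < min α₁ α₂ := lt_min hp1 hp2
  have l1 := min_le_left α₁ α₂
  have l2 := min_le_right α₁ α₂
  rcases hv₁ with h | h <;> rcases hv₂ with h' | h'
  · exact Sec.unique h₁ h₂ (θ₁ := min α₁ α₂ / 2) (θ₂ := min α₁ α₂ / 2) (by linarith)
      (by linarith) (by linarith) (by linarith) (by rw [← h, ← h'])
  · exact (ray_opp reg h₁ h₂ (by rw [← h, ← h'])).elim
  · exact (ray_opp reg h₂ h₁ (by rw [← h, ← h'])).elim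
  · refine Sec.unique h₁ h₂ (θ₁ := α₁ - min α₁ α₂ / 2) (θ₂ := α₂ - min α₁ α₂ / 2) (by linarith)
      (by linarith) (by linarith) (by linarith) ?_
    have e : ∀ (u : ℂ) (a c : ℝ), u * exp (((a - c : ℝ) : ℂ) * I) =
        u * exp (a * I) * exp (-c * I) := by
      intro u a c
      rw [mul_assoc, ← exp_add]
      congr 2
      push_cast
      ring
    rw [e, e, ← h, ← h']

private theorem dir_end {a b v : ℂ} {ρ : ℝ} (hab : a ≠ b) (hv : ‖v‖ = 1) (hρ : 0 < ρ)
    (h : a + ρ * v ∈ segment ℝ a b) : v = (b - a) / ‖b - a‖ := by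
  rw [segment_eq_image'] at h
  obtain ⟨t, ht, he⟩ := h
  have hne : b - a ≠ 0 := sub_ne_zero.mpr (Ne.symm hab)
  have hn : 0 < ‖b - a‖ := norm_pos_iff.mpr hne
  have e1 : (ρ : ℂ) * v = t * (b - a) := by
    have : a + t • (b - a) = a + ρ * v := he
    rw [Complex.real_smul] at this
    exact (add_left_cancel this).symm
  have e2 : ρ = t * ‖b - a‖ := by
    have := congrArg norm e1
    rw [norm_mul, norm_mul, hv, Complex.norm_real, Complex.norm_real, Real.norm_eq_abs,
      Real.norm_eq_abs, abs_of_pos hρ, abs_of_nonneg ht.1, mul_one] at this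
    exact this
  have ht0 : 0 < t := by
    rcases ht.1.eq_or_lt with h0 | h0
    · rw [← h0, zero_mul] at e2
      linarith
    · exact h0
  have hnC : ((‖b - a‖ : ℝ) : ℂ) ≠ 0 := by exact_mod_cast hn.ne'
  have htC : (t : ℂ) ≠ 0 := by exact_mod_cast ht0.ne'
  rw [eq_div_iff hnC]
  have e3 : (ρ : ℂ) = t * ‖b - a‖ := by exact_mod_cast e2
  rw [e3] at e1
  have : (t : ℂ) * (v * ‖b - a‖) = t * (b - a) := by
    rw [← e1]
    ring
  exact mul_left_cancel₀ htC this

private theorem dir_mid {a b P v : ℂ} {ρ : ℝ} (hab : a ≠ b) (hv : ‖v‖ = 1) (hρ : 0 < ρ)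
    (hP : P ∈ segment ℝ a b) (h : P + ρ * v ∈ segment ℝ a b) :
    v = (b - a) / ‖b - a‖ ∨ v = - ((b - a) / ‖b - a‖) := by
  rw [segment_eq_image'] at h hP
  obtain ⟨t, ht, he⟩ := h
  obtain ⟨t', ht', he'⟩ := hP
  have hne : b - a ≠ 0 := sub_ne_zero.mpr (Ne.symm hab)
  have hn : 0 < ‖b - a‖ := norm_pos_iff.mpr hne
  have e1 : (ρ : ℂ) * v = ((t - t' : ℝ) : ℂ) * (b - a) := by
    have h1 : a + t • (b - a) = P + ρ * v := he
    have h2 : a + t' • (b - a) = P := he'
    rw [← h2, Complex.real_smul, Complex.real_smul] at h1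
    push_cast
    linear_combination -h1
  have e2 : ρ = |t - t'| * ‖b - a‖ := by
    have := congrArg norm e1
    rw [norm_mul, norm_mul, hv, Complex.norm_real, Complex.norm_real, Real.norm_eq_abs,
      Real.norm_eq_abs, abs_of_pos hρ, mul_one] at this
    exact this
  have hnC : ((‖b - a‖ : ℝ) : ℂ) ≠ 0 := by exact_mod_cast hn.ne'
  have e3 : (ρ : ℂ) = ((|t - t'| : ℝ) : ℂ) * ‖b - a‖ := by exact_mod_cast e2
  rcases abs_cases (t - t') with ⟨hc, hc'⟩ | ⟨hc, hc'⟩
  · left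
    rw [hc] at e3 e2
    have htC : ((t - t' : ℝ) : ℂ) ≠ 0 := by
      intro h0
      rw [h0, zero_mul] at e3
      exact hρ.ne' (by exact_mod_cast e3)
    rw [eq_div_iff hnC]
    rw [e3] at e1
    apply mul_left_cancel₀ htC
    rw [← e1]
    ring
  · right
    rw [hc] at e3 e2
    have htC : ((-(t - t') : ℝ) : ℂ) ≠ 0 := by
      intro h0
      rw [h0, zero_mul] at e3
      exact hρ.ne' (by exact_mod_cast e3)
    rw [← neg_div, eq_div_iff hnC]
    rw [e3] at e1
    apply mul_left_cancel₀ htC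
    have : ((-(t - t') : ℝ) : ℂ) * (v * ‖b - a‖) = ((t - t' : ℝ) : ℂ) * (b - a) := by
      rw [← e1]
      ring
    rw [this]
    push_cast
    ring

private theorem exists_side (A : Tiling τ D) {P v : ℂ} {r : ℝ} (hr : 0 < r)
    (h : ∀ ρ : ℝ, 0 < ρ → ρ < r → P + ρ * v ∈ frontier D) :
    ∃ (y : A.X) (l : τ.S) (ρ₀ : ℝ), A.nb l y = y ∧ 0 < ρ₀ ∧ ρ₀ < r ∧
      P ∈ A.g y '' τ.sd l ∧ P + ρ₀ * v ∈ A.g y '' τ.sd l := by
  have hpos : ∀ n : ℕ, 0 < r / (n + 2) := fun n => by positivity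
  have hlt : ∀ n : ℕ, r / ((n : ℝ) + 2) < r := fun n => by
    rw [div_lt_iff₀ (by positivity)]
    nlinarith [(Nat.cast_nonneg n : (0 : ℝ) ≤ n)]
  have hz : ∀ n : ℕ, ∃ z : {z : A.X × τ.S // A.nb z.2 z.1 = z.1},
      P + ((r / (n + 2) : ℝ) : ℂ) * v ∈ A.g z.1.1 '' τ.sd z.1.2 := by
    intro n
    have := h _ (hpos n) (hlt n)
    rw [A.frontier_eq] at this
    simpa only [mem_iUnion] using this
  choose z hz using hz
  obtain ⟨w, hw⟩ := Finite.exists_infinite_fiber z
  have hwI : (z ⁻¹' {w}).Infinite := Set.infinite_coe_iff.mp hw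
  obtain ⟨n₀, hn₀⟩ := hwI.nonempty
  have hn₀' : z n₀ = w := hn₀
  refine ⟨w.1.1, w.1.2, r / (n₀ + 2), w.2, hpos _, hlt _, ?_, ?_⟩
  · have hcl : IsClosed (A.g w.1.1 '' τ.sd w.1.2) := by
      rw [iso_segment]
      apply IsCompact.isClosed
      rw [segment_eq_image']
      exact isCompact_Icc.image (by fun_prop)
    rw [← hcl.closure_eq, Metric.mem_closure_iff]
    intro ε hε
    obtain ⟨N, hN⟩ := exists_nat_gt (r * ‖v‖ / ε)
    obtain ⟨n, hn, hn'⟩ := hwI.exists_gt N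
    refine ⟨_, by have := hz n; rw [show z n = w from hn] at this; exact this, ?_⟩
    rw [dist_eq_norm]
    have : P - (P + ((r / (n + 2) : ℝ) : ℂ) * v) = -(((r / (n + 2) : ℝ) : ℂ) * v) := by ring
    rw [this, norm_neg, norm_mul, Complex.norm_real, Real.norm_eq_abs, abs_of_pos (hpos n)]
    have h3 : (N : ℝ) < n := by exact_mod_cast hn'
    rw [div_lt_iff₀ hε] at hN
    have h4 : r * ‖v‖ < ((n : ℝ) + 2) * ε := by nlinarith
    have : r / ((n : ℝ) + 2) * ‖v‖ = r * ‖v‖ / ((n : ℝ) + 2) := by ring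
    rw [this, div_lt_iff₀ (by positivity)]
    linarith
  · have := hz n₀
    rw [hn₀'] at this
    exact this

private noncomputable def fU (A : Tiling τ D) (s : τ.S) (x : A.X) : ℂ :=
  Classical.choose (A.Z_polar s x)

private noncomputable def fE (A : Tiling τ D) (s : τ.S) (x : A.X) : ℝ :=
  Classical.choose (Classical.choose_spec (A.Z_polar s x))

private theorem f_spec (A : Tiling τ D) (s : τ.S) (x : A.X) :
    ‖fU A s x‖ = 1 ∧ (fE A s x = 1 ∨ fE A s x = -1) ∧
      ∀ ρ θ : ℝ, A.Z s x ρ θ = A.g x (τ.p s) + ρ * fU A s x * exp (fE A s x * θ * I) :=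
  Classical.choose_spec (Classical.choose_spec (A.Z_polar s x))

private theorem frame_ray {u U v : ℂ} {η ψ₀ α : ℝ}
    (h : (u = U * exp (η * ψ₀ * I) ∧ u * exp (α * I) = U * exp (η * ((ψ₀ + α : ℝ) : ℂ) * I)) ∨
       (u = U * exp (η * ((ψ₀ + α : ℝ) : ℂ) * I) ∧ u * exp (α * I) = U * exp (η * ψ₀ * I)))
    (hv : v = U * exp (η * ψ₀ * I) ∨ v = U * exp (η * ((ψ₀ + α : ℝ) : ℂ) * I)) :
    v = u ∨ v = u * exp (α * I) := by
  rcases h with ⟨h1, h2⟩ | ⟨h1, h2⟩ <;> rcases hv with h | h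
  · left; rw [h, h1]
  · right; rw [h, h2]
  · right; rw [h, h2]
  · left; rw [h, h1]

/-- The sector of `D` at a boundary vertex with its two rays. -/
private theorem bd_sec (A : Tiling τ D) {s : τ.S} {x : A.X} {m i : ℕ} (h : A.BdStar s x m i) :
    ∃ u, Sec D (A.g x (τ.p s)) u (m * τ.ang s) (τ.rad s) ∧
      (A.nb s x = x → (fU A s x = u ∨ fU A s x = u * exp (((m * τ.ang s : ℝ) : ℂ) * I))) ∧
      (A.nb (τ.prev s) x = x → (fU A s x * exp (fE A s x * τ.ang s * I) = u ∨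
        fU A s x * exp (fE A s x * τ.ang s * I) = u * exp (((m * τ.ang s : ℝ) : ℂ) * I))) := by
  obtain ⟨him, hmp, hlt, h0, h1, -, hin, hout, -, -⟩ := h
  obtain ⟨hU, hη, hZ⟩ := f_spec A s x
  obtain ⟨-, -, ha, -, hr, -⟩ := τ.frame_spec s
  have hm : 0 < m := by omega
  have hm' : (0 : ℝ) < m := by exact_mod_cast hm
  obtain ⟨u, hs, -, hr2⟩ := sec_of_frame (D := D) (P := A.g x (τ.p s)) (U := fU A s x)
    (η := fE A s x) (ψ₀ := -(i * τ.ang s)) (α := m * τ.ang s) (r := τ.rad s) hU hη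
    (by positivity) hlt hr
    (by
      intro ρ ψ a1 a2 a3 a4
      rw [← hZ]
      exact hin ρ ψ a1 a2 a3 (by linarith))
    (by
      intro ρ a1 a2
      have := hout ρ a1 a2
      rw [hZ, hZ] at this
      refine ⟨this.1, ?_⟩
      have e : (-(i * τ.ang s) + m * τ.ang s : ℝ) = (m - i) * τ.ang s := by ring
      rw [e]
      exact this.2)
  refine ⟨u, hs, ?_, ?_⟩
  · intro hb
    have hi := h0 hb
    subst hi
    apply frame_ray hr2
    left
    simp
  · intro hb
    have hi := h1 hb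
    apply frame_ray hr2
    right
    have e : (-(i * τ.ang s) + m * τ.ang s : ℝ) = τ.ang s := by
      have : (m : ℝ) = i + 1 := by exact_mod_cast hi.symm
      rw [this]
      ring
    rw [e]

/-- The half disc at an interior point of a boundary side. -/
private theorem half_sec (A : Tiling τ D) {l : τ.S} {y : A.X} {P v : ℂ} {ρ₀ : ℝ}
    (hl : A.nb l y = y) (hP : P ∈ A.g y '' τ.od l) (hv : ‖v‖ = 1) (hρ : 0 < ρ₀)
    (h : P + ρ₀ * v ∈ A.g y '' τ.sd l) :
    ∃ u r, Sec D P u Real.pi r ∧ (v = u ∨ v = u * exp (Real.pi * I)) := by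
  obtain ⟨w, hw, rfl⟩ := hP
  obtain ⟨r, hr, ε, hε, hH⟩ := τ.half hw
  have hab : τ.p l ≠ τ.p (τ.next l) := τ.p_ne l
  set a := τ.p l with ha
  set b := τ.p (τ.next l) with hb
  have hne : b - a ≠ 0 := sub_ne_zero.mpr (Ne.symm hab)
  have hn : 0 < ‖b - a‖ := norm_pos_iff.mpr hne
  have hnC : ((‖b - a‖ : ℝ) : ℂ) ≠ 0 := by exact_mod_cast hn.ne'
  have hw' : w ∈ openSegment ℝ a b := hw
  rw [openSegment_eq_image'] at hw'
  obtain ⟨t, ht, hwt⟩ := hw'
  have hwt' : w = a + t * (b - a) := by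
    rw [← hwt]
    simp [Complex.real_smul]
  obtain ⟨e, he⟩ : ∃ e : ℂ, e = (b - a) / ‖b - a‖ := ⟨_, rfl⟩
  have hen : ‖e‖ = 1 := by
    rw [he, norm_div, Complex.norm_real, norm_norm, div_self hn.ne']
  obtain ⟨U, η, hU, hη, hpol⟩ := iso_polar (A.g y) w e ε hen hε
  obtain ⟨R, hR⟩ : ∃ R : ℝ, R = min r (min (t * ‖b - a‖) ((1 - t) * ‖b - a‖)) := ⟨_, rfl⟩
  have hRpos : 0 < R := by
    rw [hR]
    exact lt_min hr (lt_min (mul_pos ht.1 hn) (mul_pos (by linarith [ht.2]) hn))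
  have hR1 : R ≤ r := by rw [hR]; exact min_le_left _ _
  have hR2 : R ≤ t * ‖b - a‖ := by
    rw [hR]; exact (min_le_right _ _).trans (min_le_left _ _)
  have hR3 : R ≤ (1 - t) * ‖b - a‖ := by
    rw [hR]; exact (min_le_right _ _).trans (min_le_right _ _)
  -- points of the line
  have hline : ∀ c : ℝ, |c| ≤ R → w + c * e ∈ τ.sd l := by
    intro c hc
    show w + c * e ∈ segment ℝ a b
    rw [segment_eq_image']
    refine ⟨t + c / ‖b - a‖, ⟨?_, ?_⟩, ?_⟩
    · have : -(t * ‖b - a‖) ≤ c := by linarith [neg_abs_le c]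
      have h2 : -t ≤ c / ‖b - a‖ := by
        rw [le_div_iff₀ hn]
        linarith
      linarith
    · have : c ≤ (1 - t) * ‖b - a‖ := by linarith [le_abs_self c]
      have h2 : c / ‖b - a‖ ≤ 1 - t := by
        rw [div_le_iff₀ hn]
        exact this
      linarith
    · simp only [Complex.real_smul]
      rw [hwt', he]
      push_cast
      field_simp
      ring
  have hεε : ε * ε = 1 := by rcases hε with h | h <;> rw [h] <;> norm_num
  have hba : b - a = ‖b - a‖ * e := by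
    rw [he]
    field_simp
  have hee : e * (starRingEnd ℂ) e = 1 := by
    rw [Complex.mul_conj, Complex.normSq_eq_norm_sq, hen]
    norm_num
  have hlam : ∀ ρ θ : ℝ, ε * lam a b (w + ρ * e * exp (ε * θ * I)) =
      ρ * ‖b - a‖ * Real.sin θ := by
    intro ρ θ
    obtain ⟨z, hz⟩ : ∃ z : ℂ, z = exp (ε * θ * I) := ⟨_, rfl⟩
    have hzim : z.im = ε * Real.sin θ := by
      have : (ε : ℂ) * θ * I = ((ε * θ : ℝ) : ℂ) * I := by push_cast; ring
      rw [hz, this, Complex.exp_ofReal_mul_I_im]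
      rcases hε with h | h <;> rw [h] <;> simp
    rw [← hz]
    unfold lam
    have hconj : (starRingEnd ℂ) (b - a) = ‖b - a‖ * (starRingEnd ℂ) e := by
      conv_lhs => rw [hba]
      rw [map_mul, Complex.conj_ofReal]
    have h1 : (w + ρ * e * z - a) * (starRingEnd ℂ) (b - a) =
        ((t * ‖b - a‖ ^ 2 : ℝ) : ℂ) + ((ρ * ‖b - a‖ : ℝ) : ℂ) * z := by
      have h2 : w + ρ * e * z - a = e * (t * ‖b - a‖ + ρ * z) := by
        rw [hwt']
        linear_combination (t : ℂ) * hba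
      rw [hconj, h2]
      push_cast
      linear_combination (((t : ℂ) * ‖b - a‖ + ρ * z) * ‖b - a‖) * hee
    rw [h1, Complex.add_im, Complex.ofReal_im, Complex.im_ofReal_mul, hzim]
    linear_combination (ρ * ‖b - a‖ * Real.sin θ) * hεε
  have hin : ∀ ρ ψ : ℝ, 0 < ρ → ρ < R → (0 : ℝ) < ψ → ψ < 0 + Real.pi →
      A.g y w + ρ * U * exp (η * ψ * I) ∈ D := by
    intro ρ ψ a1 a2 a3 a4
    rw [← hpol]
    apply A.tile_sub y
    refine ⟨_, ?_, rfl⟩
    have hball : w + ρ * e * exp (ε * ψ * I) ∈ Metric.ball w r := by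
      rw [Metric.mem_ball, dist_eq_norm, add_sub_cancel_left, norm_mul, norm_mul, hen]
      have : (ε : ℂ) * ψ * I = ((ε * ψ : ℝ) : ℂ) * I := by push_cast; ring
      rw [this, Complex.norm_exp_ofReal_mul_I, Complex.norm_real, Real.norm_eq_abs,
        abs_of_pos a1]
      linarith
    rw [(hH _ hball).1, hlam]
    have := Real.sin_pos_of_pos_of_lt_pi a3 (by linarith)
    positivity
  have hout1 : ∀ c : ℝ, |c| ≤ R → A.g y (w + c * e) ∉ D := fun c hc =>
    A.sd_not_mem hl ⟨_, hline c hc, rfl⟩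
  have hout : ∀ ρ : ℝ, 0 ≤ ρ → ρ < R →
      A.g y w + ρ * U * exp (η * ((0 : ℝ) : ℂ) * I) ∉ D ∧
      A.g y w + ρ * U * exp (η * ((0 + Real.pi : ℝ) : ℂ) * I) ∉ D := by
    intro ρ a1 a2
    rw [← hpol, ← hpol]
    constructor
    · have := hout1 ρ (by rw [abs_of_nonneg a1]; exact a2.le)
      simpa using this
    · have := hout1 (-ρ) (by rw [abs_neg, abs_of_nonneg a1]; exact a2.le)
      have h2 : exp (ε * ((0 + Real.pi : ℝ) : ℂ) * I) = -1 := by
        rcases hε with h | h <;> rw [h]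
        · simp
        · simp only [zero_add, ofReal_neg, ofReal_one, neg_mul, one_mul]
          rw [Complex.exp_neg, Complex.exp_pi_mul_I]
          norm_num
      rw [h2]
      have h3 : w + ρ * e * (-1) = w + ((-ρ : ℝ) : ℂ) * e := by
        push_cast
        ring
      rw [h3]
      exact this
  obtain ⟨u, hs, -, hr2⟩ := sec_of_frame (D := D) (P := A.g y w) (U := U) (η := η) (ψ₀ := 0)
    (α := Real.pi) (r := R) hU hη Real.pi_pos (by linarith [Real.pi_pos]) hRpos hin hout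
  refine ⟨u, R, hs, ?_⟩
  apply frame_ray hr2
  have hexp : exp (η * ((0 + Real.pi : ℝ) : ℂ) * I) = -1 := by
    rcases hη with h | h <;> rw [h]
    · simp
    · simp only [zero_add, ofReal_neg, ofReal_one, neg_mul, one_mul]
      rw [Complex.exp_neg, Complex.exp_pi_mul_I]
      norm_num
  rw [hexp]
  have hg : A.g y a ≠ A.g y b := (A.g y).injective.ne hab
  have hPs : A.g y w ∈ segment ℝ (A.g y a) (A.g y b) := by
    rw [← iso_segment]
    exact ⟨w, openSegment_subset_segment _ _ _ hw, rfl⟩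
  have hUs : A.g y w + ((R / 2 : ℝ) : ℂ) * U ∈ segment ℝ (A.g y a) (A.g y b) := by
    rw [← iso_segment]
    refine ⟨w + ((R / 2 : ℝ) : ℂ) * e, hline _ ?_, ?_⟩
    · rw [abs_of_pos (by linarith)]
      linarith
    · have := hpol (R / 2) 0
      simpa using this
  have hvs : A.g y w + ρ₀ * v ∈ segment ℝ (A.g y a) (A.g y b) := by
    rw [← iso_segment]
    exact h
  rcases dir_mid hg hU (by linarith : 0 < R / 2) hPs hUs with h1 | h1 <;>
    rcases dir_mid hg hv hρ hPs hvs with h2 | h2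
  · left; rw [h1, h2]; simp
  · right; rw [h1, h2]; simp
  · right; rw [h1, h2]; simp
  · left; rw [h1, h2]; simp

/-- Boundary flags of the two kinds. -/
private def IdxA (A : Tiling τ D) : Type :=
  {z : τ.S × A.X // A.nb z.1 z.2 = z.2 ∧
    Function.minimalPeriod (A.rot z.1) z.2 * τ.ang z.1 ≠ Real.pi}

private def IdxB (A : Tiling τ D) : Type :=
  {z : τ.S × A.X // A.nb (τ.prev z.1) z.2 = z.2 ∧
    Function.minimalPeriod (A.rot z.1) z.2 * τ.ang z.1 ≠ Real.pi}

private noncomputable def phiA (A : Tiling τ D) (z : IdxA A) : ℂ × ℂ :=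
  (A.g z.1.2 (τ.p z.1.1), fU A z.1.1 z.1.2)

private noncomputable def phiB (A : Tiling τ D) (z : IdxB A) : ℂ × ℂ :=
  (A.g z.1.2 (τ.p z.1.1),
    fU A z.1.1 z.1.2 * exp (fE A z.1.1 z.1.2 * τ.ang z.1.1 * I))

private noncomputable def phi (A : Tiling τ D) : IdxA A ⊕ IdxB A → ℂ × ℂ :=
  Sum.elim (phiA A) (phiB A)

private theorem bd_of_ne (A : Tiling τ D) {s : τ.S} {x : A.X}
    (h : Function.minimalPeriod (A.rot s) x * τ.ang s ≠ Real.pi ∨ A.g x (τ.p s) ∉ D) :
    ∃ m i, A.BdStar s x m i := by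
  rcases A.star s x with ⟨k, hk⟩ | hb
  · exfalso
    obtain ⟨-, h1, h2, h3⟩ := hk
    rcases h with h | h
    · rw [h2] at h
      exact h h1
    · exact h h3
  · exact hb

private theorem phiA_mem (A : Tiling τ D) (z : IdxA A) : phiA A z ∈ CR D := by
  obtain ⟨⟨s, x⟩, h1, h2⟩ := z
  obtain ⟨m, i, hb⟩ := bd_of_ne A (Or.inl h2)
  have hm := hb.2.1
  obtain ⟨u, hs, ha, -⟩ := bd_sec A hb
  simp only at h1 h2 hm ha
  rw [hm] at h2
  refine ⟨m * τ.ang s, τ.rad s, h2, ?_⟩
  rcases ha h1 with h | h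
  · left
    show Sec D (A.g x (τ.p s)) (fU A s x) _ _
    rw [h]
    exact hs
  · right
    exact ⟨u, hs, h⟩

private theorem phiB_mem (A : Tiling τ D) (z : IdxB A) : phiB A z ∈ CR D := by
  obtain ⟨⟨s, x⟩, h1, h2⟩ := z
  obtain ⟨m, i, hb⟩ := bd_of_ne A (Or.inl h2)
  have hm := hb.2.1
  obtain ⟨u, hs, -, ha⟩ := bd_sec A hb
  simp only at h1 h2 hm ha
  rw [hm] at h2
  refine ⟨m * τ.ang s, τ.rad s, h2, ?_⟩
  rcases ha h1 with h | h
  · left
    show Sec D (A.g x (τ.p s)) (fU A s x * exp (fE A s x * τ.ang s * I)) _ _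
    rw [h]
    exact hs
  · right
    exact ⟨u, hs, h⟩

private theorem phiA_germ (A : Tiling τ D) (z : IdxA A) :
    ∃ r > 0, ∀ ρ : ℝ, 0 < ρ → ρ < r →
      (phiA A z).1 + ρ * (phiA A z).2 ∈ A.g z.1.2 '' τ.od z.1.1 := by
  obtain ⟨⟨s, x⟩, h1, h2⟩ := z
  refine ⟨τ.rad s, (τ.frame_spec s).2.2.2.2.1, fun ρ a1 a2 => ?_⟩
  have := A.Z_zero_mem s x ρ a1 a2
  rw [(f_spec A s x).2.2] at this
  show A.g x (τ.p s) + ρ * fU A s x ∈ A.g x '' τ.od s
  simpa using this

private theorem phiB_germ (A : Tiling τ D) (z : IdxB A) :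
    ∃ r > 0, ∀ ρ : ℝ, 0 < ρ → ρ < r →
      (phiB A z).1 + ρ * (phiB A z).2 ∈ A.g z.1.2 '' τ.od (τ.prev z.1.1) := by
  obtain ⟨⟨s, x⟩, h1, h2⟩ := z
  refine ⟨τ.rad s, (τ.frame_spec s).2.2.2.2.1, fun ρ a1 a2 => ?_⟩
  have := A.Z_ang_mem s x ρ a1 a2
  rw [(f_spec A s x).2.2, mul_assoc] at this
  exact this

private theorem germ_eq (A : Tiling τ D) {s t : τ.S} {x y : A.X} {z z' : ℂ × ℂ}
    (hs : A.nb s x = x) (ht : A.nb t y = y)
    (h : ∃ r > 0, ∀ ρ : ℝ, 0 < ρ → ρ < r → z.1 + ρ * z.2 ∈ A.g x '' τ.od s)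
    (h' : ∃ r > 0, ∀ ρ : ℝ, 0 < ρ → ρ < r → z'.1 + ρ * z'.2 ∈ A.g y '' τ.od t)
    (e : z = z') : x = y ∧ s = t := by
  subst e
  obtain ⟨r, hr, h⟩ := h
  obtain ⟨r', hr', h'⟩ := h'
  have hm : 0 < min r r' := lt_min hr hr'
  have l1 := min_le_left r r'
  have l2 := min_le_right r r'
  exact A.bd_unique hs ht (h (min r r' / 2) (by linarith) (by linarith))
    (h' (min r r' / 2) (by linarith) (by linarith))

private theorem phi_inj (A : Tiling τ D) : Function.Injective (phi A) := by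
  intro i j hij
  rcases i with ⟨⟨s, x⟩, h1, h2⟩ | ⟨⟨s, x⟩, h1, h2⟩ <;>
    rcases j with ⟨⟨s', x'⟩, h1', h2'⟩ | ⟨⟨s', x'⟩, h1', h2'⟩
  · obtain ⟨e1, e2⟩ := germ_eq A h1 h1' (phiA_germ A ⟨⟨s, x⟩, h1, h2⟩)
      (phiA_germ A ⟨⟨s', x'⟩, h1', h2'⟩) hij
    simp only at e1 e2
    subst e1
    subst e2
    rfl
  · exfalso
    obtain ⟨e1, e2⟩ := germ_eq A h1 h1' (phiA_germ A ⟨⟨s, x⟩, h1, h2⟩)
      (phiB_germ A ⟨⟨s', x'⟩, h1', h2'⟩) hij
    simp only at e1 e2
    subst e1
    have e3 : A.g x (τ.p s) = A.g x (τ.p s') := congrArg Prod.fst hij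
    have e4 : s = s' := τ.p_inj ((A.g x).injective e3)
    subst e4
    apply τ.next_ne s
    have : τ.next (τ.prev s) = s := by simp [Tile.prev]
    rw [← e2] at this
    exact this
  · exfalso
    obtain ⟨e1, e2⟩ := germ_eq A h1 h1' (phiB_germ A ⟨⟨s, x⟩, h1, h2⟩)
      (phiA_germ A ⟨⟨s', x'⟩, h1', h2'⟩) hij
    simp only at e1 e2
    subst e1
    have e3 : A.g x (τ.p s) = A.g x (τ.p s') := congrArg Prod.fst hij
    have e4 : s = s' := τ.p_inj ((A.g x).injective e3)
    subst e4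
    apply τ.next_ne s
    have : τ.next (τ.prev s) = s := by simp [Tile.prev]
    rw [e2] at this
    exact this
  · obtain ⟨e1, e2⟩ := germ_eq A h1 h1' (phiB_germ A ⟨⟨s, x⟩, h1, h2⟩)
      (phiB_germ A ⟨⟨s', x'⟩, h1', h2'⟩) hij
    simp only at e1 e2
    subst e1
    have e4 : s = s' := τ.next.symm.injective e2
    subst e4
    rfl

private theorem phi_range (A : Tiling τ D) : range (phi A) = CR D := by
  apply Subset.antisymm
  · rintro _ ⟨i, rfl⟩
    rcases i with i | i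
    · exact phiA_mem A i
    · exact phiB_mem A i
  · rintro ⟨P, v⟩ ⟨α, r, hα, h⟩
    obtain ⟨u, hs, hv⟩ : ∃ u, Sec D P u α r ∧ (v = u ∨ v = u * exp (α * I)) := by
      rcases h with h | ⟨u, h, h'⟩
      · exact ⟨v, h, Or.inl rfl⟩
      · exact ⟨u, h, Or.inr h'⟩
    have hvn : ‖v‖ = 1 := by
      have hu := hs.1
      rcases hv with h | h
      · rw [h, hu]
      · rw [h, norm_mul, hu, Complex.norm_exp_ofReal_mul_I, mul_one]
    have hr : 0 < r := hs.2.2.2.1
    have hfr : ∀ ρ : ℝ, 0 < ρ → ρ < r → P + ρ * v ∈ frontier D := by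
      intro ρ a1 a2
      have hc := ray_closure hs a1 a2
      have ho := hs.2.2.2.2.2 ρ a1.le a2
      rw [A.isOpen.frontier_eq]
      rcases hv with h | h
      · rw [h]
        exact ⟨hc.1, ho.1⟩
      · rw [h, ← mul_assoc]
        exact ⟨hc.2, ho.2⟩
    have hPD : P ∉ D := by
      have := (hs.2.2.2.2.2 0 le_rfl hr).1
      simpa using this
    obtain ⟨y, l, ρ₀, hl, h0, h1, hP, hPv⟩ := exists_side A hr hfr
    have hPs : P ∈ segment ℝ (A.g y (τ.p l)) (A.g y (τ.p (τ.next l))) := by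
      rw [← iso_segment]
      exact hP
    have hPvs : P + ρ₀ * v ∈ segment ℝ (A.g y (τ.p l)) (A.g y (τ.p (τ.next l))) := by
      rw [← iso_segment]
      exact hPv
    have hgne : A.g y (τ.p l) ≠ A.g y (τ.p (τ.next l)) := (A.g y).injective.ne (τ.p_ne l)
    rw [← insert_endpoints_openSegment] at hPs
    rcases hPs with hPs | hPs | hPs
    · -- the side starts at `P`
      have hnd : A.g y (τ.p l) ∉ D := by rw [← hPs]; exact hPD
      obtain ⟨m, i, hb⟩ := bd_of_ne A (Or.inr hnd)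
      obtain ⟨u', hs', ha, -⟩ := bd_sec A hb
      have hrad := (τ.frame_spec l).2.2.2.2.1
      have hvU : v = fU A l y := by
        have e1 : v = _ := dir_end hgne hvn h0 (by
          have h5 := hPvs
          rw [hPs] at h5
          exact h5)
        have e2 : fU A l y = _ := dir_end (ρ := τ.rad l / 2) hgne (f_spec A l y).1
          (by linarith) (by
            have := A.Z_zero_mem' l y (τ.rad l / 2) (by linarith) (by linarith)
            rw [(f_spec A l y).2.2, iso_segment] at this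
            simpa using this)
        rw [e1, e2]
      have hU := ha hl
      rw [← hvU] at hU
      rw [← hPs] at hs'
      obtain ⟨-, e⟩ := ray_unique A.reg hs hs' hv hU
      refine ⟨Sum.inl ⟨(l, y), hl, ?_⟩, ?_⟩
      · show (Function.minimalPeriod (A.rot l) y : ℝ) * τ.ang l ≠ Real.pi
        rw [hb.2.1, ← e]
        exact hα
      · show (A.g y (τ.p l), fU A l y) = (P, v)
        rw [hPs, hvU]
    · -- the side ends at `P`
      have hPs' : P = A.g y (τ.p (τ.next l)) := hPs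
      have hprev : τ.prev (τ.next l) = l := by simp [Tile.prev]
      have hnd : A.g y (τ.p (τ.next l)) ∉ D := by rw [← hPs']; exact hPD
      obtain ⟨m, i, hb⟩ := bd_of_ne A (Or.inr hnd)
      obtain ⟨u', hs', -, ha⟩ := bd_sec A hb
      have hrad := (τ.frame_spec (τ.next l)).2.2.2.2.1
      obtain ⟨hn1, hη, hpol⟩ := f_spec A (τ.next l) y
      have hvU : v = fU A (τ.next l) y *
          exp (fE A (τ.next l) y * τ.ang (τ.next l) * I) := by
        have e1 : v = _ := dir_end hgne.symm hvn h0 (by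
          have h5 := hPvs
          rw [hPs', segment_symm] at h5
          exact h5)
        have e2 : fU A (τ.next l) y * exp (fE A (τ.next l) y * τ.ang (τ.next l) * I) = _ :=
          dir_end (ρ := τ.rad (τ.next l) / 2) hgne.symm (by
            have : (fE A (τ.next l) y : ℂ) * τ.ang (τ.next l) * I =
              ((fE A (τ.next l) y * τ.ang (τ.next l) : ℝ) : ℂ) * I := by push_cast; ring
            rw [norm_mul, hn1, this, Complex.norm_exp_ofReal_mul_I, mul_one])
          (by linarith) (by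
            have := A.Z_ang_mem' (τ.next l) y (τ.rad (τ.next l) / 2) (by linarith)
              (by linarith)
            rw [hpol, hprev, iso_segment, segment_symm, mul_assoc] at this
            exact this)
        rw [e1, e2]
      have hU := ha (by rw [hprev]; exact hl)
      rw [← hvU] at hU
      rw [← hPs'] at hs'
      obtain ⟨-, e⟩ := ray_unique A.reg hs hs' hv hU
      refine ⟨Sum.inr ⟨(τ.next l, y), ?_, ?_⟩, ?_⟩
      · show A.nb (τ.prev (τ.next l)) y = y
        rw [hprev]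
        exact hl
      · show (Function.minimalPeriod (A.rot (τ.next l)) y : ℝ) * τ.ang (τ.next l) ≠ Real.pi
        rw [hb.2.1, ← e]
        exact hα
      · show (A.g y (τ.p (τ.next l)), fU A (τ.next l) y *
          exp (fE A (τ.next l) y * τ.ang (τ.next l) * I)) = (P, v)
        rw [hPs', hvU]
    · -- interior point of the side
      exfalso
      have hP' : P ∈ A.g y '' τ.od l := by
        rw [iso_openSegment]
        exact hPs
      obtain ⟨u', r', hs', hv'⟩ := half_sec A hl hP' hvn h0 hPv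
      obtain ⟨-, e⟩ := ray_unique A.reg hs hs' hv hv'
      exact hα e

open Classical in
private noncomputable instance (A : Tiling τ D) : Fintype (IdxA A) := by
  unfold IdxA
  infer_instance

open Classical in
private noncomputable instance (A : Tiling τ D) : Fintype (IdxB A) := by
  unfold IdxB
  infer_instance

theorem Tiling.cr_finite (A : Tiling τ D) : (CR D).Finite := by
  rw [← phi_range A]
  exact Set.finite_range _

open Classical in
private theorem card_pairs {S X : Type} [Fintype S] [Fintype X] (p : S → X → Prop) :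
    Nat.card {z : S × X // p z.1 z.2} = ∑ s : S, (Finset.univ.filter fun x : X => p s x).card := by
  rw [Nat.card_eq_fintype_card, Fintype.card_subtype, ← Finset.univ_product_univ,
    Finset.card_filter, Finset.sum_product]
  refine Finset.sum_congr rfl fun s _ => ?_
  rw [Finset.card_filter]

theorem Tiling.cr_ncard (A : Tiling τ D) : (CR D).ncard = A.ccount := by
  rw [← phi_range A, ← Nat.card_coe_set_eq, Nat.card_range_of_injective (phi_inj A),
    Nat.card_sum]
  have e1 : Nat.card (IdxA A) = _ := card_pairs (fun (s : τ.S) (x : A.X) => A.nb s x = x ∧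
    Function.minimalPeriod (A.rot s) x * τ.ang s ≠ Real.pi)
  have e2 : Nat.card (IdxB A) = _ := card_pairs (fun (s : τ.S) (x : A.X) =>
    A.nb (τ.prev s) x = x ∧ Function.minimalPeriod (A.rot s) x * τ.ang s ≠ Real.pi)
  rw [e1, e2, ← Finset.sum_add_distrib]
  unfold Tiling.ccount
  refine Finset.sum_congr rfl fun s _ => ?_
  congr!

end Pool.Agent.MP4eed4e
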