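import Mathlib
import Pool.Agent.Lib.MP_4eed4e_an.Base
import Pool.Agent.Lib.MP_4eed4e_an.IsoA

/-!
Polygonal paths with few turning points in a domain bounded by few lines.
-/

namespace Pool.Agent.MP4eed4e

open Set

/-- `k` segments inside `D` joining `a` to `b`. -/
inductive Seg (D : Set ℂ) : ℕ → ℂ → ℂ → Prop
  | single (a b : ℂ) : segment ℝ a b ⊆ D → Seg D 1 a b
  | cons (k : ℕ) (a b c : ℂ) : segment ℝ a b ⊆ D → Seg D k b c → Seg D (k + 1) a c

theorem Seg.trans {D : Set ℂ} {k l : ℕ} {a b c : ℂ} (h : Seg D k a b) (h' : Seg D l b c) :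
    Seg D (k + l) a c := by
  induction h with
  | single a b hab =>
      rw [add_comm]
      exact Seg.cons l a b c hab h'
  | cons k a b c' hab _ ih =>
      have := Seg.cons _ a b c hab (ih h')
      rw [show k + 1 + l = k + l + 1 by ring]
      exact this

private theorem cells_lam_comb (a b z w : ℂ) (s t : ℝ) (h : s + t = 1) :
    lam a b (s • z + t • w) = s * lam a b z + t * lam a b w := by
  have ht : t = 1 - s := by linarith
  subst ht
  simp only [lam, Complex.real_smul, Complex.mul_im, Complex.sub_re, Complex.sub_im,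
    Complex.add_re, Complex.add_im, Complex.conj_re, Complex.conj_im, Complex.mul_re,
    Complex.ofReal_re, Complex.ofReal_im]
  ring

private theorem cells_lam_cont (a b : ℂ) : Continuous (lam a b) := by
  unfold lam
  fun_prop

private theorem cells_dense {a b : ℂ} (h : a ≠ b) : Dense {z | lam a b z ≠ 0} := by
  rw [Metric.dense_iff]
  intro z r hr
  by_cases hz : lam a b z = 0
  · have hn : 0 < ‖b - a‖ := norm_pos_iff.mpr (sub_ne_zero.mpr h.symm)
    refine ⟨z + ((r / (2 * ‖b - a‖) : ℝ) : ℂ) * (Complex.I * (b - a)), ?_, ?_⟩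
    · rw [Metric.mem_ball, dist_eq_norm, add_sub_cancel_left, norm_mul, norm_mul,
        Complex.norm_I, one_mul, Complex.norm_real, Real.norm_eq_abs,
        abs_of_pos (by positivity)]
      rw [div_mul_eq_mul_div, div_lt_iff₀ (by positivity)]
      nlinarith
    · have hl : lam a b (z + ((r / (2 * ‖b - a‖) : ℝ) : ℂ) * (Complex.I * (b - a))) =
          lam a b z + r / (2 * ‖b - a‖) * Complex.normSq (b - a) := by
        simp only [lam, Complex.mul_im, Complex.sub_re, Complex.sub_im,
          Complex.add_re, Complex.add_im, Complex.conj_re, Complex.conj_im, Complex.mul_re,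
          Complex.ofReal_re, Complex.ofReal_im, Complex.I_re, Complex.I_im,
          Complex.normSq_apply]
        ring
      rw [Set.mem_setOf_eq, hl, hz, zero_add]
      have : 0 < Complex.normSq (b - a) := Complex.normSq_pos.mpr (sub_ne_zero.mpr h.symm)
      positivity
  · exact ⟨z, Metric.mem_ball_self hr, hz⟩

private def csg (e : Bool) : ℝ := if e then 1 else -1

private def CC {n : ℕ} (a b : Fin n → ℂ) (e : Fin n → Bool) : Set ℂ :=
  {z | ∀ i, 0 < csg (e i) * lam (a i) (b i) z}

private def KK {n : ℕ} (a b : Fin n → ℂ) (e : Fin n → Bool) : Set ℂ :=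
  {z | ∀ i, 0 ≤ csg (e i) * lam (a i) (b i) z}

private theorem KK_closed {n : ℕ} (a b : Fin n → ℂ) (e : Fin n → Bool) :
    IsClosed (KK a b e) := by
  have : KK a b e = ⋂ i, {z | 0 ≤ csg (e i) * lam (a i) (b i) z} := by
    ext z
    simp [KK]
  rw [this]
  exact isClosed_iInter fun i =>
    isClosed_le continuous_const (continuous_const.mul (cells_lam_cont _ _))

private theorem CC_convex {n : ℕ} (a b : Fin n → ℂ) (e : Fin n → Bool) :
    Convex ℝ (CC a b e) := by
  intro z hz w hw s t hs ht hst i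
  rw [cells_lam_comb _ _ _ _ _ _ hst]
  have h1 := hz i
  have h2 := hw i
  rcases hs.eq_or_lt with h | h
  · have : t = 1 := by linarith
    subst this
    rw [← h]
    simpa using h2
  · have : csg (e i) * (s * lam (a i) (b i) z + t * lam (a i) (b i) w) =
        s * (csg (e i) * lam (a i) (b i) z) + t * (csg (e i) * lam (a i) (b i) w) := by ring
    rw [this]
    have := mul_pos h h1
    have := mul_nonneg ht h2.le
    linarith

private theorem CC_KK_open {n : ℕ} {a b : Fin n → ℂ} {e : Fin n → Bool} {r q : ℂ}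
    (hr : r ∈ CC a b e) (hq : q ∈ KK a b e) : openSegment ℝ r q ⊆ CC a b e := by
  rintro z ⟨s, t, hs, ht, hst, rfl⟩ i
  rw [cells_lam_comb _ _ _ _ _ _ hst]
  have : csg (e i) * (s * lam (a i) (b i) r + t * lam (a i) (b i) q) =
      s * (csg (e i) * lam (a i) (b i) r) + t * (csg (e i) * lam (a i) (b i) q) := by ring
  rw [this]
  have := mul_pos hs (hr i)
  have := mul_nonneg ht.le (hq i)
  linarith

private theorem CC_sub {D : Set ℂ} (hO : IsOpen D) {n : ℕ}
    (a b : Fin n → ℂ)
    (hf : frontier D ⊆ ⋃ i, {z | lam (a i) (b i) z = 0}) (e : Fin n → Bool) {z : ℂ}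
    (hz : z ∈ CC a b e) (hzD : z ∈ D) : CC a b e ⊆ D := by
  have hpre : IsPreconnected (CC a b e) := (CC_convex a b e).isPreconnected
  have hdis : ∀ w ∈ CC a b e, w ∉ frontier D := by
    intro w hw hwf
    obtain ⟨i, hi⟩ := mem_iUnion.mp (hf hwf)
    have h1 := hw i
    rw [Set.mem_setOf_eq] at hi
    rw [hi, mul_zero] at h1
    exact lt_irrefl _ h1
  have key := (isPreconnected_iff_subset_of_disjoint.mp hpre) D (closure D)ᶜ hO
    isClosed_closure.isOpen_compl ?_ ?_
  · rcases key with h | h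
    · exact h
    · exact absurd (subset_closure hzD) (h hz)
  · intro w hw
    by_cases hwD : w ∈ D
    · exact Or.inl hwD
    · refine Or.inr fun hc => hdis w hw ?_
      rw [frontier, hO.interior_eq]
      exact ⟨hc, hwD⟩
  · ext w
    simp only [mem_inter_iff, mem_compl_iff, mem_empty_iff_false, iff_false, not_and, not_not]
    intro _ h2
    exact subset_closure h2

private theorem seg_of_KK {D : Set ℂ} {n : ℕ} {a b : Fin n → ℂ} {e : Fin n → Bool} {r q : ℂ}
    (hC : CC a b e ⊆ D) (hr : r ∈ CC a b e) (hq : q ∈ KK a b e) (hqD : q ∈ D) :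
    segment ℝ r q ⊆ D := by
  rw [← insert_endpoints_openSegment]
  intro z hz
  rcases hz with rfl | rfl | hz
  · exact hC hr
  · exact hqD
  · exact hC (CC_KK_open hr hq hz)

theorem seg_exists {D : Set ℂ} (hO : IsOpen D) (hc : IsConnected D) {n : ℕ}
    (a b : Fin n → ℂ) (hab : ∀ i, a i ≠ b i)
    (hf : frontier D ⊆ ⋃ i, {z | lam (a i) (b i) z = 0}) {x y : ℂ} (hx : x ∈ D) (hy : y ∈ D) :
    ∃ k, k ≤ 2 * 2 ^ n + 4 ∧ Seg D k x y := by
  classical
  have hdense : Dense (⋂ i, {z | lam (a i) (b i) z ≠ 0}) := by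
    apply dense_iInter_of_isOpen
    · intro i
      exact isOpen_ne_fun (cells_lam_cont _ _) continuous_const
    · intro i
      exact cells_dense (hab i)
  let E : Set (Fin n → Bool) := {e | ∃ r ∈ CC a b e, r ∈ D}
  have hE : ∀ e ∈ E, CC a b e ⊆ D := by
    rintro e ⟨r, hr, hrD⟩
    exact CC_sub hO a b hf e hr hrD
  have hcov : ∀ z ∈ D, ∃ e ∈ E, z ∈ KK a b e := by
    intro z hz
    have hU : IsOpen (D ∩ ⋂ i, {w | lam (a i) (b i) z ≠ 0 →
        0 < lam (a i) (b i) z * lam (a i) (b i) w}) := by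
      refine hO.inter (isOpen_iInter_of_finite fun i => ?_)
      by_cases h : lam (a i) (b i) z ≠ 0
      · simp only [h, true_imp_iff, ne_eq, not_false_eq_true]
        exact isOpen_lt continuous_const (continuous_const.mul (cells_lam_cont _ _))
      · simp [h]
    have hzU : z ∈ D ∩ ⋂ i, {w | lam (a i) (b i) z ≠ 0 →
        0 < lam (a i) (b i) z * lam (a i) (b i) w} := by
      refine ⟨hz, mem_iInter.mpr fun i => ?_⟩
      intro h
      exact mul_self_pos.mpr h
    obtain ⟨w, hwU, hw⟩ := hdense.inter_open_nonempty _ hU ⟨z, hzU⟩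
    refine ⟨fun i => decide (0 < lam (a i) (b i) w), ⟨w, ?_, hwU.1⟩, ?_⟩
    · intro i
      have hne : lam (a i) (b i) w ≠ 0 := mem_iInter.mp hw i
      rcases lt_or_gt_of_ne hne with h | h
      · have : ¬ 0 < lam (a i) (b i) w := not_lt.mpr h.le
        simp only [csg, this, decide_false, Bool.false_eq_true, if_false]
        linarith
      · simp only [csg, h, decide_true, if_true]
        linarith
    · intro i
      have hne : lam (a i) (b i) w ≠ 0 := mem_iInter.mp hw i
      have hU' := mem_iInter.mp hwU.2 i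
      by_cases h0 : lam (a i) (b i) z = 0
      · rw [h0, mul_zero]
      · have h1 : 0 < lam (a i) (b i) z * lam (a i) (b i) w := hU' h0
        rcases lt_or_gt_of_ne hne with h | h
        · have h' : ¬ 0 < lam (a i) (b i) w := not_lt.mpr h.le
          have h2 : lam (a i) (b i) z < 0 := by
            by_contra hcon
            have := mul_nonpos_of_nonneg_of_nonpos (not_lt.mp hcon) h.le
            linarith
          simp only [csg, h', decide_false, Bool.false_eq_true, if_false]
          linarith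
        · have h2 : 0 < lam (a i) (b i) z := by
            by_contra hcon
            have := mul_nonpos_of_nonpos_of_nonneg (not_lt.mp hcon) h.le
            linarith
          simp only [csg, h, decide_true, if_true]
          linarith
  choose! rr hrr using fun e (he : e ∈ E) => he
  let G : SimpleGraph (Fin n → Bool) :=
    { Adj := fun e e' => e ≠ e' ∧ e ∈ E ∧ e' ∈ E ∧ ∃ q ∈ D, q ∈ KK a b e ∧ q ∈ KK a b e'
      symm := ⟨by
        rintro e e' ⟨h1, h2, h3, q, h4, h5, h6⟩
        exact ⟨h1.symm, h3, h2, q, h4, h6, h5⟩⟩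
      loopless := ⟨fun e h => h.1 rfl⟩ }
  obtain ⟨ex, hex, hxK⟩ := hcov x hx
  -- the point `y` is in the closed cell of a reachable sign pattern
  have hy' : ∃ ey ∈ E, G.Reachable ex ey ∧ y ∈ KK a b ey := by
    by_contra hcon
    push_neg at hcon
    let t : Set ℂ := ⋃ e ∈ {e | e ∈ E ∧ G.Reachable ex e}, KK a b e
    let t' : Set ℂ := ⋃ e ∈ {e | e ∈ E ∧ ¬ G.Reachable ex e}, KK a b e
    have ht : IsClosed t := (Set.toFinite _).isClosed_biUnion fun e _ => KK_closed a b e
    have ht' : IsClosed t' := (Set.toFinite _).isClosed_biUnion fun e _ => KK_closed a b e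
    have hDt : D ⊆ t ∪ t' := by
      intro z hz
      obtain ⟨e, he, hzK⟩ := hcov z hz
      by_cases hr : G.Reachable ex e
      · exact Or.inl (mem_iUnion₂.mpr ⟨e, ⟨he, hr⟩, hzK⟩)
      · exact Or.inr (mem_iUnion₂.mpr ⟨e, ⟨he, hr⟩, hzK⟩)
    have h1 : (D ∩ t).Nonempty :=
      ⟨x, hx, mem_iUnion₂.mpr ⟨ex, ⟨hex, SimpleGraph.Reachable.refl _⟩, hxK⟩⟩
    have h2 : (D ∩ t').Nonempty := by
      refine ⟨y, hy, ?_⟩
      rcases hDt hy with h | h
      · obtain ⟨e, ⟨he, hr⟩, hyK⟩ := mem_iUnion₂.mp h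
        exact absurd hyK (hcon e he hr)
      · exact h
    obtain ⟨q, hqD, hqt, hqt'⟩ := isPreconnected_closed_iff.mp hc.isPreconnected t t' ht ht' hDt
      h1 h2
    obtain ⟨e, ⟨he, hr⟩, hqK⟩ := mem_iUnion₂.mp hqt
    obtain ⟨e', ⟨he', hr'⟩, hqK'⟩ := mem_iUnion₂.mp hqt'
    have hne : e ≠ e' := by
      rintro rfl
      exact hr' hr
    have hadj : G.Adj e e' := ⟨hne, he, he', q, hqD, hqK, hqK'⟩
    exact hr' (hr.trans hadj.reachable)
  obtain ⟨ey, hey, hreach, hyK⟩ := hy'
  have hwalk : ∀ {u v : Fin n → Bool} (p : G.Walk u v), u ∈ E → v ∈ E → ∀ z ∈ D, z ∈ KK a b v →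
      Seg D (2 * p.length + 1) (rr u) z := by
    intro u v p
    induction p with
    | nil =>
        intro hu _ z hz hzK
        exact Seg.single _ _ (seg_of_KK (hE _ hu) (hrr _ hu).1 hzK hz)
    | @cons u v' w hadj p ih =>
        intro hu hv z hz hzK
        obtain ⟨h1, h2, h3, q, h4, h5, h6⟩ := hadj
        have s1 := seg_of_KK (hE _ h2) (hrr _ h2).1 h5 h4
        have s2 := seg_of_KK (hE _ h3) (hrr _ h3).1 h6 h4
        have := ih h3 hv z hz hzK
        have h7 := Seg.cons _ (rr u) q z s1 (Seg.cons _ q (rr v') z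
          (by rw [segment_symm]; exact s2) this)
        rw [SimpleGraph.Walk.length_cons]
        exact h7
  obtain ⟨p⟩ := hreach
  have hp := p.toPath.2.length_lt
  rw [Fintype.card_fun, Fintype.card_bool, Fintype.card_fin] at hp
  have h1 := hwalk p.toPath.1 hex hey y hy hyK
  have h2 := Seg.cons _ x (rr ex) y
    (by rw [segment_symm]; exact seg_of_KK (hE _ hex) (hrr _ hex).1 hxK hx) h1
  refine ⟨_, ?_, h2⟩
  omega

end Pool.Agent.MP4eed4e
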