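import Mathlib

/-!
The diameter of a plane domain is at most the length of its boundary.
-/

namespace Pool.Agent.MP4eed4e

open Set MeasureTheory

/-- every value of the coordinate in a direction is taken on the boundary -/
private theorem diam_cover {D : Set ℂ} (hb : Bornology.IsBounded D)
    {a v : ℂ} (hv : ‖v‖ = 1) {z : ℂ} (hz : z ∈ closure D) :
    (starRingEnd ℂ v * (z - a)).re ∈ (fun w => (starRingEnd ℂ v * (w - a)).re) '' frontier D := by
  set γ : ℝ → ℂ := fun s => z + s * (Complex.I * v) with hγ
  have hγc : Continuous γ := by fun_prop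
  have hγπ : ∀ s, (starRingEnd ℂ v * (γ s - a)).re = (starRingEnd ℂ v * (z - a)).re := by
    intro s
    simp only [hγ, Complex.mul_re, Complex.mul_im, Complex.sub_re, Complex.sub_im, Complex.add_re,
      Complex.add_im, Complex.conj_re, Complex.conj_im, Complex.ofReal_re, Complex.ofReal_im,
      Complex.I_re, Complex.I_im]
    ring
  have hγn : ∀ s, ‖γ s - z‖ = |s| := by
    intro s
    simp only [hγ, add_sub_cancel_left, norm_mul, Complex.norm_real, Complex.norm_I, hv,
      Real.norm_eq_abs, mul_one]
  by_contra hcon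
  have hno : ∀ s, γ s ∉ frontier D := fun s hs => hcon ⟨γ s, hs, hγπ s⟩
  have hno' : ∀ s, γ s ∉ frontier (closure D) := fun s hs => hno s (frontier_closure_subset hs)
  have hpre : IsPreconnected (range γ) := (isConnected_range hγc).isPreconnected
  have hsub : range γ ⊆ interior (closure D) := by
    have hd : Disjoint (interior (closure D)) (closure D)ᶜ :=
      Set.disjoint_left.2 fun w h1 h2 => h2 (interior_subset h1)
    have hu : range γ ⊆ interior (closure D) ∪ (closure D)ᶜ := by
      rintro _ ⟨s, rfl⟩
      by_cases h : γ s ∈ closure D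
      · left
        by_contra h1
        apply hno' s
        rw [isClosed_closure.frontier_eq]
        exact ⟨h, h1⟩
      · exact Or.inr h
    have hn : (range γ ∩ interior (closure D)).Nonempty := by
      refine ⟨γ 0, ⟨0, rfl⟩, ?_⟩
      have h0 : γ 0 = z := by simp [hγ]
      by_contra h1
      apply hno' 0
      rw [isClosed_closure.frontier_eq]
      refine ⟨?_, h1⟩
      rw [h0]
      exact hz
    exact IsPreconnected.subset_left_of_subset_union isOpen_interior
      isClosed_closure.isOpen_compl hd hu hn hpre
  obtain ⟨R, hR⟩ := hb.closure.subset_closedBall z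
  have h1 : γ (|R| + 1) ∈ Metric.closedBall z R :=
    hR (interior_subset (hsub ⟨|R| + 1, rfl⟩))
  rw [Metric.mem_closedBall, dist_eq_norm, hγn] at h1
  have h2 : (|R| + 1) ≤ |(|R| + 1)| := le_abs_self _
  have h3 := le_abs_self R
  linarith

theorem dist_le_length {D : Set ℂ} (hc : IsConnected D) (hb : Bornology.IsBounded D)
    {a b : ℂ} (ha : a ∈ closure D) (hb' : b ∈ closure D) :
    edist a b ≤ Measure.hausdorffMeasure 1 (frontier D) := by
  rcases eq_or_ne a b with rfl | hab
  · simp
  have hl : 0 < ‖b - a‖ := norm_pos_iff.2 (sub_ne_zero.2 hab.symm)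
  set l := ‖b - a‖ with hldef
  set v : ℂ := (b - a) / l with hvdef
  have hlC : (l : ℂ) ≠ 0 := by exact_mod_cast hl.ne'
  have hv : ‖v‖ = 1 := by
    rw [hvdef, norm_div, Complex.norm_real, Real.norm_eq_abs, abs_of_pos hl, ← hldef,
      div_self hl.ne']
  set π : ℂ → ℝ := fun w => (starRingEnd ℂ v * (w - a)).re with hπ
  have hLip : LipschitzWith 1 π := by
    apply LipschitzWith.of_dist_le_mul
    intro x y
    rw [Real.dist_eq, dist_eq_norm, NNReal.coe_one, one_mul]
    have e : π x - π y = (starRingEnd ℂ v * (x - y)).re := by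
      rw [hπ]
      simp only
      rw [← Complex.sub_re]
      congr 1
      ring
    rw [e]
    calc |(starRingEnd ℂ v * (x - y)).re| ≤ ‖starRingEnd ℂ v * (x - y)‖ := Complex.abs_re_le_norm _
      _ = ‖x - y‖ := by rw [norm_mul, RCLike.norm_conj, hv, one_mul]
  have hπa : π a = 0 := by simp [hπ]
  have hπb : π b = l := by
    have h1 : (b - a : ℂ) = l * v := by
      rw [hvdef]
      field_simp
    rw [hπ]
    simp only
    rw [h1]
    have h2 : starRingEnd ℂ v * (l * v) = ((l : ℝ) : ℂ) := by
      rw [mul_left_comm, mul_comm (starRingEnd ℂ v) v, Complex.mul_conj, Complex.normSq_eq_norm_sq,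
        hv]
      simp
    rw [h2, Complex.ofReal_re]
  have hcov : Icc 0 l ⊆ π '' frontier D := by
    intro t ht
    have hpc : IsPreconnected (closure D) := hc.isPreconnected.closure
    rw [← hπa, ← hπb] at ht
    obtain ⟨z, hz, hzt⟩ := hpc.intermediate_value ha hb' hLip.continuous.continuousOn ht
    rw [← hzt]
    exact diam_cover hb hv hz
  have h1 := hLip.hausdorffMeasure_image_le (zero_le_one (α := ℝ)) (frontier D)
  have h2 := measure_mono (μ := Measure.hausdorffMeasure (X := ℝ) 1) hcov
  rw [hausdorffMeasure_real, Real.volume_Icc, sub_zero] at h2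
  rw [hausdorffMeasure_real] at h1
  have h3 : edist a b = ENNReal.ofReal l := by
    rw [edist_dist, dist_comm, dist_eq_norm]
  rw [h3]
  refine h2.trans (h1.trans ?_)
  simp

end Pool.Agent.MP4eed4e
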