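import Mathlib
import Pool.Agent.Lib.MP_4eed4e_an.Base
import Pool.Agent.Lib.MP_4eed4e_an.IsoA

/-!
Finitely many regular open sets have their boundary in given lines.
-/

namespace Pool.Agent.MP4eed4e

open Set

private theorem fincells_lam_comb (a b z w : ℂ) (s t : ℝ) (h : s + t = 1) :
    lam a b (s • z + t • w) = s * lam a b z + t * lam a b w := by
  have ht : t = 1 - s := by linarith
  subst ht
  simp only [lam, Complex.real_smul, Complex.mul_im, Complex.sub_re, Complex.sub_im,
    Complex.add_re, Complex.add_im, Complex.conj_re, Complex.conj_im, Complex.mul_re,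
    Complex.ofReal_re, Complex.ofReal_im]
  ring

private theorem fincells_lam_cont (a b : ℂ) : Continuous (lam a b) := by
  unfold lam
  fun_prop

private theorem fincells_dense {a b : ℂ} (h : a ≠ b) : Dense {z | lam a b z ≠ 0} := by
  rw [Metric.dense_iff]
  intro z r hr
  by_cases hz : lam a b z = 0
  · have hn : 0 < ‖b - a‖ := norm_pos_iff.mpr (sub_ne_zero.mpr h.symm)
    refine ⟨z + ((r / (2 * ‖b - a‖) : ℝ) : ℂ) * (Complex.I * (b - a)), ?_, ?_⟩
    · rw [Metric.mem_ball, dist_eq_norm, add_sub_cancel_left, norm_mul, norm_mul,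
        Complex.norm_I, one_mul, Complex.norm_real, Real.norm_eq_abs,
        abs_of_pos (by positivity)]
      rw [div_mul_eq_mul_div, div_lt_iff₀ (by positivity)]
      nlinarith
    · have hl : lam a b (z + ((r / (2 * ‖b - a‖) : ℝ) : ℂ) * (Complex.I * (b - a))) =
          lam a b z + r / (2 * ‖b - a‖) * Complex.normSq (b - a) := by
        simp only [lam, Complex.mul_im, Complex.sub_re, Complex.sub_im,
          Complex.add_re, Complex.add_im, Complex.conj_re, Complex.conj_im, Complex.mul_re,
          Complex.ofReal_re, Complex.ofReal_im, Complex.I_re, Complex.I_im,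
          Complex.normSq_apply]
        ring
      change lam a b _ ≠ 0
      rw [hl, hz, zero_add]
      have : 0 < Complex.normSq (b - a) := Complex.normSq_pos.mpr (sub_ne_zero.mpr h.symm)
      positivity
  · exact ⟨z, Metric.mem_ball_self hr, hz⟩

private def fsg (e : Bool) : ℝ := if e then 1 else -1

private def FC {ι : Type} (a b : ι → ℂ) (e : ι → Bool) : Set ℂ :=
  {z | ∀ i, 0 < fsg (e i) * lam (a i) (b i) z}

private theorem FC_convex {ι : Type} (a b : ι → ℂ) (e : ι → Bool) :
    Convex ℝ (FC a b e) := by
  intro z hz w hw s t hs ht hst i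
  rw [fincells_lam_comb _ _ _ _ _ _ hst]
  have h1 := hz i
  have h2 := hw i
  rcases hs.eq_or_lt with h | h
  · have : t = 1 := by linarith
    subst this
    rw [← h]
    simpa using h2
  · have : fsg (e i) * (s * lam (a i) (b i) z + t * lam (a i) (b i) w) =
        s * (fsg (e i) * lam (a i) (b i) z) + t * (fsg (e i) * lam (a i) (b i) w) := by ring
    rw [this]
    have := mul_pos h h1
    have := mul_nonneg ht h2.le
    linarith

private theorem FC_sub {D : Set ℂ} (hO : IsOpen D) {ι : Type}
    (a b : ι → ℂ)
    (hf : ∀ z ∈ frontier D, ∃ i, lam (a i) (b i) z = 0) (e : ι → Bool) {z : ℂ}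
    (hz : z ∈ FC a b e) (hzD : z ∈ D) : FC a b e ⊆ D := by
  have hpre : IsPreconnected (FC a b e) := (FC_convex a b e).isPreconnected
  have hdis : ∀ w ∈ FC a b e, w ∉ frontier D := by
    intro w hw hwf
    obtain ⟨i, hi⟩ := hf w hwf
    have h1 := hw i
    rw [hi, mul_zero] at h1
    exact lt_irrefl _ h1
  have key := (isPreconnected_iff_subset_of_disjoint.mp hpre) D (closure D)ᶜ hO
    isClosed_closure.isOpen_compl ?_ ?_
  · rcases key with h | h
    · exact h
    · exact absurd (subset_closure hzD) (h hz)
  · intro w hw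
    by_cases hwD : w ∈ D
    · exact Or.inl hwD
    · refine Or.inr fun hc => hdis w hw ?_
      rw [frontier, hO.interior_eq]
      exact ⟨hc, hwD⟩
  · ext w
    simp only [mem_inter_iff, mem_compl_iff, mem_empty_iff_false, iff_false, not_and, not_not]
    intro _ h2
    exact subset_closure h2

/-- Finitely many regular open sets have their boundary in the axes of a finite set. -/
theorem cells_finite {R : Set Iso} (hR : R.Finite)
    (hr : ∀ S ∈ R, ∃ a b, ∃ h : a ≠ b, S = reflI a b h) :
    {D : Set ℂ | interior (closure D) = D ∧ ∀ z ∈ frontier D, ∃ S ∈ R, S z = z}.Finite := by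
  classical
  have : Finite R := hR
  choose! a b h hS using hr
  let a' : R → ℂ := fun S => a S.1
  let b' : R → ℂ := fun S => b S.1
  have hab : ∀ S : R, a' S ≠ b' S := fun S => h S.1 S.2
  have hfix : ∀ (S : R) (z : ℂ), S.1 z = z → lam (a' S) (b' S) z = 0 := by
    intro S z hz
    apply (refl_eq_self_iff (hab S) z).mp
    have h1 : S.1 z = refl (a' S) (b' S) z := by
      conv_lhs => rw [hS S.1 S.2]
      rfl
    rw [← h1, hz]
  have hdense : Dense (⋂ S : R, {z | lam (a' S) (b' S) z ≠ 0}) := by
    apply dense_iInter_of_isOpen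
    · intro i
      exact isOpen_ne_fun (fincells_lam_cont _ _) continuous_const
    · intro i
      exact fincells_dense (hab i)
  apply (Set.finite_range (fun E : Set (R → Bool) =>
    interior (closure (⋃ e ∈ E, FC a' b' e)))).subset
  rintro D ⟨hreg, hfr⟩
  have hO : IsOpen D := by
    rw [← hreg]
    exact isOpen_interior
  have hf : ∀ z ∈ frontier D, ∃ i : R, lam (a' i) (b' i) z = 0 := by
    intro z hz
    obtain ⟨S, hSR, hSz⟩ := hfr z hz
    exact ⟨⟨S, hSR⟩, hfix _ _ hSz⟩
  refine ⟨{e | FC a' b' e ⊆ D}, ?_⟩
  have hcl : closure (⋃ e ∈ {e | FC a' b' e ⊆ D}, FC a' b' e) = closure D := by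
    apply subset_antisymm
    · apply closure_mono
      exact iUnion₂_subset fun e he => he
    · apply closure_minimal _ isClosed_closure
      refine (hdense.open_subset_closure_inter hO).trans (closure_mono ?_)
      rintro w ⟨hwD, hw⟩
      have hwC : w ∈ FC a' b' (fun i => decide (0 < lam (a' i) (b' i) w)) := by
        intro i
        have hne : lam (a' i) (b' i) w ≠ 0 := mem_iInter.mp hw i
        rcases lt_or_gt_of_ne hne with h | h
        · have : ¬ 0 < lam (a' i) (b' i) w := not_lt.mpr h.le
          simp only [fsg, this, decide_false, Bool.false_eq_true, if_false]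
          linarith
        · simp only [fsg, h, decide_true, if_true]
          linarith
      exact mem_iUnion₂.mpr ⟨_, FC_sub hO a' b' hf _ hwC hwD, hwC⟩
  change interior (closure (⋃ e ∈ {e | FC a' b' e ⊆ D}, FC a' b' e)) = D
  rw [hcl, hreg]

end Pool.Agent.MP4eed4e
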