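import Mathlib
import Pool.Agent.Lib.MP_4eed4e_an.Base
import Pool.Agent.Lib.MP_4eed4e_an.IsoA

/-!
Finitely many reflections displace two given points by given distances.
-/

namespace Pool.Agent.MP4eed4e

open Set

/-- A reflection in terms of a unit normal vector of the axis. -/
private theorem FinRefl_form {a b : ℂ} (h : a ≠ b) : ∃ (n : ℂ) (κ : ℝ), ‖n‖ = 1 ∧
    ∀ z, refl a b z = -n ^ 2 * (starRingEnd ℂ) z + 2 * κ * n := by
  have h1 : b - a ≠ 0 := sub_ne_zero.mpr (Ne.symm h)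
  have hr : ‖b - a‖ ≠ 0 := norm_ne_zero_iff.2 h1
  set d : ℂ := (b - a) / ‖b - a‖ with hd
  have hd1 : ‖d‖ = 1 := by
    rw [hd, norm_div, Complex.norm_real, norm_norm, div_self hr]
  have hdd : d * (starRingEnd ℂ) d = 1 := by
    rw [Complex.mul_conj, Complex.normSq_eq_norm_sq, hd1]
    norm_num
  have hrc : ((‖b - a‖ : ℝ) : ℂ) ≠ 0 := by exact_mod_cast hr
  have hba : b - a = ‖b - a‖ * d := by
    rw [hd]
    field_simp
  have hd0 : (starRingEnd ℂ) d ≠ 0 := right_ne_zero_of_mul_eq_one hdd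
  have hq : (b - a) / (starRingEnd ℂ) (b - a) = d ^ 2 := by
    rw [hba, map_mul, Complex.conj_ofReal, mul_div_mul_left _ _ hrc, div_eq_iff hd0]
    linear_combination -d * hdd
  refine ⟨Complex.I * d, ((starRingEnd ℂ) (Complex.I * d) * a).re, ?_, fun z => ?_⟩
  · rw [norm_mul, Complex.norm_I, hd1, one_mul]
  · have h2 : (2 : ℂ) * (((starRingEnd ℂ) (Complex.I * d) * a).re : ℂ) =
        (starRingEnd ℂ) (Complex.I * d) * a + Complex.I * d * (starRingEnd ℂ) a := by
      have h3 := Complex.add_conj ((starRingEnd ℂ) (Complex.I * d) * a)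
      have h4 : (starRingEnd ℂ) ((starRingEnd ℂ) (Complex.I * d) * a) =
          Complex.I * d * (starRingEnd ℂ) a := by
        rw [map_mul (starRingEnd ℂ) ((starRingEnd ℂ) (Complex.I * d)) a, Complex.conj_conj]
      rw [h4] at h3
      rw [h3]
      push_cast
      ring
    unfold refl
    rw [h2, hq]
    simp only [map_mul, Complex.conj_I, map_sub]
    linear_combination (a * d * (starRingEnd ℂ) d - d ^ 2 * (starRingEnd ℂ) a +
      d ^ 2 * (starRingEnd ℂ) z) * Complex.I_sq - a * hdd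

private theorem FinRefl_abs {x y : ℝ} (h : 2 * |x| = y) : x = y / 2 ∨ x = -(y / 2) := by
  rcases abs_choice x with h1 | h1 <;> rw [h1] at h
  · exact Or.inl (by linarith)
  · exact Or.inr (by linarith)

/-- Finitely many reflections displace two given different points by given distances. -/
theorem refl_two_points (Λ : Set ℝ) (hΛ : Λ.Finite) (δ : ℝ) (hδ : 0 < δ) :
    {S : Iso | (∃ a b, ∃ h : a ≠ b, S = reflI a b h) ∧ dist (0 : ℂ) (S 0) ∈ Λ ∧
      dist (δ : ℂ) (S δ) ∈ Λ}.Finite := by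
  classical
  set K : Set ℝ := (fun x => x / 2) '' Λ ∪ (fun x => -(x / 2)) '' Λ with hK
  have hKf : K.Finite := (hΛ.image _).union (hΛ.image _)
  set A : Set ℝ := Set.image2 (fun κ x => (κ + x) / δ) K K with hA
  have hAf : A.Finite := hKf.image2 _ hKf
  set B : Set ℝ := (fun p => Real.sqrt (1 - p ^ 2)) '' A ∪ (fun p => -Real.sqrt (1 - p ^ 2)) '' A
    with hB
  have hBf : B.Finite := (hAf.image _).union (hAf.image _)
  set N : Set ℂ := Set.image2 (fun p q => (⟨p, q⟩ : ℂ)) A B with hN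
  have hNf : N.Finite := hAf.image2 _ hBf
  set F : ℂ × ℝ → Iso := fun x =>
    if h : ∃ S : Iso, ∀ z, S z = -x.1 ^ 2 * (starRingEnd ℂ) z + 2 * x.2 * x.1 then h.choose
    else 1 with hF
  refine ((hNf.prod hKf).image F).subset ?_
  rintro S ⟨⟨a, b, hab, rfl⟩, h0, h1⟩
  obtain ⟨n, κ, hn, hS⟩ := FinRefl_form hab
  have hnn : n * (starRingEnd ℂ) n = 1 := by
    rw [Complex.mul_conj, Complex.normSq_eq_norm_sq, hn]
    norm_num
  have hsq : n.re ^ 2 + n.im ^ 2 = 1 := by
    have h2 := Complex.normSq_apply n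
    rw [Complex.normSq_eq_norm_sq, hn] at h2
    linarith [h2]
  -- the distance of the axis from `0`
  have hκ : κ ∈ K := by
    have h2 : dist (0 : ℂ) (reflI a b hab 0) = 2 * |κ| := by
      rw [dist_eq_norm, reflI_apply, hS, map_zero, mul_zero, zero_add, zero_sub, norm_neg,
        norm_mul, hn, mul_one, norm_mul, Complex.norm_real, Real.norm_eq_abs]
      norm_num
    rcases FinRefl_abs h2.symm with h3 | h3
    · exact Or.inl ⟨_, h0, h3.symm⟩
    · exact Or.inr ⟨_, h0, h3.symm⟩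
  have hre : δ * n.re - κ ∈ K := by
    have h2 : dist (δ : ℂ) (reflI a b hab δ) = 2 * |δ * n.re - κ| := by
      have h3 : (δ : ℂ) - (-n ^ 2 * (starRingEnd ℂ) (δ : ℂ) + 2 * κ * n) =
          n * ((2 * (δ * n.re - κ) : ℝ) : ℂ) := by
        have h4 : (2 * n.re : ℂ) = n + (starRingEnd ℂ) n := by
          rw [Complex.add_conj]
          push_cast
          ring
        rw [Complex.conj_ofReal]
        push_cast
        linear_combination (-(δ : ℂ)) * hnn - (δ : ℂ) * n * h4
      rw [dist_eq_norm, reflI_apply, hS, h3, norm_mul, hn, one_mul, Complex.norm_real,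
        Real.norm_eq_abs, abs_mul]
      norm_num
    rcases FinRefl_abs h2.symm with h3 | h3
    · exact Or.inl ⟨_, h1, h3.symm⟩
    · exact Or.inr ⟨_, h1, h3.symm⟩
  have hreA : n.re ∈ A := by
    refine ⟨κ, hκ, δ * n.re - κ, hre, ?_⟩
    change (κ + (δ * n.re - κ)) / δ = n.re
    field_simp
    ring
  have himB : n.im ∈ B := by
    have h2 : |n.im| = Real.sqrt (1 - n.re ^ 2) := by
      rw [← Real.sqrt_sq_eq_abs]
      congr 1
      linarith
    rcases abs_choice n.im with h3 | h3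
    · exact Or.inl ⟨n.re, hreA, by
        change Real.sqrt (1 - n.re ^ 2) = n.im
        rw [← h2, h3]⟩
    · exact Or.inr ⟨n.re, hreA, by
        change -Real.sqrt (1 - n.re ^ 2) = n.im
        rw [← h2, h3, neg_neg]⟩
  refine ⟨(n, κ), ⟨⟨n.re, hreA, n.im, himB, rfl⟩, hκ⟩, ?_⟩
  have hex : ∃ S : Iso, ∀ z, S z = -n ^ 2 * (starRingEnd ℂ) z + 2 * κ * n :=
    ⟨reflI a b hab, fun z => hS z⟩
  have h2 : F (n, κ) = hex.choose := dif_pos hex
  rw [h2]
  ext z
  rw [hex.choose_spec z, reflI_apply, hS z]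

end Pool.Agent.MP4eed4e
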