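import Mathlib
import Pool.Agent.Lib.MP_4eed4e_an.FinRefl
import Pool.Agent.Lib.MP_4eed4e_an.FinCells

/-!
Finitely many bounded domains with side lines in controlled position.
-/

namespace Pool.Agent.MP4eed4e

open Set ComplexConjugate

private theorem finrec_lam_comb (a b z w : ℂ) (s t : ℝ) (h : s + t = 1) :
    lam a b (s • z + t • w) = s * lam a b z + t * lam a b w := by
  have ht : t = 1 - s := by linarith
  subst ht
  simp only [lam, Complex.real_smul, Complex.mul_im, Complex.sub_re, Complex.sub_im,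
    Complex.add_re, Complex.add_im, Complex.conj_re, Complex.conj_im, Complex.mul_re,
    Complex.ofReal_re, Complex.ofReal_im]
  ring

private theorem finrec_lam_cont (a b : ℂ) : Continuous (lam a b) := by
  unfold lam
  fun_prop

private theorem finrec_dense {a b : ℂ} (h : a ≠ b) : Dense {z | lam a b z ≠ 0} := by
  rw [Metric.dense_iff]
  intro z r hr
  by_cases hz : lam a b z = 0
  · have hn : 0 < ‖b - a‖ := norm_pos_iff.mpr (sub_ne_zero.mpr h.symm)
    refine ⟨z + ((r / (2 * ‖b - a‖) : ℝ) : ℂ) * (Complex.I * (b - a)), ?_, ?_⟩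
    · rw [Metric.mem_ball, dist_eq_norm, add_sub_cancel_left, norm_mul, norm_mul,
        Complex.norm_I, one_mul, Complex.norm_real, Real.norm_eq_abs,
        abs_of_pos (by positivity)]
      rw [div_mul_eq_mul_div, div_lt_iff₀ (by positivity)]
      nlinarith
    · have hl : lam a b (z + ((r / (2 * ‖b - a‖) : ℝ) : ℂ) * (Complex.I * (b - a))) =
          lam a b z + r / (2 * ‖b - a‖) * Complex.normSq (b - a) := by
        simp only [lam, Complex.mul_im, Complex.sub_re, Complex.sub_im,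
          Complex.add_re, Complex.add_im, Complex.conj_re, Complex.conj_im, Complex.mul_re,
          Complex.ofReal_re, Complex.ofReal_im, Complex.I_re, Complex.I_im,
          Complex.normSq_apply]
        ring
      change lam a b _ ≠ 0
      rw [hl, hz, zero_add]
      have : 0 < Complex.normSq (b - a) := Complex.normSq_pos.mpr (sub_ne_zero.mpr h.symm)
      positivity
  · exact ⟨z, Metric.mem_ball_self hr, hz⟩

private theorem finrec_sub {D T : Set ℂ} (hO : IsOpen D) (hT : IsPreconnected T)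
    (hdis : ∀ w ∈ T, w ∉ frontier D) {z : ℂ} (hz : z ∈ T) (hzD : z ∈ D) : T ⊆ D := by
  have key := (isPreconnected_iff_subset_of_disjoint.mp hT) D (closure D)ᶜ hO
    isClosed_closure.isOpen_compl ?_ ?_
  · rcases key with h | h
    · exact h
    · exact absurd (subset_closure hzD) (h hz)
  · intro w hw
    by_cases hwD : w ∈ D
    · exact Or.inl hwD
    · refine Or.inr fun hc => hdis w hw ?_
      rw [frontier, hO.interior_eq]
      exact ⟨hc, hwD⟩
  · ext w
    simp only [mem_inter_iff, mem_compl_iff, mem_empty_iff_false, iff_false, not_and, not_not]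
    intro _ h2
    exact subset_closure h2

/-- Some reflection moves `p`. -/
private theorem finrec_moves {D : Set ℂ} {R : Set Iso} {p : ℂ}
    (hreg : interior (closure D) = D) (hb : Bornology.IsBounded D) (hne : D.Nonempty)
    (hr : ∀ S ∈ R, ∃ a b, ∃ h : a ≠ b, S = reflI a b h) (hR : R.Finite)
    (hf : ∀ z ∈ frontier D, ∃ S ∈ R, S z = z) : ∃ S ∈ R, S p ≠ p := by
  by_contra hcon
  have hcon' : ∀ S ∈ R, S p = p := by
    intro S hS
    by_contra h
    exact hcon ⟨S, hS, h⟩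
  have hO : IsOpen D := by
    rw [← hreg]
    exact isOpen_interior
  have : Finite R := hR
  choose! a b h hS using hr
  let a' : R → ℂ := fun S => a S.1
  let b' : R → ℂ := fun S => b S.1
  have hab : ∀ S : R, a' S ≠ b' S := fun S => h S.1 S.2
  have hfix : ∀ (S : R) (z : ℂ), S.1 z = z → lam (a' S) (b' S) z = 0 := by
    intro S z hz
    apply (refl_eq_self_iff (hab S) z).mp
    have h1 : S.1 z = refl (a' S) (b' S) z := by
      conv_lhs => rw [hS S.1 S.2]
      rfl
    rw [← h1, hz]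
  have hdense : Dense (⋂ S : R, {z | lam (a' S) (b' S) z ≠ 0}) := by
    apply dense_iInter_of_isOpen
    · intro i
      exact isOpen_ne_fun (finrec_lam_cont _ _) continuous_const
    · intro i
      exact finrec_dense (hab i)
  have hU : (D ∩ {p}ᶜ).Nonempty := by
    have := (dense_compl_singleton p).inter_open_nonempty D hO hne
    exact this
  obtain ⟨z, ⟨hzD, hzp⟩, hz⟩ := hdense.inter_open_nonempty (D ∩ {p}ᶜ)
    (hO.inter isOpen_compl_singleton) hU
  have hzp' : z ≠ p := hzp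
  let T : Set ℂ := (fun t : ℝ => p + (t : ℂ) * (z - p)) '' Set.Ici 1
  have hT : IsPreconnected T := by
    apply isPreconnected_Ici.image
    fun_prop
  have hdis : ∀ w ∈ T, w ∉ frontier D := by
    rintro w ⟨t, ht, rfl⟩ hw
    obtain ⟨S, hSR, hSw⟩ := hf _ hw
    have h1 := hfix ⟨S, hSR⟩ _ hSw
    have h2 := hfix ⟨S, hSR⟩ p (hcon' S hSR)
    have h3 : lam (a' ⟨S, hSR⟩) (b' ⟨S, hSR⟩) z ≠ 0 := mem_iInter.mp hz ⟨S, hSR⟩
    have h4 := finrec_lam_comb (a' ⟨S, hSR⟩) (b' ⟨S, hSR⟩) p z (1 - t) t (by ring)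
    have h5 : ((1 - t : ℝ) • p + t • z : ℂ) = p + (t : ℂ) * (z - p) := by
      simp only [Complex.real_smul]
      push_cast
      ring
    rw [h5, h2] at h4
    dsimp only at h1
    rw [h1] at h4
    have ht' : (1 : ℝ) ≤ t := ht
    have h6 : t * lam (a' ⟨S, hSR⟩) (b' ⟨S, hSR⟩) z = 0 := by linarith
    rcases mul_eq_zero.mp h6 with h7 | h7
    · linarith
    · exact h3 h7
  have hzT : z ∈ T := ⟨1, Set.mem_Ici.mpr le_rfl, by simp⟩
  have hTD : T ⊆ D := finrec_sub hO hT hdis hzT hzD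
  obtain ⟨M, hM⟩ := (Metric.isBounded_iff_subset_ball p).mp hb
  have hn : 0 < ‖z - p‖ := norm_pos_iff.mpr (sub_ne_zero.mpr hzp')
  have hmem : p + ((max 1 (M / ‖z - p‖) : ℝ) : ℂ) * (z - p) ∈ Metric.ball p M :=
    hM (hTD ⟨max 1 (M / ‖z - p‖), Set.mem_Ici.mpr (le_max_left _ _), rfl⟩)
  rw [Metric.mem_ball, dist_eq_norm, add_sub_cancel_left, norm_mul, Complex.norm_real,
    Real.norm_eq_abs, abs_of_pos (lt_of_lt_of_le one_pos (le_max_left _ _))] at hmem
  have h8 : M / ‖z - p‖ * ‖z - p‖ ≤ max 1 (M / ‖z - p‖) * ‖z - p‖ :=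
    mul_le_mul_of_nonneg_right (le_max_right _ _) hn.le
  rw [div_mul_cancel₀ _ hn.ne'] at h8
  linarith

/-- A motion carrying a pair of points to the normalized pair. -/
private theorem finrec_norm (p q : ℂ) (hpq : p ≠ q) :
    ∃ ψ : Iso, ψ p = 0 ∧ ψ q = ((dist p q : ℝ) : ℂ) := by
  have hn : 0 < ‖q - p‖ := norm_pos_iff.mpr (sub_ne_zero.mpr hpq.symm)
  set v : ℂ := (q - p) / (‖q - p‖ : ℂ) with hv
  have hnv : ‖v‖ = 1 := by
    rw [hv, norm_div, Complex.norm_real, norm_norm, div_self hn.ne']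
  have hvv : conj v * v = 1 := by
    rw [mul_comm, Complex.mul_conj, Complex.normSq_eq_norm_sq, hnv]
    norm_num
  have hvv' : v * conj v = 1 := by rw [mul_comm]; exact hvv
  refine ⟨{ toFun := fun z => (z - p) * conj v
            invFun := fun w => w * v + p
            left_inv := ?_
            right_inv := ?_
            isometry_toFun := ?_ }, ?_, ?_⟩
  · intro z
    simp only [mul_assoc, hvv]
    ring
  · intro w
    simp only [add_sub_cancel_right, mul_assoc, hvv', mul_one]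
  · apply Isometry.of_dist_eq
    intro z w
    simp only [dist_eq_norm]
    rw [show (z - p) * conj v - (w - p) * conj v = (z - w) * conj v by ring, norm_mul,
      RCLike.norm_conj, hnv, mul_one]
  · change (p - p) * conj v = 0
    simp
  · change (q - p) * conj v = _
    have h1 : q - p = (‖q - p‖ : ℂ) * v := by
      rw [hv, mul_div_cancel₀]
      exact_mod_cast hn.ne'
    conv_lhs => rw [h1]
    rw [mul_assoc, hvv', mul_one, dist_comm, dist_eq_norm]

theorem rec_finite (Λ : Set ℝ) (hΛ : Λ.Finite) :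
    ∃ F : Set (Set ℂ), F.Finite ∧ ∀ (D : Set ℂ) (R : Set Iso) (p : ℂ),
      interior (closure D) = D → Bornology.IsBounded D → D.Nonempty →
      (∀ S ∈ R, ∃ a b, ∃ h : a ≠ b, S = reflI a b h) → R.Finite →
      (∀ z ∈ frontier D, ∃ S ∈ R, S z = z) →
      (∀ S ∈ R, dist p (S p) ∈ Λ) → (∀ S₀ ∈ R, ∀ S ∈ R, dist p (S₀ (S (S₀ p))) ∈ Λ) →
      ∃ K ∈ F, ∃ φ : Iso, φ '' K = D := by
  let RR : ℝ → Set Iso := fun δ => {S : Iso | (∃ a b, ∃ h : a ≠ b, S = reflI a b h) ∧
    dist (0 : ℂ) (S 0) ∈ Λ ∧ dist (δ : ℂ) (S δ) ∈ Λ}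
  refine ⟨⋃ δ ∈ Λ ∩ Set.Ioi 0, {D : Set ℂ | interior (closure D) = D ∧
    ∀ z ∈ frontier D, ∃ S ∈ RR δ, S z = z}, ?_, ?_⟩
  · refine (hΛ.inter_of_left _).biUnion fun δ hδ => ?_
    exact cells_finite (refl_two_points Λ hΛ δ hδ.2) (fun S hS => hS.1)
  · intro D R p hreg hb hne hr hR hf h1 h2
    obtain ⟨S₀, hS₀, hmv⟩ := finrec_moves (p := p) hreg hb hne hr hR hf
    obtain ⟨ψ, hψp, hψq⟩ := finrec_norm p (S₀ p) (Ne.symm hmv)
    have hinv : ∀ z, ψ⁻¹ (ψ z) = z := fun z => ψ.symm_apply_apply z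
    have hinv0 : ψ⁻¹ 0 = p := by rw [← hψp, hinv]
    have hinvq : ψ⁻¹ ((dist p (S₀ p) : ℝ) : ℂ) = S₀ p := by rw [← hψq, hinv]
    have hSS : S₀ (S₀ p) = p := by
      obtain ⟨a, b, h, rfl⟩ := hr S₀ hS₀
      exact refl_refl h p
    refine ⟨ψ '' D, ?_, ψ⁻¹, ?_⟩
    · refine mem_iUnion₂.mpr ⟨dist p (S₀ p), ⟨h1 S₀ hS₀, dist_pos.mpr (Ne.symm hmv)⟩, ?_, ?_⟩
      · have e1 : closure (ψ '' D) = ψ '' closure D := (ψ.toHomeomorph.image_closure D).symm
        have e2 : interior (ψ '' closure D) = ψ '' interior (closure D) :=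
          (ψ.toHomeomorph.image_interior _).symm
        rw [e1, e2, hreg]
      · intro z hz
        have e3 : frontier (ψ '' D) = ψ '' frontier D := (ψ.toHomeomorph.image_frontier D).symm
        rw [e3] at hz
        obtain ⟨w, hw, rfl⟩ := hz
        obtain ⟨S, hS, hSw⟩ := hf w hw
        refine ⟨ψ * S * ψ⁻¹, ⟨?_, ?_, ?_⟩, ?_⟩
        · obtain ⟨a, b, h, rfl⟩ := hr S hS
          exact ⟨_, _, _, reflI_conj ψ h⟩
        · have e4 : (ψ * S * ψ⁻¹) 0 = ψ (S (ψ⁻¹ 0)) := rfl
          rw [e4, hinv0, ← hψp, ψ.dist_eq]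
          exact h1 S hS
        · have e4 : (ψ * S * ψ⁻¹) ((dist p (S₀ p) : ℝ) : ℂ) =
              ψ (S (ψ⁻¹ ((dist p (S₀ p) : ℝ) : ℂ))) := rfl
          rw [e4, hinvq, ← hψq, ψ.dist_eq, ← S₀.dist_eq, hSS]
          exact h2 S₀ hS₀ S hS
        · have e4 : (ψ * S * ψ⁻¹) (ψ w) = ψ (S (ψ⁻¹ (ψ w))) := rfl
          rw [e4, hinv, hSw]
    · rw [← Set.image_comp]
      have e5 : (⇑ψ⁻¹ ∘ ⇑ψ) = id := funext hinv
      rw [e5, Set.image_id]

end Pool.Agent.MP4eed4e
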