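import Mathlib
import Pool.Agent.Lib.MP_4eed4e_an.Star

/-!
The length of the boundary.
-/

namespace Pool.Agent.MP4eed4e

open Set MeasureTheory Classical

variable {τ : Tile} {D D' : Set ℂ}

private theorem length_side (A : Tiling τ D) (x : A.X) (s : τ.S) :
    Measure.hausdorffMeasure 1 (A.g x '' τ.sd s) = edist (τ.p s) (τ.p (τ.next s)) := by
  rw [IsometryEquiv.hausdorffMeasure_image]
  exact hausdorffMeasure_segment _ _

private theorem length_cases (A : Tiling τ D) {x : A.X} {s : τ.S} {z : ℂ}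
    (hz : z ∈ A.g x '' τ.sd s) :
    z ∈ A.g x '' τ.od s ∨ z = A.g x (τ.p s) ∨ z = A.g x (τ.p (τ.next s)) := by
  obtain ⟨w, hw, rfl⟩ := hz
  rw [Tile.sd, ← insert_endpoints_openSegment] at hw
  rcases hw with rfl | rfl | hw
  · exact Or.inr (Or.inl rfl)
  · exact Or.inr (Or.inr rfl)
  · exact Or.inl ⟨w, hw, rfl⟩

theorem Tiling.length_eq (A : Tiling τ D) :
    Measure.hausdorffMeasure 1 (frontier D) =
      ∑ s : τ.S, ((Finset.univ.filter fun x : A.X => A.nb s x = x).card : ENNReal) *
        edist (τ.p s) (τ.p (τ.next s)) := by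
  rw [A.frontier_eq, measure_iUnion₀]
  · rw [tsum_fintype]
    have h1 : ∀ j : {z : A.X × τ.S // A.nb z.2 z.1 = z.1},
        Measure.hausdorffMeasure 1 (A.g j.1.1 '' τ.sd j.1.2) =
          edist (τ.p j.1.2) (τ.p (τ.next j.1.2)) := fun j => length_side A _ _
    rw [Finset.sum_congr rfl (fun j _ => h1 j)]
    have h2 : (∑ j : {z : A.X × τ.S // A.nb z.2 z.1 = z.1},
        edist (τ.p j.1.2) (τ.p (τ.next j.1.2))) =
        ∑ z ∈ Finset.univ.filter (fun z : A.X × τ.S => A.nb z.2 z.1 = z.1),
          edist (τ.p z.2) (τ.p (τ.next z.2)) := by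
      symm
      apply Finset.sum_subtype
      intro z
      simp
    rw [h2, Finset.sum_filter, Fintype.sum_prod_type_right]
    refine Finset.sum_congr rfl fun s _ => ?_
    rw [← Finset.sum_filter]
    dsimp only
    rw [Finset.sum_const, nsmul_eq_mul]
  · intro i j hij
    have hsub : (A.g i.1.1 '' τ.sd i.1.2) ∩ (A.g j.1.1 '' τ.sd j.1.2) ⊆
        {A.g i.1.1 (τ.p i.1.2), A.g i.1.1 (τ.p (τ.next i.1.2)), A.g j.1.1 (τ.p j.1.2),
          A.g j.1.1 (τ.p (τ.next j.1.2))} := by
      rintro z ⟨hz, hz'⟩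
      rcases length_cases A hz with h | h | h
      · rcases length_cases A hz' with h' | h' | h'
        · obtain ⟨h1, h2⟩ := A.bd_unique i.2 j.2 h h'
          exact absurd (Subtype.ext (Prod.ext h1 h2)) hij
        · simp [h']
        · simp [h']
      · simp [h]
      · simp [h]
    have hfin : ({A.g i.1.1 (τ.p i.1.2), A.g i.1.1 (τ.p (τ.next i.1.2)), A.g j.1.1 (τ.p j.1.2),
          A.g j.1.1 (τ.p (τ.next j.1.2))} : Set ℂ).Finite := Set.toFinite _
    have := Measure.nullSingletonClass_hausdorff ℂ (d := 1) one_pos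
    exact measure_mono_null hsub (hfin.measure_zero _)
  · intro j
    apply MeasurableSet.nullMeasurableSet
    apply IsClosed.measurableSet
    have : IsCompact (τ.sd j.1.2) := by
      rw [Tile.sd, segment_eq_image_lineMap]
      exact isCompact_Icc.image (AffineMap.lineMap_continuous)
    exact (this.image (A.g j.1.1).continuous).isClosed

end Pool.Agent.MP4eed4e
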