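import Mathlib
import Pool.Agent.Lib.MP_4eed4e_an.LengthA
import Pool.Agent.Lib.MP_4eed4e_an.Words

/-!
The length of the boundary is an invariant.
-/

namespace Pool.Agent.MP4eed4e

open Set MeasureTheory Classical

variable {τ : Tile} {D D' : Set ℂ}

theorem length_invariant (A : Tiling τ D) (B : Tiling τ D')
    (Ψ : (A.X → ℝ) ≃ₗ[ℝ] (B.X → ℝ)) (h : ∀ s f, Ψ (f ∘ A.nb s) = (Ψ f) ∘ B.nb s) :
    Measure.hausdorffMeasure 1 (frontier D) = Measure.hausdorffMeasure 1 (frontier D') := by
  rw [A.length_eq, B.length_eq]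
  refine Finset.sum_congr rfl fun s _ => ?_
  have h1 := card_fixed_eq Ψ (A.nb s) (B.nb s) (h s)
  have h2 : (Finset.univ.filter fun x : A.X => A.nb s x = x).card =
      (Finset.univ.filter fun x : B.X => B.nb s x = x).card := by
    convert h1
  rw [h2]

theorem Tiling.length_lt_top (A : Tiling τ D) :
    Measure.hausdorffMeasure 1 (frontier D) < ⊤ := by
  rw [A.length_eq]
  refine ENNReal.sum_lt_top.mpr fun s _ => ?_
  exact ENNReal.mul_lt_top (ENNReal.natCast_lt_top _) (edist_lt_top _ _)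

end Pool.Agent.MP4eed4e
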