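import Mathlib
import Pool.Agent.Lib.MP_4eed4e_an.Generic
import Pool.Agent.Lib.MP_4eed4e_an.Loc

/-!
Crossing a boundary side with one reflection.
-/

namespace Pool.Agent.MP4eed4e

open Set MeasureTheory

variable {τ : Tile} {D : Set ℂ}

private theorem fp_lam_comb (a b u v : ℂ) {s t : ℝ} (h : s + t = 1) :
    lam a b (s • u + t • v) = s * lam a b u + t * lam a b v := by
  have e : (s • u + t • v - a) * (starRingEnd ℂ) (b - a) =
      (s : ℂ) * ((u - a) * (starRingEnd ℂ) (b - a)) +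
        (t : ℂ) * ((v - a) * (starRingEnd ℂ) (b - a)) := by
    have h' : (s : ℂ) + (t : ℂ) = 1 := by exact_mod_cast h
    have ha : a = ((s : ℂ) + (t : ℂ)) * a := by rw [h']; ring
    simp only [Complex.real_smul]
    linear_combination (- (starRingEnd ℂ) (b - a)) * ha
  unfold lam
  rw [e, Complex.add_im, Complex.im_ofReal_mul, Complex.im_ofReal_mul]

private theorem fp_lam_cont (a b : ℂ) : Continuous (lam a b) := by
  unfold lam
  exact Complex.continuous_im.comp ((continuous_id.sub continuous_const).mul continuous_const)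

private theorem fp_diff (φ : Iso) : Differentiable ℝ (fun z => φ z) := by
  obtain ⟨a, b, -, h | h⟩ := iso_form φ
  · have : (fun z => φ z) = fun z => a * z + b := funext h
    rw [this]
    fun_prop
  · have : (fun z => φ z) = fun z => a * (Complex.conjCLE z) + b := funext h
    rw [this]
    fun_prop

private theorem fp_null (φ : Iso) {N : Set ℂ} (hN : volume N = 0) : volume (φ '' N) = 0 :=
  addHaar_image_eq_zero_of_differentiableOn_of_addHaar_eq_zero volume
    (fp_diff φ).differentiableOn hN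

/-- Crossing a boundary side: a generic billiard segment with one reflection. -/
theorem Tiling.fold_piece (A : Tiling τ D) {l : τ.S} {x : A.X} (h : A.nb l x = x)
    {V N : Set ℂ} (hV : V.Countable) (hN : volume N = 0) :
    ∃ b b' : ℂ, b ∈ D ∧ b' ∈ D ∧ b ∉ N ∧ b' ∉ N ∧
      Bil D univ 1 (A.g x * τ.rf l * (A.g x)⁻¹) b ((A.g x * τ.rf l * (A.g x)⁻¹) b') ∧
      b ≠ (A.g x * τ.rf l * (A.g x)⁻¹) b' ∧
      Disjoint (openSegment ℝ b ((A.g x * τ.rf l * (A.g x)⁻¹) b')) V ∧
      (∀ L : ℝ, (∀ a ∈ closure D, ∀ c ∈ closure D, dist a c ≤ L) →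
        dist b ((A.g x * τ.rf l * (A.g x)⁻¹) b') ≤ 2 * L) := by
  set G : Iso := A.g x with hG
  set p : ℂ := τ.p l with hp
  set q : ℂ := τ.p (τ.next l) with hq
  have hpq : p ≠ q := τ.p_ne l
  have hrf : ∀ w, τ.rf l w = refl p q w := fun w => rfl
  have hrr : ∀ w, refl p q (refl p q w) = w := refl_refl hpq
  set S : Iso := G * τ.rf l * G⁻¹ with hS
  have hSG : ∀ w, S (G w) = G (refl p q w) := by
    intro w
    have h1 : G⁻¹ (G w) = w := G.symm_apply_apply w
    show G (τ.rf l (G⁻¹ (G w))) = _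
    rw [h1, hrf]
  -- the midpoint
  set z : ℂ := (1 / 2 : ℝ) • p + (1 / 2 : ℝ) • q with hz
  have hzo : z ∈ τ.od l := ⟨1 / 2, 1 / 2, by norm_num, by norm_num, by norm_num, rfl⟩
  have hzl : lam p q z = 0 := lam_of_mem_segment (openSegment_subset_segment ℝ _ _ hzo)
  have hzr : refl p q z = z := (refl_eq_self_iff hpq z).2 hzl
  obtain ⟨r, hr, ε, hε, hw⟩ := τ.half hzo
  have hqp : 0 < ‖q - p‖ := norm_pos_iff.2 (sub_ne_zero.2 hpq.symm)
  set r' : ℝ := min r (‖q - p‖ / 2) with hr'
  have hr'0 : 0 < r' := lt_min hr (by positivity)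
  have hball : ∀ w ∈ Metric.ball z r', w ∈ Metric.ball z r := fun w hw' =>
    Metric.ball_subset_ball (min_le_left _ _) hw'
  have hline : ∀ w ∈ Metric.ball z r', lam p q w = 0 → w ∈ τ.od l := by
    intro w hw1 hw2
    obtain ⟨t, ht⟩ := (lam_eq_zero_iff hpq w).1 hw2
    have h1 : dist w z < ‖q - p‖ / 2 :=
      lt_of_lt_of_le (Metric.mem_ball.1 hw1) (min_le_right _ _)
    have h2 : w - z = ((t - 1 / 2 : ℝ) : ℂ) * (q - p) := by
      rw [ht, hz]
      simp only [Complex.real_smul]
      push_cast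
      ring
    rw [dist_eq_norm, h2, norm_mul, Complex.norm_real, Real.norm_eq_abs] at h1
    have h3 : |t - 1 / 2| < 1 / 2 := by
      by_contra hc
      rw [not_lt] at hc
      have := mul_le_mul_of_nonneg_right hc hqp.le
      linarith
    rw [abs_lt] at h3
    refine ⟨1 - t, t, by linarith [h3.2], by linarith [h3.1], by ring, ?_⟩
    rw [ht]
    simp only [Complex.real_smul]
    push_cast
    ring
  set H : Set ℂ := {w | w ∈ Metric.ball z r' ∧ 0 < ε * lam p q w} with hH
  set H' : Set ℂ := {w | w ∈ Metric.ball z r' ∧ ε * lam p q w < 0} with hH'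
  have hcont : Continuous fun w => ε * lam p q w := continuous_const.mul (fp_lam_cont p q)
  have hHo : IsOpen H := Metric.isOpen_ball.inter (isOpen_lt continuous_const hcont)
  have hHo' : IsOpen H' := Metric.isOpen_ball.inter (isOpen_lt hcont continuous_const)
  have hrball : ∀ w ∈ Metric.ball z r', refl p q w ∈ Metric.ball z r' := by
    intro w hw1
    rw [Metric.mem_ball] at hw1 ⊢
    have : dist (refl p q w) (refl p q z) = dist w z := refl_dist hpq w z
    rw [hzr] at this
    rw [this]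
    exact hw1
  have hHH' : ∀ w ∈ H', refl p q w ∈ H := by
    intro w hw1
    refine ⟨hrball w hw1.1, ?_⟩
    rw [lam_refl hpq]
    have := hw1.2
    linarith
  have hHH : ∀ w ∈ H, refl p q w ∈ H' := by
    intro w hw1
    refine ⟨hrball w hw1.1, ?_⟩
    rw [lam_refl hpq]
    have := hw1.2
    linarith
  have hHT : H ⊆ τ.T := fun w hw1 => ((hw w (hball w hw1.1)).1).2 hw1.2
  have hHne : H.Nonempty := by
    -- z is in the closure of the tile
    have hzf : z ∈ closure τ.T := by
      have : z ∈ frontier τ.T := ((hw z (Metric.mem_ball_self hr)).2).2 hzl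
      exact frontier_subset_closure this
    obtain ⟨w, hw1, hw2⟩ := mem_closure_iff.1 hzf (Metric.ball z r') Metric.isOpen_ball
      (Metric.mem_ball_self hr'0)
    exact ⟨w, hw1, ((hw w (hball w hw1)).1).1 hw2⟩
  have hHne' : H'.Nonempty := by
    obtain ⟨w, hw1⟩ := hHne
    exact ⟨_, hHH w hw1⟩
  have hGo : ∀ U : Set ℂ, IsOpen U → IsOpen (G '' U) := fun U hU =>
    G.toHomeomorph.isOpenMap U hU
  obtain ⟨b, hb1, hb2, -, -, -, -⟩ := generic_point (hGo H hHo) (hHne.image _) hV hN 0 0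
  obtain ⟨b'', hc1, hc2, hc3, -, hc5, -⟩ := generic_point (hGo H' hHo') (hHne'.image _) hV
    (fp_null S hN) b 0
  obtain ⟨β, hβ, rfl⟩ := hb1
  obtain ⟨γ, hγ, rfl⟩ := hc1
  have hSS : S (G (refl p q γ)) = G γ := by rw [hSG, hrr]
  have hsegH : ∀ u v : ℂ, u ∈ H → v ∈ Metric.ball z r' → lam p q v = 0 →
      openSegment ℝ u v ⊆ H := by
    rintro u v hu hv hv0 w ⟨s, t, hs, ht, hst, rfl⟩
    refine ⟨(convex_ball z r') hu.1 hv hs.le ht.le hst, ?_⟩
    rw [fp_lam_comb p q u v hst, hv0]
    have := mul_pos hs hu.2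
    nlinarith
  -- the crossing point
  set m1 : ℝ := ε * lam p q β with hm1
  set m2 : ℝ := - (ε * lam p q γ) with hm2
  have hm1p : 0 < m1 := hβ.2
  have hm2p : 0 < m2 := by have := hγ.2; linarith
  have hm : 0 < m1 + m2 := by linarith
  set e0 : ℂ := (m2 / (m1 + m2)) • β + (m1 / (m1 + m2)) • γ with he0
  have hsum : m2 / (m1 + m2) + m1 / (m1 + m2) = 1 := by field_simp; ring
  have he0o : e0 ∈ openSegment ℝ β γ :=
    ⟨m2 / (m1 + m2), m1 / (m1 + m2), by positivity, by positivity, hsum, rfl⟩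
  have he0b : e0 ∈ Metric.ball z r' :=
    (convex_ball z r') hβ.1 hγ.1 (by positivity) (by positivity) hsum
  have hε0 : ε ≠ 0 := by rcases hε with h | h <;> rw [h] <;> norm_num
  have he0l : lam p q e0 = 0 := by
    rw [he0, fp_lam_comb p q β γ hsum]
    have h1 : ε * (m2 / (m1 + m2) * lam p q β + m1 / (m1 + m2) * lam p q γ) = 0 := by
      have : ε * (m2 / (m1 + m2) * lam p q β + m1 / (m1 + m2) * lam p q γ) =
          m2 / (m1 + m2) * (ε * lam p q β) + m1 / (m1 + m2) * (ε * lam p q γ) := by ring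
      rw [this]
      have e1 : ε * lam p q β = m1 := rfl
      have e2 : ε * lam p q γ = - m2 := by rw [hm2]; ring
      rw [e1, e2]
      ring
    exact (mul_eq_zero.1 h1).resolve_left hε0
  have he0od : e0 ∈ τ.od l := hline e0 he0b he0l
  have he0r : refl p q e0 = e0 := (refl_eq_self_iff hpq e0).2 he0l
  have hGT : ∀ w ∈ H, G w ∈ D := fun w hw1 => A.tile_sub x ⟨w, hHT hw1, rfl⟩
  have hfront : G '' segment ℝ p q ⊆ frontier D := A.bd l x h
  have hSrefl : S = reflI (G p) (G q) (G.injective.ne hpq) := reflI_conj G hpq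
  have hefr : G e0 ∈ frontier D :=
    hfront ⟨e0, openSegment_subset_segment ℝ _ _ he0od, rfl⟩
  have hFold : FoldAt D (G e0) S := by
    refine ⟨G p, G q, G.injective.ne hpq, ?_, ?_, hSrefl⟩
    · rw [← iso_openSegment]
      exact ⟨e0, he0od, rfl⟩
    · rw [← iso_segment]
      exact hfront
  have hseg1 : openSegment ℝ (G β) (G e0) ⊆ D := by
    rw [← iso_openSegment]
    rintro _ ⟨w, hw1, rfl⟩
    exact hGT w (hsegH β e0 hβ he0b he0l hw1)
  have hseg2 : openSegment ℝ (G e0) (G (refl p q γ)) ⊆ D := by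
    rw [openSegment_symm, ← iso_openSegment]
    rintro _ ⟨w, hw1, rfl⟩
    exact hGT w (hsegH _ e0 (hHH' γ hγ) he0b he0l hw1)
  refine ⟨G β, G (refl p q γ), hGT β hβ, hGT _ (hHH' γ hγ), hb2, ?_, ?_, ?_, ?_, ?_⟩
  · intro hc
    exact hc2 ⟨_, hc, hSS⟩
  · rw [hSS]
    have h1 : Bil D univ 0 1 (G e0) (S (G γ)) := by
      rw [hSG]
      exact Bil.nil _ _ hseg2
    have h2 := Bil.fold (R := univ) 0 1 (G β) (G γ) (G e0) S (by
      rw [← iso_openSegment]
      exact ⟨e0, he0o, rfl⟩) hseg1 hFold (mem_univ _) h1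
    rwa [mul_one] at h2
  · rw [hSS]
    exact Ne.symm hc3
  · rw [hSS]
    exact hc5
  · intro L hL
    rw [hSS]
    have h1 : dist (G β) (G e0) ≤ L :=
      hL _ (subset_closure (hGT β hβ)) _ (frontier_subset_closure hefr)
    have h2 : dist (G e0) (G γ) ≤ L := by
      have h3 : dist (S (G e0)) (S (G γ)) = dist (G e0) (G γ) := S.isometry.dist_eq _ _
      rw [hSG, hSG, he0r] at h3
      rw [← h3]
      exact hL _ (frontier_subset_closure hefr) _ (subset_closure (hGT _ (hHH' γ hγ)))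
    have := dist_triangle (G β) (G e0) (G γ)
    linarith

end Pool.Agent.MP4eed4e
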