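import Mathlib
import Pool.Agent.Lib.MP_4eed4e_an.Cells
import Pool.Agent.Lib.MP_4eed4e_an.Generic

/-!
Generic polygonal paths.
-/

namespace Pool.Agent.MP4eed4e

open Set MeasureTheory

/-- `k` segments inside `D` joining `a` to `b`, with open segments avoiding `V`, nontrivial,
and with turning points and end point outside of `N`. -/
inductive Leg (D V N : Set ℂ) : ℕ → ℂ → ℂ → Prop
  | single (a b : ℂ) : segment ℝ a b ⊆ D → a ≠ b → Disjoint (openSegment ℝ a b) V → b ∉ N →
      Leg D V N 1 a b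
  | cons (k : ℕ) (a b c : ℂ) : segment ℝ a b ⊆ D → a ≠ b → Disjoint (openSegment ℝ a b) V →
      b ∉ N → Leg D V N k b c → Leg D V N (k + 1) a c

/-- Segments inside an open set can be moved a little. -/
private theorem leg_open {D : Set ℂ} (hO : IsOpen D) {a b : ℂ} (h : segment ℝ a b ⊆ D) :
    ∃ δ > 0, ∀ a' ∈ Metric.ball a δ, ∀ b' ∈ Metric.ball b δ, segment ℝ a' b' ⊆ D := by
  have hc : IsCompact (segment ℝ a b) := by
    rw [segment_eq_image_lineMap]
    exact isCompact_Icc.image AffineMap.lineMap_continuous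
  obtain ⟨δ, hδ, hδD⟩ := hc.exists_thickening_subset_open hO h
  refine ⟨δ, hδ, fun a' ha' b' hb' z hz => hδD ?_⟩
  obtain ⟨s, t, hs, ht, hst, rfl⟩ := hz
  rw [Metric.mem_ball, dist_eq_norm] at ha' hb'
  refine Metric.mem_thickening_iff.2 ⟨s • a + t • b, ⟨s, t, hs, ht, hst, rfl⟩, ?_⟩
  have h1 : s • a' + t • b' - (s • a + t • b) = s • (a' - a) + t • (b' - b) := by
    rw [smul_sub, smul_sub]
    abel
  rw [dist_eq_norm, h1]
  have h2 : ‖s • (a' - a) + t • (b' - b)‖ ≤ s * ‖a' - a‖ + t * ‖b' - b‖ := by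
    refine (norm_add_le _ _).trans ?_
    rw [norm_smul, norm_smul, Real.norm_eq_abs, Real.norm_eq_abs, abs_of_nonneg hs,
      abs_of_nonneg ht]
  have h3 : s * ‖a' - a‖ + t * ‖b' - b‖ < δ := by
    have ht' : t = 1 - s := by linarith
    rcases hs.eq_or_lt with h | h
    · rw [← h] at ht' ⊢
      rw [ht']
      linarith
    · have h4 := mul_lt_mul_of_pos_left ha' h
      have h5 := mul_le_mul_of_nonneg_left hb'.le ht
      rw [ht'] at h5 ⊢
      linarith
  exact lt_of_le_of_lt h2 h3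

private theorem seg_open {D : Set ℂ} (hO : IsOpen D) {k : ℕ} {a b : ℂ} (h : Seg D k a b) :
    ∃ δ > 0, ∀ a' ∈ Metric.ball a δ, Seg D k a' b := by
  cases h with
  | single a b h =>
    obtain ⟨δ, hδ, h1⟩ := leg_open hO h
    exact ⟨δ, hδ, fun a' ha' => Seg.single a' b (h1 a' ha' b (Metric.mem_ball_self hδ))⟩
  | cons k a c b h h' =>
    obtain ⟨δ, hδ, h1⟩ := leg_open hO h
    exact ⟨δ, hδ, fun a' ha' => Seg.cons k a' c b (h1 a' ha' c (Metric.mem_ball_self hδ)) h'⟩

theorem leg_exists {D V N : Set ℂ} (hO : IsOpen D) (hV : V.Countable) (hN : volume N = 0)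
    {k : ℕ} {a b : ℂ} (h : Seg D k a b) (hb : b ∉ N) :
    ∃ l, l ≤ k + 1 ∧ Leg D V N l a b := by
  induction k generalizing a with
  | zero => cases h
  | succ k ih =>
    cases h with
    | single a b h =>
      have hm : midpoint ℝ a b ∈ segment ℝ a b := midpoint_mem_segment a b
      have h1 : segment ℝ a (midpoint ℝ a b) ⊆ D :=
        ((convex_segment a b).segment_subset (left_mem_segment ℝ a b) hm).trans h
      have h2 : segment ℝ (midpoint ℝ a b) b ⊆ D :=
        ((convex_segment a b).segment_subset hm (right_mem_segment ℝ a b)).trans h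
      obtain ⟨δ₁, hδ₁, h3⟩ := leg_open hO h1
      obtain ⟨δ₂, hδ₂, h4⟩ := leg_open hO h2
      obtain ⟨z, hz, hzN, hza, hzb, hz1, hz2⟩ := generic_point
        (U := Metric.ball (midpoint ℝ a b) (min δ₁ δ₂)) Metric.isOpen_ball
        ⟨_, Metric.mem_ball_self (lt_min hδ₁ hδ₂)⟩ hV hN a b
      have h5 := h3 a (Metric.mem_ball_self hδ₁) z
        (Metric.ball_subset_ball (min_le_left _ _) hz)
      have h6 := h4 z (Metric.ball_subset_ball (min_le_right _ _) hz) b
        (Metric.mem_ball_self hδ₂)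
      exact ⟨1 + 1, le_rfl, Leg.cons 1 a z b h5 hza.symm hz1 hzN
        (Leg.single z b h6 hzb hz2 hb)⟩
    | cons k a c b h h' =>
      obtain ⟨δ₁, hδ₁, h3⟩ := leg_open hO h
      obtain ⟨δ₂, hδ₂, h4⟩ := seg_open hO h'
      obtain ⟨z, hz, hzN, hza, -, hz1, -⟩ := generic_point
        (U := Metric.ball c (min δ₁ δ₂)) Metric.isOpen_ball
        ⟨_, Metric.mem_ball_self (lt_min hδ₁ hδ₂)⟩ hV hN a a
      have h5 := h3 a (Metric.mem_ball_self hδ₁) z
        (Metric.ball_subset_ball (min_le_left _ _) hz)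
      have h6 := h4 z (Metric.ball_subset_ball (min_le_right _ _) hz)
      obtain ⟨l, hl, hleg⟩ := ih h6
      exact ⟨l + 1, Nat.succ_le_succ hl, Leg.cons l a z b h5 hza.symm hz1 hzN hleg⟩

end Pool.Agent.MP4eed4e
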