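import Mathlib
import Pool.Agent.Lib.MP_4eed4e_an.Leg

/-!
Legs as beginnings of paths.
-/

namespace Pool.Agent.MP4eed4e

open Set MeasureTheory

/-- One segment put in front of a path. -/
private theorem seg_pth {D V N : Set ℂ} {R : ℝ} (hR : ∀ a ∈ D, ∀ b ∈ D, dist a b ≤ R) {k : ℕ}
    {a b : ℂ} (hs : segment ℝ a b ⊆ D) (hab : a ≠ b) (hV : Disjoint (openSegment ℝ a b) V)
    (hN : b ∉ N) {w : Iso} {t e q' : ℂ} (hp : Pth D V N R k w b t e q') :
    Pth D V N R (k + 1) w a b e q' := by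
  have ha : a ∈ D := hs (left_mem_segment ℝ a b)
  have hb : b ∈ D := hs (right_mem_segment ℝ a b)
  have h1 : (1 : Iso)⁻¹ b = b := by
    rw [inv_one]; rfl
  have hbil : Bil D univ 0 1 a b := Bil.nil a b ((openSegment_subset_segment ℝ a b).trans hs)
  have := Pth.turn (D := D) (V := V) (N := N) (R := R) k 0 1 w a b t e q' hbil hab hV
    (hR a ha b hb) (by rw [h1]; exact hb) (by rw [h1]; exact hN) (by rw [h1]; exact hp)
  rwa [one_mul] at this

/-- A leg can be put in front of a path. -/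
theorem Leg.pth {D V N : Set ℂ} {R : ℝ} (hR : ∀ a ∈ D, ∀ b ∈ D, dist a b ≤ R) {l k : ℕ}
    {a b : ℂ} (h : Leg D V N l a b) {w : Iso} {t e q' : ℂ} (hp : Pth D V N R k w b t e q') :
    ∃ t', Pth D V N R (l + k) w a t' e q' := by
  induction h with
  | single a b hs hab hV hN =>
    refine ⟨b, ?_⟩
    rw [Nat.add_comm 1 k]
    exact seg_pth hR hs hab hV hN hp
  | cons l a b c hs hab hV hN _ ih =>
    obtain ⟨t', ht'⟩ := ih hp
    refine ⟨b, ?_⟩
    rw [Nat.add_right_comm l 1 k]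
    exact seg_pth hR hs hab hV hN ht'

end Pool.Agent.MP4eed4e
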