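import Mathlib
import Pool.Agent.Lib.MP_4eed4e_an.Star
import Pool.Agent.Lib.MP_4eed4e_an.SecUniq

/-!
Every side line of `D` contains a corner ray.
-/

namespace Pool.Agent.MP4eed4e

open Set Complex

variable {τ : Tile} {D : Set ℂ}

/-- the position along the line through `a` and `b` -/
private noncomputable def slF (a b z : ℂ) : ℝ := ((z - a) * (starRingEnd ℂ) (b - a)).re

private theorem slF_line (a b : ℂ) (t : ℝ) : slF a b (a + t * (b - a)) = t * normSq (b - a) := by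
  unfold slF
  rw [add_sub_cancel_left, mul_assoc, mul_conj, ← ofReal_mul, ofReal_re]

private theorem slF_add (a b z w : ℂ) (t : ℝ) :
    slF a b (z + t * (w - z)) = (1 - t) * slF a b z + t * slF a b w := by
  unfold slF
  simp only [mul_re, sub_re, add_re, sub_im, add_im, conj_re, conj_im, ofReal_re, ofReal_im, mul_im]
  ring

private theorem lam_add (a b z w : ℂ) (t : ℝ) :
    lam a b (z + t * (w - z)) = (1 - t) * lam a b z + t * lam a b w := by
  unfold lam
  simp only [mul_re, sub_re, add_re, sub_im, add_im, conj_re, conj_im, ofReal_re, ofReal_im, mul_im]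
  ring

private theorem seg_param {z w P : ℂ} (h : P ∈ segment ℝ z w) :
    ∃ t : ℝ, 0 ≤ t ∧ t ≤ 1 ∧ P = z + t * (w - z) := by
  rw [segment_eq_image'] at h
  obtain ⟨t, ht, rfl⟩ := h
  exact ⟨t, ht.1, ht.2, by simp only [real_smul]⟩

private theorem seg_lam {a b A' B' P Q : ℂ} (hP : P ∈ segment ℝ A' B') (hQ : Q ∈ segment ℝ A' B')
    (hPQ : P ≠ Q) (h1 : lam a b P = 0) (h2 : lam a b Q = 0) :
    lam a b A' = 0 ∧ lam a b B' = 0 := by
  obtain ⟨t, _, _, rfl⟩ := seg_param hP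
  obtain ⟨u, _, _, rfl⟩ := seg_param hQ
  rw [lam_add] at h1 h2
  have htu : t ≠ u := by
    rintro rfl
    exact hPQ rfl
  have h3 : (t - u) * (lam a b B' - lam a b A') = 0 := by linear_combination h1 - h2
  have h4 : lam a b B' - lam a b A' = 0 := by
    rcases mul_eq_zero.1 h3 with h | h
    · exact absurd (sub_eq_zero.1 h) htu
    · exact h
  constructor
  · linear_combination h1 - t * h4
  · linear_combination h1 + (1 - t) * h4

private theorem seg_le {a b A' B' Q : ℂ} (hQ : Q ∈ segment ℝ A' B') {M : ℝ}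
    (h1 : slF a b A' ≤ M) (h2 : slF a b B' ≤ M) : slF a b Q ≤ M := by
  obtain ⟨u, hu0, hu1, rfl⟩ := seg_param hQ
  rw [slF_add]
  nlinarith [mul_le_mul_of_nonneg_left h1 (sub_nonneg.2 hu1), mul_le_mul_of_nonneg_left h2 hu0]

/-- the direction of a segment of the line ending at its maximum -/
private theorem dir_aux {a b P P' V : ℂ} (hab : a ≠ b) (h1 : lam a b P = 0) (h2 : lam a b P' = 0)
    (hlt : slF a b P' < slF a b P) {l : ℝ} (hl : 0 < l) (hP' : P' = P + l * V) :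
    ∃ k : ℝ, 0 < k ∧ V = -(k : ℂ) * (b - a) := by
  obtain ⟨t, ht⟩ := (lam_eq_zero_iff hab P).1 h1
  obtain ⟨u, hu⟩ := (lam_eq_zero_iff hab P').1 h2
  have hpos : 0 < normSq (b - a) := normSq_pos.2 (sub_ne_zero.2 (Ne.symm hab))
  rw [ht, hu, slF_line, slF_line] at hlt
  have htu : u < t := lt_of_mul_lt_mul_right hlt hpos.le
  refine ⟨(t - u) / l, div_pos (sub_pos.2 htu) hl, ?_⟩
  have hl' : (l : ℂ) ≠ 0 := ofReal_ne_zero.2 hl.ne'
  have h3 : (l : ℂ) * V = (u - t) * (b - a) := by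
    have : (l : ℂ) * V = P' - P := by rw [hP']; ring
    rw [this, ht, hu]
    ring
  push_cast
  field_simp
  linear_combination h3

private theorem contra_aux (A : Tiling τ D) {a b P V : ℂ} (hab : a ≠ b) (hP : lam a b P = 0)
    {k : ℝ} (hk : 0 < k) (hV : V = -(k : ℂ) * (b - a))
    (hmax : ∀ y' l'', A.nb l'' y' = y' → lam a b (A.g y' (τ.p l'')) = 0 →
      lam a b (A.g y' (τ.p (τ.next l''))) = 0 → slF a b (A.g y' (τ.p l'')) ≤ slF a b P ∧
        slF a b (A.g y' (τ.p (τ.next l''))) ≤ slF a b P)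
    {r : ℝ} (hr : 0 < r) {y' : A.X} {l'' : τ.S} (hn : A.nb l'' y' = y')
    (hs : ∀ ρ : ℝ, 0 ≤ ρ → ρ < r → P - ρ * V ∈ A.g y' '' τ.sd l'') : False := by
  have h0 := hs 0 le_rfl hr
  have h1 := hs (r / 2) (by positivity) (by linarith)
  rw [ofReal_zero, zero_mul, sub_zero, iso_segment] at h0
  rw [iso_segment] at h1
  have hpos : 0 < normSq (b - a) := normSq_pos.2 (sub_ne_zero.2 (Ne.symm hab))
  obtain ⟨t, ht⟩ := (lam_eq_zero_iff hab P).1 hP
  have hQ : P - ((r / 2 : ℝ) : ℂ) * V = a + ((t + r / 2 * k : ℝ) : ℂ) * (b - a) := by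
    rw [hV, ht]
    push_cast
    ring
  have hQl : lam a b (P - ((r / 2 : ℝ) : ℂ) * V) = 0 :=
    (lam_eq_zero_iff hab _).2 ⟨_, hQ⟩
  have hlt : slF a b P < slF a b (P - ((r / 2 : ℝ) : ℂ) * V) := by
    rw [hQ, ht, slF_line, slF_line]
    refine mul_lt_mul_of_pos_right ?_ hpos
    have : 0 < r / 2 * k := by positivity
    linarith
  have hne : P ≠ P - ((r / 2 : ℝ) : ℂ) * V := by
    intro h
    rw [← h] at hlt
    exact lt_irrefl _ hlt
  obtain ⟨k1, k2⟩ := seg_lam h0 h1 hne hP hQl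
  obtain ⟨m1, m2⟩ := hmax y' l'' hn k1 k2
  exact absurd (seg_le h1 m1 m2) (not_le.2 hlt)

/-- the end of the proof: a corner with a side in the direction `V` of the line -/
private theorem finish_aux (A : Tiling τ D) {l : τ.S} {x : A.X} {P V : ℂ}
    (hP : lam (A.g x (τ.p l)) (A.g x (τ.p (τ.next l))) P = 0)
    (hV : ‖V‖ = 1) {k : ℝ} (hk : V = -(k : ℂ) * (A.g x (τ.p (τ.next l)) - A.g x (τ.p l)))
    (hCR : (P, V) ∈ CR D) :
    ∃ z ∈ CR D, ∃ hz : z.1 ≠ z.1 + z.2,
      A.g x * τ.rf l * (A.g x)⁻¹ = reflI z.1 (z.1 + z.2) hz := by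
  have hV0 : V ≠ 0 := by
    intro h
    rw [h, norm_zero] at hV
    exact zero_ne_one hV
  have hz : P ≠ P + V := by
    intro h
    exact hV0 (left_eq_add.1 h)
  refine ⟨(P, V), hCR, hz, ?_⟩
  have hab : A.g x (τ.p l) ≠ A.g x (τ.p (τ.next l)) := (A.g x).injective.ne (τ.p_ne l)
  have h1 : A.g x * τ.rf l * (A.g x)⁻¹ =
      reflI (A.g x (τ.p l)) (A.g x (τ.p (τ.next l))) hab := reflI_conj (A.g x) (τ.p_ne l)
  rw [h1]
  symm
  refine reflI_congr hab hz hP ?_
  obtain ⟨t, ht⟩ := (lam_eq_zero_iff hab P).1 hP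
  refine (lam_eq_zero_iff hab _).2 ⟨t - k, ?_⟩
  rw [hk]
  nth_rewrite 1 [ht]
  push_cast
  ring

theorem Tiling.side_line (A : Tiling τ D) {l : τ.S} {x : A.X} (h : A.nb l x = x) :
    ∃ z ∈ CR D, ∃ hz : z.1 ≠ z.1 + z.2, A.g x * τ.rf l * (A.g x)⁻¹ = reflI z.1 (z.1 + z.2) hz := by
  classical
  set a := A.g x (τ.p l) with ha
  set b := A.g x (τ.p (τ.next l)) with hb
  have hab : a ≠ b := (A.g x).injective.ne (τ.p_ne l)
  have hla : lam a b a = 0 := (lam_eq_zero_iff hab a).2 ⟨0, by simp⟩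
  have hlb : lam a b b = 0 := (lam_eq_zero_iff hab b).2 ⟨1, by simp⟩
  let W : Finset (A.X × τ.S) := Finset.univ.filter fun q => A.nb q.2 q.1 = q.1 ∧
    lam a b (A.g q.1 (τ.p q.2)) = 0 ∧ lam a b (A.g q.1 (τ.p (τ.next q.2))) = 0
  have hW : W.Nonempty := ⟨(x, l), Finset.mem_filter.2 ⟨Finset.mem_univ _, h, hla, hlb⟩⟩
  obtain ⟨⟨y, s₀⟩, hmem, hmx⟩ := W.exists_max_image
    (fun q => max (slF a b (A.g q.1 (τ.p q.2))) (slF a b (A.g q.1 (τ.p (τ.next q.2))))) hW
  obtain ⟨-, hnb, hl1, hl2⟩ := Finset.mem_filter.1 hmem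
  change A.nb s₀ y = y at hnb
  change lam a b (A.g y (τ.p s₀)) = 0 at hl1
  change lam a b (A.g y (τ.p (τ.next s₀))) = 0 at hl2
  have hmax : ∀ y' l'', A.nb l'' y' = y' → lam a b (A.g y' (τ.p l'')) = 0 →
      lam a b (A.g y' (τ.p (τ.next l''))) = 0 →
      slF a b (A.g y' (τ.p l'')) ≤
        max (slF a b (A.g y (τ.p s₀))) (slF a b (A.g y (τ.p (τ.next s₀)))) ∧
      slF a b (A.g y' (τ.p (τ.next l''))) ≤
        max (slF a b (A.g y (τ.p s₀))) (slF a b (A.g y (τ.p (τ.next s₀)))) := by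
    intro y' l'' h1 h2 h3
    have h4 := hmx (y', l'') (Finset.mem_filter.2 ⟨Finset.mem_univ _, h1, h2, h3⟩)
    exact ⟨(le_max_left _ _).trans h4, (le_max_right _ _).trans h4⟩
  have hne : A.g y (τ.p s₀) ≠ A.g y (τ.p (τ.next s₀)) := (A.g y).injective.ne (τ.p_ne s₀)
  have hfne : slF a b (A.g y (τ.p s₀)) ≠ slF a b (A.g y (τ.p (τ.next s₀))) := by
    obtain ⟨t, ht⟩ := (lam_eq_zero_iff hab _).1 hl1
    obtain ⟨u, hu⟩ := (lam_eq_zero_iff hab _).1 hl2
    intro h1
    have hpos : 0 < normSq (b - a) := normSq_pos.2 (sub_ne_zero.2 (Ne.symm hab))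
    rw [ht, hu, slF_line, slF_line] at h1
    have h2 : t = u := mul_right_cancel₀ hpos.ne' h1
    exact hne (by rw [ht, hu, h2])
  rcases lt_or_gt_of_ne hfne with hlt | hlt
  · -- the maximum is at the end of the side
    rw [max_eq_right hlt.le] at hmax
    set s := τ.next s₀ with hs
    have hprev : τ.prev s = s₀ := by
      rw [hs, Tile.prev, Equiv.symm_apply_apply]
    obtain ⟨U, η, hU, hη, hZ⟩ := A.Z_polar s y
    have hnbp : A.nb (τ.prev s) y = y := by rw [hprev]; exact hnb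
    obtain ⟨-, -, hang, -, hrad, -, ⟨L, hL, hpL⟩, -, -⟩ := τ.frame_spec s
    have hLpos : 0 < L := lt_of_lt_of_le hrad hL
    set V := U * exp (η * τ.ang s * I) with hVdef
    have hexp : ∀ t : ℝ, ‖exp (η * t * I)‖ = 1 := by
      intro t
      rw [← ofReal_mul, norm_exp_ofReal_mul_I]
    have hVn : ‖V‖ = 1 := by rw [hVdef, norm_mul, hU, hexp, one_mul]
    have hP' : A.g y (τ.p s₀) = A.g y (τ.p s) + L * V := by
      have h1 : A.Z s y L (τ.ang s) = A.g y (τ.p s₀) := by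
        rw [← hprev, Tiling.Z, ← hpL]
      rw [← h1, hZ, hVdef]
      ring
    obtain ⟨k, hk, hkV⟩ := dir_aux hab hl2 hl1 hlt hLpos hP'
    rcases A.star s y with ⟨n, -, -, -, hD⟩ | ⟨m, i, him, -, hm2, -, hpi, -, hin, hout, hlow, -⟩
    · exfalso
      refine A.sd_not_mem hnb ?_ hD
      exact ⟨_, right_mem_segment ℝ _ _, rfl⟩
    have hi1 := hpi hnbp
    have hm : (m : ℝ) = i + 1 := by exact_mod_cast hi1.symm
    have hend : -((i : ℝ) * τ.ang s) + m * τ.ang s = τ.ang s := by rw [hm]; ring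
    have hα : (m : ℝ) * τ.ang s ≠ Real.pi := by
      intro hpi'
      obtain ⟨y', l'', hn'', hseg⟩ := hlow
      refine contra_aux A hab hl2 hk hkV hmax hrad hn'' fun ρ h0 h1 => ?_
      have h2 := hseg ρ h0 h1
      have h3 : A.Z s y ρ (-((i : ℝ) * τ.ang s)) = A.g y (τ.p s) - ρ * V := by
        rw [hZ, hVdef]
        have h4 : (-((i : ℝ) * τ.ang s) : ℝ) = τ.ang s - Real.pi := by
          rw [← hpi']
          linarith
        rw [h4]
        have h5 : (η : ℂ) * ((τ.ang s - Real.pi : ℝ) : ℂ) * I =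
            η * τ.ang s * I - η * Real.pi * I := by
          push_cast
          ring
        rw [h5, exp_sub]
        have h6 : exp (η * Real.pi * I) = -1 := by
          rcases hη with rfl | rfl
          · rw [ofReal_one, one_mul, exp_pi_mul_I]
          · have : ((-1 : ℝ) : ℂ) * Real.pi * I = -(Real.pi * I) := by push_cast; ring
            rw [this, exp_neg, exp_pi_mul_I]
            norm_num
        rw [h6]
        ring
      rw [h3] at h2
      exact h2
    have hmpos : (0 : ℝ) < m := by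
      rw [hm]
      positivity
    obtain ⟨u, hsec, -, hu⟩ := sec_of_frame (D := D) (P := A.g y (τ.p s)) (U := U) (η := η)
      (ψ₀ := -((i : ℝ) * τ.ang s)) (α := m * τ.ang s) (r := τ.rad s) hU hη
      (mul_pos hmpos hang) hm2 hrad
      (fun ρ ψ h0 h1 h2 h3 => by
        rw [← hZ]
        refine hin ρ ψ h0 h1 h2 ?_
        rw [hend] at h3
        have : ((m : ℝ) - i) * τ.ang s = τ.ang s := by rw [hm]; ring
        rw [this]
        exact h3)
      (fun ρ h0 h1 => by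
        rw [← hZ, ← hZ]
        have h2 := hout ρ h0 h1
        have h3 : ((m : ℝ) - i) * τ.ang s = -((i : ℝ) * τ.ang s) + m * τ.ang s := by ring
        rw [h3] at h2
        exact h2)
    refine finish_aux A (k := k) hl2 hVn hkV ⟨m * τ.ang s, τ.rad s, hα, ?_⟩
    have hVe : U * exp (η * ((-((i : ℝ) * τ.ang s) + m * τ.ang s : ℝ) : ℂ) * I) = V := by
      rw [hend]
    rcases hu with ⟨-, h2⟩ | ⟨h1, -⟩
    · refine Or.inr ⟨u, hsec, ?_⟩
      rw [← hVe, ← h2]
    · refine Or.inl ?_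
      change Sec D (A.g y (τ.p s)) V _ _
      rw [← hVe, ← h1]
      exact hsec
  · -- the maximum is at the beginning of the side
    rw [max_eq_left hlt.le] at hmax
    obtain ⟨U, η, hU, hη, hZ⟩ := A.Z_polar s₀ y
    obtain ⟨-, -, hang, -, hrad, ⟨L, hL, hpL⟩, -, -, -⟩ := τ.frame_spec s₀
    have hLpos : 0 < L := lt_of_lt_of_le hrad hL
    have hexp0 : exp (η * ((0 : ℝ) : ℂ) * I) = 1 := by
      rw [ofReal_zero, mul_zero, zero_mul, exp_zero]
    have hP' : A.g y (τ.p (τ.next s₀)) = A.g y (τ.p s₀) + L * U := by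
      have h1 : A.Z s₀ y L 0 = A.g y (τ.p (τ.next s₀)) := by
        rw [Tiling.Z, ofReal_zero, mul_zero, zero_mul, exp_zero, mul_one, ← hpL]
      rw [← h1, hZ, hexp0, mul_one]
    obtain ⟨k, hk, hkU⟩ := dir_aux hab hl1 hl2 hlt hLpos hP'
    rcases A.star s₀ y with ⟨n, -, -, -, hD⟩ | ⟨m, i, him, -, hm2, hi0, -, -, hin, hout, -, hup⟩
    · exfalso
      refine A.sd_not_mem hnb ?_ hD
      exact ⟨_, left_mem_segment ℝ _ _, rfl⟩
    have hi := hi0 hnb
    subst hi
    have hmpos : (0 : ℝ) < m := by exact_mod_cast him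
    have hα : (m : ℝ) * τ.ang s₀ ≠ Real.pi := by
      intro hpi'
      obtain ⟨y', l'', hn'', hseg⟩ := hup
      refine contra_aux A hab hl1 hk hkU hmax hrad hn'' fun ρ h0 h1 => ?_
      have h2 := hseg ρ h0 h1
      have h3 : A.Z s₀ y ρ (((m : ℝ) - (0 : ℕ)) * τ.ang s₀) = A.g y (τ.p s₀) - ρ * U := by
        rw [hZ, Nat.cast_zero, sub_zero, hpi']
        have h6 : exp (η * Real.pi * I) = -1 := by
          rcases hη with rfl | rfl
          · rw [ofReal_one, one_mul, exp_pi_mul_I]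
          · have : ((-1 : ℝ) : ℂ) * Real.pi * I = -(Real.pi * I) := by push_cast; ring
            rw [this, exp_neg, exp_pi_mul_I]
            norm_num
        rw [h6]
        ring
      rw [h3] at h2
      exact h2
    obtain ⟨u, hsec, -, hu⟩ := sec_of_frame (D := D) (P := A.g y (τ.p s₀)) (U := U) (η := η)
      (ψ₀ := 0) (α := m * τ.ang s₀) (r := τ.rad s₀) hU hη (mul_pos hmpos hang) hm2 hrad
      (fun ρ ψ h0 h1 h2 h3 => by
        rw [← hZ]
        refine hin ρ ψ h0 h1 ?_ ?_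
        · simpa using h2
        · simpa using h3)
      (fun ρ h0 h1 => by
        rw [← hZ, ← hZ]
        have h2 := hout ρ h0 h1
        simpa using h2)
    refine finish_aux A (k := k) hl1 hU hkU ⟨m * τ.ang s₀, τ.rad s₀, hα, ?_⟩
    rcases hu with ⟨h1, -⟩ | ⟨-, h2⟩
    · refine Or.inl ?_
      change Sec D (A.g y (τ.p s₀)) U _ _
      rw [hexp0, mul_one] at h1
      rw [← h1]
      exact hsec
    · refine Or.inr ⟨u, hsec, ?_⟩
      rw [hexp0, mul_one] at h2
      exact h2.symm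

end Pool.Agent.MP4eed4e
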