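import Mathlib
import Pool.Agent.Lib.MP_4eed4e_an.LegPth
import Pool.Agent.Lib.MP_4eed4e_an.FoldPiece
import Pool.Agent.Lib.MP_4eed4e_an.Flag
import Pool.Agent.Lib.MP_4eed4e_an.SideLine
import Pool.Agent.Lib.MP_4eed4e_an.CRcard

/-!
Loops at a singular corner with prescribed reflections.
-/

namespace Pool.Agent.MP4eed4e

open Set MeasureTheory

variable {τ : Tile} {D : Set ℂ}

private theorem Loop_norm {z : ℂ × ℂ} (hz : z ∈ CR D) : ‖z.2‖ = 1 := by
  obtain ⟨α, r, _, h⟩ := hz
  rcases h with h | ⟨u, h, hu⟩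
  · exact h.1
  · rw [hu, norm_mul, h.1, Complex.norm_exp_ofReal_mul_I, one_mul]

private theorem Loop_ne {z : ℂ × ℂ} (hz : z ∈ CR D) : z.1 ≠ z.1 + z.2 := by
  intro h
  have h2 : z.2 = 0 := by
    have := congrArg (fun t => t - z.1) h
    simpa using this.symm
  have := Loop_norm hz
  rw [h2, norm_zero] at this
  exact zero_ne_one this

private theorem Loop_lines (A : Tiling τ D) {n : ℕ} (hn : (CR D).ncard ≤ n) (hne : (CR D).Nonempty) :
    ∃ a b : Fin n → ℂ, (∀ i, a i ≠ b i) ∧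
      frontier D ⊆ ⋃ i, {z | lam (a i) (b i) z = 0} := by
  have hfin := A.cr_finite
  haveI : Fintype (CR D) := hfin.fintype
  haveI : Nonempty (CR D) := hne.to_subtype
  have hc : Fintype.card (CR D) ≤ Fintype.card (Fin n) := by
    rw [Fintype.card_fin, ← Nat.card_eq_fintype_card]
    exact hn
  obtain ⟨e⟩ := Function.Embedding.nonempty_of_card_le hc
  have hsurj : Function.Surjective (Function.invFun e) := Function.invFun_surjective e.injective
  refine ⟨fun i => (Function.invFun e i).1.1,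
    fun i => (Function.invFun e i).1.1 + (Function.invFun e i).1.2,
    fun i => Loop_ne (Function.invFun e i).2, ?_⟩
  intro z hz
  rw [A.frontier_eq] at hz
  obtain ⟨⟨⟨x, l⟩, hxl⟩, hz⟩ := mem_iUnion.1 hz
  obtain ⟨v, hv, rfl⟩ := hz
  obtain ⟨ζ, hζ, hne', heq⟩ := A.side_line hxl
  obtain ⟨i, hi⟩ := hsurj ⟨ζ, hζ⟩
  refine mem_iUnion.2 ⟨i, ?_⟩
  simp only [mem_setOf_eq, hi]
  rw [← refl_eq_self_iff hne', ← reflI_apply hne', ← heq]
  have h1 : refl (τ.p l) (τ.p (τ.next l)) v = v :=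
    (refl_eq_self_iff (τ.p_ne l) v).2 (lam_of_mem_segment hv)
  show A.g x (τ.rf l ((A.g x).symm (A.g x v))) = A.g x v
  rw [IsometryEquiv.symm_apply_apply]
  congr 1

/-- Loops with the reflections in the boundary sides of a list. -/
theorem Tiling.loop (A : Tiling τ D) {n : ℕ} (hn : (CR D).ncard ≤ n) {L : ℝ}
    (hL : ∀ a ∈ closure D, ∀ c ∈ closure D, dist a c ≤ L) {p q : ℂ} (hS : Sg D p q)
    (ls : List {z : A.X × τ.S // A.nb z.2 z.1 = z.1}) {V N : Set ℂ} (hV : V.Countable)
    (hN : volume N = 0) :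
    ∃ k t q', k ≤ (ls.length + 1) * (2 * 2 ^ n + 5) + ls.length + 2 ∧
      Pth D V N (2 * L) k (ls.map fun z => A.g z.1.1 * τ.rf z.1.2 * (A.g z.1.1)⁻¹).prod
        p t p q' ∧ Sg D p t ∧ Sg D p q' := by
  have hO : IsOpen D := A.isOpen
  have hne : (CR D).Nonempty := by
    obtain ⟨u, α, r, ρ₀, θ₀, hSec, hα, _⟩ := hS
    refine ⟨(p, u), α, r, ?_, Or.inl hSec⟩
    have := hα 1
    simpa using this
  obtain ⟨a, b, hab, hf⟩ := Loop_lines A hn hne
  obtain ⟨a', hS', hpa', hseg', hdis', haD', haN', _⟩ := sg_generic hS hV hN 1 one_pos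
  have hLnn : 0 ≤ L := by
    have := hL a' (subset_closure haD') a' (subset_closure haD')
    rwa [dist_self] at this
  have hR : ∀ x ∈ D, ∀ y ∈ D, dist x y ≤ 2 * L := fun x hx y hy => by
    have := hL x (subset_closure hx) y (subset_closure hy)
    linarith
  have hpc : p ∈ closure D := by
    have h1 : p ∈ segment ℝ p a' := left_mem_segment ℝ p a'
    rw [← closure_openSegment] at h1
    exact closure_mono hseg' h1
  have hleg : ∀ x ∈ D, ∀ y ∈ D, y ∉ N → ∃ l, l ≤ 2 * 2 ^ n + 5 ∧ Leg D V N l x y := by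
    intro x hx y hy hyN
    obtain ⟨k, hk, hs⟩ := seg_exists hO A.conn a b hab hf hx hy
    obtain ⟨l, hl, hl'⟩ := leg_exists hO hV hN hs hyN
    exact ⟨l, by omega, hl'⟩
  have claim : ∀ ls : List {z : A.X × τ.S // A.nb z.2 z.1 = z.1}, ∀ x ∈ D,
      ∃ k t q', k ≤ (ls.length + 1) * (2 * 2 ^ n + 5) + ls.length + 1 ∧
        Pth D V N (2 * L) k (ls.map fun z => A.g z.1.1 * τ.rf z.1.2 * (A.g z.1.1)⁻¹).prod
          x t p q' ∧ Sg D p q' := by
    intro ls
    induction ls with
    | nil =>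
      intro x hx
      have hp1 : Pth D V N (2 * L) 1 1 a' p p a' := by
        have hb : Bil D univ 0 1 a' p := Bil.nil a' p (by rwa [openSegment_symm])
        have hd : dist a' p ≤ 2 * L := by
          have := hL a' (subset_closure haD') p hpc
          linarith
        have := Pth.last (V := V) (N := N) (R := 2 * L) 0 1 a' p hb hpa'.symm
          (by rwa [openSegment_symm]) hd
        simpa using this
      obtain ⟨l, hl, hleg'⟩ := hleg x hx a' haD' haN'
      obtain ⟨t', ht'⟩ := Leg.pth hR hleg' hp1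
      refine ⟨l + 1, t', a', ?_, ?_, hS'⟩
      · simp only [List.length_nil]
        omega
      · simpa using ht'
    | cons z ls' ih =>
      intro x hx
      obtain ⟨y, y', hyD, hyD', hyN, hyN', hBil, hyne, hydis, hydist⟩ :=
        A.fold_piece z.2 hV hN
      set S : Iso := A.g z.1.1 * τ.rf z.1.2 * (A.g z.1.1)⁻¹ with hSdef
      obtain ⟨k, t, q', hk, hp, hsg⟩ := ih y' hyD'
      have hinv : S⁻¹ (S y') = y' := S.symm_apply_apply y'
      have hp2 := Pth.turn (V := V) (N := N) (R := 2 * L) k 1 S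
        (ls'.map fun z => A.g z.1.1 * τ.rf z.1.2 * (A.g z.1.1)⁻¹).prod y (S y') t p q'
        hBil hyne hydis (hydist L hL) (by rwa [hinv]) (by rwa [hinv]) (by rwa [hinv])
      obtain ⟨l, hl, hleg'⟩ := hleg x hx y hyD hyN
      obtain ⟨t', ht'⟩ := Leg.pth hR hleg' hp2
      refine ⟨l + (k + 1), t', q', ?_, ?_, hsg⟩
      · simp only [List.length_cons]
        have : (ls'.length + 1 + 1) * (2 * 2 ^ n + 5) =
            (ls'.length + 1) * (2 * 2 ^ n + 5) + (2 * 2 ^ n + 5) := by ring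
        omega
      · simpa using ht'
  obtain ⟨k, t, q', hk, hp, hsg⟩ := claim ls a' haD'
  refine ⟨k + 1, a', q', by omega, ?_, hS', hsg⟩
  have hb : Bil D univ 0 1 p a' := Bil.nil p a' hseg'
  have hd : dist p a' ≤ 2 * L := by
    have := hL p hpc a' (subset_closure haD')
    linarith
  have := Pth.turn (V := V) (N := N) (R := 2 * L) k 0 1
    (ls.map fun z => A.g z.1.1 * τ.rf z.1.2 * (A.g z.1.1)⁻¹).prod p a' t p q' hb hpa' hdis' hd
    (by simpa using haD') (by simpa using haN') (by simpa using hp)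
  simpa using this

end Pool.Agent.MP4eed4e
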