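import Mathlib
import Pool.Agent.Lib.MP_4eed4e_an.FinRec
import Pool.Agent.Lib.MP_4eed4e_an.Loop
import Pool.Agent.Lib.MP_4eed4e_an.SideLine
import Pool.Agent.Lib.MP_4eed4e_an.CRcard
import Pool.Agent.Lib.MP_4eed4e_an.Length
import Pool.Agent.Lib.MP_4eed4e_an.Diam

/-!
Domains with controlled displacements, number of corners and boundary length.
-/

namespace Pool.Agent.MP4eed4e

open Set MeasureTheory

theorem final_finite (F : ℕ → ℝ → Set ℝ) (hF : ∀ K R, (F K R).Finite) (n : ℕ)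
    (L : ENNReal) (hL : L < ⊤) :
    ∃ G : Set (Set ℂ), G.Finite ∧ ∀ (D : Set ℂ) (τ : Tile) (A : Tiling τ D),
      (∃ P q, Sg D P q) → (CR D).ncard ≤ n → Measure.hausdorffMeasure 1 (frontier D) ≤ L →
      DispProp F D → ∃ K ∈ G, ∃ φ : Iso, φ '' K = D := by
  set K : ℕ := 4 * (2 * 2 ^ n + 5) + 5 with hK
  set L0 : ℝ := L.toReal with hL0
  obtain ⟨G, hG, hG2⟩ := rec_finite (F K (2 * L0)) (hF K (2 * L0))
  refine ⟨G, hG, ?_⟩
  rintro D τ A ⟨p, q, hS⟩ hn hLen hD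
  obtain ⟨V, N, hV, hN, hDisp⟩ := hD K (2 * L0)
  have hdist : ∀ a ∈ closure D, ∀ c ∈ closure D, dist a c ≤ L0 := by
    intro a ha c hc
    have h1 := (dist_le_length A.conn A.bounded ha hc).trans hLen
    rw [edist_dist] at h1
    exact (ENNReal.ofReal_le_iff_le_toReal hL.ne).1 h1
  let Sz : {z : A.X × τ.S // A.nb z.2 z.1 = z.1} → Iso :=
    fun z => A.g z.1.1 * τ.rf z.1.2 * (A.g z.1.1)⁻¹
  refine hG2 D (Set.range Sz) p A.reg A.bounded A.conn.nonempty ?_ (Set.finite_range _) ?_ ?_ ?_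
  · rintro _ ⟨z, rfl⟩
    exact ⟨_, _, _, reflI_conj (A.g z.1.1) (τ.p_ne z.1.2)⟩
  · intro w hw
    rw [A.frontier_eq, mem_iUnion] at hw
    obtain ⟨z, v, hv, rfl⟩ := hw
    refine ⟨Sz z, mem_range_self z, ?_⟩
    show A.g z.1.1 (τ.rf z.1.2 ((A.g z.1.1).symm (A.g z.1.1 v))) = A.g z.1.1 v
    rw [IsometryEquiv.symm_apply_apply]
    congr 1
    show refl _ _ v = v
    rw [refl_eq_self_iff (τ.p_ne z.1.2)]
    exact lam_of_mem_segment hv
  · rintro _ ⟨z, rfl⟩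
    obtain ⟨k, t, q', hk, hp, h1, h2⟩ := A.loop hn hdist hS [z] hV hN
    rw [List.map_singleton, List.prod_singleton] at hp
    refine hDisp k (Sz z) p t p q' (hk.trans ?_) hp h1 h2
    rw [List.length_singleton, hK]
    omega
  · rintro _ ⟨z₀, rfl⟩ _ ⟨z, rfl⟩
    obtain ⟨k, t, q', hk, hp, h1, h2⟩ := A.loop hn hdist hS [z₀, z, z₀] hV hN
    rw [List.map_cons, List.map_cons, List.map_singleton, List.prod_cons, List.prod_cons,
      List.prod_singleton] at hp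
    have h3 := hDisp k (Sz z₀ * (Sz z * Sz z₀)) p t p q' (hk.trans ?_) hp h1 h2
    · exact h3
    · simp only [List.length_cons, List.length_nil, hK]
      omega

end Pool.Agent.MP4eed4e
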