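import Mathlib
import Pool.Agent.Lib.MP_4eed4e_an.BilRun
import Pool.Agent.Lib.MP_4eed4e_an.GermA
import Pool.Agent.Lib.MP_4eed4e_an.Loc
import Pool.Agent.Lib.MP_4eed4e_an.Words

/-!
From paths in `D` to paths through tiles.
-/

namespace Pool.Agent.MP4eed4e

open Set

variable {τ : Tile} {D : Set ℂ}

private theorem pthRunA_end {φ ψ w δ : Iso} (h : φ * δ = w * ψ) (t : ℂ) :
    w⁻¹ t = ψ (δ⁻¹ (φ⁻¹ t)) := by
  have h1 : w⁻¹ = ψ * (δ⁻¹ * φ⁻¹) := by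
    rw [inv_eq_iff_mul_eq_one, ← mul_assoc, ← h, mul_assoc, mul_inv_cancel_left, mul_inv_cancel]
  exact congrArg (fun χ : Iso => χ t) h1

private theorem pthRunA_inv (φ : Iso) (z : ℂ) : φ (φ⁻¹ z) = z :=
  IsometryEquiv.apply_symm_apply φ z

private theorem pthRunA_inv' (φ : Iso) (z : ℂ) : φ⁻¹ (φ z) = z :=
  IsometryEquiv.symm_apply_apply φ z

private theorem pthRunA_disjoint (φ : Iso) {V VT : Set ℂ} (hV : φ '' VT ⊆ V) {c t : ℂ}
    (h : Disjoint (openSegment ℝ c t) V) : Disjoint (openSegment ℝ (φ⁻¹ c) (φ⁻¹ t)) VT := by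
  rw [Set.disjoint_left]
  intro z hz hzV
  have h1 : φ z ∈ φ '' openSegment ℝ (φ⁻¹ c) (φ⁻¹ t) := mem_image_of_mem _ hz
  rw [iso_openSegment, pthRunA_inv, pthRunA_inv] at h1
  exact Set.disjoint_left.1 h h1 (hV (mem_image_of_mem _ hzV))

private theorem pthRunA_closure {U : Set ℂ} {c q : ℂ} (h : Germ U c q) : c ∈ closure U := by
  obtain ⟨z, -, hs⟩ := h
  exact closure_mono hs (segment_subset_closure_openSegment (left_mem_segment ℝ c z))

private theorem pthRunA_germ {U : Set ℂ} (hU : IsOpen U) {c : ℂ} (hc : c ∈ U) (q : ℂ) :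
    Germ U c q := by
  obtain ⟨ε, hε, hb⟩ := Metric.isOpen_iff.mp hU c hc
  have hcont : Continuous fun s : ℝ => (1 - s) • c + s • q := by fun_prop
  have h0 : ((1 : ℝ) - 0) • c + (0 : ℝ) • q = c := by simp
  have h1 : ∀ᶠ s in nhds (0 : ℝ), (1 - s) • c + s • q ∈ Metric.ball c ε := by
    have h2 := hcont.continuousAt (x := (0 : ℝ))
    rw [ContinuousAt, h0] at h2
    exact h2.eventually (Metric.ball_mem_nhds c hε)
  have h3 : ∀ᶠ s in nhdsWithin (0 : ℝ) (Ioi 0), (1 - s) • c + s • q ∈ Metric.ball c ε :=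
    h1.filter_mono nhdsWithin_le_nhds
  have h4 : ∀ᶠ s in nhdsWithin (0 : ℝ) (Ioi 0), s ∈ Ioo (0 : ℝ) 1 :=
    Ioo_mem_nhdsGT zero_lt_one
  obtain ⟨s, hs1, hs2⟩ := (h3.and h4).exists
  refine ⟨(1 - s) • c + s • q, ⟨1 - s, s, by linarith [hs2.2], hs2.1, by ring, rfl⟩, ?_⟩
  refine Subset.trans ?_ hb
  exact (openSegment_subset_segment _ _ _).trans
    ((convex_ball c ε).segment_subset (Metric.mem_ball_self hε) hs1)

theorem Tiling.pth_run (A : Tiling τ D) {V N VT NT : Set ℂ} {R : ℝ}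
    (hV : ∀ x, A.g x '' τ.Spec ⊆ V) (hVr : ∀ x s, (A.g x * τ.rf s * (A.g x)⁻¹) '' V ⊆ V)
    (hVT : ∀ x, A.g x '' VT ⊆ V) (hNT : ∀ x, A.g x '' NT ⊆ N)
    (hN : ∀ x s, A.g x '' τ.sd s ⊆ N) {k : ℕ} {w : Iso} {c q e q' : ℂ}
    (h : Pth D V N R k w c q e q') (x : A.X) (hg : Germ (A.g x '' τ.T) c q) :
    ∃ g eT qT, τ.PRun VT NT R k g ((A.g x)⁻¹ c) ((A.g x)⁻¹ q) eT qT ∧
      A.g x * τ.dev g = w * A.g (A.act g x) ∧ e = A.g (A.act g x) eT ∧
      q' = A.g (A.act g x) qT := by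
  induction h generalizing x with
  | last n w c t hb hne hd hR =>
    obtain ⟨g, hr, hw⟩ := A.bil_run hV hVr hb hne hd x hg
    refine ⟨g, _, _, Tile.PRun.last g _ _ hr ((A.g x)⁻¹.injective.ne hne)
      (pthRunA_disjoint _ (hVT x) hd) ?_, hw, pthRunA_end hw t, pthRunA_end hw c⟩
    rw [(A.g x)⁻¹.dist_eq]
    exact hR
  | turn k n w₁ w₂ c t t' e q' hb hne hd hR hzD hzN _ ih =>
    obtain ⟨g₁, hr, hw⟩ := A.bil_run hV hVr hb hne hd x hg
    have hz := pthRunA_end hw t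
    have hcl : (τ.dev g₁)⁻¹ ((A.g x)⁻¹ t) ∈ closure τ.T := pthRunA_closure hr.germ_end
    have hzT : w₁⁻¹ t ∈ A.g (A.act g₁ x) '' τ.T := by
      by_contra hnT
      have h1 : w₁⁻¹ t ∈ closure (A.g (A.act g₁ x) '' τ.T) := by
        rw [hz]
        exact image_closure_subset_closure_image (A.g (A.act g₁ x)).continuous
          (mem_image_of_mem _ hcl)
      obtain ⟨s, hs⟩ := A.mem_side h1 hnT
      exact hzN (hN _ s hs)
    have hopen : IsOpen (A.g (A.act g₁ x) '' τ.T) :=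
      (A.g (A.act g₁ x)).toHomeomorph.isOpen_image.mpr τ.isOpen
    obtain ⟨g₂, eT, qT, hP, hw₂, he, hq⟩ := ih (A.act g₁ x) (pthRunA_germ hopen hzT t')
    have hz' : (A.g (A.act g₁ x))⁻¹ (w₁⁻¹ t) = (τ.dev g₁)⁻¹ ((A.g x)⁻¹ t) := by
      rw [hz, pthRunA_inv']
    rw [hz'] at hP
    have hzT' : (τ.dev g₁)⁻¹ ((A.g x)⁻¹ t) ∈ τ.T := by
      obtain ⟨u, hu, hu'⟩ := hzT
      rw [hz] at hu'
      rw [← (A.g (A.act g₁ x)).injective hu']
      exact hu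
    refine ⟨g₁ ++ g₂, eT, qT, ?_, ?_, ?_, ?_⟩
    · refine Tile.PRun.turn k g₁ g₂ _ _ _ _ _ hr ((A.g x)⁻¹.injective.ne hne)
        (pthRunA_disjoint _ (hVT x) hd) ?_ hzT' ?_ hP
      · rw [(A.g x)⁻¹.dist_eq]
        exact hR
      · intro hmem
        apply hzN
        rw [hz]
        exact hNT _ (mem_image_of_mem _ hmem)
    · rw [A.act_append, τ.dev_append, ← mul_assoc, hw, mul_assoc, hw₂, mul_assoc]
    · rw [A.act_append]
      exact he
    · rw [A.act_append]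
      exact hq

end Pool.Agent.MP4eed4e
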