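import Mathlib
import Pool.Agent.Lib.MP_4eed4e_an.RunA
import Pool.Agent.Lib.MP_4eed4e_an.Loc

/-!
From runs through tiles to billiard segments.
-/

namespace Pool.Agent.MP4eed4e

open Set

variable {τ : Tile} {D : Set ℂ}

theorem Tiling.run_bil (A : Tiling τ D) {g : List τ.S} {c d : ℂ} (h : τ.Run g c d) (x : A.X) :
    ∃ n w, Bil D univ n w (A.g x c) (A.g x d) ∧ A.g x * τ.dev g = w * A.g (A.act g x) := by
  induction h generalizing x with
  | nil c d hcd =>
    refine ⟨0, 1, Bil.nil _ _ ?_, ?_⟩
    · rw [← iso_openSegment]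
      exact (Set.image_mono hcd).trans (A.tile_sub x)
    · simp [Tile.dev, Tiling.act]
  | cons s g c d e he hce hes hrun ih =>
    have hseg : openSegment ℝ (A.g x c) (A.g x e) ⊆ D := by
      rw [← iso_openSegment]
      exact (Set.image_mono hce).trans (A.tile_sub x)
    have hee : A.g x e ∈ openSegment ℝ (A.g x c) (A.g x d) := by
      rw [← iso_openSegment]
      exact mem_image_of_mem _ he
    have hre : refl (τ.p s) (τ.p (τ.next s)) e = e :=
      (refl_eq_self_iff (τ.p_ne s) e).mpr
        (lam_of_mem_segment (openSegment_subset_segment ℝ _ _ hes))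
    by_cases hx : A.nb s x = x
    · obtain ⟨n, w, hb, hw⟩ := ih x
      have hne : A.g x (τ.p s) ≠ A.g x (τ.p (τ.next s)) := (A.g x).injective.ne (τ.p_ne s)
      have hS : A.g x * τ.rf s = reflI (A.g x (τ.p s)) (A.g x (τ.p (τ.next s))) hne * A.g x := by
        have := reflI_conj (A.g x) (τ.p_ne s)
        rw [← this, inv_mul_cancel_right]
        rfl
      have hSd : A.g x (τ.rf s d) =
          reflI (A.g x (τ.p s)) (A.g x (τ.p (τ.next s))) hne (A.g x d) :=
        DFunLike.congr_fun hS d
      refine ⟨n + 1, reflI (A.g x (τ.p s)) (A.g x (τ.p (τ.next s))) hne * w,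
        Bil.fold n w _ _ (A.g x e) _ hee hseg
          ⟨A.g x (τ.p s), A.g x (τ.p (τ.next s)), hne, ?_, ?_, rfl⟩ (mem_univ _) ?_, ?_⟩
      · rw [← iso_openSegment]
        exact mem_image_of_mem _ hes
      · rw [← iso_segment]
        exact A.bd s x hx
      · rw [← hSd]
        exact hb
      · change A.g x * (τ.rf s * τ.dev g) = _ * w * A.g (A.act g (A.nb s x))
        rw [hx, ← mul_assoc, hS, mul_assoc, mul_assoc, hw]
    · obtain ⟨n, w, hb, hw⟩ := ih (A.nb s x)
      have hgl : A.g (A.nb s x) = A.g x * τ.rf s := IsometryEquiv.ext fun z => A.glue s x hx z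
      have h1 : A.g (A.nb s x) e = A.g x e := by rw [A.glue s x hx, hre]
      have h2 : A.g (A.nb s x) (τ.rf s d) = A.g x d := by
        rw [A.glue s x hx]
        change A.g x (refl _ _ (refl _ _ d)) = _
        rw [refl_refl (τ.p_ne s)]
      rw [h1, h2] at hb
      refine ⟨n, w, Bil.merge hseg (A.od_sub hx ⟨e, hes, rfl⟩) hee hb, ?_⟩
      change A.g x * (τ.rf s * τ.dev g) = w * A.g (A.act g (A.nb s x))
      rw [← mul_assoc, ← hgl, hw]

end Pool.Agent.MP4eed4e
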