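import Mathlib
import Pool.Agent.Lib.MP_4eed4e_an.RunBil

/-!
From paths through tiles to paths in `D`.
-/

namespace Pool.Agent.MP4eed4e

open Set

variable {τ : Tile} {D : Set ℂ}

private theorem pthRunB_disjoint (φ : Iso) {V VT : Set ℂ} (hV : (φ⁻¹ : Iso) '' V ⊆ VT) {c t : ℂ}
    (h : Disjoint (openSegment ℝ c t) VT) : Disjoint (openSegment ℝ (φ c) (φ t)) V := by
  rw [Set.disjoint_left]
  intro z hz hzV
  rw [← iso_openSegment] at hz
  obtain ⟨w, hw, rfl⟩ := hz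
  refine Set.disjoint_left.1 h hw (hV ⟨φ w, hzV, ?_⟩)
  exact IsometryEquiv.symm_apply_apply φ w

/-- the end of a piece of the path, seen in `D` and in the tile -/
private theorem pthRunB_end {φ ψ w δ : Iso} (h : φ * δ = w * ψ) (t : ℂ) :
    w⁻¹ (φ t) = ψ (δ⁻¹ t) := by
  have h1 : w⁻¹ * φ = ψ * δ⁻¹ := by
    rw [inv_mul_eq_iff_eq_mul, ← mul_assoc, ← h, mul_inv_cancel_right]
  exact congrArg (fun χ : Iso => χ t) h1

theorem Tiling.prun_pth (A : Tiling τ D) {V N VT NT : Set ℂ} {R : ℝ}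
    (hVT : ∀ x, ((A.g x)⁻¹ : Iso) '' V ⊆ VT) (hNT : ∀ x, ((A.g x)⁻¹ : Iso) '' N ⊆ NT) {k : ℕ}
    {g : List τ.S} {c t e q' : ℂ} (h : τ.PRun VT NT R k g c t e q') (x : A.X) :
    ∃ w, Pth D V N R k w (A.g x c) (A.g x t) (A.g (A.act g x) e) (A.g (A.act g x) q') ∧
      A.g x * τ.dev g = w * A.g (A.act g x) := by
  induction h generalizing x with
  | last g c t hr hne hd hR =>
    obtain ⟨n, w, hb, hw⟩ := A.run_bil hr x
    refine ⟨w, ?_, hw⟩
    rw [← pthRunB_end hw t, ← pthRunB_end hw c]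
    exact Pth.last n w _ _ hb ((A.g x).injective.ne hne) (pthRunB_disjoint _ (hVT x) hd)
      (by rw [(A.g x).dist_eq]; exact hR)
  | turn k g₁ g₂ c t t' e q' hr hne hd hR hT hN _ ih =>
    obtain ⟨n, w, hb, hw⟩ := A.run_bil hr x
    obtain ⟨w₂, hP, hw₂⟩ := ih (A.act g₁ x)
    rw [← pthRunB_end hw t] at hP
    refine ⟨w * w₂, ?_, ?_⟩
    · rw [A.act_append]
      refine Pth.turn k n w w₂ _ _ _ _ _ hb ((A.g x).injective.ne hne)
        (pthRunB_disjoint _ (hVT x) hd) (by rw [(A.g x).dist_eq]; exact hR) ?_ ?_ hP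
      · rw [pthRunB_end hw t]
        exact A.tile_sub _ ⟨_, hT, rfl⟩
      · rw [pthRunB_end hw t]
        intro hmem
        apply hN
        apply hNT (A.act g₁ x)
        exact ⟨_, hmem, IsometryEquiv.symm_apply_apply _ _⟩
    · rw [A.act_append, τ.dev_append, ← mul_assoc, hw, mul_assoc, hw₂, mul_assoc]

theorem Tile.PRun.germs {V N : Set ℂ} {R : ℝ} {k : ℕ} {g : List τ.S} {c t e q' : ℂ}
    (h : τ.PRun V N R k g c t e q') : Germ τ.T c t ∧ Germ τ.T e q' ∧ c ≠ t ∧ e ≠ q' := by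
  induction h with
  | last g c t hr hne hd hR =>
    exact ⟨hr.germ_start, hr.germ_end, hne, fun he => hne ((τ.dev g)⁻¹.injective he).symm⟩
  | turn k g₁ g₂ c t t' e q' hr hne hd hR hT hN _ ih =>
    exact ⟨hr.germ_start, ih.2.1, hne, ih.2.2.2⟩

end Pool.Agent.MP4eed4e
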