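import Mathlib
import Pool.Agent.Lib.MP_4eed4e_an.Words
import Pool.Agent.Lib.MP_4eed4e_an.Frame

/-!
Transfer of singular flags connected by a word.
-/

namespace Pool.Agent.MP4eed4e

open Set

variable {τ : Tile} {D D' : Set ℂ}

private theorem tf_ext {X Y : Type} (Ψ : (X → ℝ) ≃ₗ[ℝ] (Y → ℝ)) (G : (X → ℝ) → (X → ℝ))
    (H : (Y → ℝ) → (Y → ℝ)) (hGH : ∀ f, Ψ (G f) = H (Ψ f)) (h0 : ∀ f, G f = 0)
    (f' : Y → ℝ) : H f' = 0 := by
  have h1 := hGH (Ψ.symm f')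
  rw [h0, map_zero, Ψ.apply_symm_apply] at h1
  exact h1.symm

theorem transfer_both {X Y : Type} (Ψ : (X → ℝ) ≃ₗ[ℝ] (Y → ℝ)) (α α' γ : X → X)
    (b b' c : Y → Y) (hα : ∀ f, Ψ (f ∘ α) = (Ψ f) ∘ b) (hα' : ∀ f, Ψ (f ∘ α') = (Ψ f) ∘ b')
    (hγ : ∀ f, Ψ (f ∘ γ) = (Ψ f) ∘ c) (hinj : Function.Injective α)
    (hc : Function.Injective c)
    (h : ∃ y, b y ≠ y ∧ b' (c y) ≠ c y) : ∃ x, α x ≠ x ∧ α' (γ x) ≠ γ x := by
  classical
  by_contra hcon
  push Not at hcon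
  obtain ⟨y, hy1, hy2⟩ := h
  have key := tf_ext Ψ
    (fun f => f ∘ γ - (f ∘ α') ∘ γ - (f ∘ γ) ∘ α + ((f ∘ α') ∘ γ) ∘ α)
    (fun f => f ∘ c - (f ∘ b') ∘ c - (f ∘ c) ∘ b + ((f ∘ b') ∘ c) ∘ b)
    (fun f => by
      simp only [map_add, map_sub, hα, hα', hγ])
    (fun f => by
      funext x
      simp only [Pi.add_apply, Pi.sub_apply, Function.comp_apply, Pi.zero_apply]
      by_cases hx : α x = x
      · rw [hx]; ring
      · have h1 := hcon x hx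
        have h2 := hcon (α x) (fun h3 => hx (hinj h3))
        rw [h1, h2]; ring)
    (fun z => if z = c y then 1 else 0)
  have h1 := congrFun key y
  simp only [Pi.add_apply, Pi.sub_apply, Function.comp_apply, Pi.zero_apply] at h1
  rw [if_neg hy2, if_neg (fun h3 => hy1 (hc h3))] at h1
  simp only [if_true] at h1
  split_ifs at h1 <;> norm_num at h1

theorem transfer_one {X Y : Type} (Ψ : (X → ℝ) ≃ₗ[ℝ] (Y → ℝ)) (α' γ : X → X)
    (b' c : Y → Y) (hα' : ∀ f, Ψ (f ∘ α') = (Ψ f) ∘ b')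
    (hγ : ∀ f, Ψ (f ∘ γ) = (Ψ f) ∘ c)
    (h : ∃ y, b' (c y) ≠ c y) : ∃ x, α' (γ x) ≠ γ x := by
  classical
  by_contra hcon
  push Not at hcon
  obtain ⟨y, hy2⟩ := h
  have key := tf_ext Ψ
    (fun f => f ∘ γ - (f ∘ α') ∘ γ)
    (fun f => f ∘ c - (f ∘ b') ∘ c)
    (fun f => by
      simp only [map_sub, hα', hγ])
    (fun f => by
      funext x
      simp only [Pi.sub_apply, Function.comp_apply, Pi.zero_apply]
      rw [hcon x]; ring)
    (fun z => if z = c y then 1 else 0)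
  have h1 := congrFun key y
  simp only [Pi.sub_apply, Function.comp_apply, Pi.zero_apply] at h1
  rw [if_neg hy2] at h1
  simp at h1

theorem Tiling.transfer (A : Tiling τ D) (B : Tiling τ D') (Ψ : (A.X → ℝ) ≃ₗ[ℝ] (B.X → ℝ))
    (h : ∀ s f, Ψ (f ∘ A.nb s) = (Ψ f) ∘ B.nb s) (s s' : τ.S) (g : List τ.S) (y : B.X)
    (h1 : B.SingFlag s y) (h2 : B.SingFlag s' (B.act g y)) :
    ∃ x, A.SingFlag s x ∧ A.SingFlag s' (A.act g x) := by
  have hrot : ∀ (t : τ.S) (k : ℕ) (f : A.X → ℝ),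
      Ψ (f ∘ (A.rot t)^[k]) = (Ψ f) ∘ (B.rot t)^[k] := by
    intro t k f
    have h3 := intertwine_act A B Ψ h (τ.rw t k) f
    have h4 : A.act (τ.rw t k) = (A.rot t)^[k] := funext fun x => A.act_rw t k x
    have h5 : B.act (τ.rw t k) = (B.rot t)^[k] := funext fun x => B.act_rw t k x
    rw [h4, h5] at h3
    exact h3
  have hinj : ∀ (t : τ.S) (k : ℕ), Function.Injective (A.rot t)^[k] := by
    intro t k
    have h4 : A.act (τ.rw t k) = (A.rot t)^[k] := funext fun x => A.act_rw t k x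
    rw [← h4]
    exact (A.act_bijective _).1
  have hg := intertwine_act A B Ψ h g
  rcases h1 with h1 | ⟨k, hk, hkp, h1⟩
  · rcases h2 with h2 | ⟨k', hk', hkp', h2⟩
    · have hne : Nonempty A.X := by
        by_contra hemp
        rw [not_nonempty_iff] at hemp
        have h3 : (fun _ => (1 : ℝ)) = (0 : B.X → ℝ) := by
          rw [← Ψ.apply_symm_apply (fun _ => (1 : ℝ)), ← map_zero Ψ]
          exact congrArg Ψ (Subsingleton.elim _ _)
        have h4 := congrFun h3 y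
        simp at h4
      obtain ⟨x⟩ := hne
      exact ⟨x, Or.inl h1, Or.inl h2⟩
    · obtain ⟨x, hx⟩ := transfer_one Ψ ((A.rot s')^[k']) (A.act g) ((B.rot s')^[k']) (B.act g)
        (hrot s' k') hg ⟨y, h2⟩
      exact ⟨x, Or.inl h1, Or.inr ⟨k', hk', hkp', hx⟩⟩
  · rcases h2 with h2 | ⟨k', hk', hkp', h2⟩
    · obtain ⟨x, hx⟩ := transfer_one Ψ ((A.rot s)^[k]) id ((B.rot s)^[k]) id
        (hrot s k) (fun f => rfl) ⟨y, h1⟩
      exact ⟨x, Or.inr ⟨k, hk, hkp, hx⟩, Or.inl h2⟩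
    · obtain ⟨x, hx, hx'⟩ := transfer_both Ψ ((A.rot s)^[k]) ((A.rot s')^[k']) (A.act g)
        ((B.rot s)^[k]) ((B.rot s')^[k']) (B.act g) (hrot s k) (hrot s' k') hg (hinj s k)
        (B.act_bijective g).1 ⟨y, h1, h2⟩
      exact ⟨x, Or.inr ⟨k, hk, hkp, hx⟩, Or.inr ⟨k', hk', hkp', hx'⟩⟩

end Pool.Agent.MP4eed4e
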