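import Mathlib
import Pool.Agent.Lib.MP_4eed4e_an.PthRunA
import Pool.Agent.Lib.MP_4eed4e_an.PthRunB
import Pool.Agent.Lib.MP_4eed4e_an.Flag
import Pool.Agent.Lib.MP_4eed4e_an.Transfer

/-!
Displacements of singular paths are transferred by a transplantation.
-/

namespace Pool.Agent.MP4eed4e

open Set MeasureTheory

variable {τ : Tile} {D D' : Set ℂ}

/-- isometries map null sets to null sets -/
private theorem stepDisp_null_image (φ : Iso) {N : Set ℂ} (hN : volume N = 0) :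
    volume (φ '' N) = 0 := by
  obtain ⟨a, b, -, h⟩ := iso_form φ
  apply addHaar_image_eq_zero_of_differentiableOn_of_addHaar_eq_zero _ _ hN
  rcases h with h | h
  · have h1 : (φ : ℂ → ℂ) = fun z => a * z + b := funext h
    rw [h1]
    fun_prop
  · have h1 : (φ : ℂ → ℂ) = fun z => a * Complex.conjCLE z + b := funext h
    rw [h1]
    exact ((Complex.conjCLE.differentiable.const_mul a).add_const b).differentiableOn

/-- segments are null sets -/
private theorem stepDisp_null_segment (a b : ℂ) : volume (segment ℝ a b) = 0 := by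
  have h1 : (Submodule.span ℝ {b - a} : Submodule ℝ ℂ) ≠ ⊤ := by
    intro h
    have h2 := finrank_span_le_card (R := ℝ) ({b - a} : Set ℂ)
    rw [h, finrank_top, Complex.finrank_real_complex] at h2
    simp at h2
  have h2 : volume ((Submodule.span ℝ {b - a} : Submodule ℝ ℂ) : Set ℂ) = 0 :=
    Measure.addHaar_submodule _ _ h1
  have h3 : volume ((fun z : ℂ => z + -a) ⁻¹'
      ((Submodule.span ℝ {b - a} : Submodule ℝ ℂ) : Set ℂ)) = 0 := by
    rw [measure_preimage_add_right]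
    exact h2
  refine measure_mono_null ?_ h3
  rw [segment_eq_image_lineMap]
  rintro _ ⟨t, _, rfl⟩
  rw [mem_preimage, SetLike.mem_coe, Submodule.mem_span_singleton]
  exact ⟨t, by rw [AffineMap.lineMap_apply, vsub_eq_sub, vadd_eq_add, add_neg_cancel_right]⟩

private theorem stepDisp_openSegment_subset {c q z : ℂ} (hz : z ∈ openSegment ℝ c q) :
    openSegment ℝ c z ⊆ openSegment ℝ c q := by
  rintro w ⟨a, b, ha, hb, hab, rfl⟩
  obtain ⟨a', b', ha', hb', hab', rfl⟩ := hz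
  refine ⟨a + b * a', b * b', by positivity, by positivity, ?_, ?_⟩
  · have : a' = 1 - b' := by linarith
    rw [this]
    linear_combination hab
  · simp only [Complex.real_smul]
    push_cast
    ring

/-- the generators of the group of isometries which is used in the proof -/
private noncomputable def stepDisp_gen (B : Tiling τ D') : (B.X ⊕ B.X) ⊕ τ.S → Iso
  | Sum.inl (Sum.inl y) => B.g y
  | Sum.inl (Sum.inr y) => (B.g y)⁻¹
  | Sum.inr s => τ.rf s

theorem step_disp (A : Tiling τ D) (B : Tiling τ D') (Ψ : (A.X → ℝ) ≃ₗ[ℝ] (B.X → ℝ))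
    (h : ∀ s f, Ψ (f ∘ A.nb s) = (Ψ f) ∘ B.nb s) {F : ℕ → ℝ → Set ℝ} (hF : DispProp F D) :
    DispProp F D' := by
  intro K R
  obtain ⟨V, N, hVc, hN0, hdisp⟩ := hF K R
  let VT : Set ℂ := ⋃ x, ((A.g x)⁻¹ : Iso) '' V
  let NT : Set ℂ := ⋃ x, ((A.g x)⁻¹ : Iso) '' N
  have hVTc : VT.Countable := countable_iUnion fun x => hVc.image _
  have hNT0 : volume NT = 0 := measure_iUnion_null fun x => stepDisp_null_image _ hN0
  let V' : Set ℂ := ⋃ l : List ((B.X ⊕ B.X) ⊕ τ.S),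
    (l.map (stepDisp_gen B)).prod '' (τ.Spec ∪ VT)
  let N' : Set ℂ := (⋃ y, B.g y '' NT) ∪ ⋃ y, ⋃ s, B.g y '' τ.sd s
  have hV'c : V'.Countable :=
    countable_iUnion fun l => (τ.spec_countable.union hVTc).image _
  have hN'0 : volume N' = 0 :=
    measure_union_null (measure_iUnion_null fun y => stepDisp_null_image _ hNT0)
      (measure_iUnion_null fun y => measure_iUnion_null fun s =>
        stepDisp_null_image _ (stepDisp_null_segment _ _))
  have hV : ∀ y, B.g y '' τ.Spec ⊆ V' := by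
    rintro y _ ⟨z, hz, rfl⟩
    refine mem_iUnion.2 ⟨[Sum.inl (Sum.inl y)], z, Or.inl hz, ?_⟩
    simp [stepDisp_gen]
  have hVT : ∀ y, B.g y '' VT ⊆ V' := by
    rintro y _ ⟨z, hz, rfl⟩
    refine mem_iUnion.2 ⟨[Sum.inl (Sum.inl y)], z, Or.inr hz, ?_⟩
    simp [stepDisp_gen]
  have hVr : ∀ y s, (B.g y * τ.rf s * (B.g y)⁻¹) '' V' ⊆ V' := by
    rintro y s _ ⟨z, hz, rfl⟩
    obtain ⟨l, z0, hz0, rfl⟩ := mem_iUnion.1 hz
    refine mem_iUnion.2 ⟨Sum.inl (Sum.inl y) :: Sum.inr s :: Sum.inl (Sum.inr y) :: l, z0, hz0, ?_⟩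
    simp [stepDisp_gen, IsometryEquiv.mul_apply]
  have hNT : ∀ y, B.g y '' NT ⊆ N' := fun y z hz => Or.inl (mem_iUnion.2 ⟨y, hz⟩)
  have hNs : ∀ y s, B.g y '' τ.sd s ⊆ N' := fun y s z hz =>
    Or.inr (mem_iUnion.2 ⟨y, mem_iUnion.2 ⟨s, hz⟩⟩)
  refine ⟨V', N', hV'c, hN'0, ?_⟩
  intro k w c q e q' hk hP hS hS'
  obtain ⟨hcq, hdV, z, hz, hzD⟩ := hP.start
  have hcz : c ≠ z := by
    rintro rfl
    exact hcq (left_mem_openSegment_iff.1 hz)
  have hdz : Disjoint (openSegment ℝ c z) V' := hdV.mono_left (stepDisp_openSegment_subset hz)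
  obtain ⟨y, hy⟩ := B.exists_germ hV hcz hzD hdz
  have hy' : Germ (B.g y '' τ.T) c q := (Germ.of_mem hz).2 hy
  obtain ⟨s, hs, hfl⟩ := B.flag_of_sg hS hy'
  obtain ⟨g, eT, qT, hrun, hdev, he, hq'⟩ := B.pth_run hV hVr hVT hNT hNs hP y hy'
  have hc0 : (B.g y)⁻¹ c = τ.p s := by
    rw [hs]
    exact IsometryEquiv.symm_apply_apply _ _
  rw [hc0] at hrun
  obtain ⟨hgS, hgE, hneS, hneE⟩ := hrun.germs
  have hge : Germ (B.g (B.act g y) '' τ.T) e q' := by
    rw [he, hq']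
    exact (Germ.image _).2 hgE
  obtain ⟨s', hs', hfl'⟩ := B.flag_of_sg hS' hge
  have heT : eT = τ.p s' := (B.g _).injective (he.symm.trans hs')
  obtain ⟨x, hx, hx'⟩ := Tiling.transfer A B Ψ h s s' g y hfl hfl'
  obtain ⟨w2, hP2, hdev2⟩ := A.prun_pth (V := V) (N := N) (VT := VT) (NT := NT)
    (fun x => subset_iUnion (fun x => ((A.g x)⁻¹ : Iso) '' V) x)
    (fun x => subset_iUnion (fun x => ((A.g x)⁻¹ : Iso) '' N) x) hrun x
  have hS1 : Sg D (A.g x (τ.p s)) (A.g x ((B.g y)⁻¹ q)) :=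
    A.sg_of_flag hx ((A.g x).injective.ne hneS) ((Germ.image _).2 hgS)
  have hS2 : Sg D (A.g (A.act g x) eT) (A.g (A.act g x) qT) := by
    rw [heT] at hgE hneE ⊢
    exact A.sg_of_flag hx' ((A.g _).injective.ne hneE) ((Germ.image _).2 hgE)
  have h1 := hdisp k w2 _ _ _ _ hk hP2 hS1 hS2
  have e1 : w2 (A.g (A.act g x) eT) = A.g x (τ.dev g eT) := by
    have h2 := congrArg (fun φ : Iso => φ eT) hdev2
    exact h2.symm
  have e2 : w e = B.g y (τ.dev g eT) := by
    have h2 := congrArg (fun φ : Iso => φ eT) hdev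
    rw [he]
    exact h2.symm
  rw [e1, (A.g x).dist_eq] at h1
  rw [e2, hs, (B.g y).dist_eq]
  exact h1

end Pool.Agent.MP4eed4e
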