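import Mathlib
import Pool.Agent.Lib.MP_4eed4e_an.Flag
import Pool.Agent.Lib.MP_4eed4e_an.Transfer

/-!
Singular corners are transferred by a transplantation.
-/

namespace Pool.Agent.MP4eed4e

open Set MeasureTheory

variable {τ : Tile} {D D' : Set ℂ}

theorem step_sing (A : Tiling τ D) (B : Tiling τ D') (Ψ : (A.X → ℝ) ≃ₗ[ℝ] (B.X → ℝ))
    (h : ∀ s f, Ψ (f ∘ A.nb s) = (Ψ f) ∘ B.nb s) (hS : ∃ P q, Sg D P q) :
    ∃ P q, Sg D' P q := by
  obtain ⟨P, q, hS⟩ := hS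
  have hVc : (⋃ x : A.X, A.g x '' τ.Spec).Countable :=
    Set.countable_iUnion fun x => τ.spec_countable.image _
  obtain ⟨q', hS', hne, hseg, hdis, -, -, -⟩ := sg_generic hS hVc
    (N := ∅) (by simp) 1 one_pos
  obtain ⟨x, hx⟩ := A.exists_germ (fun x => Set.subset_iUnion (fun x : A.X => A.g x '' τ.Spec) x)
    hne hseg hdis
  obtain ⟨s, -, hflag⟩ := A.flag_of_sg hS' hx
  have h' : ∀ s f, Ψ.symm (f ∘ B.nb s) = (Ψ.symm f) ∘ A.nb s := by
    intro s f
    apply Ψ.injective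
    rw [LinearEquiv.apply_symm_apply, h, LinearEquiv.apply_symm_apply]
  obtain ⟨y, hy, -⟩ := B.transfer A Ψ.symm h' s s [] x hflag hflag
  obtain ⟨-, -, ha, -, hr, -⟩ := τ.frame_spec s
  obtain ⟨U, η, hU, hη, hZ⟩ := B.Z_polar s y
  have hlin : ∀ t : ℝ, B.g y (τ.p s) + t * (B.Z s y (τ.rad s / 2) (τ.ang s / 2) -
      B.g y (τ.p s)) = B.Z s y (t * (τ.rad s / 2)) (τ.ang s / 2) := by
    intro t
    rw [hZ, hZ]
    push_cast
    ring
  have hne' : B.g y (τ.p s) ≠ B.Z s y (τ.rad s / 2) (τ.ang s / 2) := by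
    intro he
    have h1 := hlin 1
    have h2 : B.Z s y (τ.rad s / 2) (τ.ang s / 2) - B.g y (τ.p s) = 0 := by
      rw [← he, sub_self]
    rw [hZ, add_sub_cancel_left] at h2
    have h3 := congrArg norm h2
    have h4 : (η * ((τ.ang s / 2 : ℝ) : ℂ) * Complex.I : ℂ) =
        ((η * (τ.ang s / 2) : ℝ) : ℂ) * Complex.I := by push_cast; ring
    rw [norm_mul, norm_mul, hU, h4, Complex.norm_exp_ofReal_mul_I, Complex.norm_real,
      Real.norm_eq_abs, abs_of_pos (by linarith), norm_zero] at h3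
    linarith
  refine ⟨B.g y (τ.p s), B.Z s y (τ.rad s / 2) (τ.ang s / 2), B.sg_of_flag hy hne' ?_⟩
  rw [germ_polar hne']
  refine ⟨1, one_pos, fun t ht0 ht1 => ?_⟩
  rw [hlin]
  apply B.Z_mem_tile
  · positivity
  · nlinarith
  · linarith
  · linarith

end Pool.Agent.MP4eed4e
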