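import Mathlib
import Pool.Agent.Lib.MP_4eed4e_an.Base
import Pool.Agent.Lib.MP_4eed4e_an.IsoA

/-!
Removing the signs: the signed permutations are, up to the orientation character, minus the
unsigned ones.
-/

namespace Pool.Agent.MP4eed4e

open Set

variable {τ : Tile} {D D' : Set ℂ}

/-- multiplication by the orientation -/
private noncomputable def Twist_T (A : Tiling τ D) : (A.X → ℝ) ≃ₗ[ℝ] (A.X → ℝ) where
  toFun f := fun x => ori (A.g x) * f x
  invFun f := fun x => ori (A.g x) * f x
  map_add' f g := by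
    funext x
    exact mul_add _ _ _
  map_smul' c f := by
    funext x
    exact mul_left_comm _ _ _
  left_inv f := by
    funext x
    change ori (A.g x) * (ori (A.g x) * f x) = f x
    rw [← mul_assoc]
    rcases ori_eq (A.g x) with h | h <;> rw [h] <;> ring
  right_inv f := by
    funext x
    change ori (A.g x) * (ori (A.g x) * f x) = f x
    rw [← mul_assoc]
    rcases ori_eq (A.g x) with h | h <;> rw [h] <;> ring

private theorem Twist_T_apply (A : Tiling τ D) (f : A.X → ℝ) (x : A.X) :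
    Twist_T A f x = ori (A.g x) * f x := rfl

private theorem Twist_T_T (A : Tiling τ D) (f : A.X → ℝ) : Twist_T A (Twist_T A f) = f :=
  (Twist_T A).left_inv f

private theorem Twist_op (A : Tiling τ D) (s : τ.S) (f : A.X → ℝ) :
    Twist_T A (f ∘ A.nb s) = - A.op s (Twist_T A f) := by
  funext x
  rw [Pi.neg_apply, Twist_T_apply]
  unfold Tiling.op
  by_cases hx : A.nb s x = x
  · rw [if_pos hx, Twist_T_apply, Function.comp_apply, hx, neg_neg]
  · rw [if_neg hx, Twist_T_apply, Function.comp_apply,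
      ori_of_refl (τ.p_ne s) (A.g x) (A.g (A.nb s x)) (A.glue s x hx), neg_mul, neg_neg]

theorem twist (A : Tiling τ D) (B : Tiling τ D') (Φ : (A.X → ℝ) ≃ₗ[ℝ] (B.X → ℝ))
    (h : ∀ s f, Φ (A.op s f) = B.op s (Φ f)) :
    ∃ Ψ : (A.X → ℝ) ≃ₗ[ℝ] (B.X → ℝ), ∀ s f, Ψ (f ∘ A.nb s) = (Ψ f) ∘ B.nb s := by
  refine ⟨((Twist_T A).trans Φ).trans (Twist_T B), fun s f => ?_⟩
  apply (Twist_T B).injective
  rw [Twist_op]
  simp only [LinearEquiv.trans_apply]
  rw [Twist_T_T, Twist_T_T, Twist_op, map_neg, h]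

end Pool.Agent.MP4eed4e
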