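import Mathlib
import Pool.Agent.Lib.MP_4eed4e_an.Final
import Pool.Agent.Lib.MP_4eed4e_an.StepDisp
import Pool.Agent.Lib.MP_4eed4e_an.StepSing
import Pool.Agent.Lib.MP_4eed4e_an.Twist
import Pool.Agent.Lib.MP_4eed4e_an.BaseDisp

/-!
Main theorem: finiteness of transplantation classes.
-/

namespace Pool.Agent.MP4eed4e

open Set MeasureTheory

theorem Transplantable.symm {D D' : Set ℂ} (h : Transplantable D D') : Transplantable D' D := by
  obtain ⟨τ, A, B, Φ, h⟩ := h
  refine ⟨τ, B, A, Φ.symm, fun s f => ?_⟩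
  apply Φ.injective
  rw [h, LinearEquiv.apply_symm_apply, LinearEquiv.apply_symm_apply]

theorem sg_of_singularCorner {D : Set ℂ} (h : SingularCorner D) : ∃ P q, Sg D P q := by
  obtain ⟨P, u, α, r, hu, h0, h1, hj, hr, hin, hout⟩ := h
  exact ⟨P, P + ((r / 2 : ℝ) : ℂ) * u * Complex.exp (((α / 2 : ℝ) : ℂ) * Complex.I), u, α, r,
    r / 2, α / 2, ⟨hu, h0, h1, hr, hin, hout⟩, hj, by linarith, by linarith, by linarith, rfl⟩

theorem chain_symm {D D' : Set ℂ} (h : Relation.ReflTransGen Transplantable D D') :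
    Relation.ReflTransGen Transplantable D' D := by
  induction h with
  | refl => exact Relation.ReflTransGen.refl
  | tail _ hstep ih => exact Relation.ReflTransGen.head hstep.symm ih

theorem chain_of_eqvGen {D D' : Set ℂ} (h : Relation.EqvGen Transplantable D D') :
    Relation.ReflTransGen Transplantable D D' := by
  induction h with
  | rel x y hxy => exact Relation.ReflTransGen.single hxy
  | refl x => exact Relation.ReflTransGen.refl
  | symm x y _ ih => exact chain_symm ih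
  | trans x y z _ _ ih1 ih2 => exact ih1.trans ih2

theorem main_theorem (D : Set ℂ) (h : SingularCorner D) :
    ∃ F : Set (Set ℂ), F.Finite ∧ ∀ D' : Set ℂ, Relation.EqvGen Transplantable D D' →
      ∃ K ∈ F, ∃ φ : ℂ ≃ᵢ ℂ, φ '' K = D' := by
  have key : ∀ D' : Set ℂ, Relation.EqvGen Transplantable D D' →
      Relation.ReflTransGen Transplantable D D' := fun D' hD' => chain_of_eqvGen hD'
  by_cases hA : ∃ τ : Tile, Nonempty (Tiling τ D)
  · obtain ⟨τ, ⟨A⟩⟩ := hA
    obtain ⟨F, hF, hdisp⟩ := base_disp A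
    obtain ⟨G, hG, hfin⟩ := final_finite F hF (CR D).ncard
      (Measure.hausdorffMeasure 1 (frontier D)) A.length_lt_top
    refine ⟨G, hG, fun D' hD' => ?_⟩
    have inv : ∀ D'' : Set ℂ, Relation.ReflTransGen Transplantable D D'' →
        (∃ τ : Tile, Nonempty (Tiling τ D'')) ∧ (∃ P q, Sg D'' P q) ∧
        (CR D'').ncard ≤ (CR D).ncard ∧
        Measure.hausdorffMeasure 1 (frontier D'') ≤ Measure.hausdorffMeasure 1 (frontier D) ∧
        DispProp F D'' := by
      intro D'' h''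
      induction h'' with
      | refl => exact ⟨⟨τ, ⟨A⟩⟩, sg_of_singularCorner h, le_refl _, le_refl _, hdisp⟩
      | tail _ hstep ih =>
          obtain ⟨-, h1, h2, h3, h4⟩ := ih
          obtain ⟨τ', A', B', Φ, hΦ⟩ := hstep
          obtain ⟨Ψ, hΨ⟩ := twist A' B' Φ hΦ
          refine ⟨⟨τ', ⟨B'⟩⟩, step_sing A' B' Ψ hΨ h1, ?_, ?_, step_disp A' B' Ψ hΨ h4⟩
          · rw [B'.cr_ncard, ← ccount_eq A' B' Ψ hΨ, ← A'.cr_ncard]
            exact h2
          · rw [← length_invariant A' B' Ψ hΨ]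
            exact h3
    obtain ⟨⟨τ', ⟨B⟩⟩, h1, h2, h3, h4⟩ := inv D' (key D' hD')
    exact hfin D' τ' B h1 h2 h3 h4
  · refine ⟨{D}, Set.finite_singleton D, fun D' hD' => ?_⟩
    have hk := key D' hD'
    have : D' = D := by
      rcases hk.cases_head with h' | ⟨c, ⟨τ', A', B', Φ, hΦ⟩, -⟩
      · exact h'.symm
      · exact absurd ⟨τ', ⟨A'⟩⟩ hA
    exact ⟨D, rfl, IsometryEquiv.refl ℂ, by rw [this]; exact Set.image_id D⟩

end Pool.Agent.MP4eed4e
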